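import Pool.Agent.T9h31.AbAlg

/-!
# The cube classes of the Selmer group are trivial, second part
-/

set_option autoImplicit false
set_option linter.unusedSectionVars false

namespace Pool.Agent.T9h31.Ab

open NumberField IsDedekindDomain WithZero
open Pool.Agent.Y696 (und und_lies mem_under_of_lies)

section
variable {k : Type} [Field k] [CharZero k] [Fact (∀ r : k, r ^ 2 ≠ -1 + 0 * r)]

/-- the conjugation as a homomorphism -/
noncomputable def sg (k : Type) [Field k] [CharZero k] [Fact (∀ r : k, r ^ 2 ≠ -1 + 0 * r)] :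
    Qi k →+* Qi k where
  toFun := star
  map_one' := star_one _
  map_mul' x y := by rw [star_mul, mul_comm]
  map_zero' := star_zero _
  map_add' := star_add

lemma sg_apply (x : Qi k) : sg k x = star x := rfl

lemma star_div' (x y : Qi k) : star (x / y) = star x / star y := map_div₀ (sg k) x y

lemma star_om (θ : k) : star ((-1 + algebraMap k (Qi k) θ) / 2) = (-1 + algebraMap k (Qi k) θ) / 2 := by
  rw [← sg_apply, map_div₀, map_add, map_neg, map_one, map_ofNat, sg_apply, star_alg]

lemma star_eta (θ : k) : star (2 + qI k * algebraMap k (Qi k) θ) =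
    2 - qI k * algebraMap k (Qi k) θ := by
  rw [← sg_apply, map_add, map_mul, map_ofNat, sg_apply, sg_apply, star_alg, star_qI]
  ring

end

section alg
variable {F k : Type} [Field F] [NumberField F] [IsCyclotomicExtension {3} ℚ F] [Field k]
  [NumberField k] [Algebra F k] [Fact (∀ r : k, r ^ 2 ≠ -1 + 0 * r)]

lemma fixed_iff [IsGalois F k] (x : Qi k) (h : ∀ g : Gal(k/F), qmap (g : k →+* k) x = x) :
    ∃ y : Qi F, qmap (algebraMap F k) y = x := by
  have h1 : ∀ z : k, (∀ g : Gal(k/F), g z = z) → ∃ y : F, algebraMap F k y = z := fun z hz =>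
    (IsGalois.mem_range_algebraMap_iff_fixed z).2 hz
  obtain ⟨a, ha⟩ := h1 x.re fun g => congrArg QuadraticAlgebra.re (h g)
  obtain ⟨b, hb⟩ := h1 x.im fun g => congrArg QuadraticAlgebra.im (h g)
  refine ⟨⟨a, b⟩, ?_⟩
  ext
  · exact ha
  · exact hb

/-- the valuations of a class that descends -/
lemma val_down (hun : Un F k) {b₂ r₂ : Qi F} (hr : b₂ * star b₂ = r₂ ^ 3) (hb0 : b₂ ≠ 0)
    (hb : ∀ w : HeightOneSpectrum (𝓞 (Qi k)), (3 : 𝓞 (Qi k)) ∉ w.asIdeal →
      ∃ n : ℤ, w.valuation (Qi k) (qmap (algebraMap F k) b₂) = exp (3 * n))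
    (w₀ : HeightOneSpectrum (𝓞 (Qi F))) : ∃ n : ℤ, w₀.valuation (Qi F) b₂ = exp (3 * n) := by
  obtain ⟨m, hm⟩ : ∃ m : ℤ, w₀.valuation (Qi F) b₂ = exp m :=
    ⟨_, (exp_log ((Valuation.ne_zero_iff _).2 hb0)).symm⟩
  by_cases hns : Ns (und (F := F) w₀)
  · have hr0 : r₂ ≠ 0 := by
      rintro rfl
      rw [zero_pow three_ne_zero] at hr
      rcases mul_eq_zero.1 hr with h | h
      · exact hb0 h
      · exact hb0 (by rw [← star_star b₂, h, star_zero])
    obtain ⟨l, hl⟩ : ∃ l : ℤ, w₀.valuation (Qi F) r₂ = exp l :=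
      ⟨_, (exp_log ((Valuation.ne_zero_iff _).2 hr0)).symm⟩
    have h1 := congrArg (w₀.valuation (Qi F)) hr
    rw [map_mul, w_star hns, map_pow, hm, hl, ← exp_add, ← exp_nsmul, nsmul_eq_mul] at h1
    have h2 := exp_injective h1
    push_cast at h2
    refine ⟨m - l, ?_⟩
    rw [hm]
    congr 1
    linarith
  · let _ : Algebra (Qi F) (Qi k) := (qmap (algebraMap F k)).toAlgebra
    have halg : ∀ x : Qi F, algebraMap (Qi F) (Qi k) x = qmap (algebraMap F k) x := fun _ => rfl
    obtain ⟨w, hlo⟩ := Pool.Agent.Y696.exists_above (K := Qi k) w₀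
    obtain ⟨e', he'⟩ : ∃ e' : ℕ, ∀ x : Qi F, w.valuation (Qi k) (qmap (algebraMap F k) x) =
        w₀.valuation (Qi F) x ^ e' :=
      ⟨_, fun x => (HeightOneSpectrum.valuation_liesOver (Qi k) w₀ w x).symm⟩
    obtain ⟨e₀, he₀, hv₀⟩ := e_dvd (k := F) w₀
    obtain ⟨e, he, hv⟩ := e_dvd (k := k) w
    have hcomp : ∀ x : 𝓞 F, algebraMap (𝓞 (Qi F)) (𝓞 (Qi k)) (algebraMap (𝓞 F) (𝓞 (Qi F)) x) =
        algebraMap (𝓞 k) (𝓞 (Qi k)) (algebraMap (𝓞 F) (𝓞 k) x) := by
      intro x
      apply RingOfIntegers.ext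
      exact qmap_alg (algebraMap F k) (x : F)
    have hlo2 : (und (F := k) w).asIdeal.LiesOver (und (F := F) w₀).asIdeal := by
      constructor
      ext x
      rw [mem_under_of_lies (und_lies (F := F) w₀), Ideal.under_def, Ideal.mem_comap,
        mem_under_of_lies (und_lies (F := k) w), ← hcomp, mem_under_of_lies hlo]
    have hv2 := hun _ _ hlo2 (Or.inr hns)
    obtain ⟨t, ht⟩ := (und (F := F) w₀).valuation_surjective F (exp (-1 : ℤ))
    have h1 : w.valuation (Qi k) (algebraMap k (Qi k) (algebraMap F k t)) = exp (-(e : ℤ)) := by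
      rw [hv, hv2, ht, ← exp_nsmul, nsmul_eq_mul]
      congr 1
      ring
    have h2 : w.valuation (Qi k) (algebraMap k (Qi k) (algebraMap F k t)) =
        exp (-((e₀ * e' : ℕ) : ℤ)) := by
      rw [← qmap_alg, he', hv₀, ht, ← exp_nsmul, ← exp_nsmul, nsmul_eq_mul, nsmul_eq_mul]
      congr 1
      push_cast
      ring
    rw [h1] at h2
    have h3 : e = e₀ * e' := by
      have := exp_injective h2
      have h4 : ((e : ℕ) : ℤ) = ((e₀ * e' : ℕ) : ℤ) := by linarith
      exact_mod_cast h4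
    have he'2 : e' = 1 ∨ e' = 2 := by
      rcases he₀ with h | h <;> rcases he with h' | h' <;> rw [h, h'] at h3 <;> omega
    have h3w : (3 : 𝓞 (Qi k)) ∉ w.asIdeal := by
      intro h
      apply hns
      refine ns_three_F _ ?_
      rw [three_und]
      have := (mem_under_of_lies hlo (3 : 𝓞 (Qi F))).2 (by rw [map_ofNat]; exact h)
      exact this
    obtain ⟨l, hl⟩ := hb w h3w
    rw [he', hm, ← exp_nsmul, nsmul_eq_mul] at hl
    have h5 := exp_injective hl
    rcases he'2 with rfl | rfl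
    · refine ⟨l, ?_⟩
      rw [hm]
      congr 1
      push_cast at h5
      linarith
    · refine ⟨m - l, ?_⟩
      rw [hm]
      congr 1
      push_cast at h5
      linarith

/-- **the Selmer classes are cubes** -/
theorem sc_cube [IsGalois F k] {n : ℕ} (hn : Module.finrank F k = 3 ^ n) (hun : Un F k) {θ₀ : F}
    (hθ₀ : θ₀ ^ 2 = -3) {b : Qi k} (hb : SC (algebraMap F k θ₀) b) : ∃ c, b = c ^ 3 := by
  by_contra hcon
  push Not at hcon
  let _ := actQ (F := F) (k := k)
  have : Fact (Nat.Prime 3) := ⟨Nat.prime_three⟩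
  have hG : IsPGroup 3 Gal(k/F) := IsPGroup.of_card (n := n) (by
    rw [IsGalois.card_aut_eq_finrank, hn])
  have hθk : (algebraMap k (Qi k) (algebraMap F k θ₀)) ^ 2 = -3 := by
    rw [← map_pow, ← map_pow, hθ₀, map_neg, map_ofNat, map_neg, map_ofNat]
  obtain ⟨D, hD0, hDn, hDP, hDs⟩ := fixed_class hG (SC (algebraMap F k θ₀)) SC.one
    (fun x y hx hy => hx.mul hy) (fun g x hx => hx.aut g) hb.ne hcon hb
  obtain ⟨t, ht0, hfix, hfix2⟩ := descend (G := Gal(k/F)) (sg k) (fun x => star_star x)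
    (by
      intro g hg
      ext x
      have h1 : qmap (g : k →+* k) (algebraMap k (Qi k) x) = algebraMap k (Qi k) x :=
        hg (algebraMap k (Qi k) x)
      rw [qmap_alg] at h1
      exact (algebraMap k (Qi k)).injective h1)
    (fun g x => (qmap_star (g : k →+* k) x).symm)
    (by
      intro z hz
      obtain ⟨i, hi⟩ := cube_roots hθk hz
      rw [hi, map_pow, sg_apply, star_om])
    hD0 hDs
  obtain ⟨c, hc⟩ := hDP.minus
  have hsD : star D ≠ 0 := (map_ne_zero (sg k)).2 hD0
  have hst : star t ≠ 0 := (map_ne_zero (sg k)).2 ht0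
  have hc0 : c ≠ 0 := by
    rintro rfl
    rw [zero_pow three_ne_zero] at hc
    exact mul_ne_zero hD0 hsD hc
  have hB : D / sg k D * t ^ 3 = (D * D) * (t / c) ^ 3 := by
    rw [sg_apply, div_pow, ← hc]
    field_simp
  obtain ⟨b₂, hb₂⟩ := fixed_iff (F := F) _ hfix
  obtain ⟨r₂, hr₂⟩ := fixed_iff (F := F) _ hfix2
  rw [hB] at hb₂
  rw [sg_apply] at hr₂
  have hinj : Function.Injective (qmap (algebraMap F k)) := (qmap (algebraMap F k)).injective
  have hrel : b₂ * star b₂ = r₂ ^ 3 := by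
    apply hinj
    rw [map_mul, qmap_star, map_pow, hr₂, hb₂]
    have e1 : star (D * D * (t / c) ^ 3) = star D * star D * (star t / star c) ^ 3 := by
      rw [← sg_apply, map_mul, map_mul, map_pow, map_div₀]
      rfl
    have hsc : star c ≠ 0 := (map_ne_zero (sg k)).2 hc0
    have e2 : star D * D = (star c) ^ 3 := by
      have := congrArg star hc
      rw [star_mul, star_star, star_pow] at this
      rw [← this]
      ring
    rw [e1]
    have e3 : D * D * (t / c) ^ 3 * (star D * star D * (star t / star c) ^ 3) =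
        (D * star D) * (star D * D) * (t * star t) ^ 3 / (c ^ 3 * star c ^ 3) := by
      field_simp
    rw [e3, hc, e2]
    field_simp
  have hSC : SC (algebraMap F k θ₀) (qmap (algebraMap F k) b₂) := by
    rw [hb₂]
    exact (hDP.mul hDP).mul (SC.cube (div_ne_zero ht0 hc0))
  have hb20 : b₂ ≠ 0 := by
    rintro rfl
    exact hSC.ne (map_zero _)
  have hval := val_down hun hrel hb20 hSC.un
  obtain ⟨i, j, d, hd, hbd⟩ := class_M hθ₀ hb20 hval
  have hsd : star d ≠ 0 := by
    intro h
    exact hd (by rw [← star_star d, h, star_zero])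
  have hr0 : r₂ ≠ 0 := by
    rintro rfl
    rw [map_zero] at hr₂
    exact mul_ne_zero ht0 hst hr₂.symm
  -- the exponent of the root of unity
  have hi3 : 3 ∣ i := by
    have h1 : (2 + qI F * algebraMap F (Qi F) θ₀) ^ 0 *
        ((-1 + algebraMap F (Qi F) θ₀) / 2) ^ (2 * i) * ((d * star d) / r₂) ^ 3 = 1 := by
      have h2 : star b₂ = (2 - qI F * algebraMap F (Qi F) θ₀) ^ j *
          ((-1 + algebraMap F (Qi F) θ₀) / 2) ^ i * (star d) ^ 3 := by
        rw [hbd, ← sg_apply, map_mul, map_mul, map_pow, map_pow, map_pow, sg_apply, sg_apply,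
          sg_apply, star_om, star_eta]
      rw [h2, hbd] at hrel
      have h3 := eta_unit_aux hθ₀
      have h4 : ((-1 + algebraMap F (Qi F) θ₀) / 2) ^ (2 * i) * (d * star d) ^ 3 = r₂ ^ 3 := by
        rw [← hrel]
        have h5 : ((2 + qI F * algebraMap F (Qi F) θ₀) ^ j *
            (2 - qI F * algebraMap F (Qi F) θ₀) ^ j) = 1 := by
          rw [← mul_pow, h3, one_pow]
        rw [two_mul, pow_add]
        calc _ = 1 * (((-1 + algebraMap F (Qi F) θ₀) / 2) ^ i *
              ((-1 + algebraMap F (Qi F) θ₀) / 2) ^ i * (d * star d) ^ 3) := by ring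
          _ = _ := by
            rw [← h5]
            ring
      rw [pow_zero, one_mul, div_pow (d * star d) r₂, mul_div_assoc', h4,
        div_self (pow_ne_zero 3 hr0)]
    have := (indep_M hθ₀ h1).1
    omega
  -- the condition at three
  obtain ⟨w, hw⟩ := exists_three (Qi k)
  have h3v : (3 : 𝓞 k) ∈ (und (F := k) w).asIdeal := three_und.2 hw
  have hnsw : Ns (und (F := k) w) := ns3_k (F := F) hn h3v
  have hw3 : w.valuation (Qi k) 3 = exp (-2) := by
    have := w_e hnsw (3 : k)
    rw [map_ofNat, val3_k hun h3v] at this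
    exact this
  have hbk : qmap (algebraMap F k) b₂ = (2 + qI k * algebraMap k (Qi k) (algebraMap F k θ₀)) ^ j *
      ((-1 + algebraMap k (Qi k) (algebraMap F k θ₀)) / 2) ^ i * (qmap (algebraMap F k) d) ^ 3 := by
    rw [hbd]
    simp only [map_mul, map_pow, map_add, map_div₀, map_neg, map_one, map_ofNat, qmap_alg, qmap_qI]
  obtain ⟨c', hc', i', hi'⟩ := hSC.lev w hw
  have hθ' : (algebraMap F k θ₀) ^ 2 = -3 := by
    rw [← map_pow, hθ₀, map_neg, map_ofNat]
  have hj3 : 3 ∣ j := by
    refine (eta_exp hw hnsw hw3 hθ' (c := qmap (algebraMap F k) d * c') (i := i + i') (j := j) ?_).2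
    have e : (2 + qI k * algebraMap k (Qi k) (algebraMap F k θ₀)) ^ j *
        ((-1 + algebraMap k (Qi k) (algebraMap F k θ₀)) / 2) ^ (i + i') *
          (qmap (algebraMap F k) d * c') ^ 3 - 1 = qmap (algebraMap F k) b₂ * c' ^ 3 *
            ((-1 + algebraMap k (Qi k) (algebraMap F k θ₀)) / 2) ^ i' - 1 := by
      rw [hbk, pow_add, mul_pow]
      ring
    rw [e]
    exact hi'
  obtain ⟨i₁, rfl⟩ := hi3
  obtain ⟨j₁, rfl⟩ := hj3
  -- the class is a cube
  have hcube : ∃ e, D * D = e ^ 3 := by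
    refine ⟨(2 + qI k * algebraMap k (Qi k) (algebraMap F k θ₀)) ^ j₁ *
      ((-1 + algebraMap k (Qi k) (algebraMap F k θ₀)) / 2) ^ i₁ * (qmap (algebraMap F k) d) *
        (c / t), ?_⟩
    have h1 : D * D = qmap (algebraMap F k) b₂ * (c / t) ^ 3 := by
      rw [hb₂]
      field_simp
    rw [h1, hbk]
    ring
  obtain ⟨e, he⟩ := hcube
  have he0 : e ≠ 0 := by
    rintro rfl
    rw [zero_pow three_ne_zero] at he
    exact mul_ne_zero hD0 hD0 he
  apply hDn (D / e)
  rw [div_pow, ← he]
  field_simp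

end alg

end Pool.Agent.T9h31.Ab
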