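import Pool.Agent.T9h31.AbStm
import Pool.Agent.T9h31.AbAlg2
import Pool.Agent.Y696.Tam
import Pool.Agent.Y696.Stm

/-!
# The equation `y² = x³ - 16` is minimal and its points have nonsingular reduction
-/

set_option autoImplicit false
set_option linter.unusedSectionVars false
set_option linter.unusedVariables false

open scoped Classical

namespace Pool.Agent.T9h31.Ab

open NumberField IsDedekindDomain WithZero WeierstrassCurve
open Pool.Agent.Y696 (NonsingRed und und_lies mem_under_of_lies)

section loc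
variable {M : Type} [Field M] {v : Valuation M (WithZero (Multiplicative ℤ))}

lemma half {n : ℤ} (h2 : v 2 = exp (-1)) {x : M} (h : OO v (n + 1) (2 * x)) : OO v n x := by
  rcases oo_split (v := v) (m := 2) (n := n) (x := 2) (y := x) (by
    have e : 2 + n - 1 = n + 1 := by ring
    rw [e]
    exact h) with h1 | h1
  · exfalso
    unfold OO at h1
    rw [h2, exp_le_exp] at h1
    norm_num at h1
  · exact h1

lemma sqr {n : ℤ} {x : M} (h : OO v (2 * n - 1) (x ^ 2)) : OO v n x := by
  rcases oo_split (v := v) (m := n) (n := n) (x := x) (y := x) (by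
    have e : n + n - 1 = 2 * n - 1 := by ring
    rw [e, ← pow_two]
    exact h) with h1 | h1
  · exact h1
  · exact h1

/-- `-1` is not a square modulo four -/
lemma no_m1 (h2 : v 2 = exp (-1)) {x : M} (h : OO v 2 (x ^ 2 + 1)) : False := by
  have o2 : OO v 1 (2 : M) := by unfold OO; rw [h2]
  have h1 : v x = 1 := by
    have h3 : v (x ^ 2) = 1 := by
      have h4 := v_of_sub_lt (v := v) (x := -1) (y := x ^ 2) (by rw [Valuation.map_neg, map_one])
        (by rw [sub_neg_eq_add]; exact h.lt (by norm_num))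
      exact h4
    rw [map_pow] at h3
    rcases lt_trichotomy (v x) 1 with h5 | h5 | h5
    · exact absurd h3 (pow_lt_one₀ zero_le h5 two_ne_zero).ne
    · exact h5
    · exact absurd h3 (one_lt_pow₀ h5 two_ne_zero).ne'
  have ox : OO v 0 x := by rw [oo_zero_iff, h1]
  have h3 : OO v 1 (x + 1) := by
    refine sqr (n := 1) ?_
    have e : (x + 1) ^ 2 = (x ^ 2 + 1) + 2 * x := by ring
    rw [e]
    exact (h.mono (by norm_num)).add ((OO.mulr o2 ox).mono (by norm_num))
  have h4 : OO v 2 (2 : M) := by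
    have e : (2 : M) = (x ^ 2 + 1) - (x + 1) * (x + 1) + 2 * (x + 1) := by ring
    have h5 := (h.sub (h3.mul h3)).add (o2.mul h3)
    rw [← e] at h5
    exact h5
  unfold OO at h4
  rw [h2, exp_le_exp] at h4
  norm_num at h4

lemma v4 (h2 : v 2 = exp (-1)) {x : M} {n : ℤ} : OO v (n + 4) (16 * x) → OO v n x := by
  intro h
  have e : (16 : M) * x = 2 * (2 * (2 * (2 * x))) := by ring
  rw [e] at h
  have a1 := half (n := n + 3) h2 (by rwa [show n + 3 + 1 = n + 4 by ring])
  have a2 := half (n := n + 2) h2 (by rwa [show n + 2 + 1 = n + 3 by ring])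
  have a3 := half (n := n + 1) h2 (by rwa [show n + 1 + 1 = n + 2 by ring])
  exact half (n := n) h2 a3

/-- no integral change of variables -/
lemma no_chg (h2 : v 2 = exp (-1)) {r s t : M} (h1 : OO v 1 (2 * s))
    (h3 : OO v 3 (2 * t)) (h4 : OO v 4 (3 * r ^ 2 - 2 * s * t))
    (h6 : OO v 6 (-16 + r ^ 3 - t ^ 2)) : False := by
  have o2 : OO v 1 (2 : M) := by unfold OO; rw [h2]
  have v3 : v (3 : M) = 1 := by
    refine v_of_sub_lt (x := 1) (by rw [map_one]) ?_
    have e : (3 : M) - 1 = 2 := by norm_num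
    rw [e]
    exact o2.lt le_rfl
  have h20 : (2 : M) ≠ 0 := by
    intro h0
    rw [h0, map_zero] at h2
    exact exp_ne_zero h2.symm
  have os : OO v 0 s := half h2 h1
  have ot : OO v 2 t := half h2 h3
  have or3 : OO v 3 (r ^ 2) := by
    have e : r ^ 2 * 3 = (3 * r ^ 2 - 2 * s * t) + 2 * s * t := by ring
    rw [← oo_mul_unit v3, e]
    refine (h4.mono (by norm_num)).add ?_
    have := (OO.mulr o2 os).mul ot
    exact this.mono (by norm_num)
  have or2 : OO v 2 r := sqr (n := 2) (or3.mono (by norm_num))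
  have h7 : OO v 6 (16 * ((t / 4) ^ 2 + 1)) := by
    have h40 : (4 : M) ≠ 0 := by
      have : (4 : M) = 2 * 2 := by norm_num
      rw [this]
      exact mul_ne_zero h20 h20
    have e : 16 * ((t / 4) ^ 2 + 1) = r ^ 3 - (-16 + r ^ 3 - t ^ 2) := by
      field_simp
      ring
    rw [e]
    exact ((or2.pow 3).mono (by norm_num)).sub h6
  exact no_m1 h2 (x := t / 4) (v4 (n := 2) h2 h7)

/-- all points have nonsingular reduction, residue characteristic different from two and three -/
lemma red_good {W : WeierstrassCurve M} (hW : W.a₁ = 0 ∧ W.a₂ = 0 ∧ W.a₃ = 0 ∧ W.a₄ = 0 ∧ W.a₆ = -16)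
    (h2 : v 2 = 1) (h3 : v 3 = 1) (P : W.toAffine.Point) : NonsingRed v W P := by
  obtain ⟨c1, c2, c3, c4, c6⟩ := hW
  rcases P with _ | ⟨x, y, hP⟩
  · trivial
  · show 1 ≤ v (2 * y + W.a₁ * x + W.a₃) ∨ 1 ≤ v (3 * x ^ 2 + 2 * W.a₂ * x + W.a₄ - W.a₁ * y)
    rw [c1, c2, c3, c4]
    have e1 : 2 * y + 0 * x + 0 = 2 * y := by ring
    have e2 : 3 * x ^ 2 + 2 * 0 * x + 0 - 0 * y = 3 * x ^ 2 := by ring
    rw [e1, e2, map_mul, map_mul, h2, h3, one_mul, one_mul, map_pow]
    by_contra hcon
    push Not at hcon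
    obtain ⟨k1, k2⟩ := hcon
    have heq : y ^ 2 = x ^ 3 - 16 := by
      have := (Affine.equation_iff x y).1 hP.1
      rw [c1, c2, c3, c4, c6] at this
      linear_combination this
    have hx : v x < 1 := by
      by_contra hx
      exact absurd k2 (not_lt.2 (one_le_pow₀ (not_lt.1 hx)))
    have h16 : v (16 : M) = 1 := by
      have : (16 : M) = 2 ^ 4 := by norm_num
      rw [this, map_pow, h2, one_pow]
    have h5 : v (16 : M) < 1 := by
      have e : (16 : M) = x ^ 3 - y ^ 2 := by rw [heq]; ring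
      rw [e]
      refine lt_of_le_of_lt (Valuation.map_sub _ _ _) (max_lt ?_ ?_)
      · rw [map_pow]
        exact pow_lt_one₀ zero_le hx three_ne_zero
      · rw [map_pow]
        exact pow_lt_one₀ zero_le k1 two_ne_zero
    rw [h16] at h5
    exact lt_irrefl _ h5

/-- the places above two -/
lemma red_two {W : WeierstrassCurve M} (hW : W.a₁ = 0 ∧ W.a₂ = 0 ∧ W.a₃ = 0 ∧ W.a₄ = 0 ∧ W.a₆ = -16)
    (h2 : v 2 = exp (-1)) (P : W.toAffine.Point) : NonsingRed v W P := by
  obtain ⟨c1, c2, c3, c4, c6⟩ := hW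
  have o2 : OO v 1 (2 : M) := by unfold OO; rw [h2]
  have v3 : v (3 : M) = 1 := by
    refine v_of_sub_lt (x := 1) (by rw [map_one]) ?_
    have e : (3 : M) - 1 = 2 := by norm_num
    rw [e]
    exact o2.lt le_rfl
  have h20 : (2 : M) ≠ 0 := by
    intro h0
    rw [h0, map_zero] at h2
    exact exp_ne_zero h2.symm
  rcases P with _ | ⟨x, y, hP⟩
  · trivial
  · show 1 ≤ v (2 * y + W.a₁ * x + W.a₃) ∨ 1 ≤ v (3 * x ^ 2 + 2 * W.a₂ * x + W.a₄ - W.a₁ * y)
    rw [c1, c2, c3, c4]
    have e2 : 3 * x ^ 2 + 2 * 0 * x + 0 - 0 * y = 3 * x ^ 2 := by ring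
    rw [e2, map_mul v 3, v3, one_mul, map_pow]
    by_contra hcon
    push Not at hcon
    obtain ⟨-, k2⟩ := hcon
    have heq : y ^ 2 = x ^ 3 - 16 := by
      have := (Affine.equation_iff x y).1 hP.1
      rw [c1, c2, c3, c4, c6] at this
      linear_combination this
    have hx : v x < 1 := by
      by_contra hx
      exact absurd k2 (not_lt.2 (one_le_pow₀ (not_lt.1 hx)))
    have ox := oo_lt hx
    have o16 : OO v 4 (16 : M) := by
      have e : (16 : M) = 2 ^ 4 := by norm_num
      rw [e]
      exact (o2.pow 4).mono (by norm_num)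
    have oy : OO v 2 y := by
      refine sqr (n := 2) ?_
      rw [heq]
      exact ((ox.pow 3).mono (by norm_num)).sub (o16.mono (by norm_num))
    have ox2 : OO v 2 x := by
      have h5 : OO v 4 (x * (x * x)) := by
        have e : x * (x * x) = y ^ 2 + 16 := by rw [heq]; ring
        rw [e]
        exact ((oy.pow 2).mono (by norm_num)).add o16
      rcases oo_split (v := v) (m := 2) (n := 3) (by
        rw [show (2 : ℤ) + 3 - 1 = 4 by norm_num]; exact h5) with h6 | h6
      · exact h6
      · exact sqr (n := 2) (by rw [pow_two]; exact h6)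
    have h7 : OO v 6 (16 * ((y / 4) ^ 2 + 1)) := by
      have h40 : (4 : M) ≠ 0 := by
        have : (4 : M) = 2 * 2 := by norm_num
        rw [this]
        exact mul_ne_zero h20 h20
      have e : 16 * ((y / 4) ^ 2 + 1) = x ^ 3 := by
        field_simp
        linear_combination (16 : M) * heq
      rw [e]
      exact (ox2.pow 3).mono (by norm_num)
    exact no_m1 h2 (x := y / 4) (v4 (n := 2) h2 h7)

/-- the places above three -/
lemma red_three {W : WeierstrassCurve M} (hW : W.a₁ = 0 ∧ W.a₂ = 0 ∧ W.a₃ = 0 ∧ W.a₄ = 0 ∧ W.a₆ = -16)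
    (h3 : v 3 = exp (-2)) {θ : M} (hθ : θ ^ 2 = -3) (hns : ∀ t : M, v t ≤ 1 → v (t ^ 2 + 1) = 1)
    (P : W.toAffine.Point) : NonsingRed v W P := by
  obtain ⟨c1, c2, c3, c4, c6⟩ := hW
  have vθ : v θ = exp (-1) := by
    apply pow2_exp
    rw [← map_pow, hθ, Valuation.map_neg, h3]
    norm_num
  have o3 : OO v 2 (3 : M) := by unfold OO; rw [h3]
  have hM2 : v (2 : M) = 1 := by
    have e : (2 : M) = -(1 - 3) := by norm_num
    rw [e, Valuation.map_neg]
    exact Valuation.map_one_sub_of_lt v (o3.lt (by norm_num))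
  have hθ0 : θ ≠ 0 := by
    intro h0
    rw [h0, map_zero] at vθ
    exact exp_ne_zero vθ.symm
  rcases P with _ | ⟨x, y, hP⟩
  · trivial
  · show 1 ≤ v (2 * y + W.a₁ * x + W.a₃) ∨ 1 ≤ v (3 * x ^ 2 + 2 * W.a₂ * x + W.a₄ - W.a₁ * y)
    rw [c1, c2, c3, c4]
    have e1 : 2 * y + 0 * x + 0 = 2 * y := by ring
    rw [e1, map_mul, hM2, one_mul]
    by_contra hcon
    push Not at hcon
    obtain ⟨k1, -⟩ := hcon
    have heq : y ^ 2 = x ^ 3 - 16 := by
      have := (Affine.equation_iff x y).1 hP.1
      rw [c1, c2, c3, c4, c6] at this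
      linear_combination this
    have oy := oo_lt k1
    have hx1 : v (x ^ 3) = 1 := by
      refine v_of_sub_lt (x := 1) (by rw [map_one]) ?_
      have e : x ^ 3 - 1 = y ^ 2 + 3 * 5 := by rw [heq]; ring
      rw [e]
      exact OO.lt (n := 2) (((oy.pow 2).mono (by norm_num)).add (OO.mulr o3 (oo_ofNat 5)))
        (by norm_num)
    have hxv : v x = 1 := by
      rw [map_pow] at hx1
      rcases lt_trichotomy (v x) 1 with h5 | h5 | h5
      · exact absurd hx1 (pow_lt_one₀ zero_le h5 three_ne_zero).ne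
      · exact h5
      · exact absurd hx1 (one_lt_pow₀ h5 three_ne_zero).ne'
    have ox : OO v 0 x := by rw [oo_zero_iff, hxv]
    have ox1 : OO v 1 (x - 1) := by
      apply oo_lt
      apply v_pow_lt
      rw [← map_pow]
      have e : (x - 1) ^ 3 = y ^ 2 + 3 * (5 - x ^ 2 + x) := by rw [heq]; ring
      rw [e]
      refine OO.lt (n := 2) (((oy.pow 2).mono (by norm_num)).add (OO.mulr o3 ?_)) (by norm_num)
      exact (((oo_ofNat 5).sub ((ox.pow 2).mono (by norm_num))).add ox)
    -- `(y / θ)² + 1` is not a unit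
    have h7 : OO v 3 (y ^ 2 + θ ^ 2) := by
      have e : y ^ 2 + θ ^ 2 = (x - 1) ^ 3 + 3 * ((x - 1) * x) - 3 * (3 * 2) := by
        rw [heq, hθ]
        ring
      rw [e]
      refine OO.sub (OO.add ((ox1.pow 3).mono (by norm_num)) ?_) ?_
      · exact o3.mul (OO.mulr ox1 ox)
      · exact (o3.mul (OO.mulr o3 (oo_ofNat 2))).mono (by norm_num)
    have h8 : v (y / θ) ≤ 1 := by
      rw [map_div₀, vθ]
      exact div_le_one_of_le₀ oy zero_le
    have h9 := hns _ h8
    have h10 : v (y ^ 2 + θ ^ 2) = exp (-2) := by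
      have e : y ^ 2 + θ ^ 2 = ((y / θ) ^ 2 + 1) * θ ^ 2 := by
        field_simp
      rw [e, map_mul, h9, one_mul, map_pow, vθ, ← exp_nsmul]
      norm_num
    unfold OO at h7
    rw [h10, exp_le_exp] at h7
    norm_num at h7

end loc

section min
variable {K : Type} [Field K] [NumberField K]

lemma Em_map {R S : Type} [CommRing R] [CommRing S] (f : R →+* S) : (Em R).map f = Em S := by
  unfold Em WeierstrassCurve.map
  simp only [map_zero, map_neg, map_ofNat]

lemma Em_Δ (R : Type) [CommRing R] : (Em R).Δ = -110592 := by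
  simp only [Em, WeierstrassCurve.Δ, WeierstrassCurve.b₂, WeierstrassCurve.b₄,
    WeierstrassCurve.b₆, WeierstrassCurve.b₈]
  ring

lemma bcm (L : Type) [Field L] [Algebra K L] :
    ((Em K).baseChange L).a₁ = 0 ∧ ((Em K).baseChange L).a₂ = 0 ∧
      ((Em K).baseChange L).a₃ = 0 ∧ ((Em K).baseChange L).a₄ = 0 ∧
      ((Em K).baseChange L).a₆ = -16 :=
  ⟨map_zero (algebraMap K L), map_zero (algebraMap K L), map_zero (algebraMap K L),
      map_zero (algebraMap K L), by
        show algebraMap K L (-16) = -16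
        rw [map_neg, map_ofNat]⟩

open IsDiscreteValuationRing IsLocalRing IsDedekindDomain.HeightOneSpectrum

/-- minimality at one place -/
theorem min_v (v : HeightOneSpectrum (𝓞 K)) (h2 : vf v 2 = 1 ∨ vf v 2 = exp (-1))
    (h3 : vf v 3 = 1 ∨ vf v 3 = exp (-2)) :
    WeierstrassCurve.IsMinimal (v.adicCompletionIntegers K) (Em (v.adicCompletion K)) := by
  refine ⟨⟨by
    change WeierstrassCurve.IsIntegral (v.adicCompletionIntegers K)
      ((1 : WeierstrassCurve.VariableChange (v.adicCompletion K)) • Em (v.adicCompletion K))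
    rw [one_smul]
    exact ⟨⟨Em (v.adicCompletionIntegers K), (Em_map _).symm⟩⟩, ?_⟩⟩
  intro C hC _
  have hC' : WeierstrassCurve.IsIntegral (v.adicCompletionIntegers K) (C • Em (v.adicCompletion K)) := hC
  have hI : WeierstrassCurve.IsIntegral (v.adicCompletionIntegers K) (Em (v.adicCompletion K)) :=
    ⟨⟨Em (v.adicCompletionIntegers K), (Em_map _).symm⟩⟩
  change WeierstrassCurve.valuation_Δ_aux (v.adicCompletionIntegers K) (C • Em (v.adicCompletion K)) ≤
    WeierstrassCurve.valuation_Δ_aux (v.adicCompletionIntegers K)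
      ((1 : WeierstrassCurve.VariableChange (v.adicCompletion K)) • Em (v.adicCompletion K))
  rw [one_smul, ← Subtype.coe_le_coe, valuation_Δ_aux_eq_of_isIntegral,
    valuation_Δ_aux_eq_of_isIntegral, variableChange_Δ, Em_Δ, map_mul]
  have hu0 : ((C.u : (v.adicCompletion K)ˣ) : v.adicCompletion K) ≠ 0 := C.u.ne_zero
  have huv : ((C.u⁻¹ : (v.adicCompletion K)ˣ) : v.adicCompletion K) *
    ((C.u : (v.adicCompletion K)ˣ) : v.adicCompletion K) = 1 := by simp
  have hle : valuation (v.adicCompletion K) (maximalIdeal (v.adicCompletionIntegers K))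
      ((C.u⁻¹ : (v.adicCompletion K)ˣ) : v.adicCompletion K) ≤ 1 := by
    by_contra hlt
    rw [not_le] at hlt
    have h1 : valuation (v.adicCompletion K) (maximalIdeal (v.adicCompletionIntegers K))
        ((C.u : (v.adicCompletion K)ˣ) : v.adicCompletion K) < 1 := by
      have h2 := congrArg (valuation (v.adicCompletion K)
        (maximalIdeal (v.adicCompletionIntegers K))) huv
      rw [map_mul, map_one] at h2
      by_contra h3
      rw [not_lt] at h3
      exact absurd h2 (one_lt_mul_of_lt_of_le hlt h3).ne'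
    obtain ⟨u₀, hu₀⟩ := exists_lift_of_le_one (A := v.adicCompletionIntegers K)
      (K := v.adicCompletion K) h1.le
    have hmem : u₀ ∈ IsLocalRing.maximalIdeal (v.adicCompletionIntegers K) := by
      rw [← hu₀] at h1
      exact (valuation_lt_one_iff_mem (K := v.adicCompletion K)
        (maximalIdeal (v.adicCompletionIntegers K)) u₀).1 h1
    have hvu : OO (vf v) 1 ((C.u : (v.adicCompletion K)ˣ) : v.adicCompletion K) := by
      apply oo_lt
      rw [← hu₀]
      exact (Pool.Agent.W189.NF.mem_max_iff v u₀).1 hmem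
    obtain ⟨u, hu⟩ : ∃ u, u = ((C.u : (v.adicCompletion K)ˣ) : v.adicCompletion K) := ⟨_, rfl⟩
    rw [← hu] at hvu
    have hu00 : u ≠ 0 := by rw [hu]; exact hu0
    have hui : ((C.u⁻¹ : (v.adicCompletion K)ˣ) : v.adicCompletion K) = u⁻¹ := by
      rw [hu]
      simp
    -- the integral coefficients
    have hint : ∀ z : v.adicCompletionIntegers K, OO (vf v) 0
        (algebraMap (v.adicCompletionIntegers K) (v.adicCompletion K) z) := fun z => by
      rw [oo_zero_iff]
      exact z.2
    obtain ⟨r₀, hr₀⟩ := WeierstrassCurve.Δ_integral_of_isIntegral (v.adicCompletionIntegers K)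
      (C • Em (v.adicCompletion K))
    have hΔ := hint r₀
    rw [hr₀, variableChange_Δ, Em_Δ, hui] at hΔ
    have ha1 := hint (integralModel (v.adicCompletionIntegers K) (C • Em (v.adicCompletion K))).a₁
    have ha3 := hint (integralModel (v.adicCompletionIntegers K) (C • Em (v.adicCompletion K))).a₃
    have ha4 := hint (integralModel (v.adicCompletionIntegers K) (C • Em (v.adicCompletion K))).a₄
    have ha6 := hint (integralModel (v.adicCompletionIntegers K) (C • Em (v.adicCompletion K))).a₆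
    rw [integralModel_a₁_eq, variableChange_a₁, hui] at ha1
    rw [integralModel_a₃_eq, variableChange_a₃, hui] at ha3
    rw [integralModel_a₄_eq, variableChange_a₄, hui] at ha4
    rw [integralModel_a₆_eq, variableChange_a₆, hui] at ha6
    -- the power of `u`
    have h110 : OO (vf v) 12 (110592 : v.adicCompletion K) := by
      have e : (110592 : v.adicCompletion K) = -(u ^ 12 * (u⁻¹ ^ 12 * -110592)) := by
        field_simp
      rw [e]
      exact (OO.mulr ((hvu.pow 12).mono (by norm_num)) hΔ).neg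
    have e110 : (110592 : v.adicCompletion K) = 2 ^ 12 * 3 ^ 3 := by norm_num
    rw [e110] at h110
    have hv2 : vf v 2 = exp (-1) := by
      rcases h2 with h2 | h2
      · exfalso
        unfold OO at h110
        rw [map_mul, map_pow, h2, one_pow, one_mul, map_pow] at h110
        rcases h3 with h3 | h3
        · rw [h3, one_pow, ← exp_zero, exp_le_exp] at h110
          norm_num at h110
        · rw [h3, ← exp_nsmul, exp_le_exp] at h110
          norm_num at h110
      · exact h2
    have hv3 : vf v 3 = 1 := by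
      refine v_of_sub_lt (x := 1) (by rw [map_one]) ?_
      have e : (3 : v.adicCompletion K) - 1 = 2 := by norm_num
      rw [e, hv2, ← exp_zero, exp_lt_exp]
      norm_num
    have hA1 : (Em (v.adicCompletion K)).a₁ = 0 := rfl
    have hA2 : (Em (v.adicCompletion K)).a₂ = 0 := rfl
    have hA3 : (Em (v.adicCompletion K)).a₃ = 0 := rfl
    have hA4 : (Em (v.adicCompletion K)).a₄ = 0 := rfl
    have hA6 : (Em (v.adicCompletion K)).a₆ = -16 := rfl
    rw [hA1] at ha1
    rw [hA1, hA3] at ha3
    rw [hA1, hA2, hA3, hA4] at ha4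
    rw [hA1, hA2, hA3, hA4, hA6] at ha6
    have hmulu : ∀ (n : ℕ) (x : v.adicCompletion K), OO (vf v) 0 (u⁻¹ ^ n * x) → OO (vf v) n x := by
      intro n x hx
      have e : x = u ^ n * (u⁻¹ ^ n * x) := by
        rw [← mul_assoc, ← mul_pow, mul_inv_cancel₀ hu00, one_pow, one_mul]
      rw [e]
      have := OO.mulr (hvu.pow n) hx
      exact this.mono (by norm_num)
    refine no_chg (v := vf v) hv2 (r := C.r) (s := C.s) (t := C.t) ?_ ?_ ?_ ?_
    · have := hmulu 1 _ (by rw [pow_one]; exact ha1)
      have e : 2 * C.s = 0 + 2 * C.s := by ring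
      rw [e]
      exact this
    · have := hmulu 3 _ ha3
      have e : 2 * C.t = 0 + C.r * 0 + 2 * C.t := by ring
      rw [e]
      exact this
    · have := hmulu 4 _ ha4
      have e : 3 * C.r ^ 2 - 2 * C.s * C.t = 0 - C.s * 0 + 2 * C.r * 0 - (C.t + C.r * C.s) * 0 +
        3 * C.r ^ 2 - 2 * C.s * C.t := by ring
      rw [e]
      exact this
    · have := hmulu 6 _ ha6
      have e : -16 + C.r ^ 3 - C.t ^ 2 = -16 + C.r * 0 + C.r ^ 2 * 0 + C.r ^ 3 - C.t * 0 - C.t ^ 2 -
        C.r * C.t * 0 := by ring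
      rw [e]
      exact this
  calc valuation (v.adicCompletion K) (maximalIdeal (v.adicCompletionIntegers K))
        (((C.u⁻¹ : (v.adicCompletion K)ˣ) : v.adicCompletion K) ^ 12) *
        valuation (v.adicCompletion K) (maximalIdeal (v.adicCompletionIntegers K)) (-110592)
      ≤ 1 * valuation (v.adicCompletion K) (maximalIdeal (v.adicCompletionIntegers K)) (-110592) := by
        rw [map_pow]
        gcongr
        exact pow_le_one₀ zero_le hle
    _ = _ := one_mul _

end min

section fin
variable {F k : Type} [Field F] [NumberField F] [IsCyclotomicExtension {3} ℚ F] [Field k]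
  [NumberField k] [Algebra F k]

lemma vf_num (v : HeightOneSpectrum (𝓞 k)) (n : ℕ) [n.AtLeastTwo] :
    vf v (OfNat.ofNat n : v.adicCompletion k) = v.valuation k (OfNat.ofNat n) := by
  have h := vf_emb v (OfNat.ofNat n : k)
  rwa [map_ofNat (algebraMap k (v.adicCompletion k))] at h

lemma val_one_of {v : HeightOneSpectrum (𝓞 k)} {n : ℕ} [n.AtLeastTwo]
    (h : (OfNat.ofNat n : 𝓞 k) ∉ v.asIdeal) : v.valuation k (OfNat.ofNat n) = 1 := by
  have h1 : v.valuation k ((OfNat.ofNat n : 𝓞 k) : k) = 1 := by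
    refine le_antisymm (val_le v _) ?_
    by_contra h2
    rw [not_le] at h2
    exact h ((v.valuation_lt_one_iff_mem (K := k) _).1 h2)
  exact h1

lemma val2_cases (hun : Un F k) (v : HeightOneSpectrum (𝓞 k)) :
    v.valuation k 2 = 1 ∨ v.valuation k 2 = exp (-1) := by
  by_cases h : (2 : 𝓞 k) ∈ v.asIdeal
  · right
    have hlo := und_lies (F := F) v
    have h2 : (2 : 𝓞 F) ∈ (und (F := F) v).asIdeal := by
      rw [mem_under_of_lies hlo, map_ofNat]
      exact h
    have h3 := hun _ v hlo (Or.inr (fun hns => ns_two hns h2)) 2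
    rw [map_ofNat] at h3
    rw [h3]
    exact Pool.Agent.Y696.val_prime_F Nat.prime_two (by norm_num) _ (by exact_mod_cast h2)
  · left
    exact val_one_of h

lemma val3_cases (hun : Un F k) (v : HeightOneSpectrum (𝓞 k)) :
    v.valuation k 3 = 1 ∨ v.valuation k 3 = exp (-2) := by
  by_cases h : (3 : 𝓞 k) ∈ v.asIdeal
  · exact Or.inr (val3_k hun h)
  · exact Or.inl (val_one_of h)

/-- **the equation is minimal at every place** -/
theorem min_all (hun : Un F k) (v : HeightOneSpectrum (𝓞 k)) :
    WeierstrassCurve.IsMinimal (v.adicCompletionIntegers k)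
      ((Em k).baseChange (v.adicCompletion k)) := by
  have hbc : (Em k).baseChange (v.adicCompletion k) = Em (v.adicCompletion k) := Em_map _
  rw [hbc]
  refine min_v v ?_ ?_
  · rw [vf_num]
    exact val2_cases hun v
  · rw [vf_num]
    exact val3_cases hun v

lemma ns_vf {v : HeightOneSpectrum (𝓞 k)} (h : Ns v) (t : v.adicCompletion k) (ht : vf v t ≤ 1) :
    vf v (t ^ 2 + 1) = 1 := by
  obtain ⟨r, hr⟩ := Pool.Agent.H723R3.exists_approx_int (R := 𝓞 k) (K := k) v (ξ := t) ht 1
  rw [Units.val_one] at hr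
  replace hr : vf v (algebraMap k (v.adicCompletion k) (r : k) - t) < 1 := hr
  have h1 := ns_val h (t := (r : k)) (val_le v r)
  rw [← vf_emb, map_add, map_pow, map_one] at h1
  obtain ⟨s, hs⟩ : ∃ s, s = algebraMap k (v.adicCompletion k) (r : k) := ⟨_, rfl⟩
  rw [← hs] at h1 hr
  have hs1 : vf v s ≤ 1 := by
    rw [hs, vf_emb]
    exact val_le v r
  refine v_of_sub_lt h1 ?_
  have e : t ^ 2 + 1 - (s ^ 2 + 1) = -((s - t) * (s + t)) := by ring
  rw [e, Valuation.map_neg, map_mul]
  exact mul_lt_one_of_lt_of_le hr ((vf v).map_add_le hs1 ht)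

/-- **all points have nonsingular reduction** -/
theorem red_all [IsGalois F k] {n : ℕ} (hn : Module.finrank F k = 3 ^ n) (hun : Un F k)
    (v : HeightOneSpectrum (𝓞 k)) (P : ((Em k).baseChange (v.adicCompletion k)).toAffine.Point) :
    NonsingRed Valued.v ((Em k).baseChange (v.adicCompletion k)) P := by
  by_cases h3 : (3 : 𝓞 k) ∈ v.asIdeal
  · obtain ⟨θ₀, hθ₀⟩ := exists_theta (F := F)
    refine red_three (v := vf v) (bcm _) (by rw [vf_num]; exact val3_k hun h3)
      (θ := algebraMap k _ (algebraMap F k θ₀)) ?_ (ns_vf (ns3_k (F := F) hn h3)) P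
    rw [← map_pow, ← map_pow, hθ₀, map_neg, map_ofNat, map_neg, map_ofNat]
  · have hv3 : vf v (3 : v.adicCompletion k) = 1 := by
      rw [vf_num]
      exact val_one_of h3
    rcases val2_cases hun v with h2 | h2
    · exact red_good (v := vf v) (bcm _) (by rw [vf_num]; exact h2) hv3 P
    · exact red_two (v := vf v) (bcm _) (by rw [vf_num]; exact h2) P

end fin

end Pool.Agent.T9h31.Ab
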