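import Mathlib
import Pool.Agent.T9h31.AbTam
import Pool.Agent.Y696.Main2
import Pool.Agent.Y698.Lf

/-!
# The local factors of `y² = x³ - 16`
-/

set_option autoImplicit false
set_option linter.unusedSectionVars false
set_option linter.unusedVariables false

open scoped Classical

namespace Pool.Agent.T9h31.Ab

open NumberField IsDedekindDomain WithZero WeierstrassCurve
open Pool.Agent.Y696 (E0 nK)
open Pool.Agent.Y698 (AP)
open Pool.Agent.W189.NF (aV eV aLoc eLoc)

section fin

variable {k : Type} [Field k] [Fintype k]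

lemma card_fib (hk : ringChar k ≠ 2) (f : k → k) :
    ((Nat.card {p : k × k // p.2 ^ 2 = f p.1} : ℕ) : ℤ) =
      Fintype.card k + ∑ x, quadraticChar k (f x) := by
  have e : {p : k × k // p.2 ^ 2 = f p.1} ≃ (Σ x : k, {y : k // y ^ 2 = f x}) :=
    { toFun := fun p => ⟨p.1.1, p.1.2, p.2⟩
      invFun := fun p => ⟨(p.1, p.2.1), p.2.2⟩
      left_inv := fun p => rfl
      right_inv := fun p => rfl }
  rw [Nat.card_congr e, Nat.card_eq_fintype_card, Fintype.card_sigma]
  push_cast
  have h : ∀ x : k, ((Fintype.card {y : k // y ^ 2 = f x} : ℕ) : ℤ) = quadraticChar k (f x) + 1 := by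
    intro x
    rw [← quadraticChar_card_sqrts hk (f x), Set.toFinset_card]
    congr 1
  rw [Finset.sum_congr rfl fun x _ => h x, Finset.sum_add_distrib]
  simp only [Finset.sum_const, Finset.card_univ, nsmul_eq_mul, mul_one]
  ring

/-- the twist by `-1` -/
theorem twist_count (hk : ringChar k ≠ 2) :
    (Fintype.card k : ℤ) - Nat.card {p : k × k // p.2 ^ 2 = p.1 ^ 3 - 16} =
      ZMod.χ₄ (Fintype.card k) *
        (Fintype.card k - Nat.card {p : k × k // p.2 ^ 2 + p.2 = p.1 ^ 3}) := by
  have h2 : (2 : k) ≠ 0 := Ring.two_ne_zero hk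
  have e : {p : k × k // p.2 ^ 2 + p.2 = p.1 ^ 3} ≃ {p : k × k // p.2 ^ 2 = p.1 ^ 3 + 16} :=
    { toFun := fun p => ⟨(4 * p.1.1, 8 * p.1.2 + 4), by
        have := p.2
        simp only
        linear_combination 64 * this⟩
      invFun := fun p => ⟨(p.1.1 / 4, (p.1.2 - 4) / 8), by
        have := p.2
        have h4 : (4 : k) ≠ 0 := by
          have : (4 : k) = 2 * 2 := by norm_num
          rw [this]
          exact mul_ne_zero h2 h2
        have h8 : (8 : k) ≠ 0 := by
          have : (8 : k) = 4 * 2 := by norm_num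
          rw [this]
          exact mul_ne_zero h4 h2
        simp only
        field_simp
        linear_combination 64 * this⟩
      left_inv := by
        have h4 : (4 : k) ≠ 0 := by
          have : (4 : k) = 2 * 2 := by norm_num
          rw [this]
          exact mul_ne_zero h2 h2
        have h8 : (8 : k) ≠ 0 := by
          have : (8 : k) = 4 * 2 := by norm_num
          rw [this]
          exact mul_ne_zero h4 h2
        rintro ⟨⟨x, y⟩, h⟩
        simp only [Subtype.mk.injEq, Prod.mk.injEq]
        constructor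
        · field_simp
        · field_simp
          ring
      right_inv := by
        have h4 : (4 : k) ≠ 0 := by
          have : (4 : k) = 2 * 2 := by norm_num
          rw [this]
          exact mul_ne_zero h2 h2
        have h8 : (8 : k) ≠ 0 := by
          have : (8 : k) = 4 * 2 := by norm_num
          rw [this]
          exact mul_ne_zero h4 h2
        rintro ⟨⟨x, y⟩, h⟩
        simp only [Subtype.mk.injEq, Prod.mk.injEq]
        constructor
        · field_simp
        · field_simp
          ring }
  rw [Nat.card_congr e, card_fib hk (fun x => x ^ 3 - 16), card_fib hk (fun x => x ^ 3 + 16),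
    ← quadraticChar_neg_one hk]
  have h1 : ∑ x : k, quadraticChar k (x ^ 3 - 16) =
      quadraticChar k (-1) * ∑ x : k, quadraticChar k (x ^ 3 + 16) := by
    rw [← Equiv.sum_comp (Equiv.neg k) (fun x => quadraticChar k (x ^ 3 - 16)), Finset.mul_sum]
    refine Finset.sum_congr rfl fun x _ => ?_
    rw [← map_mul]
    congr 1
    simp only [Equiv.neg_apply]
    ring
  rw [h1]
  ring

end fin

section loc
variable {K : Type} [Field K] [NumberField K]

/-- the coefficients at the primes that do not divide six -/
theorem aV_Em (v : HeightOneSpectrum (𝓞 K)) (h2 : (2 : 𝓞 K) ∉ v.asIdeal)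
    (h3 : (3 : 𝓞 K) ∉ v.asIdeal) :
    aV (Em K) v = ZMod.χ₄ (nK v) * aV (E0 K) v ∧ eV (Em K) v = nK v ∧ eV (E0 K) v = nK v := by
  have hfin := Pool.Agent.W189.NF.finite_res v
  let R := Pool.Agent.W189.NF.Ov v
  let _ : Fintype (IsLocalRing.ResidueField R) := Fintype.ofFinite _
  have hcard : Nat.card (IsLocalRing.ResidueField R) = nK v := Pool.Agent.W189.NF.card_res v
  have hun : ∀ n : ℕ, (n : 𝓞 K) ∉ v.asIdeal → IsUnit (n : R) := by
    intro n hn
    rw [← IsLocalRing.residue_ne_zero_iff_isUnit]
    intro h
    apply hn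
    have h1 : Pool.Agent.W189.NF.redMap v (n : 𝓞 K) = 0 := by
      rw [map_natCast]
      rw [map_natCast] at h
      exact h
    rwa [Pool.Agent.W189.NF.redMap_eq_zero] at h1
  have u2 : IsUnit (2 : R) := by exact_mod_cast hun 2 (by exact_mod_cast h2)
  have u3 : IsUnit (3 : R) := by exact_mod_cast hun 3 (by exact_mod_cast h3)
  have hΔ : IsUnit (Em R).Δ := by
    rw [Em_Δ]
    have : (-110592 : R) = -(2 ^ 12 * 3 ^ 3) := by norm_num
    rw [this]
    exact ((u2.pow 12).mul (u3.pow 3)).neg
  have hbc : (Em K).baseChange (v.adicCompletion K) = Em (v.adicCompletion K) := Em_map _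
  have hbc0 : (E0 K).baseChange (v.adicCompletion K) = E0 (v.adicCompletion K) :=
    Pool.Agent.Y696.E0_map _
  obtain ⟨a1, a2⟩ := Pool.Agent.Y698.min_count R hΔ (W := Em (v.adicCompletion K))
    (Em_map (algebraMap R (v.adicCompletion K))).symm
  obtain ⟨b1, b2⟩ := Pool.Agent.Y696.aLoc_good (L := v.adicCompletion K) R u3
  have hk : ringChar (IsLocalRing.ResidueField R) ≠ 2 := by
    intro h
    have h5 : ((2 : ℕ) : IsLocalRing.ResidueField R) = 0 := by
      rw [← h]
      exact ringChar.Nat.cast_ringChar
    have h6 := u2.map (IsLocalRing.residue R)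
    rw [map_ofNat] at h6
    apply h6.ne_zero
    exact_mod_cast h5
  have hap : Nat.card (AP ((Em R).map (IsLocalRing.residue R))) =
      Nat.card {p : IsLocalRing.ResidueField R × IsLocalRing.ResidueField R //
        p.2 ^ 2 = p.1 ^ 3 - 16} := by
    rw [Em_map]
    refine Nat.card_congr (Equiv.subtypeEquivRight fun p => ?_)
    rw [WeierstrassCurve.Affine.equation_iff]
    have c1 : (Em (IsLocalRing.ResidueField R)).toAffine.a₁ = 0 := rfl
    have c2 : (Em (IsLocalRing.ResidueField R)).toAffine.a₂ = 0 := rfl
    have c3 : (Em (IsLocalRing.ResidueField R)).toAffine.a₃ = 0 := rfl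
    have c4 : (Em (IsLocalRing.ResidueField R)).toAffine.a₄ = 0 := rfl
    have c6 : (Em (IsLocalRing.ResidueField R)).toAffine.a₆ = -16 := rfl
    rw [c1, c2, c3, c4, c6]
    constructor
    · intro h
      linear_combination h
    · intro h
      linear_combination h
  have hq : Fintype.card (IsLocalRing.ResidueField R) = nK v := by
    rw [← Nat.card_eq_fintype_card]
    exact hcard
  have ht := twist_count (k := IsLocalRing.ResidueField R) hk
  refine ⟨?_, ?_, ?_⟩
  · unfold aV
    rw [hbc, hbc0, a1, b1, hap, Nat.card_eq_fintype_card (α := IsLocalRing.ResidueField R), ht, hq]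
  · unfold eV
    rw [hbc, a2, hcard]
  · unfold eV
    rw [hbc0, b2, hcard]

open IsDiscreteValuationRing

/-- a minimal equation with `c₄ = 0` and a discriminant that is not a unit -/
theorem loc_zero {R : Type} [CommRing R] [IsDomain R] [IsDiscreteValuationRing R] {L : Type}
    [Field L] [Algebra R L] [IsFractionRing R L] {W : WeierstrassCurve L}
    (hW : WeierstrassCurve.IsMinimal R W) (h4 : W.c₄ = 0)
    (hΔ : (maximalIdeal R).valuation L W.Δ < 1) : aLoc R W = 0 ∧ eLoc R W = 0 := by
  obtain ⟨C, hC⟩ : ∃ C : VariableChange L, W.minimal R = C • W := ⟨_, rfl⟩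
  have hWint : IsIntegral R W := inferInstance
  obtain ⟨h1, h2⟩ := hW.val_Δ_maximal
  have h3 := h2 (j := C) (by
    show IsIntegral R (C • W)
    rw [← hC]
    infer_instance)
  have h5 : valuation_Δ_aux R (C • W) ≤ valuation_Δ_aux R W := by
    rcases le_total (valuation_Δ_aux R (C • W)) (valuation_Δ_aux R W) with h | h
    · exact h
    · have := h3 (by simpa only [one_smul] using h)
      simpa only [one_smul] using this
  have hng : ¬ (W.minimal R).HasGoodReduction R := by
    intro hg
    have h6 := hg.goodReduction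
    rw [← Subtype.coe_le_coe, ← hC, valuation_Δ_aux_eq_of_isIntegral,
      valuation_Δ_aux_eq_of_isIntegral] at h5
    have h7 : (maximalIdeal R).valuation L (W.minimal R).Δ = 1 := h6
    rw [h7] at h5
    exact absurd hΔ (not_lt.2 h5)
  have hnm : ¬ (W.minimal R).HasMultiplicativeReduction R := by
    intro hg
    have h6 := hg.multiplicativeReduction
    rw [hC, WeierstrassCurve.variableChange_c₄, h4, mul_zero, map_zero] at h6
    exact zero_ne_one h6
  have hns : ¬ (W.minimal R).HasSplitMultiplicativeReduction R := fun h =>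
    hnm h.toHasMultiplicativeReduction
  unfold aLoc eLoc
  rw [if_neg hng, if_neg hng, if_neg hns, if_neg hnm]
  exact ⟨rfl, rfl⟩

end loc

section locK
variable {F k : Type} [Field F] [NumberField F] [IsCyclotomicExtension {3} ℚ F] [Field k]
  [NumberField k] [Algebra F k]

lemma Em_c₄ (R : Type) [CommRing R] : (Em R).c₄ = 0 := by
  simp only [Em, WeierstrassCurve.c₄, WeierstrassCurve.b₂, WeierstrassCurve.b₄]
  ring

/-- the coefficients at the primes that divide six -/
theorem aV_bad (hun : Un F k) (v : HeightOneSpectrum (𝓞 k))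
    (h6 : (2 : 𝓞 k) ∈ v.asIdeal ∨ (3 : 𝓞 k) ∈ v.asIdeal) :
    aV (Em k) v = 0 ∧ eV (Em k) v = 0 := by
  have hm := min_all hun v
  refine loc_zero (R := Pool.Agent.W189.NF.Ov v) hm ?_ ?_
  · have hbc : (Em k).baseChange (v.adicCompletion k) = Em (v.adicCompletion k) := Em_map _
    rw [hbc]
    exact Em_c₄ _
  · have hbc : (Em k).baseChange (v.adicCompletion k) = Em (v.adicCompletion k) := Em_map _
    rw [hbc, Em_Δ]
    let R := Pool.Agent.W189.NF.Ov v
    have e : (-110592 : v.adicCompletion k) = algebraMap R (v.adicCompletion k) (-110592) := by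
      rw [map_neg, map_ofNat]
    rw [e, HeightOneSpectrum.valuation_lt_one_iff_mem]
    have hmem : ∀ n : ℕ, (n : 𝓞 k) ∈ v.asIdeal →
        (n : R) ∈ (IsDiscreteValuationRing.maximalIdeal R).asIdeal := by
      intro n hn
      show (n : R) ∈ IsLocalRing.maximalIdeal R
      rw [← IsLocalRing.residue_eq_zero_iff, map_natCast]
      have h1 := (Pool.Agent.W189.NF.redMap_eq_zero v (n : 𝓞 k)).2 hn
      rw [map_natCast] at h1
      exact h1
    have e2 : (-110592 : R) = -(2 ^ 12 * 3 ^ 3) := by norm_num
    rw [e2]
    apply neg_mem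
    rcases h6 with h | h
    · have h1 := hmem 2 (by exact_mod_cast h)
      refine Ideal.mul_mem_right _ _ ?_
      refine Ideal.pow_mem_of_mem _ ?_ 12 (by norm_num)
      exact_mod_cast h1
    · have h1 := hmem 3 (by exact_mod_cast h)
      refine Ideal.mul_mem_left _ _ ?_
      refine Ideal.pow_mem_of_mem _ ?_ 3 (by norm_num)
      exact_mod_cast h1

end locK

end Pool.Agent.T9h31.Ab
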