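import Mathlib
import Pool.Agent.Y696.Main2

/-!
# Points of order prime to three on `y² = 4 x³ + 1`, at the primes above three
-/

set_option autoImplicit false
set_option linter.unusedSectionVars false
set_option linter.unusedVariables false

open Complex Filter Topology
open scoped PeriodPair

namespace Pool.Agent.T9h31.Ab

open H667R3 Pool.Agent.W192.HK Pool.Agent.TH936.CM Pool.Agent.TH936.PU
open Pool.Agent.Y696

/-- the square root of `-3` -/
noncomputable def th : eis := 2 * omr + 1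

lemma th_sq : th ^ 2 = -3 := by
  unfold th
  linear_combination 4 * omr_sq

lemma th_coe : (th : ℂ) = 2 * om + 1 := by
  unfold th
  push_cast [omr_coe]
  rfl

lemma th_csq : (2 * om + 1) ^ 2 = -3 := by
  linear_combination 4 * om_sq

variable {L : PeriodPair} {Ω : ℂ} {Γ : Type*} [LinearOrderedCommGroupWithZero Γ]
  {v : Valuation ℂ Γ}

/-- the isogeny of degree three -/
theorem iso_pt (hC : Cur L Ω) {u : ℂ} (h2 : 2 * u ∉ L.lattice) (hθ : (th : ℂ) * u ∉ L.lattice) :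
    ℘[L] u ≠ 0 ∧ 3 * ℘[L] u ^ 2 * ℘[L] ((th : ℂ) * u) = -(1 + ℘[L] u ^ 3) := by
  have hu := two_mul_notMem_of L h2
  have hL := hC.lat
  have z2 : 2 * ((omr : ℂ) * u) ∉ L.lattice := by
    have e : 2 * ((omr : ℂ) * u) = omr * (2 * u) := by ring
    rw [e, lat_unit hL omr_unit]
    exact h2
  have hw : -((((omr ^ 2 : eis)) : ℂ) * u) ∉ L.lattice := by
    intro h
    have h3 := neg_mem h
    rw [neg_neg, lat_unit hL (omr_unit.pow 2)] at h3
    exact hu h3
  have e1 : (omr : ℂ) * u + -((((omr ^ 2 : eis)) : ℂ) * u) = (th : ℂ) * u := by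
    rw [th_coe]
    push_cast [omr_coe]
    linear_combination (-u) * om_sq
  have e2 : (omr : ℂ) * u - -((((omr ^ 2 : eis)) : ℂ) * u) = -u := by
    push_cast [omr_coe]
    linear_combination u * om_sq
  have h1 : (omr : ℂ) * u + -((((omr ^ 2 : eis)) : ℂ) * u) ∉ L.lattice := by rwa [e1]
  have h3 : (omr : ℂ) * u - -((((omr ^ 2 : eis)) : ℂ) * u) ∉ L.lattice := by
    rw [e2]
    exact fun h => hu (by simpa using neg_mem h)
  have hadd := wp_add L z2 hw h1 h3
  have hne := wp_sub_ne (two_mul_notMem_of L z2) hw h1 h3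
  rw [e1, L.weierstrassP_neg, L.derivWeierstrassP_neg, wp_unit hL omr_unit,
    wp_unit hL (omr_unit.pow 2), dwp_unit hL omr_unit, dwp_unit hL (omr_unit.pow 2), hC.g2] at hadd
  rw [L.weierstrassP_neg, wp_unit hL omr_unit, wp_unit hL (omr_unit.pow 2)] at hne
  have hode := hC.ode hu
  set X := ℘[L] u with hX
  set Y := ℘'[L] u with hY
  set X' := ℘[L] ((th : ℂ) * u) with hX'
  have h3' := om_cube
  have hs := om_sq
  have i1 : (om ^ 2)⁻¹ = om := by
    have : om * om ^ 2 = 1 := by linear_combination h3'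
    exact (eq_inv_of_mul_eq_one_left this).symm
  have i2 : ((om ^ 2) ^ 2)⁻¹ = om ^ 2 := by
    have : om ^ 2 * (om ^ 2) ^ 2 = 1 := by linear_combination (om ^ 3 + 1) * h3'
    exact (eq_inv_of_mul_eq_one_left this).symm
  have i3 : (om ^ 3)⁻¹ = 1 := by rw [h3', inv_one]
  have i4 : ((om ^ 2) ^ 3)⁻¹ = 1 := by
    have : (om ^ 2) ^ 3 = 1 := by linear_combination (om ^ 3 + 1) * h3'
    rw [this, inv_one]
  push_cast [omr_coe] at hadd hne
  rw [i1, i2, i3, i4] at hadd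
  rw [i1, i2] at hne
  have hX0 : X ≠ 0 := by
    rintro h0
    apply hne
    rw [h0]
    ring
  refine ⟨hX0, ?_⟩
  have hd0 : (2 * (om * X - om ^ 2 * X) ^ 2) ≠ 0 :=
    mul_ne_zero two_ne_zero (pow_ne_zero 2 hne)
  have h5 : X' * (2 * (om * X - om ^ 2 * X) ^ 2) = om * X * (2 * (om * X - om ^ 2 * X) ^ 2) -
      ((6 * (om * X) ^ 2 - 0 / 2) * (om * X - om ^ 2 * X) - (1 * Y - -(1 * Y)) * (1 * Y)) := by
    rw [hadd, sub_mul, div_mul_cancel₀ _ hd0]
  have h6 : (om * X - om ^ 2 * X) ^ 2 = -3 * X ^ 2 := by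
    linear_combination (X ^ 2 * (om ^ 2 - 3 * om + 3)) * hs
  rw [h6] at h5
  have h7 : X' * (-6 * X ^ 2) = 2 * (1 + X ^ 3) := by
    have h8 : om * X * (2 * (-3 * X ^ 2)) -
      ((6 * (om * X) ^ 2 - 0 / 2) * (om * X - om ^ 2 * X) - (1 * Y - -(1 * Y)) * (1 * Y)) =
      2 * (1 + X ^ 3) := by
      have h9 : (1 * Y - -(1 * Y)) * (1 * Y) = 2 * (4 * X ^ 3 + 1) := by
        rw [← hode]
        ring
      rw [h9]
      linear_combination (X ^ 3 * (6 * om ^ 2 - 12 * om + 6)) * hs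
    rw [← h8, ← h5]
    ring
  linear_combination (-1 / 2 : ℂ) * h7

/-! ### the valuations -/

lemma v_lt_of_pow3 {x : ℂ} (h : v (x ^ 3) = 1) : v x = 1 := v_one_of_pow (n := 3) (by norm_num) h

/-- the coordinates of the multiples of a division point -/
noncomputable def wX (L : PeriodPair) (Ω : ℂ) {b : eis} (x : eis ⧸ (sp b : Ideal eis)) : ℂ :=
  ℘[L] (Ω * x.out / b)

lemma wX_mk (hC : Cur L Ω) {b : eis} (hb : b ≠ 0) (a : eis) :
    wX L Ω (Ideal.Quotient.mk (sp b : Ideal eis) a) = ℘[L] (Ω * a / b) := by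
  unfold wX
  apply wp_per
  have h1 := out_mk (sp b : Ideal eis) a
  have h2 := (sp b : Ideal eis).neg_mem h1
  rw [neg_sub, ← hC.div_iff hb] at h2
  convert h2 using 1
  push_cast
  ring

lemma th_mem {b : eis} (hb3 : IsCoprime b 3) {a : eis} :
    th * a ∈ (sp b : Ideal eis) ↔ a ∈ (sp b : Ideal eis) := by
  constructor
  · intro h
    obtain ⟨s, t, hst⟩ := hb3
    have h1 : a = (s * a) * b + (-t * th) * (th * a) := by
      have := th_sq
      linear_combination (-a) * hst + (t * a) * this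
    rw [h1]
    exact (sp b : Ideal eis).add_mem (Ideal.mul_mem_left _ _ (Ideal.mem_span_singleton_self b))
      (Ideal.mul_mem_left _ _ h)
  · intro h
    exact Ideal.mul_mem_left _ _ h

/-- the relation for the division points -/
lemma iso_div (hC : Cur L Ω) {b : eis} (hb : b ≠ 0) (hb3 : IsCoprime b 3) {a : eis}
    (ha : 2 * a ∉ (sp b : Ideal eis)) :
    ℘[L] (Ω * a / b) ≠ 0 ∧ 3 * ℘[L] (Ω * a / b) ^ 2 * ℘[L] (Ω * ((th * a : eis) : ℂ) / b) =
      -(1 + ℘[L] (Ω * a / b) ^ 3) := by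
  have e1 : (th : ℂ) * (Ω * a / b) = Ω * ((th * a : eis) : ℂ) / b := by
    push_cast
    ring
  have h2 : 2 * (Ω * a / b) ∉ L.lattice := by
    have e : 2 * (Ω * a / b) = Ω * ((2 * a : eis) : ℂ) / b := by
      push_cast
      have : ((2 : eis) : ℂ) = 2 := rfl
      rw [this]
      ring
    rw [e, hC.div_iff hb]
    exact ha
  have h3 : (th : ℂ) * (Ω * a / b) ∉ L.lattice := by
    rw [e1, hC.div_iff hb, th_mem hb3]
    exact fun h => ha (Ideal.mul_mem_left _ _ h)
  have := iso_pt hC h2 h3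
  rwa [e1] at this

lemma v3_pos : 0 < v 3 := by
  rw [zero_lt_iff, Ne, Valuation.zero_iff]
  norm_num

/-- points of order prime to three are integral -/
theorem v_int3 (hC : Cur L Ω) (hv : v 3 < 1) {b : eis} (hb : b ≠ 0) (hb3 : IsCoprime b 3)
    {a : eis} (ha : 2 * a ∉ (sp b : Ideal eis)) : v (℘[L] (Ω * a / b)) ≤ 1 := by
  classical
  have : Finite (eis ⧸ (sp b : Ideal eis)) := finite_q hb
  have : Fintype (eis ⧸ (sp b : Ideal eis)) := Fintype.ofFinite _
  set S : Finset (eis ⧸ (sp b : Ideal eis)) := Finset.univ.filter fun x => 2 * x ≠ 0 with hS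
  have hmem : ∀ a : eis, Ideal.Quotient.mk (sp b : Ideal eis) a ∈ S ↔
      2 * a ∉ (sp b : Ideal eis) := by
    intro a
    rw [hS, Finset.mem_filter, ← Ideal.Quotient.eq_zero_iff_mem, map_mul, map_ofNat]
    simp
  have hne : S.Nonempty := ⟨_, (hmem a).2 ha⟩
  obtain ⟨x, hxS, hmax⟩ := S.exists_max_image (fun x => v (wX L Ω x)) hne
  obtain ⟨c, rfl⟩ := Ideal.Quotient.mk_surjective x
  have hc := (hmem c).1 hxS
  have hc' : 2 * (th * c) ∉ (sp b : Ideal eis) := by
    have e : 2 * (th * c) = th * (2 * c) := by ring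
    rw [e, th_mem hb3]
    exact hc
  have h1 := hmax _ ((hmem (th * c)).2 hc')
  have h2 := hmax _ ((hmem a).2 ha)
  rw [wX_mk hC hb, wX_mk hC hb] at h1 h2
  refine h2.trans ?_
  by_contra hlt
  rw [not_le] at hlt
  obtain ⟨hX0, hiso⟩ := iso_div hC hb hb3 hc
  set X := ℘[L] (Ω * c / b)
  set X' := ℘[L] (Ω * ((th * c : eis) : ℂ) / b)
  have h3 := congrArg v hiso
  rw [map_mul, map_mul, map_pow, Valuation.map_neg] at h3
  have h4 : v (1 + X ^ 3) = v X ^ 3 := by
    rw [Valuation.map_add_eq_of_lt_right, map_pow]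
    rw [map_one, map_pow]
    exact one_lt_pow₀ hlt three_ne_zero
  rw [h4] at h3
  have h5 : v 3 * v X ^ 2 * v X' < v X ^ 3 := by
    have hp : 0 < v X := zero_lt_one.trans hlt
    calc v 3 * v X ^ 2 * v X' ≤ v 3 * v X ^ 2 * v X := mul_le_mul' le_rfl h1
      _ = v 3 * v X ^ 3 := by rw [mul_assoc, ← pow_succ]
      _ < 1 * v X ^ 3 := mul_lt_mul_of_pos_right hv (pow_pos hp 3)
      _ = v X ^ 3 := one_mul _
  rw [h3] at h5
  exact lt_irrefl _ h5

/-- the coordinate is a unit, and `1 + x³` has the valuation of three -/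
theorem v_unit3 (hC : Cur L Ω) (hv : v 3 < 1) {b : eis} (hb : b ≠ 0) (hb3 : IsCoprime b 3)
    {a : eis} (ha : 2 * a ∉ (sp b : Ideal eis)) :
    v (℘[L] (Ω * a / b)) = 1 ∧ v (1 + ℘[L] (Ω * a / b) ^ 3) = v 3 := by
  have key : ∀ a : eis, 2 * a ∉ (sp b : Ideal eis) → v (℘[L] (Ω * a / b)) = 1 := by
    intro a ha
    have ha' : 2 * (th * a) ∉ (sp b : Ideal eis) := by
      have e : 2 * (th * a) = th * (2 * a) := by ring
      rw [e, th_mem hb3]
      exact ha
    obtain ⟨hX0, hiso⟩ := iso_div hC hb hb3 ha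
    have h1 := v_int3 hC hv hb hb3 ha
    have h2 := v_int3 hC hv hb hb3 ha'
    set X := ℘[L] (Ω * a / b)
    set X' := ℘[L] (Ω * ((th * a : eis) : ℂ) / b)
    have h3 : v (1 + X ^ 3) < 1 := by
      rw [← Valuation.map_neg, ← hiso, mul_assoc]
      exact v_mul_lt' hv (v_mul_le (v_pow_le h1 2) h2)
    apply v_lt_of_pow3
    have e : X ^ 3 = -1 + (1 + X ^ 3) := by ring
    rw [e, Valuation.map_add_eq_of_lt_left, Valuation.map_neg, map_one]
    rw [Valuation.map_neg, map_one]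
    exact h3
  refine ⟨key a ha, ?_⟩
  have ha' : 2 * (th * a) ∉ (sp b : Ideal eis) := by
    have e : 2 * (th * a) = th * (2 * a) := by ring
    rw [e, th_mem hb3]
    exact ha
  obtain ⟨hX0, hiso⟩ := iso_div hC hb hb3 ha
  rw [← Valuation.map_neg, ← hiso, map_mul, map_mul, map_pow, key a ha, key _ ha']
  simp

/-- the coordinates are close to each other -/
theorem v_close (hC : Cur L Ω) (hv : v 3 < 1) {b : eis} (hb : b ≠ 0) (hb3 : IsCoprime b 3)
    {a : eis} (ha : 2 * a ∉ (sp b : Ideal eis)) :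
    v (℘[L] (Ω * a / b) - ℘[L] (Ω * ((th * a : eis) : ℂ) / b)) ^ 2 ≤ v 3 := by
  classical
  have : Finite (eis ⧸ (sp b : Ideal eis)) := finite_q hb
  have : Fintype (eis ⧸ (sp b : Ideal eis)) := Fintype.ofFinite _
  set S : Finset (eis ⧸ (sp b : Ideal eis)) := Finset.univ.filter fun x => 2 * x ≠ 0 with hS
  have hmem : ∀ a : eis, Ideal.Quotient.mk (sp b : Ideal eis) a ∈ S ↔
      2 * a ∉ (sp b : Ideal eis) := by
    intro a
    rw [hS, Finset.mem_filter, ← Ideal.Quotient.eq_zero_iff_mem, map_mul, map_ofNat]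
    simp
  have hne : S.Nonempty := ⟨_, (hmem a).2 ha⟩
  set g : eis ⧸ (sp b : Ideal eis) → ℂ := fun x => wX L Ω x -
    wX L Ω (Ideal.Quotient.mk (sp b : Ideal eis) th * x) with hg
  have hgm : ∀ c : eis, g (Ideal.Quotient.mk (sp b : Ideal eis) c) =
      ℘[L] (Ω * c / b) - ℘[L] (Ω * ((th * c : eis) : ℂ) / b) := by
    intro c
    rw [hg]
    simp only
    rw [← map_mul, wX_mk hC hb, wX_mk hC hb]
  obtain ⟨x, hxS, hmax⟩ := S.exists_max_image (fun x => v (g x)) hne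
  obtain ⟨c, rfl⟩ := Ideal.Quotient.mk_surjective x
  have hc := (hmem c).1 hxS
  have hth : ∀ c : eis, 2 * c ∉ (sp b : Ideal eis) → 2 * (th * c) ∉ (sp b : Ideal eis) := by
    intro c hc
    have e : 2 * (th * c) = th * (2 * c) := by ring
    rw [e, th_mem hb3]
    exact hc
  have hc' := hth c hc
  have hc'' := hth _ hc'
  have h1 := hmax _ ((hmem (th * c)).2 hc')
  have h2 := hmax _ ((hmem a).2 ha)
  rw [hgm, hgm] at h1 h2
  refine (pow_le_pow_left' h2 2).trans ?_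
  obtain ⟨-, i1⟩ := iso_div hC hb hb3 hc
  obtain ⟨-, i2⟩ := iso_div hC hb hb3 hc'
  have u1 := (v_unit3 hC hv hb hb3 hc).1
  have u2 := (v_unit3 hC hv hb hb3 hc').1
  have u3 := (v_unit3 hC hv hb hb3 hc'').1
  set X := ℘[L] (Ω * c / b)
  set X' := ℘[L] (Ω * ((th * c : eis) : ℂ) / b)
  set X'' := ℘[L] (Ω * ((th * (th * c) : eis) : ℂ) / b)
  set M := v (X - X') with hM
  have key : (X - X') ^ 3 = -3 * (X' * ((X - X') * (2 * X + X') + X' * (X' - X''))) := by
    linear_combination i1 - i2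
  have h3 : M ^ 3 ≤ v 3 * M := by
    rw [hM, ← map_pow, key, map_mul, Valuation.map_neg]
    refine mul_le_mul' le_rfl ?_
    rw [map_mul, u2, one_mul]
    refine v_add_le ?_ ?_
    · rw [map_mul]
      refine mul_le_of_le_one_right zero_le ?_
      refine v_add_le ?_ u2.le
      have h2' : v (2 * X) ≤ 1 := by
        rw [map_mul, u1, mul_one]
        exact_mod_cast v_int (v := v) 2
      exact h2'
    · rw [map_mul, u2, one_mul]
      exact h1
  rcases eq_or_ne M 0 with h0 | h0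
  · rw [h0]
    simp
  · have hp : 0 < M := zero_lt_iff.2 h0
    rw [pow_succ] at h3
    exact le_of_mul_le_mul_right h3 hp

/-- the normalized values -/
noncomputable def hv (L : PeriodPair) (Ω : ℂ) (z : ℂ) : ℂ :=
  ℘'[L] (Ω / 3) * (1 / (1 + ℘[L] z ^ 3) - 1 / 3)

lemma v_y3 (hC : Cur L Ω) : v (℘'[L] (Ω / 3)) ^ 2 = v 3 := by
  rw [← map_pow, hC.y0, Valuation.map_neg]

/-- the normalized values are integral -/
theorem v_hv (hC : Cur L Ω) (hv3 : v 3 < 1) {b : eis} (hb : b ≠ 0) (hb3 : IsCoprime b 3)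
    {a : eis} (ha : 2 * a ∉ (sp b : Ideal eis)) : v (hv L Ω (Ω * a / b)) ≤ 1 := by
  have ha' : 2 * (th * a) ∉ (sp b : Ideal eis) := by
    have e : 2 * (th * a) = th * (2 * a) := by ring
    rw [e, th_mem hb3]
    exact ha
  obtain ⟨hX0, hiso⟩ := iso_div hC hb hb3 ha
  obtain ⟨u1, w1⟩ := v_unit3 hC hv3 hb hb3 ha
  obtain ⟨u2, -⟩ := v_unit3 hC hv3 hb hb3 ha'
  have hD := v_close hC hv3 hb hb3 ha
  have hY := v_y3 (v := v) hC
  unfold hv
  set X := ℘[L] (Ω * a / b)
  set X' := ℘[L] (Ω * ((th * a : eis) : ℂ) / b)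
  set Y := ℘'[L] (Ω / 3)
  have hX'0 : X' ≠ 0 := ne_of_v u2
  have h30 : (3 : ℂ) ≠ 0 := by norm_num
  have hn0 : 1 + X ^ 3 ≠ 0 := by
    have h := v3_pos (v := v)
    rw [← w1] at h
    exact (Valuation.ne_zero_iff v).1 h.ne'
  have e : Y * (1 / (1 + X ^ 3) - 1 / 3) = Y * (-((1 + X ^ 3) - X ^ 2 * (X - X')) /
      (3 * X ^ 2 * X')) := by
    have h1 : (1 + X ^ 3) = -(3 * X ^ 2 * X') := by rw [hiso]; ring
    rw [h1]
    field_simp
    linear_combination (-Y) * h1
  have hm : v ((1 + X ^ 3) - X ^ 2 * (X - X')) ^ 2 ≤ v 3 := by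
    rw [← map_pow]
    have h1 : v ((1 + X ^ 3) - X ^ 2 * (X - X')) ≤ max (v (1 + X ^ 3)) (v (X ^ 2 * (X - X'))) :=
      Valuation.map_sub _ _ _
    rw [map_pow]
    refine (pow_le_pow_left' h1 2).trans ?_
    rw [map_mul, map_pow, u1, one_pow, one_mul, w1]
    rcases max_cases (v 3) (v (X - X')) with ⟨h2, -⟩ | ⟨h2, -⟩
    · rw [h2, pow_two]
      exact mul_le_of_le_one_left' hv3.le
    · rw [h2]
      exact hD
  have hsq : v (Y * (1 / (1 + X ^ 3) - 1 / 3)) ^ 2 ≤ 1 := by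
    rw [e, map_mul, map_div₀, Valuation.map_neg, map_mul, map_mul, map_pow, u1, u2, one_pow,
      mul_one, mul_one, mul_pow, div_pow, hY, pow_two (v 3)]
    have hp := v3_pos (v := v)
    calc v 3 * (v ((1 + X ^ 3) - X ^ 2 * (X - X')) ^ 2 / (v 3 * v 3)) ≤
        v 3 * (v 3 / (v 3 * v 3)) := by gcongr
      _ = 1 := by
        rw [← mul_div_assoc]
        exact div_self (mul_ne_zero hp.ne' hp.ne')
  exact (pow_le_one_iff_of_nonneg zero_le two_ne_zero).1 hsq

end Pool.Agent.T9h31.Ab
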