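import Mathlib
import Pool.Agent.T9h31.AbIso

/-!
# The quadratic character of conductor four on the Eisenstein integers
-/

set_option autoImplicit false
set_option linter.unusedSectionVars false
set_option linter.unusedVariables false

open Complex Filter Topology

namespace Pool.Agent.T9h31.Ab

open H667R3 Pool.Agent.W192.HK Pool.Agent.TH936.CM Pool.Agent.TH936.PU
open Pool.Agent.Y696

/-- the number of residue classes -/
noncomputable def nN (I : Ideal eis) : ℕ := Nat.card (eis ⧸ I)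

lemma nN_nm (I : Ideal eis) : ((nN I : ℕ) : ℝ) = nm I := rfl

lemma nN_mul (I J : Ideal eis) : nN (I * J) = nN I * nN J := by
  have h := nm_mul I J
  rw [← nN_nm, ← nN_nm, ← nN_nm] at h
  exact_mod_cast h

lemma nN_top : nN (⊤ : Ideal eis) = 1 := by
  have h := nm_top
  rw [← nN_nm] at h
  exact_mod_cast h

lemma nN_rep (x y : ℤ) : ((nN (sp ((x : eis) + y * omr)) : ℕ) : ℤ) = x ^ 2 - x * y + y ^ 2 := by
  have h := nm_sp ((x : eis) + y * omr)
  rw [← nN_nm] at h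
  push_cast [omr_coe] at h
  rw [norm_rep] at h
  exact_mod_cast h

/-- the value of the quadratic character on the norm of the ideal -/
noncomputable def xI (I : Ideal eis) : ℂ := ((ZMod.χ₄ ((nN I : ℕ) : ZMod 4) : ℤ) : ℂ)

lemma xI_mul (I J : Ideal eis) : xI (I * J) = xI I * xI J := by
  unfold xI
  rw [nN_mul, Nat.cast_mul, map_mul, Int.cast_mul]

lemma xI_top : xI ⊤ = 1 := by
  unfold xI
  rw [nN_top, Nat.cast_one, map_one, Int.cast_one]

/-- the quadratic character -/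
noncomputable def x4 (α : eis) : ℂ := xI (sp α)

lemma x4_mul (a b : eis) : x4 (a * b) = x4 a * x4 b := by
  unfold x4
  rw [← xI_mul]
  congr 1
  exact (Ideal.span_singleton_mul_span_singleton a b).symm

lemma x4_rep (x y : ℤ) : x4 ((x : eis) + y * omr) =
    ((ZMod.χ₄ ((x : ZMod 4) ^ 2 - x * y + y ^ 2) : ℤ) : ℂ) := by
  unfold x4 xI
  congr 2
  have h := nN_rep x y
  have h2 := congrArg (fun t : ℤ => (t : ZMod 4)) h
  push_cast at h2
  rw [← h2]

lemma mem_four (x y : ℤ) : (x : eis) + y * omr ∈ (sp 4 : Ideal eis) ↔ 4 ∣ x ∧ 4 ∣ y := by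
  rw [Ideal.mem_span_singleton']
  constructor
  · rintro ⟨t, ht⟩
    obtain ⟨a, b, hab⟩ := eis_rep t
    rw [hab] at ht
    have h1 : ((4 * a : ℤ) : eis) + ((4 * b : ℤ) : eis) * omr = (x : eis) + y * omr := by
      rw [← ht]; push_cast; ring
    have h2 := congrArg (fun t : eis => (t : ℂ)) h1
    obtain ⟨h3, h4⟩ := coef_inj (x := 4 * a) (y := 4 * b) (a := x) (b := y) (by
      push_cast at h2 ⊢
      exact h2)
    exact ⟨⟨a, h3.symm⟩, ⟨b, h4.symm⟩⟩
  · rintro ⟨⟨a, rfl⟩, ⟨b, rfl⟩⟩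
    exact ⟨a + b * omr, by push_cast; ring⟩

lemma x4_per {a b : eis} (h : a - b ∈ (sp 4 : Ideal eis)) : x4 a = x4 b := by
  obtain ⟨x, y, rfl⟩ := eis_rep a
  obtain ⟨z, w, rfl⟩ := eis_rep b
  have e : ((x : eis) + y * omr) - ((z : eis) + w * omr) =
      ((x - z : ℤ) : eis) + ((y - w : ℤ) : eis) * omr := by
    push_cast
    ring
  rw [e, mem_four] at h
  obtain ⟨h1, h2⟩ := h
  have k1 : (x : ZMod 4) = z := by
    rw [← sub_eq_zero, ← Int.cast_sub]
    exact (ZMod.intCast_zmod_eq_zero_iff_dvd _ 4).2 h1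
  have k2 : (y : ZMod 4) = w := by
    rw [← sub_eq_zero, ← Int.cast_sub]
    exact (ZMod.intCast_zmod_eq_zero_iff_dvd _ 4).2 h2
  rw [x4_rep, x4_rep, k1, k2]

lemma x4_one : x4 1 = 1 := by
  have h := x4_rep 1 0
  push_cast at h
  rw [zero_mul, add_zero] at h
  rw [h]
  have : (ZMod.χ₄ ((1 : ZMod 4) ^ 2 - 1 * 0 + 0 ^ 2)) = 1 := by decide
  rw [this, Int.cast_one]

lemma x4_th : x4 th = -1 := by
  have h := x4_rep 1 2
  have e : ((1 : ℤ) : eis) + ((2 : ℤ) : eis) * omr = th := by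
    unfold th
    push_cast
    ring
  rw [e] at h
  rw [h]
  push_cast
  have : (ZMod.χ₄ ((1 : ZMod 4) ^ 2 - 1 * 2 + 2 ^ 2)) = -1 := by decide
  rw [this]
  push_cast
  rfl

lemma x4_unit {u : eis} (hu : IsUnit u) : x4 u = 1 := by
  have h1 : nN (sp u : Ideal eis) = 1 := by
    have : (sp u : Ideal eis) = ⊤ := Ideal.span_singleton_eq_top.2 hu
    rw [this]
    exact nN_top
  unfold x4 xI
  rw [h1, Nat.cast_one, map_one, Int.cast_one]

lemma not_mem_of_cop {a : eis} (h : IsCoprime a 2) : a ∉ (sp 2 : Ideal eis) := by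
  intro h2
  obtain ⟨x, y, hxy⟩ := h
  apply prime_two.not_isUnit
  rw [Ideal.mem_span_singleton'] at h2
  obtain ⟨t, ht⟩ := h2
  refine IsUnit.of_mul_eq_one (x * t + y) ?_
  linear_combination hxy + x * ht

lemma cop_of_not_mem {a : eis} (h : a ∉ (sp 2 : Ideal eis)) : IsCoprime a 2 := by
  rw [isCoprime_comm, prime_two.coprime_iff_not_dvd]
  intro h2
  exact h (Ideal.mem_span_singleton.2 h2)

lemma x4_sq {a : eis} (h : IsCoprime a 2) : x4 a ^ 2 = 1 := by
  have h1 := not_mem_of_cop h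
  obtain ⟨x, y, rfl⟩ := eis_rep a
  rw [mem_two] at h1
  have hz : ∀ n : ℤ, 2 ∣ n ↔ 2 * (n : ZMod 4) = 0 := by
    intro n
    have : (2 * (n : ZMod 4)) = ((2 * n : ℤ) : ZMod 4) := by push_cast; ring
    rw [this, ZMod.intCast_zmod_eq_zero_iff_dvd]
    constructor
    · intro h
      obtain ⟨k, rfl⟩ := h
      exact ⟨k, by push_cast; ring⟩
    · intro h
      obtain ⟨k, hk⟩ := h
      exact ⟨k, by push_cast at hk; omega⟩
  rw [hz, hz] at h1
  rw [x4_rep]
  have key : ∀ x y : ZMod 4, ¬ (2 * x = 0 ∧ 2 * y = 0) → ZMod.χ₄ (x ^ 2 - x * y + y ^ 2) ^ 2 = 1 := by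
    decide
  have := key _ _ h1
  exact_mod_cast this

lemma x4_zero {a : eis} (h : ¬ IsCoprime a 2) : x4 a = 0 := by
  have h1 : a ∈ (sp 2 : Ideal eis) := by
    by_contra h2
    exact h (cop_of_not_mem h2)
  obtain ⟨x, y, rfl⟩ := eis_rep a
  rw [mem_two] at h1
  obtain ⟨⟨a, rfl⟩, ⟨b, rfl⟩⟩ := h1
  rw [x4_rep]
  push_cast
  have key : ∀ x y : ZMod 4, ZMod.χ₄ ((2 * x) ^ 2 - (2 * x) * (2 * y) + (2 * y) ^ 2) = 0 := by
    decide
  rw [key, Int.cast_zero]

lemma x4_cases (a : eis) : x4 a = 0 ∨ x4 a = 1 ∨ x4 a = -1 := by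
  by_cases h : IsCoprime a 2
  · right
    have h1 := x4_sq h
    have h2 : (x4 a - 1) * (x4 a + 1) = 0 := by linear_combination h1
    rcases mul_eq_zero.1 h2 with h3 | h3
    · exact Or.inl (sub_eq_zero.1 h3)
    · exact Or.inr (eq_neg_of_add_eq_zero_left h3)
  · exact Or.inl (x4_zero h)

end Pool.Agent.T9h31.Ab
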