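import Mathlib
import Pool.Agent.T9h31.AbX4

/-!
# The value for the quadratic character of conductor four
-/

set_option autoImplicit false
set_option linter.unusedSectionVars false
set_option linter.unusedVariables false

open Complex Filter Topology
open scoped PeriodPair

namespace Pool.Agent.T9h31.Ab

open H667R3 Pool.Agent.W192.HK Pool.Agent.TH936.CM Pool.Agent.TH936.PU
open Pool.Agent.Y696

variable {L : PeriodPair} {Ω : ℂ} {Γ : Type*} [LinearOrderedCommGroupWithZero Γ]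
  {v : Valuation ℂ Γ}

lemma v2_of3 (hv : v 3 < 1) : v 2 = 1 := by
  have e : (2 : ℂ) = -(1 - 3) := by norm_num
  rw [e, Valuation.map_neg]
  exact Valuation.map_one_sub_of_lt v hv

lemma c_two : ((2 : eis) : ℂ) = 2 := rfl
lemma c_three : ((3 : eis) : ℂ) = 3 := rfl
lemma c_four : ((4 : eis) : ℂ) = 4 := rfl

lemma four_ne : (4 : eis) ≠ 0 := by
  intro h
  have := congrArg (fun t : eis => (t : ℂ)) h
  push_cast at this
  norm_num at this

lemma x4_conj (a : eis) : (starRingEnd ℂ) (x4 a) = x4 a := by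
  rcases x4_cases a with h | h | h <;> rw [h] <;> simp

lemma x4_bd (a : eis) : ‖x4 a‖ ≤ 1 := by
  rcases x4_cases a with h | h | h <;> rw [h] <;> simp

lemma x4_xg : Xg 4 x4 := ⟨fun x y h => x4_per h, x4_mul, x4_bd⟩

lemma hv_unit (hC : Cur L Ω) {u : eis} (hu : IsUnit u) (z : ℂ) : hv L Ω (u * z) = hv L Ω z := by
  unfold hv
  have h : ℘[L] (u * z) ^ 3 = ℘[L] z ^ 3 := by
    rw [wp_unit hC.lat hu, mul_pow, ← inv_pow, ← pow_mul, inv_pow]
    have h6 : (u : ℂ) ^ (2 * 3) = 1 := by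
      have := congrArg (fun t : eis => (t : ℂ)) (unit_six hu)
      push_cast at this
      exact this
    rw [h6]
    norm_num
  rw [h]

lemma hv_per {z w : ℂ} (h : z - w ∈ L.lattice) : hv L Ω z = hv L Ω w := by
  unfold hv
  rw [wp_per h]

lemma hv_mod (hC : Cur L Ω) {b : eis} (hb : b ≠ 0) {x y : eis} (h : x - y ∈ (sp b : Ideal eis)) :
    hv L Ω (Ω * x / b) = hv L Ω (Ω * y / b) := by
  apply hv_per
  rw [← hC.div_iff hb] at h
  convert h using 1
  push_cast
  ring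

/-- residue classes modulo four of norm one -/
lemma cls_one {α : eis} (h : x4 α = 1) : ∃ u : eis, IsUnit u ∧ α - u ∈ (sp 4 : Ideal eis) := by
  obtain ⟨x, y, rfl⟩ := eis_rep α
  rw [x4_rep] at h
  have h1 : ZMod.χ₄ ((x : ZMod 4) ^ 2 - x * y + y ^ 2) = 1 := by exact_mod_cast h
  have key : ∀ x y : ZMod 4, ZMod.χ₄ (x ^ 2 - x * y + y ^ 2) = 1 →
      (x = 1 ∧ y = 0) ∨ (x = -1 ∧ y = 0) ∨ (x = 0 ∧ y = 1) ∨ (x = 0 ∧ y = -1) ∨
      (x = 1 ∧ y = 1) ∨ (x = -1 ∧ y = -1) := by decide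
  have hu : ∀ v ∈ ({1, -1, omr, -omr, omr ^ 2, -omr ^ 2} : Set eis), IsUnit v := fun v hv =>
    (unit_list v).2 hv
  have conv : ∀ i j : ℤ, (x : ZMod 4) = i → (y : ZMod 4) = j →
      ((x : eis) + y * omr) - ((i : eis) + j * omr) ∈ (sp 4 : Ideal eis) := by
    intro i j h1 h2
    have e : ((x : eis) + y * omr) - ((i : eis) + j * omr) =
        ((x - i : ℤ) : eis) + ((y - j : ℤ) : eis) * omr := by
      push_cast
      ring
    rw [e, mem_four]
    constructor
    · refine (ZMod.intCast_zmod_eq_zero_iff_dvd _ 4).1 ?_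
      rw [Int.cast_sub, h1, sub_self]
    · refine (ZMod.intCast_zmod_eq_zero_iff_dvd _ 4).1 ?_
      rw [Int.cast_sub, h2, sub_self]
  rcases key _ _ h1 with ⟨a, b⟩ | ⟨a, b⟩ | ⟨a, b⟩ | ⟨a, b⟩ | ⟨a, b⟩ | ⟨a, b⟩
  · refine ⟨1, hu _ (by simp), ?_⟩
    have := conv 1 0 (by rw [a]; simp) (by rw [b]; simp)
    convert this using 2
    push_cast
    ring
  · refine ⟨-1, hu _ (by simp), ?_⟩
    have := conv (-1) 0 (by rw [a]; simp) (by rw [b]; simp)
    convert this using 2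
    push_cast
    ring
  · refine ⟨omr, hu _ (by simp), ?_⟩
    have := conv 0 1 (by rw [a]; simp) (by rw [b]; simp)
    convert this using 2
    push_cast
    ring
  · refine ⟨-omr, hu _ (by simp), ?_⟩
    have := conv 0 (-1) (by rw [a]; simp) (by rw [b]; simp)
    convert this using 2
    push_cast
    ring
  · refine ⟨-omr ^ 2, hu _ (by simp), ?_⟩
    have := conv 1 1 (by rw [a]; simp) (by rw [b]; simp)
    convert this using 2
    push_cast
    linear_combination -omr_sq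
  · refine ⟨omr ^ 2, hu _ (by simp), ?_⟩
    have := conv (-1) (-1) (by rw [a]; simp) (by rw [b]; simp)
    convert this using 2
    push_cast
    linear_combination omr_sq

lemma hv_one (hC : Cur L Ω) {α : eis} (h : x4 α = 1) :
    hv L Ω (Ω * α / ((4 : eis) : ℂ)) = hv L Ω (Ω * ((1 : eis) : ℂ) / ((4 : eis) : ℂ)) := by
  obtain ⟨u, hu, hm⟩ := cls_one h
  rw [hv_mod hC four_ne hm]
  have e : Ω * (u : ℂ) / ((4 : eis) : ℂ) = u * (Ω * ((1 : eis) : ℂ) / ((4 : eis) : ℂ)) := by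
    push_cast
    ring
  rw [e, hv_unit hC hu]

lemma hv_neg (hC : Cur L Ω) {α : eis} (h : x4 α = -1) :
    hv L Ω (Ω * α / ((4 : eis) : ℂ)) = hv L Ω (Ω * (th : ℂ) / ((4 : eis) : ℂ)) := by
  obtain ⟨u, hu, hm⟩ := cls_one (α := th * α) (by rw [x4_mul, h, x4_th]; norm_num)
  have hm' : α - u * th ∈ (sp 4 : Ideal eis) := by
    have h1 := (sp 4 : Ideal eis).mul_mem_left th hm
    have h2 : 4 * α ∈ (sp 4 : Ideal eis) := Ideal.mul_mem_right _ _ (Ideal.mem_span_singleton_self 4)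
    have h3 := (sp 4 : Ideal eis).add_mem h1 h2
    convert h3 using 1
    have := th_sq
    linear_combination (-α) * this
  rw [hv_mod hC four_ne hm']
  have e : Ω * ((u * th : eis) : ℂ) / ((4 : eis) : ℂ) = u * (Ω * (th : ℂ) / ((4 : eis) : ℂ)) := by
    push_cast
    ring
  rw [e, hv_unit hC hu]

/-- the classes modulo four -/
noncomputable def phi4 (p : ZMod 4 × ZMod 4) : eis ⧸ (sp 4 : Ideal eis) :=
  Ideal.Quotient.mk _ (((p.1.val : ℤ) : eis) + ((p.2.val : ℤ) : eis) * omr)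

lemma phi4_bij : Function.Bijective phi4 := by
  constructor
  · rintro ⟨a, b⟩ ⟨c, d⟩ h
    unfold phi4 at h
    rw [Ideal.Quotient.mk_eq_mk_iff_sub_mem] at h
    simp only at h
    have e : (((a.val : ℤ) : eis) + ((b.val : ℤ) : eis) * omr) -
        (((c.val : ℤ) : eis) + ((d.val : ℤ) : eis) * omr) =
        (((a.val : ℤ) - (c.val : ℤ) : ℤ) : eis) + (((b.val : ℤ) - (d.val : ℤ) : ℤ) : eis) * omr := by
      push_cast
      ring
    rw [e, mem_four] at h
    have h1 := ZMod.val_lt a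
    have h2 := ZMod.val_lt b
    have h3 := ZMod.val_lt c
    have h4 := ZMod.val_lt d
    obtain ⟨h5, h6⟩ := h
    apply Prod.ext
    · apply ZMod.val_injective 4
      show a.val = c.val
      omega
    · apply ZMod.val_injective 4
      show b.val = d.val
      omega
  · intro x
    obtain ⟨a, rfl⟩ := Ideal.Quotient.mk_surjective x
    obtain ⟨x, y, rfl⟩ := eis_rep a
    refine ⟨((x : ZMod 4), (y : ZMod 4)), ?_⟩
    unfold phi4
    rw [Ideal.Quotient.mk_eq_mk_iff_sub_mem]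
    simp only
    have e : ((((x : ZMod 4).val : ℤ) : eis) + (((y : ZMod 4).val : ℤ) : eis) * omr) -
        ((x : eis) + (y : eis) * omr) =
        ((((x : ZMod 4).val : ℤ) - x : ℤ) : eis) + ((((y : ZMod 4).val : ℤ) - y : ℤ) : eis) * omr := by
      push_cast
      ring
    rw [e, mem_four, ZMod.val_intCast, ZMod.val_intCast]
    push_cast
    constructor <;> omega

lemma sum_four [Fintype (eis ⧸ (sp 4 : Ideal eis))] (G : eis ⧸ (sp 4 : Ideal eis) → ℂ) {a b : ℂ}
    (h1 : ∀ α : eis, x4 α = 1 → G (Ideal.Quotient.mk _ α) = a)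
    (h2 : ∀ α : eis, x4 α = -1 → G (Ideal.Quotient.mk _ α) = b)
    (h3 : ∀ α : eis, x4 α = 0 → G (Ideal.Quotient.mk _ α) = 0) :
    ∑ x : eis ⧸ (sp 4 : Ideal eis), G x = 6 * a + 6 * b := by
  rw [← Fintype.sum_bijective phi4 phi4_bij (fun p => G (phi4 p)) G (fun p => rfl)]
  have hx : ∀ p : ZMod 4 × ZMod 4, x4 (((p.1.val : ℤ) : eis) + ((p.2.val : ℤ) : eis) * omr) =
      ((ZMod.χ₄ (p.1 ^ 2 - p.1 * p.2 + p.2 ^ 2) : ℤ) : ℂ) := by
    intro p
    rw [x4_rep]
    congr 2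
    push_cast
    rw [ZMod.natCast_zmod_val, ZMod.natCast_zmod_val]
  have hG : ∀ p : ZMod 4 × ZMod 4, G (phi4 p) =
      (if ZMod.χ₄ (p.1 ^ 2 - p.1 * p.2 + p.2 ^ 2) = 1 then a else 0) +
      (if ZMod.χ₄ (p.1 ^ 2 - p.1 * p.2 + p.2 ^ 2) = -1 then b else 0) := by
    intro p
    unfold phi4
    have h := hx p
    have hc : ∀ x : ZMod 4, ZMod.χ₄ x = 0 ∨ ZMod.χ₄ x = 1 ∨ ZMod.χ₄ x = -1 := by decide
    rcases hc (p.1 ^ 2 - p.1 * p.2 + p.2 ^ 2) with h4 | h4 | h4
    · rw [h3 _ (by rw [h, h4, Int.cast_zero]), h4]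
      norm_num
    · rw [h1 _ (by rw [h, h4, Int.cast_one]), h4]
      norm_num
    · rw [h2 _ (by rw [h, h4]; push_cast; rfl), h4]
      norm_num
  simp only [hG]
  simp only [Finset.sum_add_distrib, Finset.sum_ite, Finset.sum_const, smul_zero, add_zero]
  have c1 : (Finset.univ.filter fun p : ZMod 4 × ZMod 4 =>
      ZMod.χ₄ (p.1 ^ 2 - p.1 * p.2 + p.2 ^ 2) = 1).card = 6 := by decide
  have c2 : (Finset.univ.filter fun p : ZMod 4 × ZMod 4 =>
      ZMod.χ₄ (p.1 ^ 2 - p.1 * p.2 + p.2 ^ 2) = -1).card = 6 := by decide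
  rw [c1, c2]
  simp

/-- the four-division points -/
lemma t_eq (hC : Cur L Ω) {a : eis} (ha : a ∉ (sp 2 : Ideal eis)) :
    2 * (℘[L] (Ω * a / ((4 : eis) : ℂ)) ^ 3) ^ 2 + 10 * ℘[L] (Ω * a / ((4 : eis) : ℂ)) ^ 3 - 1 = 0 := by
  set z := Ω * a / ((4 : eis) : ℂ) with hz
  have h2 : 2 * z = Ω * a / ((2 : eis) : ℂ) := by
    rw [hz, c_four, c_two]
    ring
  have h2n : 2 * z ∉ L.lattice := by
    rw [h2, hC.div_iff two_ne]
    exact ha
  have h4 : 2 * (2 * z) ∈ L.lattice := by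
    have e : 2 * (2 * z) = Ω * a := by
      rw [h2, c_two]
      ring
    rw [e]
    exact hC.lat.mem_mul a
  have h5 := (two_mem_iff h2n).1 h4
  have h6 := hC.ode h2n
  rw [h5] at h6
  have h7 : ℘[L] (2 * z) ^ 3 = -1 / 4 := by linear_combination (-1 / 4 : ℂ) * h6
  have h8 := hC.dup h2n
  have h9 := congrArg (fun t : ℂ => t ^ 3) h8
  rw [mul_pow, h7] at h9
  set X := ℘[L] z
  have h10 : (2 * (X ^ 3) ^ 2 + 10 * X ^ 3 - 1) ^ 2 = 0 := by
    linear_combination (-4 : ℂ) * h9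
  exact pow_eq_zero_iff (two_ne_zero) |>.1 h10

lemma one_not : (1 : eis) ∉ (sp 2 : Ideal eis) := not_mem_of_cop isCoprime_one_left

lemma th_not : th ∉ (sp 2 : Ideal eis) := by
  intro h
  have h1 : (1 : eis) ∈ (sp 2 : Ideal eis) := by
    have h2 : 2 * omr ∈ (sp 2 : Ideal eis) :=
      Ideal.mul_mem_right _ _ (Ideal.mem_span_singleton_self 2)
    have h3 := (sp 2 : Ideal eis).sub_mem h h2
    unfold th at h3
    rwa [add_sub_cancel_left] at h3
  exact one_not h1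

lemma cop43 : IsCoprime (4 : eis) 3 := ⟨1, -1, by norm_num⟩

/-- the difference of the two values -/
theorem h_diff (hC : Cur L Ω) :
    (hv L Ω (Ω * ((1 : eis) : ℂ) / ((4 : eis) : ℂ)) - hv L Ω (Ω * (th : ℂ) / ((4 : eis) : ℂ))) ^ 2 =
      -4 := by
  have t1 := t_eq hC one_not
  have t2 := t_eq hC th_not
  have h2 : 2 * (1 : eis) ∉ (sp 4 : Ideal eis) := by
    intro h
    have := (mem_four 2 0).1 (by push_cast; simpa using h)
    omega
  obtain ⟨-, i1⟩ := iso_div hC four_ne cop43 h2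
  rw [mul_one] at i1
  unfold hv
  have hy := hC.y0
  set X := ℘[L] (Ω * ((1 : eis) : ℂ) / ((4 : eis) : ℂ)) with hX
  set X' := ℘[L] (Ω * (th : ℂ) / ((4 : eis) : ℂ)) with hX'
  set Y := ℘'[L] (Ω / 3)
  obtain ⟨t, ht⟩ : ∃ t, t = X ^ 3 := ⟨_, rfl⟩
  obtain ⟨s, hs⟩ : ∃ s, s = X' ^ 3 := ⟨_, rfl⟩
  rw [← ht] at t1 ⊢
  rw [← hs] at t2 ⊢
  have i2 : (1 + t) ^ 3 = -27 * t ^ 2 * s := by
    have h3 := congrArg (fun z : ℂ => z ^ 3) i1
    rw [ht, hs]
    linear_combination h3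
  have hne : t ≠ s := by
    intro h
    rw [← h] at i2
    have h3 : 702 * t = 135 / 2 := by
      linear_combination i2 - (14 * t - 137 / 2) * t1
    have h4 : t = 5 / 52 := by linear_combination (1 / 702 : ℂ) * h3
    rw [h4] at t1
    norm_num at t1
  have hsum : t + s = -5 := by
    have h3 : (t - s) * (2 * (t + s) + 10) = 0 := by linear_combination t1 - t2
    have h4 := (mul_eq_zero.1 h3).resolve_left (sub_ne_zero.2 hne)
    linear_combination (1 / 2 : ℂ) * h4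
  have hprod : t * s = -1 / 2 := by
    have : s = -5 - t := by linear_combination hsum
    rw [this]
    linear_combination (-1 / 2 : ℂ) * t1
  have hp : (1 + t) * (1 + s) = -9 / 2 := by linear_combination hsum + hprod
  have n1 : 1 + t ≠ 0 := by
    intro h
    rw [h, zero_mul] at hp
    norm_num at hp
  have n2 : 1 + s ≠ 0 := by
    intro h
    rw [h, mul_zero] at hp
    norm_num at hp
  have e : Y * (1 / (1 + t) - 1 / 3) - Y * (1 / (1 + s) - 1 / 3) =
      Y * (s - t) / ((1 + t) * (1 + s)) := by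
    field_simp
    ring
  rw [e, hp, div_pow, mul_pow, hy]
  have h3 : (s - t) ^ 2 = 27 := by
    have : (s - t) ^ 2 = (t + s) ^ 2 - 4 * (t * s) := by ring
    rw [this, hsum, hprod]
    norm_num
  rw [h3]
  norm_num

end Pool.Agent.T9h31.Ab
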