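import Mathlib
import Pool.Agent.T9h31.AbBase

/-!
# The twisted sums are units above three
-/

set_option autoImplicit false
set_option linter.unusedSectionVars false
set_option linter.unusedVariables false

open Complex Filter Topology IsDedekindDomain
open scoped PeriodPair

namespace Pool.Agent.T9h31.Ab

open H667R3 Pool.Agent.W192.HK Pool.Agent.TH936.CM Pool.Agent.TH936.PU
open Pool.Agent.Y696

variable {L : PeriodPair} {Ω : ℂ} {Γ : Type*} [LinearOrderedCommGroupWithZero Γ]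
  {v : Valuation ℂ Γ}

/-- the product of the two characters -/
noncomputable def e4 (α : eis) : ℂ := ee psi α * x4 α

lemma e4_cm : CM e4 := by
  constructor
  · intro x y
    unfold e4
    rw [eo.mul, x4_mul]
    ring
  · intro x
    unfold e4
    rw [norm_mul]
    exact mul_le_one₀ (eo.bd x) (norm_nonneg _) (x4_bd x)

lemma one_add_ne (hC : Cur L Ω) {b : eis} (hb : b ≠ 0) (hb3 : IsCoprime b 3) {a : eis}
    (ha : 2 * a ∉ (sp b : Ideal eis)) : 1 + ℘[L] (Ω * a / b) ^ 3 ≠ 0 := by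
  have ha' : 2 * (th * a) ∉ (sp b : Ideal eis) := by
    have e : 2 * (th * a) = th * (2 * a) := by ring
    rw [e, th_mem hb3]
    exact ha
  obtain ⟨h1, h2⟩ := iso_div hC hb hb3 ha
  obtain ⟨h3, -⟩ := iso_div hC hb hb3 ha'
  intro h
  rw [h, neg_zero] at h2
  exact (mul_ne_zero (mul_ne_zero three_ne_zero (pow_ne_zero 2 h1)) h3) h2

lemma hh_hv (hC : Cur L Ω) [Fintype (eis ⧸ (sp 3 : Ideal eis))] {b : eis} (hb : b ≠ 0)
    (hb3 : IsCoprime b 3) {a : eis} (ha : 2 * a ∉ (sp b : Ideal eis)) :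
    HH L Ω 3 (ee psi) (Ω * a / b) =
      -3 * ℘[L] (Ω / 3) ^ 2 * (hv L Ω (Ω * a / b) + ℘'[L] (Ω / 3) / 3) := by
  have h := one_add_ne hC hb hb3 ha
  rw [hC.hh h]
  unfold hv
  field_simp
  ring

lemma two_not_of_cop {b a : eis} (hb : 4 ∣ b) (ha : IsCoprime a 2) :
    2 * a ∉ (sp b : Ideal eis) := by
  intro h
  apply not_mem_of_cop ha
  rw [Ideal.mem_span_singleton'] at h ⊢
  obtain ⟨t, ht⟩ := h
  obtain ⟨c, rfl⟩ := hb
  refine ⟨t * c, ?_⟩
  apply mul_left_cancel₀ two_ne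
  linear_combination ht

/-- the explicit value -/
noncomputable def B4 (L : PeriodPair) (Ω : ℂ) : ℂ :=
  Ω / (3 * 4) * (ee psi 4 * x4 3) * (-3 * ℘[L] (Ω / 3) ^ 2 *
    (6 * (hv L Ω (Ω * ((1 : eis) : ℂ) / ((4 : eis) : ℂ)) - hv L Ω (Ω * (th : ℂ) / ((4 : eis) : ℂ)))))

lemma x4_out {b : eis} (hb : 4 ∣ b) (α : eis) :
    x4 (Ideal.Quotient.mk (sp b : Ideal eis) α).out = x4 α := by
  apply x4_per
  have h := out_mk (sp b : Ideal eis) α
  have h2 := (sp b : Ideal eis).neg_mem h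
  rw [neg_sub, Ideal.mem_span_singleton'] at h2
  obtain ⟨t, ht⟩ := h2
  obtain ⟨c, rfl⟩ := hb
  rw [Ideal.mem_span_singleton']
  exact ⟨t * c, by rw [← ht]; ring⟩

lemma cop_of_x4 {a : eis} (h : x4 a ≠ 0) : IsCoprime a 2 := by
  by_contra h1
  exact h (x4_zero h1)

theorem lim_e4 (hC : Cur L Ω) : Tendsto (SS e4) (𝓝[>] 0) (𝓝 (B4 L Ω)) := by
  classical
  have : Finite (eis ⧸ (sp 3 : Ideal eis)) := finite_q three_ne
  have : Fintype (eis ⧸ (sp 3 : Ideal eis)) := Fintype.ofFinite _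
  have : Finite (eis ⧸ (sp 4 : Ideal eis)) := finite_q four_ne
  have : Fintype (eis ⧸ (sp 4 : Ideal eis)) := Fintype.ofFinite _
  obtain ⟨w, hw⟩ := WW_lim hC.lat
  have h1 := lim_gen hC.lat four_ne cop43.symm x4_xg (fun x hx => by
    apply x4_zero
    intro h
    apply not_mem_of_cop h
    rw [Ideal.mem_span_singleton'] at hx ⊢
    obtain ⟨t, rfl⟩ := hx
    exact ⟨t * 2, by ring⟩) hw
  have s1 : ∑ x : eis ⧸ (sp 4 : Ideal eis), x4 x.out = 0 := by
    rw [sum_four (fun x => x4 x.out) (a := 1) (b := -1)]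
    · ring
    · intro α h
      rw [x4_out dvd_rfl, h]
    · intro α h
      rw [x4_out dvd_rfl, h]
    · intro α h
      rw [x4_out dvd_rfl, h]
  have s2 : ∑ x : eis ⧸ (sp 4 : Ideal eis), x4 x.out *
      HH L Ω 3 (ee psi) (Ω * x.out / ((4 : eis) : ℂ)) = -3 * ℘[L] (Ω / 3) ^ 2 *
      (6 * (hv L Ω (Ω * ((1 : eis) : ℂ) / ((4 : eis) : ℂ)) -
        hv L Ω (Ω * (th : ℂ) / ((4 : eis) : ℂ)))) := by
    rw [sum_four (fun x => x4 x.out * HH L Ω 3 (ee psi) (Ω * x.out / ((4 : eis) : ℂ)))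
      (a := -3 * ℘[L] (Ω / 3) ^ 2 *
        (hv L Ω (Ω * ((1 : eis) : ℂ) / ((4 : eis) : ℂ)) + ℘'[L] (Ω / 3) / 3))
      (b := -(-3 * ℘[L] (Ω / 3) ^ 2 *
        (hv L Ω (Ω * (th : ℂ) / ((4 : eis) : ℂ)) + ℘'[L] (Ω / 3) / 3)))]
    · ring
    · intro α h
      have h2 : x4 (Ideal.Quotient.mk (sp 4 : Ideal eis) α).out = 1 := by rw [x4_out dvd_rfl, h]
      rw [h2, one_mul, hh_hv hC four_ne cop43 (two_not_of_cop dvd_rfl (cop_of_x4 (by
        rw [h2]; exact one_ne_zero))), hv_one hC h2]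
    · intro α h
      have h2 : x4 (Ideal.Quotient.mk (sp 4 : Ideal eis) α).out = -1 := by rw [x4_out dvd_rfl, h]
      rw [h2, hh_hv hC four_ne cop43 (two_not_of_cop dvd_rfl (cop_of_x4 (by
        rw [h2]; norm_num))), hv_neg hC h2]
      ring
    · intro α h
      rw [x4_out dvd_rfl, h, zero_mul]
  rw [s1, s2, zero_mul, add_zero] at h1
  exact h1

lemma v_x4 {a : eis} (h : IsCoprime a 2) : v (x4 a) = 1 :=
  v_one_of_pow (n := 2) (by norm_num) (by rw [x4_sq h, map_one])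

lemma v_B4 (hC : Cur L Ω) (hv3 : v 3 < 1) : v (B4 L Ω / Ω) = v 3 := by
  have hΩ := hC.lat.ne
  have h2 := v2_of3 hv3
  have hd := h_diff hC
  unfold B4
  set D := hv L Ω (Ω * ((1 : eis) : ℂ) / ((4 : eis) : ℂ)) - hv L Ω (Ω * (th : ℂ) / ((4 : eis) : ℂ))
  have vD : v D = 1 := by
    refine v_one_of_pow (n := 2) (by norm_num) ?_
    rw [hd, Valuation.map_neg]
    have : (4 : ℂ) = 2 * 2 := by norm_num
    rw [this, map_mul, h2, mul_one]
  have e : Ω / (3 * 4) * (ee psi 4 * x4 3) * (-3 * ℘[L] (Ω / 3) ^ 2 * (6 * D)) / Ω =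
      -(3 * ((ee psi 4 * x4 3) * ℘[L] (Ω / 3) ^ 2 * D) / 2) := by
    field_simp
    ring
  rw [e, Valuation.map_neg, map_div₀, h2, div_one, map_mul, map_mul, map_mul, map_mul, map_pow,
    v_x0 hC, vD, v_ee cop43, v_x4 (a := 3) ⟨1, -1, by norm_num⟩]
  simp

/-! ### characters modulo `4 c` -/

/-- a character from a function -/
noncomputable def mkc (b : eis) (χ : eis → ℂ)
    (hper : ∀ x y, x - y ∈ (sp b : Ideal eis) → χ x = χ y)
    (hmul : ∀ x y, χ (x * y) = χ x * χ y) (h1 : χ 1 = 1) (h0 : ∀ x, ¬ IsCoprime x b → χ x = 0) :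
    MulChar (eis ⧸ (sp b : Ideal eis)) ℂ where
  toFun x := χ x.out
  map_one' := by
    rw [← h1]
    symm
    apply hper
    exact out_mk (sp b : Ideal eis) 1
  map_mul' x y := by
    rw [← hmul]
    symm
    apply hper
    have h := out_mk (sp b : Ideal eis) (x.out * y.out)
    rw [map_mul, Ideal.Quotient.mk_out, Ideal.Quotient.mk_out] at h
    exact h
  map_nonunit' x hx := by
    apply h0
    intro h
    apply hx
    rw [← Ideal.Quotient.mk_out x]
    exact (unit_iff _).2 h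

lemma et_mkc {b : eis} {χ : eis → ℂ} {hper : ∀ x y, x - y ∈ (sp b : Ideal eis) → χ x = χ y}
    {hmul : ∀ x y, χ (x * y) = χ x * χ y} {h1 : χ 1 = 1} {h0 : ∀ x, ¬ IsCoprime x b → χ x = 0}
    (α : eis) : et (mkc b χ hper hmul h1 h0) α = χ α := by
  show χ (Ideal.Quotient.mk (sp b : Ideal eis) α).out = χ α
  symm
  apply hper
  exact out_mk _ _

lemma cop_four_iff {x : eis} : IsCoprime x 4 ↔ IsCoprime x 2 := by
  have e : (4 : eis) = 2 * 2 := by norm_num
  rw [e, IsCoprime.mul_right_iff]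
  exact and_self_iff

variable {c : eis}

/-- the product with the quadratic character -/
noncomputable def tw (η : MulChar (eis ⧸ (sp c : Ideal eis)) ℂ) :
    MulChar (eis ⧸ (sp (4 * c) : Ideal eis)) ℂ :=
  mkc (4 * c) (fun α => et η α * x4 α)
    (fun x y h => by
      rw [Ideal.mem_span_singleton'] at h
      obtain ⟨t, ht⟩ := h
      rw [et_per (a := x) (b := y) (Ideal.mem_span_singleton'.2 ⟨t * 4, by rw [← ht]; ring⟩),
        x4_per (a := x) (b := y) (Ideal.mem_span_singleton'.2 ⟨t * c, by rw [← ht]; ring⟩)])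
    (fun x y => by rw [et_mul, x4_mul]; ring)
    (by rw [et_one, x4_one, mul_one])
    (fun x h => by
      by_cases h1 : IsCoprime x c
      · rw [x4_zero, mul_zero]
        intro h2
        exact h (IsCoprime.mul_right (cop_four_iff.2 h2) h1)
      · rw [(et_zero_iff x).2 h1, zero_mul])

lemma et_tw (η : MulChar (eis ⧸ (sp c : Ideal eis)) ℂ) (α : eis) : et (tw η) α = et η α * x4 α :=
  et_mkc α

lemma tw_apply (η : MulChar (eis ⧸ (sp c : Ideal eis)) ℂ) (x : eis ⧸ (sp (4 * c) : Ideal eis)) :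
    tw η x = et η x.out * x4 x.out := rfl

lemma tw_ne (hc2 : IsCoprime c 2) (η : MulChar (eis ⧸ (sp c : Ideal eis)) ℂ) : tw η ≠ 1 := by
  intro h
  obtain ⟨s, t, hst⟩ := cop_four_iff.2 hc2
  -- `s c + 4 t = 1`
  have h1 : et (tw η) (th * (s * c) + t * 4) = 1 ∨ et (tw η) (th * (s * c) + t * 4) = 0 := by
    rw [h]
    by_cases hc : IsUnit (Ideal.Quotient.mk (sp (4 * c) : Ideal eis) (th * (s * c) + t * 4))
    · left
      exact MulChar.one_apply hc
    · right
      exact MulChar.map_nonunit _ hc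
  have h2 : et η (th * (s * c) + t * 4) = 1 := by
    rw [et_per (b := 1) ?_, et_one]
    rw [Ideal.mem_span_singleton']
    exact ⟨th * s - s, by linear_combination -hst⟩
  have h3 : x4 (th * (s * c) + t * 4) = -1 := by
    rw [x4_per (b := th) ?_, x4_th]
    rw [Ideal.mem_span_singleton']
    exact ⟨t - t * th, by linear_combination (-th) * hst⟩
  rw [et_tw, h2, h3] at h1
  norm_num at h1

/-- sums over orbits of length three -/
lemma triple_sum {M : Type*} [Fintype M] [DecidableEq M] (τ : M ≃ M) (hτ : ∀ x, τ (τ (τ x)) = x) :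
    ∃ T : Finset M, ∀ F : M → ℂ, (∀ x, τ x = x → F x = 0) → (∀ x, F (τ x) = F x) →
      ∑ x, F x = 3 * ∑ x ∈ T, F x := by
  classical
  set e : M ≃ Fin (Fintype.card M) := Fintype.equivFin M
  refine ⟨Finset.univ.filter fun x => e x < e (τ x) ∧ e x < e (τ (τ x)), fun F h0 h1 => ?_⟩
  set g : M → ℂ := fun x => if e x < e (τ x) ∧ e x < e (τ (τ x)) then 1 else 0 with hg
  have h2 : ∀ x, F x = F x * g x + F x * g (τ x) + F x * g (τ (τ x)) := by
    intro x
    by_cases hx : τ x = x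
    · rw [h0 x hx]
      ring
    · have hx2 : τ (τ x) ≠ x := by
        intro h
        apply hx
        have h3 := hτ x
        rw [h] at h3
        exact h3
      have hx3 : τ (τ x) ≠ τ x := fun h => hx (τ.injective h)
      have a1 : (e x : ℕ) ≠ e (τ x) := fun h => hx (e.injective (Fin.ext h)).symm
      have a2 : (e x : ℕ) ≠ e (τ (τ x)) := fun h => hx2 (e.injective (Fin.ext h)).symm
      have a3 : (e (τ x) : ℕ) ≠ e (τ (τ x)) := fun h => hx3 (e.injective (Fin.ext h)).symm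
      have h4 : g x + g (τ x) + g (τ (τ x)) = 1 := by
        simp only [hg, hτ, Fin.lt_def]
        split_ifs <;> first | omega | norm_num
      calc F x = F x * 1 := (mul_one _).symm
        _ = F x * (g x + g (τ x) + g (τ (τ x))) := by rw [h4]
        _ = _ := by ring
  have s1 : ∑ x, F x * g (τ x) = ∑ x, F x * g x := by
    rw [← Equiv.sum_comp τ (fun x => F x * g x)]
    exact Finset.sum_congr rfl fun x _ => by rw [h1]
  have s2 : ∑ x, F x * g (τ (τ x)) = ∑ x, F x * g x := by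
    rw [← s1, ← Equiv.sum_comp τ (fun x => F x * g (τ x))]
    exact Finset.sum_congr rfl fun x _ => by rw [h1]
  have s3 : ∑ x, F x * g x = ∑ x ∈ Finset.univ.filter fun x => e x < e (τ x) ∧ e x < e (τ (τ x)), F x := by
    rw [Finset.sum_filter]
    refine Finset.sum_congr rfl fun x _ => ?_
    simp only [hg]
    split_ifs <;> ring
  calc ∑ x, F x = ∑ x, (F x * g x + F x * g (τ x) + F x * g (τ (τ x))) :=
        Finset.sum_congr rfl fun x _ => h2 x
    _ = ∑ x, F x * g x + ∑ x, F x * g (τ x) + ∑ x, F x * g (τ (τ x)) := by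
        rw [Finset.sum_add_distrib, Finset.sum_add_distrib]
    _ = 3 * ∑ x ∈ Finset.univ.filter fun x => e x < e (τ x) ∧ e x < e (τ (τ x)), F x := by
        rw [s1, s2, s3]
        ring

lemma v_root3 (hv : v 3 < 1) {x : ℂ} {k : ℕ} (hx : x ^ (3 ^ k) = 1) : v (x - 1) < 1 := by
  induction k generalizing x with
  | zero =>
    rw [pow_zero, pow_one] at hx
    rw [hx, sub_self, map_zero]
    exact zero_lt_one
  | succ k ih =>
    have h1 : (x ^ 3) ^ (3 ^ k) = 1 := by rw [← pow_mul, ← pow_succ', hx]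
    have h2 := ih h1
    have hx1 : v x ≤ 1 := (v_one_of_pow (n := 3 ^ (k + 1)) (by positivity) (by rw [hx, map_one])).le
    have e : (x - 1) ^ 3 = (x ^ 3 - 1) + 3 * (x - x ^ 2) := by ring
    have h3 : v ((x - 1) ^ 3) < 1 := by
      rw [e]
      refine v_add_lt h2 ?_
      rw [mul_comm]
      exact v_mul_lt (v_sub_le hx1 (v_pow_le hx1 2)) hv
    exact lt_one_of_pow three_ne_zero h3

/-- the value of the twisted sums -/
theorem tw_unit (hC : Cur L Ω) (hv3 : v 3 < 1) (hc : c ≠ 0) (hc2 : IsCoprime c 2)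
    (hc3 : IsCoprime c 3) {η : MulChar (eis ⧸ (sp c : Ideal eis)) ℂ} {k : ℕ}
    (hη : η ^ (3 ^ k) = 1) (hηu : ∀ u : eis, IsUnit u → et η u = 1)
    (hP : ∀ P ∈ Sc hc, v ((gP P : ℂ) - e4 (gP P)) = 1) {l : ℂ}
    (hl : Tendsto (SS (ec (tw η))) (𝓝[>] 0) (𝓝 l)) : v (l / Ω) = v 3 := by
  classical
  have : Finite (eis ⧸ (sp 3 : Ideal eis)) := finite_q three_ne
  have : Fintype (eis ⧸ (sp 3 : Ideal eis)) := Fintype.ofFinite _
  have hb : 4 * c ≠ 0 := mul_ne_zero four_ne hc
  have hb3 : IsCoprime (4 * c) 3 := IsCoprime.mul_left cop43 hc3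
  have : Finite (eis ⧸ (sp (4 * c) : Ideal eis)) := finite_q hb
  have : Fintype (eis ⧸ (sp (4 * c) : Ideal eis)) := Fintype.ofFinite _
  have hL := hC.lat
  have hΩ := hL.ne
  obtain ⟨w, hw⟩ := WW_lim hL
  have hc0 := coe_ne hc
  have h2v := v2_of3 hv3
  have v4 : v (4 : ℂ) = 1 := by
    have : (4 : ℂ) = 2 * 2 := by norm_num
    rw [this, map_mul, h2v, mul_one]
  -- valuations of the elements prime to three
  have vcop : ∀ r : eis, IsCoprime r 3 → v (r : ℂ) = 1 := by
    rintro r ⟨a, b, hab⟩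
    refine le_antisymm (v_eis r) ?_
    by_contra hlt
    rw [not_le] at hlt
    have h1 : (a : ℂ) * r + b * 3 = 1 := by
      have := congrArg (fun t : eis => (t : ℂ)) hab
      push_cast at this
      exact this
    have h2 : v ((a : ℂ) * r + b * 3) < 1 :=
      v_add_lt (v_mul_lt (v_eis a) hlt) (v_mul_lt (v_eis b) hv3)
    rw [h1, map_one] at h2
    exact lt_irrefl _ h2
  have vc : v (c : ℂ) = 1 := vcop c hc3
  have ve : v (ee psi (4 * c)) = 1 := v_ee hb3
  -- the trivial character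
  have l1 := lim_rmv hL e4_cm gP gP_span (lim_e4 hC) (Sc hc)
  have e1 : rmv (Sc hc) e4 = ec (tw (1 : MulChar (eis ⧸ (sp c : Ideal eis)) ℂ)) := by
    funext α
    unfold rmv ec
    rw [et_tw, map_mul, x4_conj]
    by_cases h : ∃ P ∈ Sc hc, α ∈ P.asIdeal
    · rw [if_pos h]
      obtain ⟨P, hP, hPα⟩ := h
      have h2 : et (1 : MulChar (eis ⧸ (sp c : Ideal eis)) ℂ) α = 0 := by
        rw [et_zero_iff, cop_iff hc]
        exact fun h3 => h3 P hP hPα
      rw [h2, map_zero, zero_mul, mul_zero]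
    · rw [if_neg h]
      have h2 : IsCoprime α c := by
        rw [cop_iff hc]
        intro P hP hα
        exact h ⟨P, hP, hα⟩
      have h3 : et (1 : MulChar (eis ⧸ (sp c : Ideal eis)) ℂ) α = 1 := by
        unfold et
        exact MulChar.one_apply ((unit_iff α).2 h2)
      rw [h3, map_one, one_mul]
      rfl
  rw [e1] at l1
  have vprod : v (∏ P ∈ Sc hc, (1 - e4 (gP P) / (gP P : ℂ))) = 1 := by
    rw [map_prod]
    refine Finset.prod_eq_one fun P hPm => ?_
    have h0 := coe_ne (gP_ne P)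
    have h1 : (1 - e4 (gP P) / (gP P : ℂ)) = ((gP P : ℂ) - e4 (gP P)) / gP P := by
      field_simp
    have h2 : IsCoprime (gP P) 3 := by
      refine hc3.of_isCoprime_of_dvd_left ?_
      have h3 := (mem_Sc hc).1 hPm
      rw [gP_span, Ideal.mem_span_singleton] at h3
      exact h3
    rw [h1, map_div₀, hP P hPm, vcop _ h2, div_one]
  have eout : ∀ (η' : MulChar (eis ⧸ (sp (4 * c) : Ideal eis)) ℂ)
      (x : eis ⧸ (sp (4 * c) : Ideal eis)), et η' x.out = η' x := by
    intro η' x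
    unfold et
    rw [Ideal.Quotient.mk_out]
  have hzero : ∀ η' : MulChar (eis ⧸ (sp c : Ideal eis)) ℂ, tw η' 0 = 0 := by
    intro η'
    refine (tw η').map_nonunit fun h => ?_
    have h4 := tw_ne hc2 η'
    have h5 : ∀ x : eis ⧸ (sp (4 * c) : Ideal eis), x = 1 := by
      intro x
      obtain ⟨u, hu⟩ := h.exists_right_inv
      rw [zero_mul] at hu
      calc x = x * 1 := (mul_one x).symm
        _ = x * 0 := by rw [hu]
        _ = 0 := mul_zero x
        _ = 1 := hu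
    apply h4
    ext x
    rw [h5 (x : eis ⧸ (sp (4 * c) : Ideal eis)), map_one, map_one]
  -- the values on the classes
  set H : eis ⧸ (sp (4 * c) : Ideal eis) → ℂ := fun x => hv L Ω (Ω * x.out / ((4 * c : eis) : ℂ))
    with hH
  have hcopx : ∀ (η' : MulChar (eis ⧸ (sp c : Ideal eis)) ℂ) (x : eis ⧸ (sp (4 * c) : Ideal eis)),
      tw η' x ≠ 0 → 2 * x.out ∉ (sp (4 * c) : Ideal eis) := by
    intro η' x h
    rw [tw_apply] at h
    exact two_not_of_cop ⟨c, rfl⟩ (cop_of_x4 (right_ne_zero_of_mul h))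
  have key : ∀ (η' : MulChar (eis ⧸ (sp c : Ideal eis)) ℂ) (l' : ℂ),
      Tendsto (SS (ec (tw η'))) (𝓝[>] 0) (𝓝 l') →
      l' = Ω / (3 * (4 * c)) * (ee psi (4 * c) * (starRingEnd ℂ) (et (tw η') 3)) *
        (-3 * ℘[L] (Ω / 3) ^ 2 *
          ∑ x : eis ⧸ (sp (4 * c) : Ideal eis), (starRingEnd ℂ) (tw η' x) * H x) := by
    intro η' l' hl'
    have h2 : Xg (4 * c) (fun α => (starRingEnd ℂ) (et (tw η') α)) := by
      refine ⟨fun x y h => ?_, fun x y => ?_, fun x => ?_⟩
      · rw [et_per h]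
      · rw [et_mul, map_mul]
      · rw [RCLike.norm_conj]
        exact et_bd hb x
    have h3 := lim_gen hL hb hb3.symm h2 (fun x hx => by
      unfold et
      rw [Ideal.Quotient.eq_zero_iff_mem.2 hx, hzero, map_zero]) hw
    have h4 := tendsto_nhds_unique hl' h3
    have hs0 : ∑ x : eis ⧸ (sp (4 * c) : Ideal eis), (starRingEnd ℂ) (tw η' x) = 0 := by
      rw [← map_sum, MulChar.sum_eq_zero_of_ne_one (tw_ne hc2 η'), map_zero]
    have hsum : ∑ x : eis ⧸ (sp (4 * c) : Ideal eis), (starRingEnd ℂ) (tw η' x) *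
        HH L Ω 3 (ee psi) (Ω * x.out / ((4 * c : eis) : ℂ)) = -3 * ℘[L] (Ω / 3) ^ 2 *
          ∑ x : eis ⧸ (sp (4 * c) : Ideal eis), (starRingEnd ℂ) (tw η' x) * H x := by
      have h5 : ∀ x : eis ⧸ (sp (4 * c) : Ideal eis), (starRingEnd ℂ) (tw η' x) *
          HH L Ω 3 (ee psi) (Ω * x.out / ((4 * c : eis) : ℂ)) = -3 * ℘[L] (Ω / 3) ^ 2 *
          ((starRingEnd ℂ) (tw η' x) * H x) + -℘[L] (Ω / 3) ^ 2 * ℘'[L] (Ω / 3) *
          (starRingEnd ℂ) (tw η' x) := by
        intro x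
        by_cases h6 : tw η' x = 0
        · rw [h6, map_zero]
          ring
        · rw [hh_hv hC hb hb3 (hcopx η' x h6)]
          simp only [hH]
          ring
      rw [Finset.sum_congr rfl fun x _ => h5 x, Finset.sum_add_distrib, ← Finset.mul_sum,
        ← Finset.mul_sum, hs0, mul_zero, add_zero]
    rw [h4]
    simp only [eout]
    rw [hs0, hsum, zero_mul, add_zero]
    push_cast [c_three, c_four]
    rfl
  have k1 := key 1 _ l1
  have k2 := key η _ hl
  -- orbits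
  obtain ⟨uo, huo⟩ := omr_unit
  set τ : (eis ⧸ (sp (4 * c) : Ideal eis)) ≃ (eis ⧸ (sp (4 * c) : Ideal eis)) :=
    Units.mulLeft (Units.map (Ideal.Quotient.mk (sp (4 * c) : Ideal eis)).toMonoidHom uo) with hτ
  have hτa : ∀ x, τ x = Ideal.Quotient.mk (sp (4 * c) : Ideal eis) omr * x := by
    intro x
    rw [hτ, ← huo]
    rfl
  have hτ3 : ∀ x, τ (τ (τ x)) = x := by
    intro x
    rw [hτa, hτa, hτa, ← mul_assoc, ← mul_assoc, ← map_mul, ← map_mul]
    have : omr * omr * omr = 1 := by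
      have := omr_cube
      linear_combination this
    rw [this, map_one, one_mul]
  obtain ⟨T, hT⟩ := triple_sum τ hτ3
  have hfix : ∀ x, τ x = x → x = 0 := by
    intro x hx
    rw [hτa] at hx
    obtain ⟨a, rfl⟩ := Ideal.Quotient.mk_surjective x
    rw [← map_mul, Ideal.Quotient.mk_eq_mk_iff_sub_mem] at hx
    rw [Ideal.Quotient.eq_zero_iff_mem, ← th_mem hb3]
    have h1 := (sp (4 * c) : Ideal eis).mul_mem_left (-omr) hx
    have h2 : th * a = -omr * (omr * a - a) := by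
      unfold th
      linear_combination a * omr_sq
    rw [h2]
    exact h1
  have hHτ : ∀ x, H (τ x) = H x := by
    intro x
    rw [hτa]
    obtain ⟨a, rfl⟩ := Ideal.Quotient.mk_surjective x
    simp only [hH]
    have m1 : hv L Ω (Ω * (Ideal.Quotient.mk (sp (4 * c) : Ideal eis) a).out / ((4 * c : eis) : ℂ)) =
        hv L Ω (Ω * a / ((4 * c : eis) : ℂ)) := by
      apply hv_mod hC hb
      have := (sp (4 * c) : Ideal eis).neg_mem (out_mk (sp (4 * c) : Ideal eis) a)
      rwa [neg_sub] at this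
    have m2 : hv L Ω (Ω * (Ideal.Quotient.mk (sp (4 * c) : Ideal eis) (omr * a)).out /
        ((4 * c : eis) : ℂ)) = hv L Ω (Ω * ((omr * a : eis) : ℂ) / ((4 * c : eis) : ℂ)) := by
      apply hv_mod hC hb
      have := (sp (4 * c) : Ideal eis).neg_mem (out_mk (sp (4 * c) : Ideal eis) (omr * a))
      rwa [neg_sub] at this
    rw [← map_mul, m1, m2]
    have e : Ω * ((omr * a : eis) : ℂ) / ((4 * c : eis) : ℂ) =
        (omr : ℂ) * (Ω * a / ((4 * c : eis) : ℂ)) := by
      push_cast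
      ring
    rw [e, hv_unit hC omr_unit]
  have htwτ : ∀ η' : MulChar (eis ⧸ (sp c : Ideal eis)) ℂ, et η' omr = 1 → ∀ x,
      tw η' (τ x) = tw η' x := by
    intro η' h x
    have h1 : tw η' (Ideal.Quotient.mk (sp (4 * c) : Ideal eis) omr) = 1 := by
      have h2 : et (tw η') omr = 1 := by rw [et_tw, h, x4_unit omr_unit, mul_one]
      exact h2
    rw [hτa, map_mul, h1, one_mul]
  have hsumT : ∀ η' : MulChar (eis ⧸ (sp c : Ideal eis)) ℂ, et η' omr = 1 →
      ∑ x : eis ⧸ (sp (4 * c) : Ideal eis), (starRingEnd ℂ) (tw η' x) * H x =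
      3 * ∑ x ∈ T, (starRingEnd ℂ) (tw η' x) * H x := by
    intro η' h
    refine hT _ (fun x hx => ?_) (fun x => ?_)
    · rw [hfix x hx, hzero, map_zero, zero_mul]
    · rw [htwτ η' h, hHτ]
  have ho1 : et (1 : MulChar (eis ⧸ (sp c : Ideal eis)) ℂ) omr = 1 := by
    unfold et
    refine MulChar.one_apply ((unit_iff _).2 ?_)
    obtain ⟨t, ht⟩ := omr_unit.exists_left_inv
    exact ⟨t, 0, by rw [ht, zero_mul, add_zero]⟩
  rw [hsumT 1 ho1] at k1
  rw [hsumT η (hηu _ omr_unit)] at k2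
  set S1 := ∑ x ∈ T, (starRingEnd ℂ) (tw (1 : MulChar (eis ⧸ (sp c : Ideal eis)) ℂ) x) * H x
  set S2 := ∑ x ∈ T, (starRingEnd ℂ) (tw η x) * H x
  -- the relation between the valuations
  have hval : ∀ (η' : MulChar (eis ⧸ (sp c : Ideal eis)) ℂ) (k : ℕ), η' ^ (3 ^ k) = 1 →
      ∀ S l' : ℂ, l' = Ω / (3 * (4 * c)) *
        (ee psi (4 * c) * (starRingEnd ℂ) (et (tw η') 3)) *
        (-3 * ℘[L] (Ω / 3) ^ 2 * (3 * S)) → v (l' / Ω) = v 3 * v S := by
    intro η' k hk S l' hl'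
    have hη3 : v ((starRingEnd ℂ) (et (tw η') 3)) = 1 := by
      rw [et_tw, map_mul, x4_conj, map_mul, v_x4 (a := 3) ⟨1, -1, by norm_num⟩, mul_one]
      refine v_one_of_pow (n := 3 ^ k) (by positivity) ?_
      have h2 : IsUnit (Ideal.Quotient.mk (sp c : Ideal eis) 3) := (unit_iff 3).2 hc3.symm
      unfold et
      rw [← map_pow, ← MulChar.pow_apply' _ (by positivity), hk, MulChar.one_apply h2, map_one,
        map_one]
    have h5 : l' / Ω = -(3 * (((ee psi (4 * c) * (starRingEnd ℂ) (et (tw η') 3)) *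
        ℘[L] (Ω / 3) ^ 2) * S) / (4 * c)) := by
      rw [hl']
      field_simp
    rw [h5, Valuation.map_neg, map_div₀, map_mul, map_mul v (4 : ℂ), v4, vc, mul_one, div_one,
      map_mul, map_mul, map_mul, ve, hη3, map_pow, v_x0 hC]
    simp
  have w1 := hval 1 0 (one_pow _) S1 _ k1
  have w2 := hval η k hη S2 _ k2
  have w3 : v (B4 L Ω * (∏ P ∈ Sc hc, (1 - e4 (gP P) / (gP P : ℂ))) / Ω) = v 3 := by
    have : B4 L Ω * (∏ P ∈ Sc hc, (1 - e4 (gP P) / (gP P : ℂ))) / Ω =
        B4 L Ω / Ω * (∏ P ∈ Sc hc, (1 - e4 (gP P) / (gP P : ℂ))) := by ring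
    rw [this, map_mul, v_B4 hC hv3, vprod, mul_one]
  rw [w3] at w1
  have hp3 := v3_pos (v := v)
  have vS1 : v S1 = 1 := by
    have := w1.symm
    exact mul_left_cancel₀ hp3.ne' (this.trans (mul_one _).symm)
  have vd : v (S2 - S1) < 1 := by
    rw [← Finset.sum_sub_distrib]
    refine v_sum_lt T fun x _ => ?_
    have h2 : (starRingEnd ℂ) (tw η x) * H x -
        (starRingEnd ℂ) (tw (1 : MulChar (eis ⧸ (sp c : Ideal eis)) ℂ) x) * H x =
        ((starRingEnd ℂ) (et η x.out) -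
          (starRingEnd ℂ) (et (1 : MulChar (eis ⧸ (sp c : Ideal eis)) ℂ) x.out)) *
        (x4 x.out * H x) := by
      rw [tw_apply, tw_apply, map_mul, map_mul, x4_conj]
      ring
    rw [h2]
    by_cases hx : x4 x.out = 0
    · rw [hx, zero_mul, mul_zero, map_zero]
      exact zero_lt_one
    have hx2 := cop_of_x4 hx
    have hint : v (x4 x.out * H x) ≤ 1 := by
      rw [map_mul, v_x4 hx2, one_mul]
      exact v_hv hC hv3 hb hb3 (two_not_of_cop ⟨c, rfl⟩ hx2)
    by_cases hu : IsCoprime x.out c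
    · have hu' := (unit_iff (c := c) x.out).2 hu
      have h3 : et (1 : MulChar (eis ⧸ (sp c : Ideal eis)) ℂ) x.out = 1 := by
        unfold et
        exact MulChar.one_apply hu'
      rw [h3, map_one, map_mul]
      have h4 : v ((starRingEnd ℂ) (et η x.out) - 1) < 1 := by
        refine v_root3 hv3 (k := k) ?_
        unfold et
        rw [← map_pow, ← MulChar.pow_apply' _ (by positivity), hη, MulChar.one_apply hu', map_one]
      rw [← map_mul]
      exact v_mul_lt' h4 hint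
    · rw [(et_zero_iff x.out).2 hu, (et_zero_iff x.out).2 hu, sub_self, zero_mul, map_zero]
      exact zero_lt_one
  have vS2 : v S2 = 1 := by
    have h2 : S2 = S1 + (S2 - S1) := by ring
    rw [h2, Valuation.map_add_eq_of_lt_left, vS1]
    rw [vS1]
    exact vd
  rw [w2, vS2, mul_one]

end Pool.Agent.T9h31.Ab
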