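import Mathlib
import Pool.Agent.T9h31.AbLoc
import Pool.Agent.T9h31.AbVal

/-!
# Primes of an abelian extension of degree a power of three of the field of cube roots of unity
-/

set_option autoImplicit false
set_option linter.unusedSectionVars false
set_option linter.unusedVariables false

namespace Pool.Agent.T9h31.Ab

open NumberField IsDedekindDomain IsLocalRing Filter Topology Complex
open Pool.Agent.W192.HK Pool.Agent.TH936.CM Pool.Agent.TH936.PU
open Pool.Agent.H921R2.TatePole (two_le_nm)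
open Pool.Agent.W189.NF (aV eV redMap)
open Pool.Agent.W192.CM (nu)
open Pool.Agent.Y696
open scoped Pointwise

/-- an abelian extension of `ℚ(ω)` with its Artin map -/
structure Dt3 {K : Type} [Field K] [NumberField K] (ι : eis →+* 𝓞 K) (G : Type) [CommGroup G]
    [MulSemiringAction G (𝓞 K)] (c : eis) (art : (eis ⧸ (sp c : Ideal eis))ˣ →* G) : Prop where
  c_ne : c ≠ 0
  cop2 : IsCoprime c 2
  cop3 : IsCoprime c 3
  nsq : ∀ P : HeightOneSpectrum eis, c ∈ P.asIdeal → ∀ x : eis, x ^ 2 + 1 ∉ P.asIdeal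
  pgrp : ∃ n, Nat.card G = 3 ^ n
  inv : ∀ b : 𝓞 K, (∀ g : G, g • b = b) → ∃ a, ι a = b
  fix : ∀ (g : G) (a : eis), g • ι a = ι a
  surj : Function.Surjective art
  unr : ∀ v : HeightOneSpectrum (𝓞 K), ι c ∉ v.asIdeal →
    ∀ g : G, (∀ x : 𝓞 K, g • x - x ∈ v.asIdeal) → g = 1
  frob : ∀ π : eis, Prime π → ∀ u : (eis ⧸ (sp c : Ideal eis))ˣ,
    (u : eis ⧸ (sp c : Ideal eis)) = Ideal.Quotient.mk _ π →
    ∀ v : HeightOneSpectrum (𝓞 K), ι π ∈ v.asIdeal →
    ∀ x : 𝓞 K, art u • x - x ^ Nat.card (eis ⧸ (sp π : Ideal eis)) ∈ v.asIdeal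
  bad : ∀ v : HeightOneSpectrum (𝓞 K), ((2 : 𝓞 K) ∈ v.asIdeal ∨ (3 : 𝓞 K) ∈ v.asIdeal) →
    aV (Em K) v = 0 ∧ eV (Em K) v = 0

section
variable {K : Type} [Field K] [NumberField K] {ι : eis →+* 𝓞 K} {G : Type} [CommGroup G] [Finite G]
  [MulSemiringAction G (𝓞 K)] {c : eis} {art : (eis ⧸ (sp c : Ideal eis))ˣ →* G}

/-- the residue degree -/
theorem exists_deg (D : Dt3 ι G c art) (v : HeightOneSpectrum (𝓞 K)) :
    ∃ f : ℕ, 0 < f ∧ f ∣ Nat.card G ∧
      nK v = Nat.card (eis ⧸ (bel ι v).asIdeal) ^ f := by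
  classical
  let _ : Algebra eis (𝓞 K) := ι.toAlgebra
  have halg : ∀ a : eis, algebraMap eis (𝓞 K) a = ι a := fun _ => rfl
  have hcomm : SMulCommClass G eis (𝓞 K) := by
    constructor
    intro g a x
    rw [Algebra.smul_def, Algebra.smul_def, halg, smul_mul', D.fix]
  have hinv : Algebra.IsInvariant eis (𝓞 K) G := ⟨fun b hb => D.inv b hb⟩
  have hpmax : (bel ι v).asIdeal.IsMaximal := (bel ι v).isPrime.isMaximal (bel ι v).ne_bot
  have hvmax : v.asIdeal.IsMaximal := v.isPrime.isMaximal v.ne_bot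
  have hover : v.asIdeal.LiesOver (bel ι v).asIdeal := ⟨rfl⟩
  have hfv : Finite (𝓞 K ⧸ v.asIdeal) := Ideal.finiteQuotientOfFreeOfNeBot v.asIdeal v.ne_bot
  have hfp : Finite (eis ⧸ (bel ι v).asIdeal) := by
    rw [gP_span]
    exact finite_q (gP_ne _)
  let _ : Field (eis ⧸ (bel ι v).asIdeal) := Ideal.Quotient.field _
  let _ : Field (𝓞 K ⧸ v.asIdeal) := Ideal.Quotient.field _
  let _ : Fintype (eis ⧸ (bel ι v).asIdeal) := Fintype.ofFinite _
  let _ : Fintype (𝓞 K ⧸ v.asIdeal) := Fintype.ofFinite _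
  refine ⟨Module.finrank (eis ⧸ (bel ι v).asIdeal) (𝓞 K ⧸ v.asIdeal), Module.finrank_pos, ?_, ?_⟩
  · have h1 := Ideal.Quotient.stabilizerHom_surjective G (bel ι v).asIdeal v.asIdeal
    have h2 : Nat.card ((𝓞 K ⧸ v.asIdeal) ≃ₐ[eis ⧸ (bel ι v).asIdeal] (𝓞 K ⧸ v.asIdeal)) ∣
        Nat.card (MulAction.stabilizer G v.asIdeal) := Subgroup.card_dvd_of_surjective _ h1
    have h3 : Nat.card (MulAction.stabilizer G v.asIdeal) ∣ Nat.card G :=
      Subgroup.card_subgroup_dvd_card _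
    have h4 := IsGalois.card_aut_eq_finrank (eis ⧸ (bel ι v).asIdeal) (𝓞 K ⧸ v.asIdeal)
    rw [h4] at h2
    exact h2.trans h3
  · have h := Module.card_eq_pow_finrank (K := eis ⧸ (bel ι v).asIdeal) (V := 𝓞 K ⧸ v.asIdeal)
    rw [← card_nm, Nat.card_eq_fintype_card, h, Nat.card_eq_fintype_card]

theorem exists_over (D : Dt3 ι G c art) (P : HeightOneSpectrum eis) :
    ∃ v : HeightOneSpectrum (𝓞 K), bel ι v = P := by
  have hprime : Prime (gP P) := by
    rw [← Ideal.span_singleton_prime (gP_ne P)]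
    have := P.isPrime
    rwa [gP_span] at this
  have hnu : ¬ IsUnit (ι (gP P)) := by
    intro hun
    obtain ⟨w, hw⟩ := hun.exists_right_inv
    obtain ⟨b, hb⟩ := D.inv w (by
      intro g
      have h4 : ι (gP P) * (g • w) = 1 := by
        rw [← D.fix g (gP P), ← smul_mul', hw, smul_one]
      exact hun.mul_left_cancel (h4.trans hw.symm))
    apply hprime.not_isUnit
    refine IsUnit.of_mul_eq_one b ?_
    apply ι_inj ι
    rw [map_mul, map_one, hb]
    exact hw
  obtain ⟨M, hM, hzM⟩ := exists_max_ideal_of_mem_nonunits (mem_nonunits_iff.2 hnu)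
  refine ⟨⟨M, hM.isPrime, ?_⟩, bel_eq_of ι hzM⟩
  intro hbot
  rw [hbot, Ideal.mem_bot] at hzM
  exact gP_ne P (ι_inj ι (by rw [hzM, map_zero]))

/-- the primes that are not ramified -/
theorem split (D : Dt3 ι G c art) {P : HeightOneSpectrum eis} (hP : c ∉ P.asIdeal)
    {u : (eis ⧸ (sp c : Ideal eis))ˣ} (hu : (u : eis ⧸ (sp c : Ideal eis)) = Ideal.Quotient.mk _ (gP P)) :
    (∀ v : HeightOneSpectrum (𝓞 K), bel ι v = P →
      nK v = Nat.card (eis ⧸ P.asIdeal) ^ orderOf (art u)) ∧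
    Fintype.card {v : HeightOneSpectrum (𝓞 K) // bel ι v = P} = Nat.card G / orderOf (art u) := by
  classical
  let _ : Algebra eis (𝓞 K) := ι.toAlgebra
  have halg : ∀ a : eis, algebraMap eis (𝓞 K) a = ι a := fun _ => rfl
  have hcomm : SMulCommClass G eis (𝓞 K) := by
    constructor
    intro g a x
    rw [Algebra.smul_def, Algebra.smul_def, halg, smul_mul', D.fix]
  have hinv : Algebra.IsInvariant eis (𝓞 K) G := ⟨fun b hb => D.inv b hb⟩
  have hpmax : P.asIdeal.IsMaximal := P.isPrime.isMaximal P.ne_bot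
  have hfp : Finite (eis ⧸ P.asIdeal) := by
    rw [gP_span]
    exact finite_q (gP_ne _)
  have hprime : Prime (gP P) := by
    rw [← Ideal.span_singleton_prime (gP_ne P)]
    have := P.isPrime
    rwa [gP_span] at this
  have key : ∀ v : HeightOneSpectrum (𝓞 K), bel ι v = P →
      nK v = Nat.card (eis ⧸ P.asIdeal) ^ orderOf (art u) ∧
      (P.asIdeal.primesOver (𝓞 K)).ncard * orderOf (art u) = Nat.card G := by
    intro v hv
    have hvmax : v.asIdeal.IsMaximal := v.isPrime.isMaximal v.ne_bot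
    have hfv : Finite (𝓞 K ⧸ v.asIdeal) := Ideal.finiteQuotientOfFreeOfNeBot v.asIdeal v.ne_bot
    have hover : v.asIdeal.LiesOver P.asIdeal := ⟨by rw [← hv]; rfl⟩
    have hcv : ι c ∉ v.asIdeal := by
      rw [← mem_bel, hv]
      exact hP
    have h5 := Pool.Agent.W164.RC.split_abs G P.asIdeal v.asIdeal (D.unr v hcv) (art u) (by
      intro x
      have h6 := D.frob (gP P) hprime u hu v ((bel_iff ι).1 hv) x
      rw [gP_span P]
      exact h6)
    refine ⟨?_, h5.2⟩
    rw [← card_nm]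
    exact h5.1
  refine ⟨fun v hv => (key v hv).1, ?_⟩
  obtain ⟨v0, hv0⟩ := exists_over D P
  have h6 := (key v0 hv0).2
  have h7 : Fintype.card {v : HeightOneSpectrum (𝓞 K) // bel ι v = P} =
      (P.asIdeal.primesOver (𝓞 K)).ncard := by
    rw [← Nat.card_eq_fintype_card, ← Nat.card_coe_set_eq]
    refine Nat.card_congr
      { toFun := fun v => ⟨v.1.asIdeal, v.1.isPrime,
          ⟨(congrArg HeightOneSpectrum.asIdeal v.2).symm⟩⟩
        invFun := fun Q => ⟨⟨Q.1, Q.2.1, ?_⟩, ?_⟩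
        left_inv := fun v => rfl
        right_inv := fun Q => rfl }
    · have h8 := Q.2.2.over
      intro hbot
      apply P.ne_bot
      rw [h8, hbot, eq_bot_iff]
      intro x hx
      rw [Ideal.mem_comap, Ideal.mem_bot, halg] at hx
      rw [Ideal.mem_bot]
      exact ι_inj ι (by rw [hx, map_zero])
    · apply HeightOneSpectrum.ext
      exact Q.2.2.over.symm
  rw [h7, ← h6, Nat.mul_div_cancel _ (orderOf_pos _)]

/-- the Artin map is trivial on the units -/
lemma art_unit (D : Dt3 ι G c art) {w : eis} (hw : IsUnit w) {u : (eis ⧸ (sp c : Ideal eis))ˣ}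
    (hu : (u : eis ⧸ (sp c : Ideal eis)) = Ideal.Quotient.mk _ w) : art u = 1 := by
  have hPp : (sp 2 : Ideal eis).IsPrime := (Ideal.span_singleton_prime two_ne).2 prime_two
  set P : HeightOneSpectrum eis := ⟨sp 2, hPp, by
    rw [Ne, Ideal.span_singleton_eq_bot]; exact two_ne⟩ with hP
  obtain ⟨v, hv⟩ := exists_over D P
  have h2v : ι 2 ∈ v.asIdeal := by
    rw [← mem_bel, hv]
    exact Ideal.mem_span_singleton_self 2
  have hcv : ι c ∉ v.asIdeal := by
    intro h
    obtain ⟨a, b, hab⟩ := D.cop2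
    apply v.isPrime.ne_top
    rw [Ideal.eq_top_iff_one, ← map_one ι, ← hab, map_add, map_mul, map_mul]
    exact v.asIdeal.add_mem (v.asIdeal.mul_mem_left _ h) (v.asIdeal.mul_mem_left _ h2v)
  obtain ⟨u2, hu2⟩ := (unit_iff (c := c) 2).2 D.cop2.symm
  have hw2 : Prime (w * 2) := by
    rw [← Ideal.span_singleton_prime (mul_ne_zero hw.ne_zero two_ne),
      Ideal.span_singleton_mul_left_unit hw]
    exact hPp
  have h1 := D.frob 2 prime_two u2 hu2 v h2v
  have h2 := D.frob (w * 2) hw2 (u * u2) (by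
    rw [Units.val_mul, hu, hu2, map_mul]) v (by
    rw [map_mul]
    exact v.asIdeal.mul_mem_left _ h2v)
  have h3 : (sp (w * 2) : Ideal eis) = sp 2 := Ideal.span_singleton_mul_left_unit hw 2
  rw [h3] at h2
  apply D.unr v hcv
  intro x
  have h4 := v.asIdeal.sub_mem (h2 ((art u2)⁻¹ • x)) (h1 ((art u2)⁻¹ • x))
  rw [sub_sub_sub_cancel_right, map_mul, mul_smul, smul_inv_smul] at h4
  exact h4

lemma et_eta_unit (D : Dt3 ι G c art) (χ : MulChar G ℂ) (w : eis) (hw : IsUnit w) :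
    et (eta art χ) w = 1 := by
  have h1 : IsCoprime w c := by
    obtain ⟨t, ht⟩ := hw.exists_left_inv
    exact ⟨t, 0, by rw [ht, zero_mul, add_zero]⟩
  obtain ⟨u, hu⟩ := (unit_iff w).2 h1
  unfold et
  rw [← hu, eta_unit, art_unit D hw hu, map_one]


lemma eta_pow3 (D : Dt3 ι G c art) (χ : MulChar G ℂ) : ∃ n : ℕ, eta art χ ^ (3 ^ n) = 1 := by
  obtain ⟨n, hn⟩ := D.pgrp
  refine ⟨n, ?_⟩
  ext u
  rw [MulChar.pow_apply_coe, eta_unit, ← map_pow, ← hn, pow_card_eq_one', map_one,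
    MulChar.one_apply_coe]

/-- the character of the curve -/
noncomputable def pq (I : Ideal eis) : ℂ := psi I * xI I

lemma xI_cases (I : Ideal eis) : xI I = 0 ∨ xI I = 1 ∨ xI I = -1 := by
  obtain ⟨α, rfl⟩ : ∃ α : eis, I = sp α :=
    ⟨_, (Submodule.IsPrincipal.span_singleton_generator I).symm⟩
  exact x4_cases α

lemma xI_conj (I : Ideal eis) : (starRingEnd ℂ) (xI I) = xI I := by
  rcases xI_cases I with h | h | h <;> rw [h] <;> simp

lemma pq_mul (I J : Ideal eis) : pq (I * J) = pq I * pq J := by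
  unfold pq
  rw [psi_mul, xI_mul]
  ring

lemma pq_top : pq ⊤ = 1 := by
  unfold pq
  rw [psi_top, xI_top, mul_one]

/-- the coefficients at all the primes -/
theorem aV_all (D : Dt3 ι G c art) (v : HeightOneSpectrum (𝓞 K)) {f : ℕ} (hf0 : 0 < f)
    (hf : nK v = Nat.card (eis ⧸ (bel ι v).asIdeal) ^ f) :
    ((aV (Em K) v : ℤ) : ℂ) = pq (bel ι v).asIdeal ^ f +
      ((starRingEnd ℂ) (pq (bel ι v).asIdeal)) ^ f ∧
    ((eV (Em K) v : ℤ) : ℂ) = (pq (bel ι v).asIdeal *
      (starRingEnd ℂ) (pq (bel ι v).asIdeal)) ^ f ∧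
    (((2 : 𝓞 K) ∉ v.asIdeal ∧ (3 : 𝓞 K) ∉ v.asIdeal) →
      pq (bel ι v).asIdeal * (starRingEnd ℂ) (pq (bel ι v).asIdeal) =
        (Nat.card (eis ⧸ (bel ι v).asIdeal) : ℂ)) := by
  have hm2 : ι 2 = 2 := map_ofNat ι 2
  have hm3 : ι 3 = 3 := map_ofNat ι 3
  by_cases h2 : (2 : 𝓞 K) ∈ v.asIdeal
  · obtain ⟨h4, h5⟩ := D.bad v (Or.inl h2)
    have h6 : pq (bel ι v).asIdeal = 0 := by
      unfold pq
      have h7 : x4 (gP (bel ι v)) = 0 := by
        apply x4_zero
        intro h8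
        obtain ⟨a, b, hab⟩ := h8
        apply (bel ι v).isPrime.ne_top
        rw [Ideal.eq_top_iff_one, ← hab]
        refine (bel ι v).asIdeal.add_mem ((bel ι v).asIdeal.mul_mem_left _ ?_)
          ((bel ι v).asIdeal.mul_mem_left _ ?_)
        · have := Ideal.mem_span_singleton_self (gP (bel ι v))
          rwa [← sp, ← gP_span] at this
        · rw [mem_bel, hm2]
          exact h2
      have h8 : xI (bel ι v).asIdeal = 0 := by
        rw [gP_span]
        exact h7
      rw [h8, mul_zero]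
    rw [h4, h5, h6]
    refine ⟨?_, ?_, fun h => absurd h2 h.1⟩
    · rw [map_zero, zero_pow hf0.ne']
      simp
    · rw [zero_mul, zero_pow hf0.ne', Int.cast_zero]
  by_cases h3 : (3 : 𝓞 K) ∈ v.asIdeal
  · obtain ⟨h4, h5⟩ := D.bad v (Or.inr h3)
    have h6 : pq (bel ι v).asIdeal = 0 := by
      unfold pq
      have h7 : psi (bel ι v).asIdeal = 0 := by
        rw [psi_zero_iff, Ideal.isCoprime_iff_sup_eq]
        intro h
        apply (bel ι v).isPrime.ne_top
        rw [← h, left_eq_sup, Ideal.span_singleton_le_iff_mem]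
        rw [mem_bel, hm3]
        exact h3
      rw [h7, zero_mul]
    rw [h4, h5, h6]
    refine ⟨?_, ?_, fun h => absurd h3 h.2⟩
    · rw [map_zero, zero_pow hf0.ne']
      simp
    · rw [zero_mul, zero_pow hf0.ne', Int.cast_zero]
  obtain ⟨h4, h5, h6⟩ := aV_Em v h2 h3
  obtain ⟨k1, k2, k3⟩ := aV_val (ι := ι) v (by rw [hm3]; exact h3) hf
  have hx : xI (bel ι v).asIdeal ^ 2 = 1 := by
    rw [gP_span]
    refine x4_sq (a := gP (bel ι v)) ?_
    apply cop_of_not_mem
    intro h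
    rw [Ideal.mem_span_singleton] at h
    -- the prime divides two
    have hpr : Prime (gP (bel ι v)) := by
      rw [← Ideal.span_singleton_prime (gP_ne (bel ι v))]
      have := (bel ι v).isPrime
      rwa [gP_span] at this
    have h7 : Associated (2 : eis) (gP (bel ι v)) := prime_two.associated_of_dvd hpr h
    apply h2
    rw [← hm2, ← mem_bel, gP_span, Ideal.mem_span_singleton]
    exact h7.symm.dvd
  have hχ : ((ZMod.χ₄ ((nK v : ℕ) : ZMod 4) : ℤ) : ℂ) = xI (bel ι v).asIdeal ^ f := by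
    unfold xI nN
    rw [hf]
    push_cast
    rw [map_pow]
    push_cast
    rfl
  have hpp : pq (bel ι v).asIdeal * (starRingEnd ℂ) (pq (bel ι v).asIdeal) =
      psi (bel ι v).asIdeal * (starRingEnd ℂ) (psi (bel ι v).asIdeal) := by
    unfold pq
    rw [map_mul, xI_conj]
    linear_combination (psi (bel ι v).asIdeal * (starRingEnd ℂ) (psi (bel ι v).asIdeal)) * hx
  refine ⟨?_, ?_, fun _ => ?_⟩
  · rw [h4]
    push_cast
    rw [hχ, k1]
    unfold pq
    rw [map_mul, xI_conj, mul_pow, mul_pow]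
    ring
  · rw [h5, hpp, k3, hf]
    push_cast
    rfl
  · rw [hpp, k3]

end

end Pool.Agent.T9h31.Ab
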