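import Mathlib
import Pool.Agent.T9h31.AbFld

/-!
# Factorization of the L-function of `y² = x³ - 16`
-/

set_option autoImplicit false
set_option linter.unusedSectionVars false
set_option linter.unusedVariables false

namespace Pool.Agent.T9h31.Ab

open NumberField IsDedekindDomain IsLocalRing Filter Topology Complex
open Pool.Agent.W192.HK Pool.Agent.TH936.CM Pool.Agent.TH936.PU
open Pool.Agent.H921R2.TatePole (two_le_nm)
open Pool.Agent.W189.NF (aV eV redMap)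
open Pool.Agent.W192.CM (nu)
open Pool.Agent.Y696

section
variable {K : Type} [Field K] [NumberField K] {ι : eis →+* 𝓞 K} {G : Type} [CommGroup G] [Finite G]
  [MulSemiringAction G (𝓞 K)] {c : eis} {art : (eis ⧸ (sp c : Ideal eis))ˣ →* G}

/-- the denominator of the local factor -/
noncomputable def EV3 (v : HeightOneSpectrum (𝓞 K)) (s : ℂ) : ℂ :=
  1 - (aV (Em K) v : ℂ) * (nK v : ℂ) ^ (-s) + (eV (Em K) v : ℂ) * ((nK v : ℂ) ^ (-s)) ^ 2

/-- the local factor -/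
noncomputable def XX3 (v : HeightOneSpectrum (𝓞 K)) (s : ℂ) : ℂ := (EV3 v s)⁻¹

/-- the denominator of the local factor at a prime -/
lemma EV3_val (D : Dt3 ι G c art) (v : HeightOneSpectrum (𝓞 K)) {f : ℕ} (hf0 : 0 < f)
    (hf : nK v = Nat.card (eis ⧸ (bel ι v).asIdeal) ^ f) (s : ℂ) :
    EV3 v s = (1 - (pq (bel ι v).asIdeal * (nm (bel ι v).asIdeal : ℂ) ^ (-s)) ^ f) *
      (1 - ((starRingEnd ℂ) (pq (bel ι v).asIdeal) * (nm (bel ι v).asIdeal : ℂ) ^ (-s)) ^ f) := by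
  obtain ⟨h1, h2, -⟩ := aV_all D v hf0 hf
  unfold EV3
  rw [h1, h2]
  have e1 : ((nK v : ℕ) : ℂ) ^ (-s) = ((nm (bel ι v).asIdeal : ℂ) ^ (-s)) ^ f := by
    rw [hf, nm_P]
    push_cast
    rw [← Complex.natCast_cpow_natCast_mul, Complex.cpow_nat_mul]
  rw [e1]
  ring

lemma pq_norm (P : HeightOneSpectrum eis) : ‖pq P.asIdeal‖ ≤ (Nat.card (eis ⧸ P.asIdeal) : ℝ) := by
  have h1 : ‖pq P.asIdeal‖ ≤ ‖psi P.asIdeal‖ := by
    unfold pq
    rw [norm_mul]
    have h : ‖xI P.asIdeal‖ ≤ 1 := by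
      rcases xI_cases P.asIdeal with h | h | h <;> rw [h] <;> simp
    exact mul_le_of_le_one_right (norm_nonneg _) h
  refine h1.trans ?_
  by_cases h3 : IsCoprime P.asIdeal (sp (3 : eis))
  · obtain ⟨π, hπ1, hπ2⟩ := exists_prim h3
    have h4 : psi P.asIdeal = π := by rw [hπ1]; exact psi_prim hπ2
    have h5 : ((Nat.card (eis ⧸ P.asIdeal) : ℕ) : ℝ) = Complex.normSq (π : ℂ) := by
      rw [hπ1]
      exact (lbasic eis om qr).2.2.2.2.1 π
    have h6 := card_two_le P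
    have h7 : (2 : ℝ) ≤ (Nat.card (eis ⧸ P.asIdeal) : ℝ) := by exact_mod_cast h6
    rw [h4]
    rw [Complex.normSq_eq_norm_sq] at h5
    nlinarith [norm_nonneg (π : ℂ)]
  · have h4 : psi P.asIdeal = 0 := (psi_zero_iff _).2 h3
    rw [h4, norm_zero]
    exact Nat.cast_nonneg _

/-- the product over the characters of the factors at `P` -/
noncomputable def R3 (art : (eis ⧸ (sp c : Ideal eis))ˣ →* G) [Fintype (MulChar G ℂ)]
    (P : HeightOneSpectrum eis) (s : ℂ) : ℂ :=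
  ∏ χ : MulChar G ℂ,
    ((1 - pq P.asIdeal * eI (eta art χ) P.asIdeal * (nm P.asIdeal : ℂ) ^ (-s))⁻¹ *
    (starRingEnd ℂ) ((1 - pq P.asIdeal * eI (eta art χ) P.asIdeal *
      (nm P.asIdeal : ℂ) ^ (-((starRingEnd ℂ) s)))⁻¹))

omit [Finite G] in
lemma R3_of_c (D : Dt3 ι G c art) [Fintype (MulChar G ℂ)] {P : HeightOneSpectrum eis}
    (hP : c ∈ P.asIdeal) (s : ℂ) : R3 art P s = 1 := by
  unfold R3
  refine Finset.prod_eq_one fun χ _ => ?_
  have h1 : eI (eta art χ) P.asIdeal = 0 := by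
    show et (eta art χ) (gP P) = 0
    rw [et_zero_iff]
    rintro ⟨a, b, hab⟩
    apply P.isPrime.ne_top
    rw [Ideal.eq_top_iff_one, ← hab]
    refine P.asIdeal.add_mem (P.asIdeal.mul_mem_left _ ?_) (P.asIdeal.mul_mem_left _ hP)
    have := Ideal.mem_span_singleton_self (gP P)
    rwa [← sp, ← gP_span] at this
  rw [h1]
  simp

/-- the fibre over a prime that does not divide `c` -/
lemma fib3 (D : Dt3 ι G c art) [Fintype (MulChar G ℂ)] {P : HeightOneSpectrum eis}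
    (hPc : c ∉ P.asIdeal) {s : ℂ} (hs : 1 < s.re) :
    ∏ v : {v : HeightOneSpectrum (𝓞 K) // bel ι v = P}, XX3 v.1 s = R3 art P s := by
  classical
  have hcop : IsCoprime (gP P) c := by
    rw [cop_iff D.c_ne]
    intro Q hQ h
    apply hPc
    have h1 : P.asIdeal ≤ Q.asIdeal := by
      rw [gP_span, Ideal.span_singleton_le_iff_mem]
      exact h
    have h2 : P.asIdeal = Q.asIdeal :=
      (P.isPrime.isMaximal P.ne_bot).eq_of_le Q.isPrime.ne_top h1
    rw [h2]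
    exact (mem_Sc D.c_ne).1 hQ
  obtain ⟨u, hu⟩ := (unit_iff (c := c) (gP P)).2 hcop
  obtain ⟨h1, h2⟩ := split D hPc hu
  obtain ⟨v0, hv0⟩ := exists_over D P
  have hN2 := card_two_le P
  have hpn := pq_norm P
  set N := Nat.card (eis ⧸ P.asIdeal) with hN
  have hN1 : (1 : ℝ) < N := by
    have : (2 : ℝ) ≤ N := by exact_mod_cast hN2
    linarith
  set f := orderOf (art u) with hf
  have hf0 : 0 < f := orderOf_pos _
  have hyn : ∀ t : ℂ, 1 < t.re → ‖pq P.asIdeal * (nm P.asIdeal : ℂ) ^ (-t)‖ < 1 := by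
    intro t ht
    rw [norm_mul, nm_P]
    have h5 : ‖(((N : ℝ)) : ℂ) ^ (-t)‖ = (N : ℝ) ^ (-t.re) := by
      rw [Complex.norm_cpow_eq_rpow_re_of_pos (by linarith), Complex.neg_re]
    rw [h5]
    calc ‖pq P.asIdeal‖ * (N : ℝ) ^ (-t.re) ≤ (N : ℝ) * (N : ℝ) ^ (-t.re) := by gcongr
      _ = (N : ℝ) ^ (1 - t.re) := by
        rw [sub_eq_add_neg, Real.rpow_add (by linarith), Real.rpow_one]
      _ < 1 := Real.rpow_lt_one_of_one_lt_of_neg hN1 (by linarith)
  -- the left side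
  have hL : ∏ v : {v : HeightOneSpectrum (𝓞 K) // bel ι v = P}, XX3 v.1 s =
      ((1 - (pq P.asIdeal * (nm P.asIdeal : ℂ) ^ (-s)) ^ f) ^ (Nat.card G / f))⁻¹ *
      ((1 - ((starRingEnd ℂ) (pq P.asIdeal) * (nm P.asIdeal : ℂ) ^ (-s)) ^ f) ^
        (Nat.card G / f))⁻¹ := by
    have h5 : ∀ v : {v : HeightOneSpectrum (𝓞 K) // bel ι v = P}, XX3 v.1 s =
        ((1 - (pq P.asIdeal * (nm P.asIdeal : ℂ) ^ (-s)) ^ f) *
        (1 - ((starRingEnd ℂ) (pq P.asIdeal) * (nm P.asIdeal : ℂ) ^ (-s)) ^ f))⁻¹ := by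
      rintro ⟨v, hv⟩
      have h6 := EV3_val D v (f := f) hf0 (by rw [h1 v hv, hv]) s
      rw [hv] at h6
      show (EV3 v s)⁻¹ = _
      rw [h6]
    rw [Finset.prod_congr rfl fun v _ => h5 v, Finset.prod_const, Finset.card_univ, h2, inv_pow,
      mul_pow, mul_inv]
  rw [hL]
  unfold R3
  rw [Finset.prod_mul_distrib]
  have heI : ∀ χ : MulChar G ℂ, eI (eta art χ) P.asIdeal = χ (art u) := by
    intro χ
    show et (eta art χ) (gP P) = _
    unfold et
    rw [← hu, eta_unit]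
  simp only [heI]
  congr 1
  · rw [Finset.prod_inv_distrib]
    congr 1
    rw [← prod_mc (art u) _ (hyn s hs)]
    refine Finset.prod_congr rfl fun χ _ => ?_
    ring
  · rw [← map_prod, Finset.prod_inv_distrib]
    have h6 : (1 - ((starRingEnd ℂ) (pq P.asIdeal) * (nm P.asIdeal : ℂ) ^ (-s)) ^ f) ^
        (Nat.card G / f) = (starRingEnd ℂ) ((1 - (pq P.asIdeal *
          (nm P.asIdeal : ℂ) ^ (-((starRingEnd ℂ) s))) ^ f) ^ (Nat.card G / f)) := by
      rw [map_pow, map_sub, map_one, map_pow, map_mul]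
      have h7 : (starRingEnd ℂ) ((nm P.asIdeal : ℂ) ^ (-((starRingEnd ℂ) s))) =
          (nm P.asIdeal : ℂ) ^ (-s) := by
        rw [nm_P, Complex.ofReal_natCast, conj_nat_cpow, map_neg, Complex.conj_conj]
      rw [h7]
    rw [h6, map_inv₀]
    congr 2
    rw [← prod_mc (art u) _ (hyn ((starRingEnd ℂ) s) (by rw [Complex.conj_re]; exact hs))]
    refine Finset.prod_congr rfl fun χ _ => ?_
    ring

lemma et_eta_unit3 (D : Dt3 ι G c art) (χ : MulChar G ℂ) (w : eis) (hw : IsUnit w) :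
    et (eta art χ) w = 1 := by
  have h1 : IsCoprime w c := by
    obtain ⟨t, ht⟩ := hw.exists_left_inv
    exact ⟨t, 0, by rw [ht, zero_mul, add_zero]⟩
  obtain ⟨u, hu⟩ := (unit_iff w).2 h1
  unfold et
  rw [← hu, eta_unit, art_unit D hw hu, map_one]

/-- the Euler product of the Hecke L-function -/
lemma hp3 {η : MulChar (eis ⧸ (sp c : Ideal eis)) ℂ} (hη : ∀ u : eis, IsUnit u → et η u = 1)
    {z a : ℂ} (hF : HasSum (fun I : Ideal eis => pq I * eI η I * (nm I : ℂ) ^ (-z)) a) :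
    HasProd (fun P : HeightOneSpectrum eis =>
      (1 - pq P.asIdeal * eI η P.asIdeal * (nm P.asIdeal : ℂ) ^ (-z))⁻¹) a := by
  have h1 := hasProd_ideal (fun I : Ideal eis => pq I * eI η I * (nm I : ℂ) ^ (-z)) (by
      have : psi ⊥ = 0 := (psi_zero_iff _).2 not_cop_bot
      simp only [pq, this, zero_mul]) (by
      simp only [pq_top, eI_top hη, nm_top]
      simp) (by
      intro I J
      rw [pq_mul, eI_mul hη, nm_mul]
      push_cast
      rw [Complex.mul_cpow_ofReal_nonneg (Pool.Agent.Y696.nm_nonneg I) (Pool.Agent.Y696.nm_nonneg J)]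
      ring) hF.summable
  rw [hF.tsum_eq] at h1
  exact h1

lemma hp_R3 (D : Dt3 ι G c art) [Fintype (MulChar G ℂ)] {F : MulChar G ℂ → ℂ → ℂ}
    (hF : ∀ χ : MulChar G ℂ, ∀ z : ℂ, 3 / 2 < z.re →
      HasSum (fun I : Ideal eis => pq I * eI (eta art χ) I * (nm I : ℂ) ^ (-z)) (F χ z))
    {s : ℂ} (hs : 3 / 2 < s.re) :
    HasProd (fun P : HeightOneSpectrum eis => R3 art P s)
      (∏ χ, (F χ s * (starRingEnd ℂ) (F χ ((starRingEnd ℂ) s)))) := by
  unfold R3
  apply hasProd_prod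
  intro χ _
  refine (hp3 (et_eta_unit3 D χ) (hF χ s hs)).mul ?_
  have h1 := hp3 (et_eta_unit3 D χ) (hF χ ((starRingEnd ℂ) s) (by rw [Complex.conj_re]; exact hs))
  exact h1.map (starRingEnd ℂ) Complex.continuous_conj

/-- the bound of Hasse -/
lemma hasse3 (D : Dt3 ι G c art) (v : HeightOneSpectrum (𝓞 K)) :
    HBd (aV (Em K) v) (eV (Em K) v) (Pool.Agent.H921R2.TatePole.nm v) := by
  by_cases h6 : (2 : 𝓞 K) ∈ v.asIdeal ∨ (3 : 𝓞 K) ∈ v.asIdeal
  · exact Or.inl (D.bad v h6)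
  · push Not at h6
    obtain ⟨f, hf0, -, hf⟩ := exists_deg D v
    obtain ⟨h1, h2, h4⟩ := aV_all D v hf0 hf
    have h5 := h4 h6
    refine Or.inr ⟨pq (bel ι v).asIdeal ^ f, ?_, ?_, ?_⟩
    · rw [h1, map_pow]
    · rw [h2, map_pow, ← mul_pow]
    · rw [map_pow, ← mul_pow, h5]
      change _ = ((nK v : ℕ) : ℂ)
      rw [hf]
      push_cast
      rfl

/-- the factorization of the L-function -/
theorem L3_eq (D : Dt3 ι G c art) [Fintype (MulChar G ℂ)] {F : MulChar G ℂ → ℂ → ℂ}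
    (hF : ∀ χ : MulChar G ℂ, ∀ z : ℂ, 3 / 2 < z.re →
      HasSum (fun I : Ideal eis => pq I * eI (eta art χ) I * (nm I : ℂ) ^ (-z)) (F χ z))
    {s : ℂ} (hs : 3 / 2 < s.re) :
    (Em K).LSeries s = (∏ P ∈ Sc D.c_ne, ∏ v : {v : HeightOneSpectrum (𝓞 K) // bel ι v = P},
      XX3 v.1 s) * ∏ χ, (F χ s * (starRingEnd ℂ) (F χ ((starRingEnd ℂ) s))) := by
  classical
  have h1 := (LSeries_hasProd' (Em K) (hasse3 D) hs).2
  have h2 : HasProd (fun v : HeightOneSpectrum (𝓞 K) => XX3 v s) ((Em K).LSeries s) := h1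
  have h3 := (Equiv.sigmaFiberEquiv (bel ι)).hasProd_iff.2 h2
  have h4 : HasProd (fun P : HeightOneSpectrum eis =>
      ∏ v : {v : HeightOneSpectrum (𝓞 K) // bel ι v = P}, XX3 v.1 s) ((Em K).LSeries s) := by
    refine h3.sigma fun P => ?_
    exact hasProd_fintype _ (.unconditional _)
  have h5 : HasProd (fun P : HeightOneSpectrum eis => if P ∈ Sc D.c_ne then
      ∏ v : {v : HeightOneSpectrum (𝓞 K) // bel ι v = P}, XX3 v.1 s else 1)
      (∏ P ∈ Sc D.c_ne, ∏ v : {v : HeightOneSpectrum (𝓞 K) // bel ι v = P}, XX3 v.1 s) := by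
    have h6 := hasProd_prod_of_ne_finset_one (L := .unconditional _) (s := Sc D.c_ne)
      (f := fun P : HeightOneSpectrum eis => if P ∈ Sc D.c_ne then
        ∏ v : {v : HeightOneSpectrum (𝓞 K) // bel ι v = P}, XX3 v.1 s else 1)
      (fun P hP => if_neg hP)
    rw [Finset.prod_congr rfl (fun P hP => if_pos hP)] at h6
    exact h6
  have h6 := h5.mul (hp_R3 D hF (s := s) (by linarith))
  refine h4.unique (h6.congr_fun fun P => ?_)
  by_cases hP : P ∈ Sc D.c_ne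
  · rw [if_pos hP, R3_of_c D ((mem_Sc D.c_ne).1 hP), mul_one]
  · rw [if_neg hP, one_mul]
    have hPc : c ∉ P.asIdeal := fun h => hP ((mem_Sc D.c_ne).2 h)
    exact fib3 D hPc (by linarith)

lemma EV3_diff (v : HeightOneSpectrum (𝓞 K)) : Differentiable ℂ (EV3 v) := by
  have hn : (nK v : ℂ) ≠ 0 := by
    have := Pool.Agent.H921R2.TatePole.two_le_nm v
    have h : nK v ≠ 0 := by unfold nK; omega
    exact_mod_cast h
  have h1 : Differentiable ℂ (fun s : ℂ => (nK v : ℂ) ^ (-s)) := by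
    intro z
    exact (differentiableAt_id.neg).const_cpow (Or.inl hn)
  unfold EV3
  exact ((differentiable_const _).sub ((differentiable_const _).mul h1)).add
    ((differentiable_const _).mul (h1.pow 2))

end

end Pool.Agent.T9h31.Ab
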