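import Mathlib
import Pool.Agent.T9h31.AbLK
import Pool.Agent.Y715.T.Fin

/-!
# The analytic theorem for `y² = x³ - 16`
-/

set_option autoImplicit false
set_option linter.unusedSectionVars false
set_option linter.unusedVariables false

namespace Pool.Agent.T9h31.Ab

open NumberField IsDedekindDomain IsLocalRing Filter Topology Complex
open Pool.Agent.W192.HK Pool.Agent.TH936.CM Pool.Agent.TH936.PU
open Pool.Agent.W189.NF (aV eV redMap)
open Pool.Agent.W192.CM (nu)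
open Pool.Agent.Y696

section val

variable {Γ : Type*} [LinearOrderedCommGroupWithZero Γ]

lemma vc_three {v : Valuation ℂ Γ} (hv : v 3 < 1) : vc v 3 < 1 := by
  rw [vc_apply, map_ofNat]
  exact hv

lemma v_cop3 {v : Valuation ℂ Γ} (hv3 : v 3 < 1) {r : eis} (h : IsCoprime r 3) :
    v (r : ℂ) = 1 := by
  obtain ⟨a, b, hab⟩ := h
  refine le_antisymm (v_eis r) ?_
  by_contra hlt
  rw [not_le] at hlt
  have h1 : (a : ℂ) * r + b * 3 = 1 := by
    have := congrArg (fun t : eis => (t : ℂ)) hab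
    push_cast at this
    exact this
  have h2 : v ((a : ℂ) * r + b * 3) < 1 :=
    v_add_lt (v_mul_lt (v_eis a) hlt) (v_mul_lt (v_eis b) hv3)
  rw [h1, map_one] at h2
  exact lt_irrefl _ h2

lemma v_sp_three {v : Valuation ℂ Γ} (hv : v 3 < 1) {z : eis} (h : z ∈ (sp 3 : Ideal eis)) :
    v (z : ℂ) < 1 := by
  rw [Ideal.mem_span_singleton'] at h
  obtain ⟨t, rfl⟩ := h
  push_cast
  exact v_mul_lt (v_eis t) hv

/-- odd powers of the negative of an element congruent to one -/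
lemma v_neg_pow {v : Valuation ℂ Γ} (hv : v 3 < 1) {π : eis} (h : π - 1 ∈ (sp 3 : Ideal eis))
    {f : ℕ} (hf : Odd f) : v ((-(π : ℂ)) ^ f - 1) = 1 := by
  have h1 : π ^ f - 1 ∈ (sp 3 : Ideal eis) :=
    (sp 3 : Ideal eis).mem_of_dvd (sub_one_dvd_pow_sub_one _ _) h
  have h2 := v_sp_three hv h1
  push_cast at h2
  have e : (-(π : ℂ)) ^ f - 1 = -(2 + ((π : ℂ) ^ f - 1)) := by
    rw [hf.neg_pow]
    ring
  rw [e, Valuation.map_neg, Valuation.map_add_eq_of_lt_left, v2_of3 hv]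
  rw [v2_of3 hv]
  exact h2

end val

section
variable {K : Type} [Field K] [NumberField K] {ι : eis →+* 𝓞 K} {G : Type} [CommGroup G] [Finite G]
  [MulSemiringAction G (𝓞 K)] {c : eis} {art : (eis ⧸ (sp c : Ideal eis))ˣ →* G}
  {Γ : Type*} [LinearOrderedCommGroupWithZero Γ]

omit [Finite G] in
/-- the value of the quadratic character at the primes that divide `c` -/
lemma x4_gP (D : Dt3 ι G c art) {P : HeightOneSpectrum eis} (hP : c ∈ P.asIdeal) :
    x4 (gP P) = -1 := by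
  classical
  have h2 : IsCoprime (gP P) 2 := cop_dvd hP D.cop2
  have : P.asIdeal.IsMaximal := P.isPrime.isMaximal P.ne_bot
  letI : Field (eis ⧸ P.asIdeal) := Ideal.Quotient.field P.asIdeal
  have hfin : Finite (eis ⧸ P.asIdeal) := by
    rw [gP_span]
    exact finite_q (gP_ne P)
  letI : Fintype (eis ⧸ P.asIdeal) := Fintype.ofFinite _
  have h3 : ¬ IsSquare (-1 : eis ⧸ P.asIdeal) := by
    rintro ⟨x, hx⟩
    obtain ⟨y, rfl⟩ := Ideal.Quotient.mk_surjective x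
    apply D.nsq P hP y
    rw [← Ideal.Quotient.eq_zero_iff_mem, map_add, map_pow, map_one, pow_two, ← hx]
    ring
  rw [FiniteField.isSquare_neg_one_iff, not_not] at h3
  have h4 : xI P.asIdeal = -1 := by
    unfold xI nN
    rw [Nat.card_eq_fintype_card, ZMod.χ₄_nat_three_mod_four h3]
    push_cast
    rfl
  rw [gP_span] at h4
  exact h4

omit [Finite G] in
lemma v_gP3 (D : Dt3 ι G c art) {v : Valuation ℂ Γ} (hv : v 3 < 1) {P : HeightOneSpectrum eis}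
    (hP : c ∈ P.asIdeal) : v ((gP P : ℂ) - e4 (gP P)) = 1 := by
  have h3 : IsCoprime (gP P) 3 := cop_dvd hP D.cop3
  obtain ⟨u, hu, h1⟩ := cop_three h3
  have h2 : ee psi (gP P) = u := by rw [eo.per _ _ h1, ee_u hu]
  unfold e4
  rw [h2, x4_gP D hP]
  have e : (gP P : ℂ) - (u : ℂ) * -1 = 2 * u + ((gP P - u : eis) : ℂ) := by
    push_cast
    ring
  have v1 : v (2 * (u : ℂ)) = 1 := by rw [map_mul, v2_of3 hv, v_unit hu, one_mul]
  rw [e, Valuation.map_add_eq_of_lt_left, v1]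
  rw [v1]
  exact v_sp_three hv h1

/-- the local factors above `c` are units at one -/
lemma v_EV3 (D : Dt3 ι G c art) {P : HeightOneSpectrum eis} (hP : c ∈ P.asIdeal)
    (w : HeightOneSpectrum (𝓞 K)) (hw : bel ι w = P) {v : Valuation ℂ Γ} (hv : v 3 < 1) :
    v (EV3 w 1) = 1 := by
  have h2 : IsCoprime (gP P) 2 := cop_dvd hP D.cop2
  have h3 : IsCoprime (gP P) 3 := cop_dvd hP D.cop3
  have hI : IsCoprime P.asIdeal (sp 3) := by
    rw [gP_span, Ideal.isCoprime_span_singleton_iff]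
    exact h3
  obtain ⟨π, hπ1, hπ2⟩ := exists_prim hI
  have hpsi : psi P.asIdeal = π := by rw [hπ1]; exact psi_prim hπ2
  have hpq : pq P.asIdeal = -(π : ℂ) := by
    unfold pq
    rw [hpsi]
    have := x4_gP D hP
    have h4 : xI P.asIdeal = -1 := by rw [gP_span]; exact this
    rw [h4]
    ring
  obtain ⟨f, hf0, hfG, hf⟩ := exists_deg D w
  have hodd : Odd f := by
    obtain ⟨n, hn⟩ := D.pgrp
    rw [hn] at hfG
    exact Odd.of_dvd_nat (Odd.pow (by decide)) hfG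
  have h1 := EV3_val D w hf0 hf 1
  obtain ⟨-, -, h5⟩ := aV_all D w hf0 hf
  have hmem : ∀ n : eis, IsCoprime (gP P) n → ι n ∉ w.asIdeal := by
    intro n hn h
    rw [← mem_bel, hw] at h
    obtain ⟨a, b, hab⟩ := hn
    apply P.isPrime.ne_top
    rw [Ideal.eq_top_iff_one, ← hab]
    refine P.asIdeal.add_mem (P.asIdeal.mul_mem_left _ ?_) (P.asIdeal.mul_mem_left _ h)
    have := Ideal.mem_span_singleton_self (gP P)
    rwa [← sp, ← gP_span] at this
  have m2 : (2 : 𝓞 K) ∉ w.asIdeal := by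
    have := hmem 2 h2
    rwa [map_ofNat] at this
  have m3 : (3 : 𝓞 K) ∉ w.asIdeal := by
    have := hmem 3 h3
    rwa [map_ofNat] at this
  have h6 := h5 ⟨m2, m3⟩
  rw [hw, hpq] at h1 h6
  have hπ0 : (π : ℂ) ≠ 0 := coe_ne (prim_ne hπ2)
  have hπc0 : (starRingEnd ℂ) (π : ℂ) ≠ 0 := (map_ne_zero _).2 hπ0
  have hnm : (nm P.asIdeal : ℂ) = (π : ℂ) * (starRingEnd ℂ) (π : ℂ) := by
    rw [nm_P]
    push_cast
    rw [← h6, map_neg]
    ring
  have h8 : EV3 w 1 = ((-(starRingEnd ℂ) (π : ℂ)) ^ f - 1) * ((-(π : ℂ)) ^ f - 1) /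
      ((-(starRingEnd ℂ) (π : ℂ)) ^ f * (-(π : ℂ)) ^ f) := by
    rw [h1, Complex.cpow_neg_one, hnm]
    have e1 : -(π : ℂ) * ((π : ℂ) * (starRingEnd ℂ) (π : ℂ))⁻¹ = (-(starRingEnd ℂ) (π : ℂ))⁻¹ := by
      rw [inv_neg]
      field_simp
    have e2 : (starRingEnd ℂ) (-(π : ℂ)) * ((π : ℂ) * (starRingEnd ℂ) (π : ℂ))⁻¹ = (-(π : ℂ))⁻¹ := by
      rw [map_neg, inv_neg]
      field_simp
    rw [e1, e2, inv_pow, inv_pow]
    have n1 : (-(starRingEnd ℂ) (π : ℂ)) ^ f ≠ 0 := pow_ne_zero _ (neg_ne_zero.2 hπc0)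
    have n2 : (-(π : ℂ)) ^ f ≠ 0 := pow_ne_zero _ (neg_ne_zero.2 hπ0)
    field_simp
  have k1 := v_neg_pow hv hπ2 hodd
  have k2 := v_neg_pow (vc_three hv) hπ2 hodd
  rw [vc_apply, map_sub, map_pow, map_one, map_neg] at k2
  have hc3 : IsCoprime π 3 := by
    obtain ⟨t, ht⟩ := Ideal.mem_span_singleton'.1 hπ2
    exact ⟨1, -t, by linear_combination -ht⟩
  have k3 : v (π : ℂ) = 1 := v_cop3 hv hc3
  have k4 := v_cop3 (vc_three hv) hc3
  rw [vc_apply] at k4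
  rw [h8, map_div₀, map_mul, map_mul, map_pow, map_pow, k1, k2, Valuation.map_neg,
    Valuation.map_neg, k3, k4]
  simp

lemma v_six3 {v : Valuation ℂ Γ} (hv : v 3 < 1) : v 6 = v 3 := by
  have : (6 : ℂ) = 2 * 3 := by norm_num
  rw [this, map_mul, v2_of3 hv, one_mul]

lemma tw_u (D : Dt3 ι G c art) (χ : MulChar G ℂ) (u : eis) (hu : IsUnit u) :
    et (tw (eta art χ)) u = 1 := by
  rw [et_tw, et_eta_unit3 D χ u hu, x4_unit hu, mul_one]

/-- the values of the Hecke L-functions are units -/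
lemma v_F3 (D : Dt3 ι G c art) (χ : MulChar G ℂ) {L : PeriodPair} {Ω : ℂ} (hC : Cur L Ω)
    {v : Valuation ℂ Γ} (hv : v 3 < 1) {a : ℂ}
    (ha : Tendsto (SS (ec (tw (eta art χ)))) (𝓝[>] 0)
      (𝓝 ((nu eis : ℂ) * (starRingEnd ℂ) a))) :
    v ((starRingEnd ℂ) a / Ω) = 1 := by
  obtain ⟨k, hk⟩ := eta_pow3 D χ
  have h1 := tw_unit hC hv D.c_ne D.cop2 D.cop3 hk (et_eta_unit3 D χ) (fun P hP =>
    v_gP3 D hv ((mem_Sc D.c_ne).1 hP)) ha
  rw [nu_six, mul_div_assoc, map_mul] at h1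
  have h2 : v ((6 : ℕ) : ℂ) = v 3 := by
    rw [Nat.cast_ofNat]
    exact v_six3 hv
  rw [h2] at h1
  exact mul_left_cancel₀ (v3_pos (v := v)).ne' (h1.trans (mul_one _).symm)

lemma v_FF3 (D : Dt3 ι G c art) (χ : MulChar G ℂ) {L : PeriodPair} {Ω : ℂ} (hC : Cur L Ω)
    {v : Valuation ℂ Γ} (hv : v 3 < 1) {a : ℂ}
    (ha : Tendsto (SS (ec (tw (eta art χ)))) (𝓝[>] 0)
      (𝓝 ((nu eis : ℂ) * (starRingEnd ℂ) a))) :
    v (a * (starRingEnd ℂ) a / (Ω * (starRingEnd ℂ) Ω)) = 1 := by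
  have h1 := v_F3 D χ hC hv ha
  have h2 := v_F3 D χ hC (vc_three hv) ha
  rw [vc_apply, map_div₀, Complex.conj_conj] at h2
  have h3 : a * (starRingEnd ℂ) a / (Ω * (starRingEnd ℂ) Ω) =
      (a / (starRingEnd ℂ) Ω) * ((starRingEnd ℂ) a / Ω) := by
    rw [div_mul_div_comm, mul_comm Ω]
  rw [h3, map_mul, h1, h2, one_mul]

/-- the analytic theorem -/
theorem analytic3 (D : Dt3 ι G c art) :
    ∃ Lf : ℂ → ℂ, MeromorphicOn Lf Set.univ ∧ (∀ s : ℂ, 3 / 2 < s.re →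
      LSeriesSummable ((fun n : ℤ => (n : ℂ)) ∘ (Em K).LFunction) s ∧ Lf s = (Em K).LSeries s) ∧
      AnalyticAt ℂ Lf 1 ∧ Lf 1 ≠ 0 ∧
      ∀ (L : PeriodPair) (Ω : ℂ), Cur L Ω → ∀ (Γ : Type) [LinearOrderedCommGroupWithZero Γ]
        (v : Valuation ℂ Γ), v 3 < 1 → v (Lf 1 / (Ω * (starRingEnd ℂ) Ω) ^ Nat.card G) = 1 := by
  classical
  have hfinM : Finite (MulChar G ℂ) := inferInstance
  have : Fintype (MulChar G ℂ) := Fintype.ofFinite _
  have hb : 4 * c ≠ 0 := mul_ne_zero four_ne D.c_ne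
  have hb3 : IsCoprime (4 * c) 3 := IsCoprime.mul_left cop43 D.cop3
  have hH := fun χ : MulChar G ℂ => hecke hb hb3 (η := tw (eta art χ)) (tw_u D χ)
  choose F hFd hFs' hFl using hH
  have hFs : ∀ χ : MulChar G ℂ, ∀ z : ℂ, 3 / 2 < z.re →
      HasSum (fun I : Ideal eis => pq I * eI (eta art χ) I * (nm I : ℂ) ^ (-z)) (F χ z) := by
    intro χ z hz
    refine (hFs' χ z hz).congr_fun fun I => ?_
    have h1 : eI (tw (eta art χ)) I = eI (eta art χ) I * xI I := by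
      unfold eI
      rw [et_tw]
      congr 1
      unfold x4
      congr 1
      exact Submodule.IsPrincipal.span_singleton_generator I
    rw [h1]
    unfold pq
    ring
  have hcard : Fintype.card (MulChar G ℂ) = Nat.card G := by
    rw [← Nat.card_eq_fintype_card, MulChar.card_eq_card_units_of_hasEnoughRootsOfUnity]
    exact Nat.card_congr toUnits.symm.toEquiv
  set Lf : ℂ → ℂ := fun s => (∏ P ∈ Sc D.c_ne, ∏ v : {v : HeightOneSpectrum (𝓞 K) // bel ι v = P},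
    (EV3 v.1 s)⁻¹) * ∏ χ, (F χ s * (starRingEnd ℂ) (F χ ((starRingEnd ℂ) s))) with hLf
  have hconj : ∀ χ, Differentiable ℂ (fun s => (starRingEnd ℂ) (F χ ((starRingEnd ℂ) s))) := by
    intro χ s
    exact differentiableAt_conj_conj_iff.2 (hFd χ _)
  have hent : Differentiable ℂ (fun s => ∏ χ, (F χ s * (starRingEnd ℂ) (F χ ((starRingEnd ℂ) s)))) :=
    Differentiable.fun_finsetProd fun χ _ => (hFd χ).mul (hconj χ)
  have hval : ∀ (L : PeriodPair) (Ω : ℂ), Cur L Ω → ∀ (Γ : Type)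
      [LinearOrderedCommGroupWithZero Γ] (v : Valuation ℂ Γ), v 3 < 1 →
      v (Lf 1 / (Ω * (starRingEnd ℂ) Ω) ^ Nat.card G) = 1 := by
    intro L Ω hC Γ _ v hv
    have h1 : Lf 1 / (Ω * (starRingEnd ℂ) Ω) ^ Nat.card G =
        (∏ P ∈ Sc D.c_ne, ∏ v : {v : HeightOneSpectrum (𝓞 K) // bel ι v = P}, (EV3 v.1 1)⁻¹) *
        ∏ χ : MulChar G ℂ, (F χ 1 * (starRingEnd ℂ) (F χ 1) / (Ω * (starRingEnd ℂ) Ω)) := by
      rw [hLf, Finset.prod_div_distrib, Finset.prod_const, Finset.card_univ, hcard]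
      simp only [map_one]
      rw [mul_div_assoc]
    rw [h1, map_mul, map_prod, map_prod]
    have h2 : ∀ P ∈ Sc D.c_ne, v (∏ w : {v : HeightOneSpectrum (𝓞 K) // bel ι v = P},
        (EV3 w.1 1)⁻¹) = 1 := by
      intro P hP
      rw [map_prod]
      refine Finset.prod_eq_one fun w _ => ?_
      rw [map_inv₀, v_EV3 D ((mem_Sc D.c_ne).1 hP) w.1 w.2 hv, inv_one]
    rw [Finset.prod_eq_one h2, one_mul]
    exact Finset.prod_eq_one fun χ _ => v_FF3 D χ hC hv (hFl χ L Ω hC.lat)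
  refine ⟨Lf, ?_, ?_, ?_, ?_, hval⟩
  · have h1 : MeromorphicOn (fun s => ∏ P ∈ Sc D.c_ne,
        ∏ v : {v : HeightOneSpectrum (𝓞 K) // bel ι v = P}, (EV3 v.1 s)⁻¹) Set.univ := by
      intro z _
      refine MeromorphicAt.fun_prod fun P _ => MeromorphicAt.fun_prod fun w _ => ?_
      exact ((EV3_diff w.1).analyticAt z).meromorphicAt.inv
    intro z hz
    exact (h1 z hz).mul ((hent.analyticAt z).meromorphicAt)
  · intro s hs
    refine ⟨(LSeries_hasProd' (Em K) (hasse3 D) hs).1, ?_⟩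
    rw [L3_eq D hFs hs]
    rfl
  · have h1 : ∀ P ∈ Sc D.c_ne, ∀ w : {v : HeightOneSpectrum (𝓞 K) // bel ι v = P},
        EV3 w.1 1 ≠ 0 := by
      intro P hP w
      obtain ⟨V, hV⟩ := Pool.Agent.Y715.T.Fin.exists_over_three
      exact ne_of_v (v_EV3 D ((mem_Sc D.c_ne).1 hP) w.1 w.2 hV)
    refine AnalyticAt.mul ?_ (hent.analyticAt 1)
    refine Finset.analyticAt_fun_prod _ fun P hP => Finset.analyticAt_fun_prod _ fun w _ => ?_
    exact ((EV3_diff w.1).analyticAt 1).inv (h1 P hP w)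
  · obtain ⟨V, hV⟩ := Pool.Agent.Y715.T.Fin.exists_over_three
    obtain ⟨Ω, hΩ, hC⟩ := exists_cur
    have h1 := hval _ Ω hC _ V.valuation hV
    intro h0
    rw [h0, zero_div, map_zero] at h1
    exact zero_ne_one h1

end

end Pool.Agent.T9h31.Ab
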