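import Mathlib
import Pool.Agent.T9h31.AbMain
import Pool.Agent.Y696.Cov

/-!
# Construction of the data, the discriminant and the periods
-/

set_option autoImplicit false
set_option linter.unusedSectionVars false
set_option linter.unusedVariables false

open scoped Classical

namespace Pool.Agent.T9h31.Ab

open NumberField IsDedekindDomain IsLocalRing
open Pool.Agent.W192.HK Pool.Agent.TH936.CM Pool.Agent.TH936.PU
open Pool.Agent.Y696

section dat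
variable {F K : Type} [Field F] [NumberField F] [IsCyclotomicExtension {3} ℚ F] [Field K]
  [NumberField K] [Algebra F K]

/-- the condition on the modulus -/
def Cn (c : 𝓞 F) : Prop := ∀ v₀ : HeightOneSpectrum (𝓞 F), c ∈ v₀.asIdeal →
  (3 : 𝓞 F) ∉ v₀.asIdeal ∧ ∀ x : 𝓞 F, x ^ 2 + 1 ∉ v₀.asIdeal

lemma un_of_art {c : 𝓞 F} {art : (𝓞 F ⧸ Ideal.span {c})ˣ →* Gal(K/F)} (h : Art c art)
    (hc : Cn c) : Un F K := by
  intro v₀ v hlo hor t
  have hcv₀ : c ∉ v₀.asIdeal := by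
    intro hm
    obtain ⟨h3, hns⟩ := hc v₀ hm
    rcases hor with h4 | h4
    · exact h3 h4
    · exact h4 hns
  have hcv : algebraMap (𝓞 F) (𝓞 K) c ∉ v.asIdeal := by
    rwa [← mem_under_of_lies hlo]
  have := h.unr v hcv
  refine val_of_unr hlo ?_ t
  rw [Ideal.ramificationIdx'_eq_ramificationIdx _ _ v₀.ne_bot]
  exact Ideal.ramificationIdx_eq_one _ _

lemma cop_cn {c k : 𝓞 F} (hk0 : k ≠ 0)
    (hc : ∀ v₀ : HeightOneSpectrum (𝓞 F), c ∈ v₀.asIdeal → k ∉ v₀.asIdeal) : IsCoprime c k := by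
  by_contra h
  rw [← Ideal.isCoprime_span_singleton_iff, Ideal.isCoprime_iff_sup_eq] at h
  obtain ⟨M, hM, hle⟩ := Ideal.exists_le_maximal _ h
  have h1 : c ∈ M := hle ((le_sup_left : _ ≤ Ideal.span {c} ⊔ Ideal.span {k})
    (Ideal.mem_span_singleton_self c))
  have h2 : k ∈ M := hle ((le_sup_right : _ ≤ Ideal.span {c} ⊔ Ideal.span {k})
    (Ideal.mem_span_singleton_self k))
  refine hc ⟨M, hM.isPrime, ?_⟩ h1 h2
  rintro rfl
  exact hk0 (by simpa using h2)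

lemma Cn.cop3 {c : 𝓞 F} (hc : Cn c) : IsCoprime c 3 :=
  cop_cn (by norm_num) fun v₀ h => (hc v₀ h).1

lemma Cn.cop2 {c : 𝓞 F} (hc : Cn c) : IsCoprime c 2 :=
  cop_cn (by norm_num) fun v₀ h h2 => (hc v₀ h).2 1 (by norm_num; exact h2)

lemma Cn.ne {c : 𝓞 F} (hc : Cn c) : c ≠ 0 := by
  rintro rfl
  have h1 := hc.cop2
  rw [isCoprime_zero_left] at h1
  have h3 : IsUnit (algebraMap ℤ (𝓞 F) 2) := by
    rw [map_ofNat]
    exact h1
  have h4 : IsUnit (2 : ℤ) := isUnit_of_map_unit (algebraMap ℤ (𝓞 F)) 2 h3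
  norm_num [Int.isUnit_iff] at h4

theorem mkDt3 [IsGalois F K] {n : ℕ} (hn : Module.finrank F K = 3 ^ n) {c : 𝓞 F}
    {art : (𝓞 F ⧸ Ideal.span {c})ˣ →* Gal(K/F)} (h : Art c art) (e : 𝓞 F ≃+* eis)
    (hc : Cn c) :
    letI := commG h
    Dt3 (iF K e) Gal(K/F) (e c) (art.comp (Units.map (qe e c : _ →* _))) := by
  let := commG h
  have hun := un_of_art h hc
  have hmap : ∀ k : ℕ, IsCoprime c (k : 𝓞 F) → IsCoprime (e c) (k : eis) := by
    intro k hk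
    have := hk.map (e : 𝓞 F →+* eis)
    rwa [map_natCast] at this
  refine ⟨?_, ?_, ?_, ?_, ?_, ?_, ?_, ?_, ?_, ?_, ?_⟩
  · exact (map_ne_zero_iff _ e.injective).2 hc.ne
  · exact_mod_cast hmap 2 (by exact_mod_cast hc.cop2)
  · exact_mod_cast hmap 3 (by exact_mod_cast hc.cop3)
  · intro P hP x hx
    refine (hc (trP e P) hP).2 (e.symm x) ?_
    change e (e.symm x ^ 2 + 1) ∈ P.asIdeal
    rw [map_add, map_pow, e.apply_symm_apply, map_one]
    exact hx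
  · exact ⟨n, by rw [← hn]; exact IsGalois.card_aut_eq_finrank F K⟩
  · intro b hb
    obtain ⟨a, ha⟩ := Algebra.IsInvariant.isInvariant (A := 𝓞 F) (G := Gal(K/F)) b hb
    exact ⟨e a, by rw [iF_apply, e.symm_apply_apply, ha]⟩
  · intro g a
    rw [iF_apply]
    exact smul_algebraMap (α := Gal(K/F)) g (e.symm a)
  · refine h.surj.comp ?_
    exact (Units.mapEquiv (qe e c).toMulEquiv).surjective
  · intro v hv g hg
    rw [iF_apply, e.symm_apply_apply] at hv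
    exact unr_g v (h.unr v hv) hg
  · intro π hπ u hu v hv x
    rw [iF_apply] at hv
    have h1 : Prime (e.symm π) := (MulEquiv.prime_iff (e.symm : eis ≃* 𝓞 F)).2 hπ
    have h2 : Nat.card (𝓞 F ⧸ Ideal.span {e.symm π}) = Nat.card (eis ⧸ (sp π : Ideal eis)) := by
      have := qe e (e.symm π)
      rw [e.apply_symm_apply] at this
      exact (Nat.card_congr this.toEquiv).symm
    rw [← h2]
    refine h.frob (e.symm π) h1 (Units.map (qe e c : _ →* _) u) ?_ v hv x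
    rw [Units.coe_map]
    change qe e c (u : _) = _
    rw [hu, qe_mk]
  · intro v h6
    exact aV_bad hun v h6

/-! ### the discriminant -/

lemma norm_cop3 {I : Ideal (𝓞 K)} (hI0 : I ≠ ⊥) (hI : ∀ P : Ideal (𝓞 K), P.IsPrime →
    (3 : 𝓞 K) ∈ P → ¬ P ∣ I) : ¬ 3 ∣ Ideal.absNorm I := by
  have hcop : I ⊔ Ideal.span {(3 : 𝓞 K)} = ⊤ := by
    by_contra h
    obtain ⟨M, hM, hle⟩ := Ideal.exists_le_maximal _ h
    refine hI M hM.isPrime (hle ((le_sup_right : _ ≤ I ⊔ Ideal.span {(3 : 𝓞 K)})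
      (Ideal.mem_span_singleton_self _))) ?_
    rw [Ideal.dvd_iff_le]
    exact (le_sup_left).trans hle
  intro h3
  rw [Ideal.absNorm_apply, Submodule.cardQuot_apply] at h3
  have : Finite (𝓞 K ⧸ I) := Ideal.finiteQuotientOfFreeOfNeBot I hI0
  have : Fact (Nat.Prime 3) := ⟨Nat.prime_three⟩
  obtain ⟨x, hx⟩ := exists_prime_addOrderOf_dvd_card' (G := 𝓞 K ⧸ I) 3 h3
  have h1 : (3 : ℕ) • x = 0 := by rw [← hx]; exact addOrderOf_nsmul_eq_zero x
  have h2 : x = 0 := by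
    obtain ⟨a, ha, b, hb, hab⟩ := Submodule.mem_sup.1
      ((Ideal.eq_top_iff_one _).1 hcop)
    obtain ⟨t, rfl⟩ := Ideal.mem_span_singleton'.1 hb
    obtain ⟨y, rfl⟩ := Ideal.Quotient.mk_surjective x
    have h4 : y = a * y + t * (3 * y) := by
      have : y = (a + t * 3) * y := by rw [hab, one_mul]
      linear_combination this
    rw [nsmul_eq_mul, ← map_natCast (Ideal.Quotient.mk I), ← map_mul,
      Ideal.Quotient.eq_zero_iff_mem] at h1
    rw [Ideal.Quotient.eq_zero_iff_mem, h4]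
    refine I.add_mem (I.mul_mem_right _ ha) (I.mul_mem_left _ ?_)
    exact_mod_cast h1
  rw [h2, addOrderOf_zero] at hx
  norm_num at hx

lemma discr_F3 : (discr F).natAbs = 3 := by
  have : Fact (Nat.Prime 3) := ⟨Nat.prime_three⟩
  rw [IsCyclotomicExtension.Rat.discr_prime 3 F]
  norm_num

/-- the valuation of the discriminant at three -/
theorem disc3 [IsGalois F K] {n : ℕ} (hn : Module.finrank F K = 3 ^ n) {c : 𝓞 F}
    {art : (𝓞 F ⧸ Ideal.span {c})ˣ →* Gal(K/F)} (h : Art c art) (hc : Cn c) :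
    ∃ m : ℕ, ¬ 3 ∣ m ∧ (discr K).natAbs = m * 3 ^ 3 ^ n := by
  have h1 := natAbs_discr_eq_absNorm_differentIdeal_mul_natAbs_discr_pow F (𝓞 F) K (𝓞 K)
  rw [discr_F3 (F := F), hn] at h1
  refine ⟨_, ?_, h1⟩
  refine norm_cop3 ?_ ?_
  · exact differentIdeal_ne_bot
  · intro P hP h3 hdvd
    have hP0 : P ≠ ⊥ := by
      rintro rfl
      rw [Ideal.mem_bot] at h3
      exact absurd h3 (by norm_num)
    let v : HeightOneSpectrum (𝓞 K) := ⟨P, hP, hP0⟩
    have hcv : algebraMap (𝓞 F) (𝓞 K) c ∉ v.asIdeal := by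
      intro hm
      obtain ⟨a, b, hab⟩ := hc.cop3
      apply hP.ne_top
      have h4 := congrArg (algebraMap (𝓞 F) (𝓞 K)) hab
      rw [map_add, map_mul, map_mul, map_one, map_ofNat] at h4
      rw [Ideal.eq_top_iff_one, ← h4]
      exact P.add_mem (P.mul_mem_left _ hm) (P.mul_mem_left _ h3)
    have hu := h.unr v hcv
    exact (not_dvd_differentIdeal_iff (A := 𝓞 F) (B := 𝓞 K) (P := P)).2 hu hdvd

end dat

section per

variable {Γ : Type*} [LinearOrderedCommGroupWithZero Γ] {v : Valuation ℂ Γ}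

lemma v_nat3 (hv : v 3 < 1) {m : ℕ} (hm : ¬ 3 ∣ m) : v (m : ℂ) = 1 := by
  have h : IsCoprime (m : ℤ) 3 := by
    rw [isCoprime_comm, Int.prime_three.coprime_iff_not_dvd]
    exact_mod_cast hm
  have h2 : IsCoprime (m : eis) 3 := by
    have := h.map (Int.castRingHom eis)
    simpa using this
  have := v_cop3 hv h2
  push_cast at this
  exact this

/-- the square root of the discriminant -/
lemma v_sqrt3 (hv : v 3 < 1) {d : ℤ} {m N : ℕ} (hm : ¬ 3 ∣ m) (hd : d.natAbs = m * 3 ^ N) :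
    v ((Real.sqrt |(d : ℝ)| : ℝ) : ℂ) = v ((Real.sqrt 3 : ℝ) : ℂ) ^ N := by
  have h1 : (((Real.sqrt |(d : ℝ)| : ℝ) : ℂ)) ^ 2 = (m : ℂ) * 3 ^ N := by
    rw [← Complex.ofReal_pow, Real.sq_sqrt (abs_nonneg _)]
    have h2 : |(d : ℝ)| = ((d.natAbs : ℕ) : ℝ) := by
      rw [Nat.cast_natAbs, Int.cast_abs]
    rw [h2, hd]
    push_cast
    rfl
  have h3 : (((Real.sqrt 3 : ℝ) : ℂ)) ^ 2 = 3 := by
    rw [← Complex.ofReal_pow, Real.sq_sqrt (by norm_num)]
    norm_num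
  have h4 : v (((Real.sqrt |(d : ℝ)| : ℝ) : ℂ)) ^ 2 = (v ((Real.sqrt 3 : ℝ) : ℂ) ^ N) ^ 2 := by
    rw [← map_pow, h1, map_mul, v_nat3 hv hm, one_mul, ← map_pow, ← map_pow, ← pow_mul,
      mul_comm N 2, pow_mul, h3]
  exact (pow_left_inj₀ zero_le zero_le two_ne_zero).1 h4

/-- the lattices with `g₃ = 64` -/
lemma cur_half {Λ : PeriodPair} (h2 : Λ.g₂ = 0) (h3 : Λ.g₃ = 64) :
    ∃ (L : PeriodPair) (Ω : ℂ), Cur L Ω ∧ IsLat Λ eis (Complex.I / 2 * Ω) := by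
  obtain ⟨Ω, hΩ, hC⟩ := exists_cur
  have hI : Complex.I / 2 ≠ 0 := div_ne_zero Complex.I_ne_zero two_ne_zero
  have hΩ' : Complex.I / 2 * Ω ≠ 0 := mul_ne_zero hI hΩ
  refine ⟨_, Ω, hC, ?_⟩
  have e : (hex (Complex.I / 2 * Ω) hΩ').g₃ = 64 := by
    have h4 := hC.g3
    rw [hex_g3_scale hΩ] at h4
    rw [hex_g3_scale hΩ', mul_pow]
    have h5 : (Complex.I / 2) ^ 6 = -1 / 64 := by
      rw [div_pow]
      have : Complex.I ^ 6 = -1 := by
        calc Complex.I ^ 6 = (Complex.I ^ 2) ^ 3 := by ring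
          _ = -1 := by rw [Complex.I_sq]; norm_num
      rw [this]
      norm_num
    rw [h5]
    have h6 : (hex 1 one_ne_zero).g₃ = -Ω ^ 6 := by
      field_simp at h4
      linear_combination h4
    rw [h6]
    field_simp
  have h := Pool.Agent.Y577.LU.lat_unique Λ (hex (Complex.I / 2 * Ω) hΩ')
    (h2.trans (hex_g2 _ hΩ').symm) (h3.trans e.symm)
  refine ⟨hΩ', fun z => ?_⟩
  rw [h]
  exact (hex_lat _ hΩ').mem z

/-- the area -/
lemma area_half {Λ : PeriodPair} {Ω : ℂ} (h : IsLat Λ eis (Complex.I / 2 * Ω)) :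
    ((2 * |((starRingEnd ℂ) Λ.ω₁ * Λ.ω₂).im| : ℝ) : ℂ) =
      ((Real.sqrt 3 : ℝ) : ℂ) / 4 * (Ω * (starRingEnd ℂ) Ω) := by
  rw [area h]
  have h3 : |((3 : ℤ) : ℝ)| = 3 := by norm_num
  rw [h3, map_mul, map_div₀, Complex.conj_I, map_ofNat]
  have h4 : Complex.I * -Complex.I = 1 := by
    rw [mul_neg, Complex.I_mul_I, neg_neg]
  linear_combination ((Real.sqrt 3 : ℝ) : ℂ) / 4 * (Ω * (starRingEnd ℂ) Ω) * h4

/-- there is a lattice with `g₂ = 0` and `g₃ = 64` -/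
lemma exists_lat64 : ∃ Λ : PeriodPair, Λ.g₂ = 0 ∧ Λ.g₃ = 64 := by
  obtain ⟨Ω, hΩ, hC⟩ := exists_cur
  have hI : Complex.I / 2 ≠ 0 := div_ne_zero Complex.I_ne_zero two_ne_zero
  have hΩ' : Complex.I / 2 * Ω ≠ 0 := mul_ne_zero hI hΩ
  refine ⟨hex (Complex.I / 2 * Ω) hΩ', hex_g2 _ hΩ', ?_⟩
  have h4 := hC.g3
  rw [hex_g3_scale hΩ] at h4
  rw [hex_g3_scale hΩ', mul_pow]
  have h5 : (Complex.I / 2) ^ 6 = -1 / 64 := by
    rw [div_pow]
    have : Complex.I ^ 6 = -1 := by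
      calc Complex.I ^ 6 = (Complex.I ^ 2) ^ 3 := by ring
        _ = -1 := by rw [Complex.I_sq]; norm_num
    rw [this]
    norm_num
  rw [h5]
  have h6 : (hex 1 one_ne_zero).g₃ = -Ω ^ 6 := by
    field_simp at h4
    linear_combination h4
  rw [h6]
  field_simp

end per

section main
variable {F K : Type} [Field F] [NumberField F] [IsCyclotomicExtension {3} ℚ F] [Field K]
  [NumberField K] [Algebra F K] [IsGalois F K]

/-- **the analytic theorem for a field with its Artin map** -/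
theorem analytic_K3 {n : ℕ} (hn : Module.finrank F K = 3 ^ n) {c : 𝓞 F}
    {art : (𝓞 F ⧸ Ideal.span {c})ˣ →* Gal(K/F)} (h : Art c art) (hc : Cn c) :
    ∃ Lf : ℂ → ℂ, MeromorphicOn Lf Set.univ ∧ (∀ s : ℂ, 3 / 2 < s.re →
      LSeriesSummable ((fun n : ℤ => (n : ℂ)) ∘ (Em K).LFunction) s ∧ Lf s = (Em K).LSeries s) ∧
      AnalyticAt ℂ Lf 1 ∧ Lf 1 ≠ 0 ∧
      ∀ Λ : PeriodPair, Λ.g₂ = 0 → Λ.g₃ = 64 →
        ∀ (Γ : Type) [LinearOrderedCommGroupWithZero Γ] (v : Valuation ℂ Γ), v 3 < 1 →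
          v (Lf 1 * (Real.sqrt |(discr K : ℝ)| : ℝ) /
            ((2 * |((starRingEnd ℂ) Λ.ω₁ * Λ.ω₂).im| : ℝ) : ℂ) ^ 3 ^ n) = 1 := by
  let := commG h
  obtain ⟨ζ, hζ⟩ := IsCyclotomicExtension.exists_isPrimitiveRoot ℚ F
    (Set.mem_singleton 3) (by norm_num)
  obtain ⟨σ, hσ⟩ := exists_emb hζ
  obtain ⟨Lf, h1, h2, h3, h4, h5⟩ := analytic3 (mkDt3 hn h (isoE hζ σ hσ) hc)
  refine ⟨Lf, h1, h2, h3, h4, fun Λ hL2 hL3 Γ _ v hv => ?_⟩
  obtain ⟨L, Ω, hC, hLat⟩ := cur_half hL2 hL3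
  have h6 := h5 L Ω hC Γ v hv
  have h7 : Nat.card Gal(K/F) = 3 ^ n := by rw [← hn]; exact IsGalois.card_aut_eq_finrank F K
  rw [h7] at h6
  rw [area_half hLat, mul_pow]
  obtain ⟨m, hm, hd⟩ := disc3 hn h hc
  have h8 := v_sqrt3 hv hm hd
  have v4 : v (4 : ℂ) = 1 := by
    have : (4 : ℂ) = 2 * 2 := by norm_num
    rw [this, map_mul, v2_of3 hv, mul_one]
  rw [map_div₀, map_mul, map_mul, map_pow v (_ / 4), map_div₀, v4, div_one, h8]
  rw [map_div₀] at h6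
  have hr : v ((Real.sqrt 3 : ℝ) : ℂ) ≠ 0 := by
    rw [Valuation.ne_zero_iff]
    have : Real.sqrt 3 ≠ 0 := by positivity
    exact_mod_cast this
  rw [mul_comm (v (Lf 1)), mul_div_mul_left _ _ (pow_ne_zero _ hr)]
  exact h6

end main

end Pool.Agent.T9h31.Ab
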