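import Pool.Agent.T9h31.AbSel
import Pool.Agent.Y784.E3.FinOdd

/-!
# The Tate-Shafarevich group and the points of `y² = x³ - 16`
-/

set_option autoImplicit false
set_option linter.unusedSectionVars false
set_option linter.unusedVariables false

open scoped Classical

namespace Pool.Agent.T9h31.Ab

open NumberField IsDedekindDomain WithZero WeierstrassCurve
open Pool.Agent.TH841.NF (tm tm_act act_tm tm_tm tm_id tm_inj coc_fin coc_of_fin aut_of_two
  act_some' act_zero' pt_ext tm_some tm_zero pt_inj)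
open Pool.Agent.TH841.SH.D (Pt act Gal Coch IsCoc IsCob LocTriv cob coc_add coc_neg loc_add loc_neg)
open Pool.Agent.TH841.NF.D (Sha IsShaCoc shaCoc)
open Pool.Agent.N883.SX (E1 isE tor cc Kum Hm kumG)
open Pool.Agent.N883.SX.Ker (act_lm imm lm lm_apply act_imm act_tor tor_add tor_inj ker_imm imm_tor
  tor_zero tor_one tor_neg_one z3 some_eq of_some_eq TT)
open Pool.Agent.Y696.CTP (cK cK_apply exists_cK exists_eFk)
open Pool.Agent.N883.SY.Upc (lm_lm root)
open Pool.Agent.Y696 (coc_of_pt act_act fixm act_inj)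

section gen
variable {k : Type} [Field k]

lemma cob_loc (W : WeierstrassCurve k) (K : Type) [Field K] [Algebra k K]
    (R : Pt W (AlgebraicClosure k)) :
    LocTriv W K (fun σ : Gal k => act W σ.toAlgHom R - R) := by
  intro ι
  refine ⟨act W ι R, fun τ σ h => ?_⟩
  have h4 : act W ι (act W σ.toAlgHom R) =
      act W (τ.toAlgHom.restrictScalars k) (act W ι R) := by
    rw [act_act, act_act]
    congr 2
    ext z
    exact (h z).symm
  rw [map_sub, h4]

variable {w : k} (hw : w ^ 2 + w + 1 = 0)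

lemma lmW_coc {f : Coch (Em k)} (hf : IsCoc (Em k) f) :
    IsCoc (Em k) (fun σ => lmW (root hw (AlgebraicClosure k)) (f σ)) := by
  refine ⟨hf.1.comp _, fun σ τ => ?_⟩
  show lmW _ (f (σ * τ)) = lmW _ (f σ) + act (Em k) σ.toAlgHom (lmW _ (f τ))
  rw [hf.2, map_add, act_lmW _ (root hw _) (root hw _) (σ.toAlgHom.commutes w)]

lemma lmW_loc (K : Type) [Field K] [Algebra k K] {f : Coch (Em k)}
    (hf : LocTriv (Em k) K f) :
    LocTriv (Em k) K (fun σ => lmW (root hw (AlgebraicClosure k)) (f σ)) := by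
  intro ι
  obtain ⟨P, hP⟩ := hf ι
  refine ⟨lmW (root hw (AlgebraicClosure K)) P, fun τ σ h => ?_⟩
  have h1 := hP τ σ h
  rw [act_lmW ι (root hw _) (root hw _) (ι.commutes w), h1, map_sub,
    act_lmW (τ.toAlgHom.restrictScalars k) (root hw _) (root hw _)
      ((τ.toAlgHom.restrictScalars k).commutes w)]

end gen

section main
variable {F k : Type} [Field F] [NumberField F] [IsCyclotomicExtension {3} ℚ F] [Field k]
  [NumberField k] [Algebra F k] [IsGalois F k] [Fact (∀ r : k, r ^ 2 ≠ -1 + 0 * r)]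

lemma lmW_surj {w : k} (hw : w ^ 2 + w + 1 = 0) (Q : Pt (Em k) (AlgebraicClosure k)) :
    ∃ R, lmW (root hw (AlgebraicClosure k)) R = Q := by
  have hcL : CharZero (AlgebraicClosure (Qi k)) := charZero_of_injective_algebraMap
    (algebraMap (Qi k) (AlgebraicClosure (Qi k))).injective
  obtain ⟨e, he⟩ := exists_eFk (k := k) (F := Qi k) finrank_qi
  obtain ⟨J, hJ⟩ : ∃ J, J = algebraMap k (AlgebraicClosure k) w := ⟨_, rfl⟩
  have hJ0 : J ^ 2 + J + 1 = 0 := by rw [hJ]; exact root hw _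
  have hJ' : (e.symm J) ^ 2 + e.symm J + 1 = 0 := by
    rw [← map_pow, ← map_add, ← map_one e.symm, ← map_add, hJ0, map_zero]
  obtain ⟨R', hR'⟩ := Pool.Agent.Y715.T.Ell.surj_im (isE (Qi k) (AlgebraicClosure (Qi k))) hJ' (Ps e Q)
  obtain ⟨R, hR⟩ := Ps_surj e R'
  subst hJ
  refine ⟨R, ?_⟩
  apply Psi_inj (k := k) (e.symm : AlgebraicClosure k →+* AlgebraicClosure (Qi k))
  rw [Psi_lmW (k := k) (e.symm : AlgebraicClosure k →+* AlgebraicClosure (Qi k)) _ hJ' rfl R]
  have h1 : Psi (k := k) (e.symm : AlgebraicClosure k →+* AlgebraicClosure (Qi k)) R = R' := hR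
  rw [h1]
  exact hR'

lemma lmW_lmW {w : k} (hw : w ^ 2 + w + 1 = 0) (P : Pt (Em k) (AlgebraicClosure k)) :
    lmW (root hw (AlgebraicClosure k)) (lmW (root hw (AlgebraicClosure k)) P) =
      -imW (root hw (AlgebraicClosure k)) ((3 : ℕ) • P) := by
  have hcL : CharZero (AlgebraicClosure (Qi k)) := charZero_of_injective_algebraMap
    (algebraMap (Qi k) (AlgebraicClosure (Qi k))).injective
  obtain ⟨e, he⟩ := exists_eFk (k := k) (F := Qi k) finrank_qi
  have hJ' : (e.symm (algebraMap k (AlgebraicClosure k) w)) ^ 2 +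
      e.symm (algebraMap k (AlgebraicClosure k) w) + 1 = 0 := by
    rw [← map_pow, ← map_add, ← map_one e.symm, ← map_add, root hw, map_zero]
  apply Psi_inj (k := k) (e.symm : AlgebraicClosure k →+* AlgebraicClosure (Qi k))
  rw [Psi_lmW (k := k) (e.symm : AlgebraicClosure k →+* AlgebraicClosure (Qi k)) _ hJ' rfl,
    Psi_lmW (k := k) (e.symm : AlgebraicClosure k →+* AlgebraicClosure (Qi k)) _ hJ' rfl, map_neg,
    Psi_imW (k := k) (e.symm : AlgebraicClosure k →+* AlgebraicClosure (Qi k)) _ hJ' rfl, map_nsmul,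
    lm_lm]

/-- the main step -/
theorem stepK {n : ℕ} (hn : Module.finrank F k = 3 ^ n) (hun : Un F k) {θ₀ : F}
    (hθ₀ : θ₀ ^ 2 = -3) {w : k} (hwe : w = (-1 + algebraMap F k θ₀) / 2) (hw : w ^ 2 + w + 1 = 0)
    {f : Coch (Em k)} (hf : IsCoc (Em k) f)
    (hloc : ∀ v : HeightOneSpectrum (𝓞 k), LocTriv (Em k) (v.adicCompletion k) f)
    {Q : Pt (Em k) (AlgebraicClosure k)}
    (hQ : ∀ σ : Gal k, lmW (root hw (AlgebraicClosure k)) (f σ) = act (Em k) σ.toAlgHom Q - Q) :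
    ∃ R, ∀ σ : Gal k, f σ = act (Em k) σ.toAlgHom R - R := by
  obtain ⟨R, hR⟩ := lmW_surj hw Q
  obtain ⟨dR, hdR⟩ : ∃ dR : Coch (Em k), dR = fun σ : Gal k => act (Em k) σ.toAlgHom R - R :=
    ⟨_, rfl⟩
  have hdc : IsCoc (Em k) dR := by
    rw [hdR]
    exact coc_of_pt (Em k) R
  have hdl : ∀ v : HeightOneSpectrum (𝓞 k), LocTriv (Em k) (v.adicCompletion k) dR := by
    rw [hdR]
    exact fun v => cob_loc (Em k) _ R
  have hdσ : ∀ σ, dR σ = act (Em k) σ.toAlgHom R - R := fun σ => by rw [hdR]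
  have hg : IsCoc (Em k) (f + -dR) := coc_add hf (coc_neg hdc)
  obtain ⟨R', -, hR'⟩ := ker_cob hn hun hθ₀ (J := algebraMap k _ w) (by rw [hwe]) (root hw _) hg
    (fun σ => by
      show lmW _ (f σ + -dR σ) = 0
      rw [hdσ, map_add, map_neg, map_sub, hQ, ← act_lmW _ (root hw _) (root hw _)
        (σ.toAlgHom.commutes w), hR]
      abel) (fun v => loc_add (hloc v) (loc_neg (hdl v)))
  refine ⟨R + R', fun σ => ?_⟩
  have h1 : f σ + -dR σ = act (Em k) σ.toAlgHom R' - R' := hR' σ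
  rw [hdσ] at h1
  have h2 : f σ = (act (Em k) σ.toAlgHom R' - R') + (act (Em k) σ.toAlgHom R - R) := by
    rw [← h1]
    abel
  rw [h2, map_add]
  abel

lemma exists_w {θ₀ : F} (hθ₀ : θ₀ ^ 2 = -3) : ∃ w : k, w = (-1 + algebraMap F k θ₀) / 2 ∧
    w ^ 2 + w + 1 = 0 := by
  refine ⟨_, rfl, omk ?_⟩
  rw [← map_pow, hθ₀, map_neg, map_ofNat]

/-- **no element of order three in the Tate-Shafarevich group** -/
theorem sha_three {n : ℕ} (hn : Module.finrank F k = 3 ^ n) (hun : Un F k)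
    (x : Sha (Em k)) (hx : (3 : ℕ) • x = 0) : x = 0 := by
  obtain ⟨θ₀, hθ₀⟩ := exists_theta (F := F)
  obtain ⟨w, hwe, hw⟩ := exists_w (k := k) hθ₀
  obtain ⟨f, rfl⟩ := QuotientAddGroup.mk_surjective x
  have hx1 : (QuotientAddGroup.mk ((3 : ℕ) • f) :
      shaCoc (Em k) ⧸ (cob (Em k)).addSubgroupOf (shaCoc (Em k))) = 0 := hx
  rw [QuotientAddGroup.eq_zero_iff, AddSubgroup.mem_addSubgroupOf] at hx1
  obtain ⟨P, hP⟩ := hx1
  have hP' : ∀ σ, (3 : ℕ) • f.1 σ = act (Em k) σ.toAlgHom P - P := hP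
  have hfs : IsShaCoc (Em k) f.1 := f.2
  obtain ⟨R₁, hR₁⟩ := stepK hn hun hθ₀ hwe hw (lmW_coc hw hfs.1)
    (fun v => lmW_loc hw _ (hfs.2.1 v)) (Q := -imW (root hw (AlgebraicClosure k)) P) (fun σ => by
      show lmW _ (lmW _ (f.1 σ)) = _
      rw [lmW_lmW hw, hP', map_sub, map_neg,
        act_imW _ (root hw _) (root hw _) (σ.toAlgHom.commutes w)]
      abel)
  obtain ⟨R₂, hR₂⟩ := stepK hn hun hθ₀ hwe hw hfs.1 hfs.2.1 (Q := R₁) hR₁
  have hgoal : (QuotientAddGroup.mk f :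
      shaCoc (Em k) ⧸ (cob (Em k)).addSubgroupOf (shaCoc (Em k))) = 0 := by
    rw [QuotientAddGroup.eq_zero_iff, AddSubgroup.mem_addSubgroupOf]
    exact ⟨R₂, hR₂⟩
  exact hgoal

/-- the rational points are divisible by three -/
theorem div_three {n : ℕ} (hn : Module.finrank F k = 3 ^ n) (hun : Un F k) (P : Pt (Em k) k) :
    ∃ Q : Pt (Em k) k, P = (3 : ℕ) • Q := by
  obtain ⟨θ₀, hθ₀⟩ := exists_theta (F := F)
  obtain ⟨w, hwe, hw⟩ := exists_w (k := k) hθ₀
  obtain ⟨j, hj⟩ : ∃ j : k →ₐ[k] AlgebraicClosure k, j = Algebra.ofId k _ := ⟨_, rfl⟩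
  have hrk := root hw k
  have key : ∀ P : Pt (Em k) k, ∃ Q : Pt (Em k) k, lmW hrk Q = P := by
    intro P
    obtain ⟨R, hR⟩ := lmW_surj hw (act (Em k) j P)
    have hP : ∀ σ : Gal k, act (Em k) σ.toAlgHom (act (Em k) j P) = act (Em k) j P := by
      intro σ
      rw [act_act]
      congr 1
      congr 1
      rw [hj]
      exact AlgHom.ext fun _ => σ.commutes _
    obtain ⟨R', hR'0, hR'⟩ := ker_cob hn hun hθ₀ (J := algebraMap k _ w) (by rw [hwe]) (root hw _)
      (coc_of_pt (Em k) R) (fun σ => by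
        rw [map_sub, ← act_lmW _ (root hw _) (root hw _) (σ.toAlgHom.commutes w), hR, hP, sub_self])
      (fun v => cob_loc (Em k) _ R)
    have hfix : ∀ σ : Gal k, act (Em k) σ.toAlgHom (R - R') = R - R' := by
      intro σ
      have h5 : act (Em k) σ.toAlgHom R - R = act (Em k) σ.toAlgHom R' - R' := hR' σ
      rw [map_sub]
      have : act (Em k) σ.toAlgHom R = act (Em k) σ.toAlgHom R' - R' + R := by rw [← h5]; abel
      rw [this]
      abel
    obtain ⟨Q, hQ⟩ : ∃ Q : Pt (Em k) k, act (Em k) j Q = R - R' := by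
      rcases Pool.Agent.Y696.pt_cases (R - R') with h0 | ⟨x, y, hn', h0⟩
      · exact ⟨0, by rw [h0, map_zero]⟩
      · have hxy : ∀ σ : Gal k, σ x = x ∧ σ y = y := by
          intro σ
          have h5 := hfix σ
          rw [h0] at h5
          exact Pool.Agent.Y696.mk_ext.1 h5
        obtain ⟨x₀, hx⟩ := fixm (k := k) x fun σ => (hxy σ).1
        obtain ⟨y₀, hy⟩ := fixm (k := k) y fun σ => (hxy σ).2
        subst hx hy
        have hns : ((Em k).baseChange k).toAffine.Nonsingular x₀ y₀ :=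
          (Affine.baseChange_nonsingular (Em k) j.injective ..).mp (by rw [hj]; exact hn')
        exact ⟨Pool.Agent.Y696.mkp hns, by rw [h0, hj]; rfl⟩
    refine ⟨Q, ?_⟩
    apply act_inj (Em k) j
    rw [act_lmW j hrk (root hw _) (j.commutes w), hQ, map_sub, hR, hR'0, sub_zero]
  obtain ⟨Q₁, hQ₁⟩ := key P
  obtain ⟨Q₂, hQ₂⟩ := key Q₁
  refine ⟨-imW hrk Q₂, ?_⟩
  apply act_inj (Em k) j
  have h1 := lmW_lmW hw (act (Em k) j Q₂)
  rw [← act_lmW j hrk (root hw _) (j.commutes w), hQ₂,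
    ← act_lmW j hrk (root hw _) (j.commutes w), hQ₁] at h1
  rw [h1, map_nsmul, map_nsmul, map_neg, act_imW j hrk (root hw _) (j.commutes w), smul_neg]

/-- a finitely generated abelian group that is 3-divisible is finite of order prime to three -/
theorem fin_div3 {A : Type} [AddCommGroup A] (hfg : AddGroup.FG A) (h : ∀ a : A, ∃ b, a = 3 • b) :
    Finite A ∧ ¬ 3 ∣ Nat.card A := by
  have hf : Module.Finite ℤ A := Module.Finite.iff_addGroup_fg.2 hfg
  obtain ⟨r, hr, hr0⟩ := Submodule.exists_sub_one_mem_and_smul_eq_zero_of_fg_of_le_smul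
    (Ideal.span {(3 : ℤ)}) (⊤ : Submodule ℤ A) hf.fg_top (by
      intro a _
      obtain ⟨b, rfl⟩ := h a
      have : (3 : ℕ) • b = (3 : ℤ) • b := by rw [← natCast_zsmul]; rfl
      rw [this]
      exact Submodule.smul_mem_smul (Ideal.mem_span_singleton_self 3) trivial)
  rw [Ideal.mem_span_singleton] at hr
  obtain ⟨c, hc⟩ := hr
  have hrn : r ≠ 0 := by
    rintro rfl
    omega
  have hfin : Finite A := by
    apply Module.finite_of_fg_torsion A
    intro a
    exact ⟨⟨r, mem_nonZeroDivisors_of_ne_zero hrn⟩, hr0 a trivial⟩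
  refine ⟨hfin, ?_⟩
  intro hd
  have : Fact (Nat.Prime 3) := ⟨Nat.prime_three⟩
  obtain ⟨a, ha⟩ := exists_prime_addOrderOf_dvd_card' 3 hd
  have h1 : (3 : ℤ) • a = 0 := by
    have := addOrderOf_nsmul_eq_zero a
    rw [ha] at this
    exact_mod_cast this
  have h2 : r • a = 0 := hr0 a trivial
  have h3 : a = 0 := by
    have e : r = 3 * c + 1 := by omega
    rw [e, add_smul, one_smul, mul_comm, mul_smul, h1, smul_zero, zero_add] at h2
    exact h2
  rw [h3, addOrderOf_zero] at ha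
  omega

/-- **the rational points** -/
theorem pts_three {n : ℕ} (hn : Module.finrank F k = 3 ^ n) (hun : Un F k) :
    Finite (Em k).toAffine.Point ∧ ¬ 3 ∣ Nat.card (Em k).toAffine.Point := by
  have hfg : AddGroup.FG (Pool.Agent.H925R3.DC.crv k ((0 : ℤ) : k) ((-16 : ℤ) : k)).Point :=
    Pool.Agent.H64R2.DDMWK.mwk k 0 (-16) (by norm_num)
  have e : (Pool.Agent.H925R3.DC.crv k ((0 : ℤ) : k) ((-16 : ℤ) : k)) = (Em k).toAffine := by
    show (⟨0, 0, 0, ((0 : ℤ) : k), ((-16 : ℤ) : k)⟩ : WeierstrassCurve k) = ⟨0, 0, 0, 0, -16⟩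
    push_cast
    rfl
  rw [e] at hfg
  refine fin_div3 hfg fun P => ?_
  obtain ⟨Q, hQ⟩ := div_three hn hun P
  exact ⟨Q, hQ⟩

end main

end Pool.Agent.T9h31.Ab
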