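import Mathlib
import Pool.Agent.T9h31.AbBld
import Pool.Agent.T9h31.AbSha
import Pool.Agent.Y696.Cyc

/-!
# The assembled statements for `y² = x³ - 16`
-/

set_option autoImplicit false
set_option linter.unusedSectionVars false
set_option linter.unusedVariables false

open scoped Classical

namespace Pool.Agent.T9h31.Ab

open NumberField IsDedekindDomain WithZero WeierstrassCurve
open Pool.Agent.Y696 (Art IsArtin NonsingRed)
open Pool.Agent.TH841.NF.D (Sha)

section
variable {F K : Type} [Field F] [NumberField F] [IsCyclotomicExtension {3} ℚ F] [Field K]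
  [NumberField K] [Algebra F K]

lemma sha_pow [IsGalois F K] {n : ℕ} (hn : Module.finrank F K = 3 ^ n) (hun : Un F K) (j : ℕ)
    (x : Sha (Em K)) (hx : 3 ^ j • x = 0) : x = 0 := by
  have hf := qi_fact (no_sq_k (F := F) (k := K) hn)
  induction j generalizing x with
  | zero => simpa using hx
  | succ j ih =>
    apply ih
    apply sha_three (F := F) hn hun
    rw [← mul_smul, ← pow_succ']
    exact hx

/-- the primes `7` modulo `12` -/
lemma cyc_cond {m : ℕ} (hm : m ≠ 0) (h : ∀ q : ℕ, q.Prime → q ∣ m → q % 12 = 7) :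
    Cn (F := F) (m : 𝓞 F) := by
  intro v₀ hmv
  -- a prime divisor in the ideal
  obtain ⟨q, hq, hqm, hqv⟩ : ∃ q : ℕ, q.Prime ∧ q ∣ m ∧ (q : 𝓞 F) ∈ v₀.asIdeal := by
    clear h
    induction m using Nat.recOnMul with
    | zero => exact absurd rfl hm
    | one =>
      exfalso
      apply v₀.isPrime.ne_top
      rw [Ideal.eq_top_iff_one]
      simpa using hmv
    | prime p hp => exact ⟨p, hp, dvd_rfl, hmv⟩
    | mul a b iha ihb =>
      rw [Nat.cast_mul] at hmv
      rcases v₀.isPrime.mem_or_mem hmv with h1 | h1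
      · obtain ⟨q, h2, h3, h4⟩ := iha (fun h => hm (by rw [h, zero_mul])) h1
        exact ⟨q, h2, h3.mul_right b, h4⟩
      · obtain ⟨q, h2, h3, h4⟩ := ihb (fun h => hm (by rw [h, mul_zero])) h1
        exact ⟨q, h2, h3.mul_left a, h4⟩
  have h7 := h q hq hqm
  have hFq : Fact q.Prime := ⟨hq⟩
  have hcop : ∀ r : ℕ, r.Prime → r ≠ q → (r : 𝓞 F) ∉ v₀.asIdeal := by
    intro r hr hrq hrv
    have h1 : Nat.Coprime r q := (Nat.coprime_primes hr hq).2 hrq
    have h2 : IsCoprime (r : ℤ) (q : ℤ) := Nat.isCoprime_iff_coprime.2 h1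
    obtain ⟨a, b, hab⟩ := h2
    apply v₀.isPrime.ne_top
    rw [Ideal.eq_top_iff_one]
    have h3 := congrArg (fun t : ℤ => (t : 𝓞 F)) hab
    push_cast at h3
    rw [← h3]
    exact v₀.asIdeal.add_mem (v₀.asIdeal.mul_mem_left _ hrv) (v₀.asIdeal.mul_mem_left _ hqv)
  refine ⟨?_, ?_⟩
  · exact_mod_cast hcop 3 Nat.prime_three (by rintro rfl; norm_num at h7)
  intro x hx
  have hchar : CharP (𝓞 F ⧸ v₀.asIdeal) q := by
    have : Nontrivial (𝓞 F ⧸ v₀.asIdeal) := Ideal.Quotient.nontrivial_iff.2 v₀.isPrime.ne_top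
    refine (CharP.charP_iff_prime_eq_zero hq).2 ?_
    rw [← map_natCast (Ideal.Quotient.mk v₀.asIdeal), Ideal.Quotient.eq_zero_iff_mem]
    exact hqv
  let φ : ZMod q →+* 𝓞 F ⧸ v₀.asIdeal := ZMod.castHom dvd_rfl _
  obtain ⟨ζ, hζ⟩ := IsCyclotomicExtension.exists_isPrimitiveRoot ℚ F
    (Set.mem_singleton 3) (by norm_num)
  have h2 : hζ.toInteger ^ 2 + hζ.toInteger + 1 = 0 := by
    have h3 : hζ.toInteger ^ 3 = 1 := hζ.toInteger_isPrimitiveRoot.pow_eq_one
    have h4 : hζ.toInteger ≠ 1 := hζ.toInteger_isPrimitiveRoot.ne_one (by norm_num)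
    have h5 : (hζ.toInteger - 1) * (hζ.toInteger ^ 2 + hζ.toInteger + 1) = 0 := by
      linear_combination h3
    exact (mul_eq_zero.1 h5).resolve_left (sub_ne_zero.2 h4)
  have h2' := congrArg (Ideal.Quotient.mk v₀.asIdeal) h2
  rw [map_add, map_add, map_pow, map_one, map_zero] at h2'
  set z := Ideal.Quotient.mk v₀.asIdeal hζ.toInteger with hz
  obtain ⟨a, ha⟩ := Pool.Agent.Y696.exists_root hq (by omega)
  have ha' := congrArg φ ha
  rw [map_add, map_add, map_pow, map_one, map_zero] at ha'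
  have hzr : ∃ b : ZMod q, φ b = z := by
    have h6 : (z - φ a) * (z + 1 + φ a) = 0 := by linear_combination h2' - ha'
    rcases mul_eq_zero.1 h6 with h7 | h7
    · exact ⟨a, (sub_eq_zero.1 h7).symm⟩
    · exact ⟨-1 - a, by rw [map_sub, map_neg, map_one]; linear_combination -h7⟩
  obtain ⟨b, hb⟩ := hzr
  obtain ⟨x₀, x₁, hx'⟩ := Pool.Agent.Y696.int_rep hζ x
  have h8 : Ideal.Quotient.mk v₀.asIdeal x = φ (x₀ + x₁ * b) := by
    rw [hx', map_add, map_mul, map_add, map_mul, hb, map_intCast, map_intCast, map_intCast,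
      map_intCast]
  have h9 : φ ((x₀ + x₁ * b) ^ 2) = φ (-1) := by
    rw [map_pow, ← h8, map_neg, map_one, ← map_pow]
    have := (Ideal.Quotient.eq_zero_iff_mem).2 hx
    rw [map_add, map_one] at this
    exact eq_neg_of_add_eq_zero_left this
  have h10 := φ.injective h9
  have h11 : IsSquare (-1 : ZMod q) := ⟨x₀ + x₁ * b, by rw [← h10]; ring⟩
  rw [ZMod.exists_sq_eq_neg_one_iff] at h11
  omega

variable {L : Type} [Field L] [NumberField L] [Algebra K L] [Algebra F L] [IsScalarTower F K L]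

/-- the Artin map of a subfield of a cyclotomic field -/
theorem art_ex3 [IsGalois F K] (m : ℕ) [NeZero m] [IsCyclotomicExtension {m} F L]
    (h : ∀ q : ℕ, q.Prime → q ∣ m → q % 12 = 7) :
    ∃ art : (𝓞 F ⧸ Ideal.span {(m : 𝓞 F)})ˣ →* Gal(K/F), IsArtin (m : 𝓞 F) art := by
  obtain ⟨art, h1, h2, h3⟩ := Pool.Agent.Y141.Art.artin_cyc (F := F) (K := K) (L := L) m
    (fun q hq hqm => by
      have := h q hq hqm
      omega)
  refine ⟨art, h1, fun v hv => h2 v ?_, h3⟩
  rw [map_natCast] at hv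
  exact hv

/-- the numbers of places -/
lemma places3 {n : ℕ} (hn : Module.finrank F K = 3 ^ n) :
    InfinitePlace.nrRealPlaces K = 0 ∧ InfinitePlace.nrComplexPlaces K = 3 ^ n := by
  have h1 : Module.finrank ℚ K = 2 * 3 ^ n := by
    have h := Module.finrank_mul_finrank ℚ F K
    rw [← h, hn]
    congr 1
    rw [IsCyclotomicExtension.finrank F (Polynomial.cyclotomic.irreducible_rat (by norm_num)
      (n := 3))]
    rfl
  have hr : InfinitePlace.nrRealPlaces K = 0 := by
    obtain ⟨θ₀, hθ₀⟩ := exists_theta (F := F)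
    rw [InfinitePlace.nrRealPlaces, Fintype.card_eq_zero_iff]
    refine ⟨fun w => ?_⟩
    obtain ⟨w, hw⟩ := w
    have hr := InfinitePlace.isReal_iff.1 hw
    have h2 : (hr.embedding (algebraMap F K θ₀)) ^ 2 = -3 := by
      rw [← map_pow, ← map_pow, hθ₀, map_neg, map_ofNat, map_neg, map_ofNat]
    nlinarith [sq_nonneg (hr.embedding (algebraMap F K θ₀))]
  refine ⟨hr, ?_⟩
  have h2 := InfinitePlace.card_add_two_mul_card_eq_rank K
  rw [h1] at h2
  have h3 : InfinitePlace.nrRealPlaces K + 2 * InfinitePlace.nrComplexPlaces K = 2 * 3 ^ n := h2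
  omega

end

end Pool.Agent.T9h31.Ab
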