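import Mathlib
import Pool.Agent.T9h31.AbFin
import Pool.Agent.TH841.NF.Conc

/-!
# Isomorphic curves have isomorphic Tate-Shafarevich groups; unramified extensions by inertia groups
-/

set_option autoImplicit false
set_option linter.unusedSectionVars false
set_option linter.unusedVariables false

open scoped Classical

namespace Pool.Agent.T9h31.Nb

open NumberField IsDedekindDomain WeierstrassCurve
open Pool.Agent.TH841.NF (Sc tm tm_some tm_zero act_some' act_zero' pt_ext)
open Pool.Agent.TH841.SH.D (Pt act Gal Coch IsCoc IsCob LocTriv cob)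
open Pool.Agent.TH841.NF.D (Sha IsShaCoc shaCoc)
open Pool.Agent.T9h31.Ab
open Pool.Agent.Y696 (mem_under_of_lies val_of_unr und und_lies)

section transport
variable {K : Type} [Field K] {W W' : WeierstrassCurve K} {u : K}

lemma sc_inv (S : Sc (RingHom.id K) u W W') : Sc (RingHom.id K) u⁻¹ W' W := by
  have hu := S.hu
  refine ⟨inv_ne_zero hu, ?_, ?_, ?_, ?_, ?_⟩
  · rw [RingHom.id_apply, S.h1, RingHom.id_apply, mul_inv_cancel_right₀ hu]
  · rw [RingHom.id_apply, S.h2, RingHom.id_apply, mul_assoc, ← mul_pow, mul_inv_cancel₀ hu,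
      one_pow, mul_one]
  · rw [RingHom.id_apply, S.h3, RingHom.id_apply, mul_assoc, ← mul_pow, mul_inv_cancel₀ hu,
      one_pow, mul_one]
  · rw [RingHom.id_apply, S.h4, RingHom.id_apply, mul_assoc, ← mul_pow, mul_inv_cancel₀ hu,
      one_pow, mul_one]
  · rw [RingHom.id_apply, S.h6, RingHom.id_apply, mul_assoc, ← mul_pow, mul_inv_cancel₀ hu,
      one_pow, mul_one]

lemma sc_L (S : Sc (RingHom.id K) u W W') (L : Type) [Field L] [Algebra K L] :
    Sc (RingHom.id L) (algebraMap K L u) (W.baseChange L) (W'.baseChange L) := by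
  have hu := S.hu
  refine ⟨fun h => hu ((algebraMap K L).injective (by rw [h, map_zero])), ?_, ?_, ?_, ?_, ?_⟩
  · change algebraMap K L W'.a₁ = algebraMap K L W.a₁ * _
    rw [S.h1, map_mul, RingHom.id_apply]
  · change algebraMap K L W'.a₂ = algebraMap K L W.a₂ * _
    rw [S.h2, map_mul, map_pow, RingHom.id_apply]
  · change algebraMap K L W'.a₃ = algebraMap K L W.a₃ * _
    rw [S.h3, map_mul, map_pow, RingHom.id_apply]
  · change algebraMap K L W'.a₄ = algebraMap K L W.a₄ * _
    rw [S.h4, map_mul, map_pow, RingHom.id_apply]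
  · change algebraMap K L W'.a₆ = algebraMap K L W.a₆ * _
    rw [S.h6, map_mul, map_pow, RingHom.id_apply]

/-- the isomorphism on the points over `L` -/
noncomputable def tL (S : Sc (RingHom.id K) u W W') (L : Type) [Field L] [Algebra K L] :
    Pt W L →+ Pt W' L := tm (sc_L S L)

lemma tL_act (S : Sc (RingHom.id K) u W W') {L L' : Type} [Field L] [Algebra K L] [Field L']
    [Algebra K L'] (φ : L →ₐ[K] L') (P : Pt W L) :
    tL S L' (act W φ P) = act W' φ (tL S L P) := by
  unfold tL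
  rcases P with _ | ⟨x, y, h⟩
  · rfl
  · rw [act_some', tm_some, tm_some, act_some']
    refine pt_ext _ _ ?_ ?_
    · change φ x * _ = φ (x * _)
      rw [map_mul, map_pow, AlgHom.commutes]
    · change φ y * _ = φ (y * _)
      rw [map_mul, map_pow, AlgHom.commutes]

lemma tL_tL (S : Sc (RingHom.id K) u W W') (S' : Sc (RingHom.id K) u⁻¹ W' W) (L : Type) [Field L]
    [Algebra K L] (P : Pt W L) : tL S' L (tL S L P) = P := by
  have hu : algebraMap K L u ≠ 0 := (sc_L S L).hu
  unfold tL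
  rcases P with _ | ⟨x, y, h⟩
  · rfl
  · rw [tm_some, tm_some]
    refine pt_ext _ _ ?_ ?_
    · rw [RingHom.id_apply, RingHom.id_apply, map_inv₀]
      field_simp
    · rw [RingHom.id_apply, RingHom.id_apply, map_inv₀]
      field_simp

lemma push_loc (S : Sc (RingHom.id K) u W W') (L : Type) [Field L] [Algebra K L] {f : Coch W}
    (h : LocTriv W L f) :
    LocTriv W' L ((fun σ => tL S (AlgebraicClosure K) (f σ) : Gal K → Pt W' _) : Coch W') := by
  intro ι
  obtain ⟨P, hP⟩ := h ι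
  refine ⟨tL S (AlgebraicClosure L) P, fun τ σ hτ => ?_⟩
  change act W' ι (tL S _ (f σ)) = _
  rw [← tL_act S ι, hP τ σ hτ, map_sub, tL_act S (τ.toAlgHom.restrictScalars K)]

lemma push_coc (S : Sc (RingHom.id K) u W W') {f : Coch W} (h : IsCoc W f) :
    IsCoc W' ((fun σ => tL S (AlgebraicClosure K) (f σ) : Gal K → Pt W' _) : Coch W') := by
  refine ⟨h.1.comp _, fun σ τ => ?_⟩
  change tL S _ (f (σ * τ)) = tL S _ (f σ) + act W' σ.toAlgHom (tL S _ (f τ))
  rw [h.2, map_add, tL_act]

variable [NumberField K]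

lemma push_sha (S : Sc (RingHom.id K) u W W') {f : Coch W} (h : IsShaCoc W f) :
    IsShaCoc W' ((fun σ => tL S (AlgebraicClosure K) (f σ) : Gal K → Pt W' _) : Coch W') :=
  ⟨push_coc S h.1, fun v => push_loc S _ (h.2.1 v), fun v => push_loc S _ (h.2.2 v)⟩

/-- **transport of the triviality of torsion in the Tate-Shafarevich group** -/
theorem sha_iso (S : Sc (RingHom.id K) u W W') (n : ℕ) (h : ∀ x : Sha W, n • x = 0 → x = 0)
    (x : Sha W') (hx : n • x = 0) : x = 0 := by
  have S' := sc_inv S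
  obtain ⟨f, rfl⟩ := QuotientAddGroup.mk_surjective x
  have hx1 : (QuotientAddGroup.mk (n • f) :
      shaCoc W' ⧸ (cob W').addSubgroupOf (shaCoc W')) = 0 := hx
  rw [QuotientAddGroup.eq_zero_iff, AddSubgroup.mem_addSubgroupOf] at hx1
  obtain ⟨Q, hQ⟩ := hx1
  have hQ' : ∀ σ, n • f.1 σ = act W' σ.toAlgHom Q - Q := hQ
  have hfs : IsShaCoc W' f.1 := f.2
  have hg := push_sha S' hfs
  have h1 := h (QuotientAddGroup.mk ⟨_, hg⟩ : shaCoc W ⧸ (cob W).addSubgroupOf (shaCoc W)) (by
    change (QuotientAddGroup.mk (n • (⟨_, hg⟩ : shaCoc W)) :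
      shaCoc W ⧸ (cob W).addSubgroupOf (shaCoc W)) = 0
    rw [QuotientAddGroup.eq_zero_iff, AddSubgroup.mem_addSubgroupOf]
    refine ⟨tL S' _ Q, fun σ => ?_⟩
    change n • tL S' _ (f.1 σ) = _
    rw [← map_nsmul, hQ', map_sub, tL_act])
  have h2 : (QuotientAddGroup.mk (⟨_, hg⟩ : shaCoc W) :
      shaCoc W ⧸ (cob W).addSubgroupOf (shaCoc W)) = 0 := h1
  rw [QuotientAddGroup.eq_zero_iff, AddSubgroup.mem_addSubgroupOf] at h2
  obtain ⟨R, hR⟩ := h2
  have hR' : ∀ σ, tL S' _ (f.1 σ) = act W σ.toAlgHom R - R := hR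
  have hgoal : (QuotientAddGroup.mk f :
      shaCoc W' ⧸ (cob W').addSubgroupOf (shaCoc W')) = 0 := by
    rw [QuotientAddGroup.eq_zero_iff, AddSubgroup.mem_addSubgroupOf]
    refine ⟨tL S _ R, fun σ => ?_⟩
    have h3 : tL S _ (tL S' _ (f.1 σ)) = f.1 σ := by
      have h4 := tL_tL S' (by rw [inv_inv]; exact S) (AlgebraicClosure K) (f.1 σ)
      have h5 : ∀ (v : K) (hv : v = u) (T : Sc (RingHom.id K) v W W') (P : Pt W (AlgebraicClosure K)),
          tL T _ P = tL S _ P := by
        intro v hv T P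
        subst hv
        rfl
      rw [← h5 _ (inv_inv u)]
      exact h4
    change f.1 σ = _
    rw [← h3, hR', map_sub, tL_act]
  exact hgoal

omit [NumberField K] in
/-- the points -/
theorem fin_iso (S : Sc (RingHom.id K) u W W') [Finite W.toAffine.Point] :
    Finite W'.toAffine.Point := by
  refine Finite.of_injective (Pool.Agent.TH841.NF.tF (sc_inv S)) ?_
  have hu := S.hu
  intro P Q h
  rcases P with _ | ⟨x, y, hx⟩ <;> rcases Q with _ | ⟨x', y', hx'⟩
  · rfl
  · exact absurd h (by simp [Pool.Agent.TH841.NF.tF])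
  · exact absurd h (by simp [Pool.Agent.TH841.NF.tF])
  · rw [Pool.Agent.TH841.NF.tF_some, Pool.Agent.TH841.NF.tF_some, Affine.Point.some.injEq] at h
    rw [Affine.Point.some.injEq]
    have hi := inv_ne_zero hu
    exact ⟨mul_right_cancel₀ (pow_ne_zero 2 hi) h.1, mul_right_cancel₀ (pow_ne_zero 3 hi) h.2⟩

end transport

section ram
variable {F K : Type} [Field F] [NumberField F] [Field K] [NumberField K] [Algebra F K]

/-- no ramification, in terms of the inertia groups -/
theorem un_of_inertia [IsGalois F K]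
    (h : ∀ (w : HeightOneSpectrum (𝓞 K)) (σ : Gal(K/F)), (∀ x : 𝓞 K, σ • x - x ∈ w.asIdeal) →
      σ ≠ 1 → (3 : 𝓞 K) ∉ w.asIdeal ∧ ∀ α : 𝓞 F, α ^ 2 + 1 ∉ w.asIdeal.under (𝓞 F)) :
    Un F K := by
  intro v₀ v hlo hor t
  have hin : Ideal.inertia Gal(K/F) v.asIdeal = ⊥ := by
    rw [Subgroup.eq_bot_iff_forall]
    intro σ hσ
    by_contra hne
    obtain ⟨h3, hns⟩ := h v σ (fun x => hσ x) hne
    rcases hor with h4 | h4
    · apply h3
      have := (mem_under_of_lies hlo (x := (3 : 𝓞 F))).1 h4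
      rwa [map_ofNat] at this
    · apply h4
      intro α hα
      apply hns α
      rw [← hlo.over]
      exact hα
  refine val_of_unr hlo ?_ t
  have hp0 : v₀.asIdeal ≠ ⊥ := v₀.ne_bot
  have hpm : v₀.asIdeal.IsMaximal := v₀.isMaximal
  have : Finite (𝓞 F ⧸ v₀.asIdeal) := Ideal.finiteQuotientOfFreeOfNeBot _ hp0
  have : Finite v₀.asIdeal.ResidueField := by
    have := Ideal.bijective_algebraMap_quotient_residueField v₀.asIdeal
    exact Finite.of_surjective _ this.2
  rw [Ideal.ramificationIdx'_eq_ramificationIdx _ _ hp0]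
  have h5 := Ideal.card_inertia_eq_ramificationIdxIn (G := Gal(K/F)) v₀.asIdeal v.asIdeal
  rw [Ideal.ramificationIdxIn_eq_ramificationIdx v₀.asIdeal v.asIdeal Gal(K/F), hin] at h5
  rw [← h5]
  simp

end ram

end Pool.Agent.T9h31.Nb
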