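import Mathlib
import Pool.Agent.T9h31.Nb1

/-!
# The fields generated by cube roots of integers `1` modulo `9`
-/

set_option autoImplicit false
set_option linter.unusedSectionVars false
set_option linter.unusedVariables false

open scoped Classical

namespace Pool.Agent.T9h31.Nb

open NumberField IsDedekindDomain WeierstrassCurve
open Pool.Agent.T9h31.Ab
open Pool.Agent.Y696 (mem_under_of_lies val_of_unr und und_lies)

section kum
variable {Ω : Type} [Field Ω]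

/-- the cubic equation of `(r - 1) / √-3` -/
lemma y_eqn {θ r : Ω} (hθ : θ ^ 2 = -3) (hθ0 : θ ≠ 0) {k : Ω} (hr : r ^ 3 = 1 + 9 * k) :
    ((r - 1) / θ) ^ 3 - θ * ((r - 1) / θ) ^ 2 - (r - 1) / θ - θ * k = 0 := by
  obtain ⟨y, hy⟩ : ∃ y, y = (r - 1) / θ := ⟨_, rfl⟩
  rw [← hy]
  have h4 : r = 1 + θ * y := by
    rw [hy, mul_div_cancel₀ _ hθ0]
    ring
  rw [h4] at hr
  have h5 : θ ^ 3 ≠ 0 := pow_ne_zero _ hθ0
  apply mul_left_cancel₀ h5
  rw [mul_zero]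
  linear_combination hr + (-θ ^ 2 * y ^ 2 - θ * y + (3 - θ ^ 2) * k - 3 * y ^ 2 * 0) * hθ

lemma root_or {z x : Ω} (hz : z ^ 2 + z + 1 = 0) (hx : x ^ 3 = 1) : ∃ j : ℕ, j < 3 ∧ x = z ^ j := by
  have h : (x - 1) * ((x - z) * (x - z ^ 2)) = 0 := by
    linear_combination hx + (-x ^ 2 + x * z - z + 1) * hz
  rcases mul_eq_zero.1 h with h | h
  · exact ⟨0, by norm_num, by rw [pow_zero]; exact sub_eq_zero.1 h⟩
  rcases mul_eq_zero.1 h with h | h
  · exact ⟨1, by norm_num, by rw [pow_one]; exact sub_eq_zero.1 h⟩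
  · exact ⟨2, by norm_num, sub_eq_zero.1 h⟩

lemma z_cube {z : Ω} (hz : z ^ 2 + z + 1 = 0) : z ^ 3 = 1 := by
  linear_combination (z - 1) * hz

end kum

section main
variable {F Ω : Type} [Field F] [NumberField F] [IsCyclotomicExtension {3} ℚ F] [Field Ω]
  [NumberField Ω] [Algebra F Ω]

lemma exists_zF : ∃ ζ : F, ζ ^ 2 + ζ + 1 = 0 := by
  obtain ⟨θ₀, hθ₀⟩ := exists_theta (F := F)
  refine ⟨(-1 + θ₀) / 2, ?_⟩
  have h2 : (2 : F) ≠ 0 := two_ne_zero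
  field_simp
  linear_combination hθ₀

lemma sig_z {z : Ω} (hz : z ^ 2 + z + 1 = 0) (σ : Gal(Ω/F)) : σ z = z := by
  obtain ⟨ζ, hζ⟩ := exists_zF (F := F)
  have h1 : (algebraMap F Ω ζ) ^ 2 + algebraMap F Ω ζ + 1 = 0 := by
    rw [← map_pow, ← map_add, ← map_one (algebraMap F Ω), ← map_add, hζ, map_zero]
  obtain ⟨j, -, hj⟩ := root_or h1 (z_cube hz)
  rw [hj, map_pow, AlgEquiv.commutes]

lemma sig_r {z : Ω} (hz : z ^ 2 + z + 1 = 0) (σ : Gal(Ω/F)) {x : Ω} {l : ℕ} (hx : x ^ 3 = (l : Ω)) :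
    ∃ j : ℕ, j < 3 ∧ σ x = z ^ j * x := by
  by_cases h0 : x = 0
  · exact ⟨0, by norm_num, by rw [h0, map_zero, mul_zero]⟩
  have h1 : (σ x / x) ^ 3 = 1 := by
    rw [div_pow, ← map_pow, hx, map_natCast, div_self]
    rw [← hx]
    exact pow_ne_zero _ h0
  obtain ⟨j, hj3, hj⟩ := root_or hz h1
  exact ⟨j, hj3, by rw [← hj, div_mul_cancel₀ _ h0]⟩

variable {S : Finset ℕ} {z : Ω} {r : ℕ → Ω}

lemma gen_one (hz : z ^ 2 + z + 1 = 0)
    (hgen : ∀ M : Subfield Ω, z ∈ M → (∀ l ∈ S, r l ∈ M) → M = ⊤) {σ : Gal(Ω/F)}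
    (h : ∀ l ∈ S, σ (r l) = r l) : σ = 1 := by
  have h1 := hgen (RingHom.eqLocusField (σ : Ω →+* Ω) (RingHom.id Ω)) (sig_z hz σ) h
  ext x
  have h2 : x ∈ RingHom.eqLocusField (σ : Ω →+* Ω) (RingHom.id Ω) := by
    rw [h1]
    exact Subfield.mem_top x
  exact h2

lemma cube_one (hz : z ^ 2 + z + 1 = 0) (hr : ∀ l ∈ S, r l ^ 3 = (l : Ω))
    (hgen : ∀ M : Subfield Ω, z ∈ M → (∀ l ∈ S, r l ∈ M) → M = ⊤) (σ : Gal(Ω/F)) : σ ^ 3 = 1 := by
  apply gen_one hz hgen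
  intro l hl
  obtain ⟨j, -, hj⟩ := sig_r hz σ (hr l hl)
  have h1 : (σ ^ 3) (r l) = σ (σ (σ (r l))) := rfl
  rw [h1, hj, map_mul, map_pow, sig_z hz, hj, map_mul, map_mul, map_pow, sig_z hz, hj]
  have h2 : z ^ j * (z ^ j * (z ^ j * r l)) = (z ^ 3) ^ j * r l := by ring
  rw [h2, z_cube hz, one_pow, one_mul]

theorem deg_three [IsGalois F Ω] (hz : z ^ 2 + z + 1 = 0) (hr : ∀ l ∈ S, r l ^ 3 = (l : Ω))
    (hgen : ∀ M : Subfield Ω, z ∈ M → (∀ l ∈ S, r l ∈ M) → M = ⊤) :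
    ∃ n : ℕ, Module.finrank F Ω = 3 ^ n := by
  have h1 : IsPGroup 3 Gal(Ω/F) := fun σ => ⟨1, by rw [pow_one]; exact cube_one hz hr hgen σ⟩
  have : Fact (Nat.Prime 3) := ⟨Nat.prime_three⟩
  obtain ⟨n, hn⟩ := IsPGroup.iff_card.1 h1
  exact ⟨n, by rw [← hn]; exact (IsGalois.card_aut_eq_finrank F Ω).symm⟩

/-- the conditions on the integers -/
def Adm (S : Finset ℕ) : Prop := ∀ l ∈ S, l % 9 = 1 ∧ ∀ q : ℕ, q.Prime → q ∣ l → q % 12 = 7

theorem inertia_kum (hz : z ^ 2 + z + 1 = 0) (hS : Adm S) (hr : ∀ l ∈ S, r l ^ 3 = (l : Ω))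
    (hgen : ∀ M : Subfield Ω, z ∈ M → (∀ l ∈ S, r l ∈ M) → M = ⊤) (w : HeightOneSpectrum (𝓞 Ω))
    (σ : Gal(Ω/F)) (hσ : ∀ x : 𝓞 Ω, σ • x - x ∈ w.asIdeal) (hne : σ ≠ 1) :
    (3 : 𝓞 Ω) ∉ w.asIdeal ∧ ∀ α : 𝓞 F, α ^ 2 + 1 ∉ w.asIdeal.under (𝓞 F) := by
  obtain ⟨l, hl, hlr⟩ : ∃ l ∈ S, σ (r l) ≠ r l := by
    by_contra hcon
    push Not at hcon
    exact hne (gen_one hz hgen hcon)
  obtain ⟨h9, hq⟩ := hS l hl
  obtain ⟨k, hk⟩ : ∃ k : ℕ, l = 1 + 9 * k := ⟨l / 9, by omega⟩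
  obtain ⟨θ, hθe⟩ : ∃ θ, θ = 2 * z + 1 := ⟨_, rfl⟩
  have hθ : θ ^ 2 = -3 := by rw [hθe]; linear_combination 4 * hz
  have hθ0 : θ ≠ 0 := by
    intro h
    rw [h] at hθ
    norm_num at hθ
  have hrl : r l ^ 3 = 1 + 9 * (k : Ω) := by
    rw [hr l hl]
    conv_lhs => rw [hk]
    push_cast
    ring
  -- the integral elements
  have hzi : _root_.IsIntegral ℤ z := ⟨Polynomial.X ^ 2 + Polynomial.X + 1, by monicity!, by
    simpa using hz⟩
  have hθi : _root_.IsIntegral ℤ θ := by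
    rw [hθe]
    have h2 : _root_.IsIntegral ℤ (2 : Ω) := by
      have := isIntegral_natCast (R := ℤ) (B := Ω) 2
      simpa using this
    exact (h2.mul hzi).add isIntegral_one
  have hri : _root_.IsIntegral ℤ (r l) := by
    refine _root_.IsIntegral.of_pow (n := 3) (by norm_num) ?_
    rw [hr l hl]
    exact isIntegral_natCast l
  have hyi : _root_.IsIntegral ℤ ((r l - 1) / θ) := by
    have hy := y_eqn hθ hθ0 hrl
    refine isIntegral_trans (A := integralClosure ℤ Ω) _ ?_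
    refine ⟨Polynomial.X ^ 3 - Polynomial.C ⟨θ, hθi⟩ * Polynomial.X ^ 2 - Polynomial.X -
      Polynomial.C (⟨θ, hθi⟩ * (k : integralClosure ℤ Ω)), by monicity!, ?_⟩
    have e : algebraMap (integralClosure ℤ Ω) Ω ⟨θ, hθi⟩ = θ := rfl
    simp only [Polynomial.eval₂_sub, Polynomial.eval₂_mul, Polynomial.eval₂_pow,
      Polynomial.eval₂_X, Polynomial.eval₂_C, e, map_mul, map_natCast, Polynomial.eval₂_natCast]
    exact hy
  have hinj : Function.Injective (algebraMap (𝓞 Ω) Ω) := IsFractionRing.injective (𝓞 Ω) Ω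
  obtain ⟨Z, hZ⟩ : ∃ Z : 𝓞 Ω, algebraMap (𝓞 Ω) Ω Z = z := ⟨⟨z, hzi⟩, rfl⟩
  obtain ⟨R, hR⟩ : ∃ R : 𝓞 Ω, algebraMap (𝓞 Ω) Ω R = r l := ⟨⟨r l, hri⟩, rfl⟩
  obtain ⟨Y, hY⟩ : ∃ Y : 𝓞 Ω, algebraMap (𝓞 Ω) Ω Y = (r l - 1) / θ := ⟨⟨_, hyi⟩, rfl⟩
  obtain ⟨j, hj3, hj⟩ := sig_r hz σ (hr l hl)
  have hz3 := z_cube hz
  have hθσ : σ θ = θ := by
    rw [hθe, map_add, map_mul, sig_z hz, map_ofNat, map_one]
  -- the root is in the prime
  have hRw : R ∈ w.asIdeal := by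
    have h1 := hσ Y
    have h2 : algebraMap (𝓞 Ω) Ω (σ • Y - Y) = (z ^ j - 1) * r l / θ := by
      have e1 : algebraMap (𝓞 Ω) Ω (σ • Y - Y) =
        σ (algebraMap (𝓞 Ω) Ω Y) - algebraMap (𝓞 Ω) Ω Y := rfl
      rw [e1, hY, map_div₀, map_sub, map_one, hj, hθσ]
      field_simp
      ring
    interval_cases j
    · rw [pow_zero, one_mul] at hj
      exact absurd hj hlr
    · have h3 : (z ^ 1 - 1) * r l / θ = -z ^ 2 * r l := by
        rw [div_eq_iff hθ0, hθe]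
        linear_combination (r l * (2 * z - 1)) * hz
      have h4 : σ • Y - Y = -Z ^ 2 * R := by
        apply hinj
        rw [h2, h3]
        simp only [map_mul, map_neg, map_pow, hZ, hR]
      rw [h4] at h1
      have h5 : R = -Z * (-Z ^ 2 * R) := by
        apply hinj
        simp only [map_mul, map_neg, map_pow, hZ, hR]
        linear_combination (-r l) * hz3
      rw [h5]
      exact Ideal.mul_mem_left _ _ h1
    · have h3 : (z ^ 2 - 1) * r l / θ = z * r l := by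
        rw [div_eq_iff hθ0, hθe]
        linear_combination (-r l) * hz
      have h4 : σ • Y - Y = Z * R := by
        apply hinj
        rw [h2, h3]
        simp only [map_mul, map_neg, map_pow, hZ, hR]
      rw [h4] at h1
      have h5 : R = Z ^ 2 * (Z * R) := by
        apply hinj
        simp only [map_mul, map_neg, map_pow, hZ, hR]
        linear_combination (-r l) * hz3
      rw [h5]
      exact Ideal.mul_mem_left _ _ h1
  have hlw : (l : 𝓞 Ω) ∈ w.asIdeal := by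
    have h1 : (l : 𝓞 Ω) = R ^ 3 := by
      apply hinj
      rw [map_natCast, map_pow, hR, hr l hl]
    rw [h1]
    exact Ideal.pow_mem_of_mem _ hRw 3 (by norm_num)
  have hl0 : l ≠ 0 := by omega
  have hlu : (l : 𝓞 F) ∈ (und (F := F) w).asIdeal := by
    rw [mem_under_of_lies (und_lies (F := F) w), map_natCast]
    exact hlw
  obtain ⟨g1, g2⟩ := cyc_cond (F := F) hl0 hq (und (F := F) w) hlu
  refine ⟨fun h3 => g1 ?_, fun α hα => g2 α hα⟩
  rw [mem_under_of_lies (und_lies (F := F) w), map_ofNat]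
  exact h3

end main

end Pool.Agent.T9h31.Nb
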