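import Mathlib
import Pool.Agent.T9h31.Nb2
import Pool.Agent.R432.C1

/-!
# The degree of the field generated by the cube roots of different primes
-/

set_option autoImplicit false
set_option linter.unusedSectionVars false
set_option linter.unusedVariables false

open scoped Classical

namespace Pool.Agent.T9h31.Nb

open NumberField

/-- products of powers of different primes which are cubes in a quadratic field -/
theorem no_cube {F : Type} [Field F] [NumberField F] (h2 : Module.finrank ℚ F = 2) {S : Finset ℕ}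
    (hS : ∀ l ∈ S, l.Prime) (b : {l : ℕ // l ∈ S} → ZMod 3) (hb : ∃ i, b i ≠ 0) :
    ¬ ∃ z : F, z ^ 3 = ∏ i : {l : ℕ // l ∈ S}, ((i.1 : ℕ) : F) ^ (b i).val := by
  rintro ⟨z, hz⟩
  obtain ⟨i, hi⟩ := hb
  have hp : Fact (i.1.Prime) := ⟨hS _ i.2⟩
  obtain ⟨N, hN⟩ : ∃ N : ℕ, N = ∏ i : {l : ℕ // l ∈ S}, i.1 ^ (b i).val := ⟨_, rfl⟩
  have hz' : z ^ 3 = algebraMap ℚ F (N : ℚ) := by
    rw [hz, hN, map_natCast]
    push_cast
    rfl
  have hq : (Algebra.norm ℚ z) ^ 3 = (N : ℚ) ^ 2 := by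
    rw [← map_pow, hz', Algebra.norm_algebraMap, h2]
  have hN0 : N ≠ 0 := by
    rw [hN]
    exact Finset.prod_ne_zero_iff.2 fun j _ => pow_ne_zero _ (hS _ j.2).ne_zero
  have hv : padicValRat i.1 (N : ℚ) = ((b i).val : ℤ) := by
    obtain ⟨R, hR⟩ : ∃ R : ℕ, R = ∏ j ∈ Finset.univ.erase i, j.1 ^ (b j).val := ⟨_, rfl⟩
    have e1 : N = i.1 ^ (b i).val * R := by
      rw [hN, hR]
      exact (Finset.mul_prod_erase Finset.univ (fun j : {l : ℕ // l ∈ S} => j.1 ^ (b j).val)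
        (Finset.mem_univ i)).symm
    have e2 : ¬ i.1 ∣ R := by
      rw [hR]
      intro h
      obtain ⟨j, hj, hd⟩ := (hp.out.prime.dvd_finsetProd_iff _).1 h
      have h7 := (Nat.prime_dvd_prime_iff_eq hp.out (hS _ j.2)).1 (hp.out.dvd_of_dvd_pow hd)
      exact (Finset.mem_erase.1 hj).1 (Subtype.ext h7.symm)
    have hR0 : R ≠ 0 := by
      rintro rfl
      exact e2 (dvd_zero _)
    rw [padicValRat.of_nat, e1, padicValNat.mul (pow_ne_zero _ hp.out.ne_zero) hR0,
      padicValNat.prime_pow, padicValNat.eq_zero_of_not_dvd e2, add_zero]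
  have h3 : 3 * padicValRat i.1 (Algebra.norm ℚ z) = 2 * ((b i).val : ℤ) := by
    have hq0 : Algebra.norm ℚ z ≠ 0 := by
      intro h
      rw [h, zero_pow (by norm_num)] at hq
      exact pow_ne_zero 2 (Nat.cast_ne_zero.2 hN0) hq.symm
    have h4 := congrArg (padicValRat i.1) hq
    rw [padicValRat.pow, padicValRat.pow, hv] at h4
    exact_mod_cast h4
  have h5 : (b i).val < 3 := ZMod.val_lt _
  have h6 : (b i).val ≠ 0 := fun h => hi ((ZMod.val_eq_zero _).1 h)
  omega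

variable {Ω : Type} [Field Ω] [NumberField Ω]

/-- the degree for a set of primes -/
theorem deg_primes {F : Type} [Field F] [NumberField F] [IsCyclotomicExtension {3} ℚ F]
    [Algebra F Ω] [IsGalois F Ω] {S : Finset ℕ} {z : Ω} {r : ℕ → Ω} (hz : z ^ 2 + z + 1 = 0)
    (hr : ∀ l ∈ S, r l ^ 3 = (l : Ω))
    (hgen : ∀ M : Subfield Ω, z ∈ M → (∀ l ∈ S, r l ∈ M) → M = ⊤) (hS : ∀ l ∈ S, l.Prime) :
    Module.finrank F Ω = 3 ^ S.card := by
  have h2 : Module.finrank ℚ F = 2 := by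
    rw [IsCyclotomicExtension.finrank F (Polynomial.cyclotomic.irreducible_rat (by norm_num : 0 < 3))]
    decide
  obtain ⟨ζ, hζ⟩ := exists_zF (F := F)
  have h1 := Pool.Agent.R432.C.kummer3_card (K := Ω) (k := F) hζ three_ne_zero
    (fun i : {l : ℕ // l ∈ S} => r i.1) (fun i => ((i.1 : ℕ) : F))
    (fun i => Nat.cast_ne_zero.2 (hS _ i.2).ne_zero)
    (fun i => by rw [hr i.1 i.2, map_natCast]) (no_cube h2 hS)
    (fun σ hσ => gen_one hz hgen fun l hl => hσ ⟨l, hl⟩)
  rw [Fintype.card_coe] at h1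
  rw [← h1]
  exact (IsGalois.card_aut_eq_finrank F Ω).symm

end Pool.Agent.T9h31.Nb
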