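import Mathlib

/-!
# The local image of the points of `y² + y = x³` over a field with absolute ramification index six

`M` is a field with a discrete valuation, `v 3 = exp (-6)`, residue field with three elements.
If `Y² + Y = X³` then `Y` is a cube times an element of `1 + p⁴`.
-/

set_option autoImplicit false

namespace Pool.Agent.T9h31

open WithZero

/-- the valuation is at least `n`, additively -/
def OO {M : Type} [Field M] (v : Valuation M (WithZero (Multiplicative ℤ))) (n : ℤ) (x : M) : Prop :=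
  v x ≤ exp (-n)

section
variable {M : Type} [Field M] {v : Valuation M (WithZero (Multiplicative ℤ))}

lemma OO.mono {m n : ℤ} {x : M} (h : OO v m x) (hn : n ≤ m) : OO v n x :=
  le_trans h (exp_le_exp.2 (by omega))

lemma OO.add {n : ℤ} {x y : M} (h : OO v n x) (h' : OO v n y) : OO v n (x + y) :=
  v.map_add_le h h'

lemma OO.neg {n : ℤ} {x : M} (h : OO v n x) : OO v n (-x) := by
  unfold OO
  rw [Valuation.map_neg]
  exact h

lemma OO.sub {n : ℤ} {x y : M} (h : OO v n x) (h' : OO v n y) : OO v n (x - y) :=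
  v.map_sub_le h h'

lemma OO.mul {m n : ℤ} {x y : M} (h : OO v m x) (h' : OO v n y) : OO v (m + n) (x * y) := by
  unfold OO at *
  rw [map_mul, neg_add, exp_add]
  exact mul_le_mul' h h'

lemma OO.mulr {n : ℤ} {x y : M} (h : OO v n x) (h' : OO v 0 y) : OO v n (x * y) := by
  have := h.mul h'
  rwa [add_zero] at this

lemma OO.mull {n : ℤ} {x y : M} (h : OO v 0 x) (h' : OO v n y) : OO v n (x * y) := by
  have := h.mul h'
  rwa [zero_add] at this

lemma OO.pow {n : ℤ} {x : M} (h : OO v n x) (k : ℕ) : OO v (k * n) (x ^ k) := by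
  induction k with
  | zero =>
    unfold OO
    rw [pow_zero, map_one]
    simp
  | succ k ih =>
    rw [pow_succ]
    have := ih.mul h
    have e : (k : ℤ) * n + n = ((k + 1 : ℕ) : ℤ) * n := by push_cast; ring
    rwa [e] at this

lemma oo_one : OO v 0 (1 : M) := by
  unfold OO
  rw [map_one, neg_zero, exp_zero]

lemma oo_zero_iff {x : M} : OO v 0 x ↔ v x ≤ 1 := by
  unfold OO
  rw [neg_zero, exp_zero]

lemma lt_one_iff {a : WithZero (Multiplicative ℤ)} : a < 1 ↔ a ≤ exp (-1 : ℤ) := by
  by_cases h : a = 0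
  · subst h
    simp
  · have e : a = exp (log a) := (exp_log h).symm
    rw [e, ← exp_zero, exp_lt_exp, exp_le_exp]
    omega

lemma oo_lt {x : M} (h : v x < 1) : OO v 1 x := lt_one_iff.1 h

lemma OO.lt {n : ℤ} {x : M} (h : OO v n x) (hn : 1 ≤ n) : v x < 1 := by
  rw [lt_one_iff]
  exact h.mono hn

lemma oo_int (n : ℤ) : OO v 0 (n : M) := by
  rw [oo_zero_iff]
  induction n using Int.induction_on with
  | zero => simp
  | succ i hi =>
    push_cast at hi ⊢
    exact v.map_add_le hi (by rw [map_one])
  | pred i hi =>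
    push_cast at hi ⊢
    exact v.map_sub_le hi (by rw [map_one])

lemma oo_nat (n : ℕ) : OO v 0 (n : M) := by
  have := oo_int (v := v) (n : ℤ)
  simpa using this

lemma oo_ofNat (n : ℕ) [n.AtLeastTwo] : OO v 0 (OfNat.ofNat n : M) := oo_nat (v := v) n

end

/-- absolute ramification index six, residue field with three elements, `p` a uniformizer -/
structure LW {M : Type} [Field M] (v : Valuation M (WithZero (Multiplicative ℤ))) (p : M) : Prop where
  three : v 3 = exp (-6)
  res : ∀ x, v x ≤ 1 → ∃ n : ℤ, n ^ 3 = n ∧ v (x - n) < 1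
  pi : v p = exp (-1)

section
variable {M : Type} [Field M] {v : Valuation M (WithZero (Multiplicative ℤ))} {p : M}

lemma LW.t (h : LW v p) : OO v 6 (3 : M) := by
  unfold OO
  rw [h.three]

lemma v_pow_lt {x : M} (h : v x ^ 3 < 1) : v x < 1 := by
  by_contra h1
  exact absurd (one_le_pow₀ (not_lt.1 h1) (n := 3)) (not_le.2 h)

/-- the points near zero -/
lemma lev_small (h : LW v p) {X Y : M} (hY : Y ≠ 0) (he : Y ^ 2 + Y = X ^ 3) (h1 : v Y < 1) :
    ∃ c : M, c ≠ 0 ∧ OO v 4 (Y * c ^ 3 - 1) := by
  have hv1 : v (1 + Y) = 1 := Valuation.map_one_add_of_lt v h1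
  have hY1 : (1 + Y) ≠ 0 := by
    intro h0
    rw [h0, map_zero] at hv1
    exact zero_ne_one hv1
  have hX : X ≠ 0 := by
    rintro rfl
    have : Y * (1 + Y) = 0 := by linear_combination he
    exact mul_ne_zero hY hY1 this
  have hvX : v X ^ 3 = v Y := by
    rw [← map_pow, ← he, show Y ^ 2 + Y = Y * (1 + Y) by ring, map_mul, hv1, mul_one]
  have hX1 : v X < 1 := v_pow_lt (by rw [hvX]; exact h1)
  have oX := oo_lt hX1
  have oY : OO v 3 Y := by
    unfold OO
    rw [← hvX]
    have h2 : v X ^ 3 ≤ (exp (-1 : ℤ)) ^ 3 := pow_le_pow_left' oX 3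
    rwa [← exp_nsmul, nsmul_eq_mul] at h2
  have hX1' : (1 + X) ≠ 0 := by
    intro h0
    have := Valuation.map_one_add_of_lt v hX1
    rw [h0, map_zero] at this
    exact zero_ne_one this
  refine ⟨(1 + X) / X, div_ne_zero hX1' hX, ?_⟩
  have e : Y * ((1 + X) / X) ^ 3 - 1 = (Y ^ 2 + 3 * X + 3 * X ^ 2) * (1 + Y)⁻¹ := by
    have h3 : Y = X ^ 3 / (1 + Y) := by
      rw [eq_div_iff hY1]
      linear_combination he
    have h4 : Y * ((1 + X) / X) ^ 3 = (1 + X) ^ 3 / (1 + Y) := by
      rw [div_pow, eq_div_iff hY1]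
      field_simp
      linear_combination he
    rw [h4]
    field_simp
    linear_combination -he
  rw [e]
  have hi : OO v 0 ((1 + Y)⁻¹) := by
    rw [oo_zero_iff, map_inv₀, hv1, inv_one]
  refine OO.mulr ?_ hi
  have o1 : OO v 4 (Y ^ 2) := (oY.pow 2).mono (by norm_num)
  have o2 : OO v 4 (3 * X) := (h.t.mul oX).mono (by norm_num)
  have o3 : OO v 4 (3 * X ^ 2) := (h.t.mul (oX.pow 2)).mono (by norm_num)
  exact (o1.add o2).add o3

lemma oo_inv {c Y : M} (hc : c ≠ 0) (hY : Y ≠ 0) {n : ℤ} (hn : 1 ≤ n)
    (h : OO v n (Y * c ^ 3 - 1)) : OO v n (Y⁻¹ * (c⁻¹) ^ 3 - 1) := by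
  have h1 : v (Y * c ^ 3) = 1 := by
    have := Valuation.map_one_add_of_lt v (h.lt hn)
    rwa [add_sub_cancel] at this
  have e : Y⁻¹ * (c⁻¹) ^ 3 - 1 = -(Y * c ^ 3 - 1) * (Y * c ^ 3)⁻¹ := by
    field_simp
    ring
  rw [e]
  refine OO.mulr h.neg ?_
  rw [oo_zero_iff, map_inv₀, h1, inv_one]

/-- **the local image** -/
theorem lev4 (h : LW v p) {X Y : M} (hY : Y ≠ 0) (he : Y ^ 2 + Y = X ^ 3) :
    ∃ c : M, c ≠ 0 ∧ OO v 4 (Y * c ^ 3 - 1) := by
  have hp : p ≠ 0 := by
    intro h0
    have := h.pi
    rw [h0, map_zero] at this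
    exact exp_ne_zero this.symm
  rcases lt_trichotomy (v Y) 1 with h1 | h1 | h1
  · exact lev_small h hY he h1
  · -- a unit
    by_cases h2 : v (Y + 1) < 1
    · by_cases h3 : Y = -1
      · refine ⟨-1, by norm_num, ?_⟩
        rw [h3]
        norm_num
        unfold OO
        rw [map_zero]
        exact zero_le
      · have hZ : (-1 - Y) ≠ 0 := by
          intro h0
          exact h3 (by linear_combination -h0)
        have hZe : (-1 - Y) ^ 2 + (-1 - Y) = X ^ 3 := by linear_combination he
        have hZ1 : v (-1 - Y) < 1 := by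
          rw [show -1 - Y = -(Y + 1) by ring, Valuation.map_neg]
          exact h2
        obtain ⟨c, hc, hc'⟩ := lev_small h hZ hZe hZ1
        have hX : X ≠ 0 := by
          rintro rfl
          have : (-1 - Y) * (-Y) = 0 := by linear_combination he
          exact mul_ne_zero hZ (neg_ne_zero.2 hY) this
        have h5 := oo_inv hc hZ (by norm_num) hc'
        refine ⟨(-X)⁻¹ * c⁻¹ * (-1 - Y) * (-1 - Y)⁻¹, ?_, ?_⟩
        · exact mul_ne_zero (mul_ne_zero (mul_ne_zero (inv_ne_zero (neg_ne_zero.2 hX))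
            (inv_ne_zero hc)) hZ) (inv_ne_zero hZ)
        · have e : Y * ((-X)⁻¹ * c⁻¹ * (-1 - Y) * (-1 - Y)⁻¹) ^ 3 = (-1 - Y)⁻¹ * (c⁻¹) ^ 3 := by
            have e1 : (-X)⁻¹ * c⁻¹ * (-1 - Y) * (-1 - Y)⁻¹ = (-X)⁻¹ * c⁻¹ := by
              rw [mul_assoc, mul_inv_cancel₀ hZ, mul_one]
            rw [e1, mul_pow, ← mul_assoc]
            congr 1
            rw [inv_pow, ← div_eq_mul_inv, div_eq_iff (pow_ne_zero 3 (neg_ne_zero.2 hX)),
              inv_mul_eq_div, eq_div_iff hZ]
            linear_combination -he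
          rw [e]
          exact h5
    · -- `Y` is one modulo `p`
      obtain ⟨n, hn3, hn⟩ := h.res Y h1.le
      have hn0 : n = 0 ∨ n = 1 ∨ n = -1 := by
        have : n * ((n - 1) * (n + 1)) = 0 := by linear_combination hn3
        rcases mul_eq_zero.1 this with h3 | h3
        · exact Or.inl h3
        · rcases mul_eq_zero.1 h3 with h4 | h4
          · exact Or.inr (Or.inl (by omega))
          · exact Or.inr (Or.inr (by omega))
      have hY1 : v (Y - 1) < 1 := by
        rcases hn0 with h3 | h3 | h3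
        · rw [h3] at hn
          simp at hn
          exact absurd hn (by rw [h1]; exact lt_irrefl 1)
        · rw [h3] at hn
          simpa using hn
        · rw [h3] at hn
          push_cast at hn
          rw [sub_neg_eq_add] at hn
          exact absurd hn h2
      have hX3 : v (X ^ 3 + 1) < 1 := by
        rw [← he, show Y ^ 2 + Y + 1 = (Y - 1) * (Y + 2) + 3 by ring]
        refine v.map_add_lt ?_ ?_
        · refine OO.lt (n := 1) ?_ le_rfl
          refine OO.mulr (oo_lt hY1) ?_
          refine OO.add ?_ (oo_ofNat 2)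
          rw [oo_zero_iff, h1]
        · exact h.t.lt (by norm_num)
      have hvX : v X ≤ 1 := by
        by_contra h3
        rw [not_le] at h3
        have h4 : 1 < v (X ^ 3) := by
          rw [map_pow]
          exact one_lt_pow₀ h3 three_ne_zero
        have h5 : v (X ^ 3 + 1) = v (X ^ 3) := by
          apply Valuation.map_add_eq_of_lt_left
          rw [map_one]
          exact h4
        rw [h5] at hX3
        exact absurd (h4.trans hX3) (lt_irrefl _)
      have hX1 : v (X + 1) < 1 := by
        apply v_pow_lt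
        rw [← map_pow, show (X + 1) ^ 3 = (X ^ 3 + 1) + 3 * (X * (X + 1)) by ring]
        refine v.map_add_lt hX3 ?_
        refine OO.lt (n := 6) ?_ (by norm_num)
        refine OO.mulr h.t ?_
        refine OO.mulr ?_ ?_
        · rw [oo_zero_iff]; exact hvX
        · exact (oo_zero_iff.2 hvX).add oo_one
      obtain ⟨ε, hε⟩ : ∃ ε, ε = Y - 1 := ⟨_, rfl⟩
      obtain ⟨η, hη⟩ : ∃ η, η = -(X + 1) := ⟨_, rfl⟩
      have eY : Y = 1 + ε := by rw [hε]; ring
      have eX : X = -1 - η := by rw [hη]; ring
      have oε : OO v 1 ε := by rw [hε]; exact oo_lt hY1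
      have oη : OO v 1 η := by rw [hη]; exact (oo_lt hX1).neg
      have hrel : ε ^ 2 + η ^ 3 = -(3 * (1 + ε + η + η ^ 2)) := by
        rw [eY, eX] at he
        linear_combination he
      have o6 : OO v 6 (ε ^ 2 + η ^ 3) := by
        rw [hrel]
        refine (OO.mulr h.t ?_).neg
        exact ((oo_one.add (oε.mono (by norm_num))).add (oη.mono (by norm_num))).add
          ((oη.pow 2).mono (by norm_num))
      have o3 : OO v 3 ε := by
        by_contra h3
        unfold OO at h3
        rw [not_le] at h3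
        have hε0 : ε ≠ 0 := by
          rintro rfl
          rw [map_zero] at h3
          exact absurd h3 (not_lt.2 zero_le)
        have hv0 : v ε ≠ 0 := (Valuation.ne_zero_iff v).2 hε0
        obtain ⟨a, ha⟩ : ∃ a : ℤ, v ε = exp a := ⟨_, (exp_log hv0).symm⟩
        rw [ha, exp_lt_exp] at h3
        have ha1 : a ≤ -1 := by
          have := oε
          unfold OO at this
          rw [ha, exp_le_exp] at this
          omega
        have h4 : v (η ^ 3) = v (ε ^ 2) := by
          by_contra h5
          have h6 : v (ε ^ 2 + η ^ 3) = max (v (ε ^ 2)) (v (η ^ 3)) :=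
            Valuation.map_add_of_distinct_val v (fun h => h5 h.symm)
          have h7 : v (ε ^ 2) ≤ exp (-6) := by
            refine (le_max_left _ (v (η ^ 3))).trans ?_
            rw [← h6]
            exact o6
          rw [map_pow, ha, ← exp_nsmul, exp_le_exp, nsmul_eq_mul] at h7
          push_cast at h7
          omega
        have hη0 : η ≠ 0 := by
          rintro rfl
          rw [zero_pow three_ne_zero, map_zero] at h4
          exact pow_ne_zero 2 hε0 ((Valuation.zero_iff v).1 h4.symm)
        have hv0' : v η ≠ 0 := (Valuation.ne_zero_iff v).2 hη0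
        obtain ⟨b, hb⟩ : ∃ b : ℤ, v η = exp b := ⟨_, (exp_log hv0').symm⟩
        rw [map_pow, map_pow, ha, hb, ← exp_nsmul, ← exp_nsmul] at h4
        have h5 := exp_injective h4
        rw [nsmul_eq_mul, nsmul_eq_mul] at h5
        push_cast at h5
        omega
      -- the correction
      obtain ⟨m, hm3, hm⟩ := h.res (ε / p ^ 3) (by
        rw [map_div₀, map_pow, h.pi, ← exp_nsmul]
        have h5 : v ε ≤ exp (3 • (-1 : ℤ)) := by
          have := o3
          unfold OO at this
          rw [nsmul_eq_mul]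
          exact this
        rw [div_le_one₀ exp_pos]
        exact h5)
      have oπ : OO v 1 p := by
        unfold OO
        rw [h.pi]
      have oδ : OO v 1 (ε / p ^ 3 - m) := oo_lt hm
      obtain ⟨δ, hδ⟩ : ∃ δ, δ = ε / p ^ 3 - m := ⟨_, rfl⟩
      rw [← hδ] at oδ
      have eε : ε = p ^ 3 * (m + δ) := by
        rw [hδ]
        field_simp
        ring
      have hm' : (m : M) ^ 3 = m := by
        have := congrArg (Int.cast : ℤ → M) hm3
        push_cast at this
        exact this
      refine ⟨1 - m * p, ?_, ?_⟩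
      · intro h0
        have h6 : v ((m : M) * p) < 1 := (OO.mull (oo_int m) oπ).lt le_rfl
        have h7 : v (1 + -((m : M) * p)) = 1 := by
          apply Valuation.map_one_add_of_lt
          rw [Valuation.map_neg]
          exact h6
        rw [← sub_eq_add_neg, h0, map_zero] at h7
        exact zero_ne_one h7
      · rw [eY, eε]
        have e : (1 + p ^ 3 * (m + δ)) * (1 - m * p) ^ 3 - 1 =
            p ^ 3 * δ + (p ^ 3 * (m + δ)) * (-(m * p ^ 3) * m ^ 2 + 3 * (m * p) * (m * p - 1)) +
              3 * (m * p * (m * p - 1)) := by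
          linear_combination (-(p ^ 3)) * hm'
        rw [e]
        have om : OO v 0 (m : M) := oo_int m
        have o3p : OO v 3 (p ^ 3) := (oπ.pow 3).mono (by norm_num)
        have omδ : OO v 0 ((m : M) + δ) := om.add (oδ.mono (by norm_num))
        have omp : OO v 1 ((m : M) * p) := OO.mull om oπ
        have omp1 : OO v 0 ((m : M) * p - 1) := (omp.mono (by norm_num)).sub oo_one
        refine (OO.add ?_ ?_).add ?_
        · exact (o3p.mul oδ).mono (by norm_num)
        · refine ((OO.mulr o3p omδ).mul (?_ : OO v 3 _)).mono (by norm_num)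
          refine OO.add ?_ ?_
          · exact OO.mulr (OO.mull om o3p).neg ((om.pow 2).mono (by norm_num))
          · exact (OO.mulr (h.t.mul omp) omp1).mono (by norm_num)
        · exact (h.t.mul (omp.mulr omp1)).mono (by norm_num)
  · -- a pole
    have hY' : Y⁻¹ ≠ 0 := inv_ne_zero hY
    have he' : (Y⁻¹) ^ 2 + Y⁻¹ = (X * Y⁻¹) ^ 3 := by
      field_simp
      linear_combination he
    have h2 : v Y⁻¹ < 1 := by
      rw [map_inv₀]
      exact inv_lt_one_of_one_lt₀ h1
    obtain ⟨c, hc, h3⟩ := lev_small h hY' he' h2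
    have h4 := oo_inv hc hY' (by norm_num) h3
    rw [inv_inv] at h4
    exact ⟨c⁻¹, inv_ne_zero hc, h4⟩

/-- an element of level exactly two is not in the group -/
theorem lev_two (h : LW v p) {z c : M} (hz : v (z - 1) = exp (-2)) (hc : OO v 4 (z * c ^ 3 - 1)) :
    False := by
  have hz1 : v z = 1 := by
    have h1 : v (z - 1) < 1 := by
      rw [hz, ← exp_zero, exp_lt_exp]
      norm_num
    have := Valuation.map_one_add_of_lt v h1
    rwa [add_sub_cancel] at this
  have hzc : v (z * c ^ 3) = 1 := by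
    have := Valuation.map_one_add_of_lt v (hc.lt (by norm_num))
    rwa [add_sub_cancel] at this
  have hvc : v c ^ 3 = 1 := by
    rw [← map_pow]
    rw [map_mul, hz1, one_mul] at hzc
    exact hzc
  have hvc1 : v c = 1 := by
    rcases lt_trichotomy (v c) 1 with h1 | h1 | h1
    · exact absurd hvc (pow_lt_one₀ zero_le h1 three_ne_zero).ne
    · exact h1
    · exact absurd hvc (one_lt_pow₀ h1 three_ne_zero).ne'
  have oc : OO v 0 c := by rw [oo_zero_iff, hvc1]
  have hc3 : OO v 2 (c ^ 3 - 1) := by
    have e : c ^ 3 - 1 = ((z * c ^ 3 - 1) - (z - 1)) * z⁻¹ := by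
      have : z ≠ 0 := by
        rintro rfl
        rw [map_zero] at hz1
        exact zero_ne_one hz1
      field_simp
      ring
    rw [e]
    refine OO.mulr ((hc.mono (by norm_num)).sub ?_) ?_
    · unfold OO
      rw [hz]
    · rw [oo_zero_iff, map_inv₀, hz1, inv_one]
  have hc1 : v (c - 1) < 1 := by
    apply v_pow_lt
    rw [← map_pow, show (c - 1) ^ 3 = (c ^ 3 - 1) - 3 * (c * (c - 1)) by ring]
    refine OO.lt (n := 2) (hc3.sub ?_) (by norm_num)
    exact (OO.mulr h.t (OO.mulr oc (oc.sub oo_one))).mono (by norm_num)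
  have oc1 := oo_lt hc1
  have hc3' : OO v 3 (c ^ 3 - 1) := by
    rw [show c ^ 3 - 1 = (c - 1) ^ 3 + 3 * (c * (c - 1)) by ring]
    refine ((oc1.pow 3).mono (by norm_num)).add ?_
    exact (OO.mulr h.t (OO.mulr oc (oc.sub oo_one))).mono (by norm_num)
  have h3 : OO v 3 (z - 1) := by
    have e : z - 1 = (z * c ^ 3 - 1) - z * (c ^ 3 - 1) := by ring
    rw [e]
    refine (hc.mono (by norm_num)).sub (OO.mull ?_ hc3')
    rw [oo_zero_iff, hz1]
  unfold OO at h3
  rw [hz, exp_le_exp] at h3
  omega

end

end Pool.Agent.T9h31
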