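import Mathlib
import Pool.Agent.H723R3.EuclidLocal
import Pool.Agent.T9h31.Lev

/-!
# The place above three of a number field of degree six, totally ramified at three
-/

set_option autoImplicit false

open scoped Classical

namespace Pool.Agent.T9h31

open NumberField IsDedekindDomain WithZero

section
variable {F : Type} [Field F] [NumberField F]

/-- the valuation of the completion -/
noncomputable abbrev vf (v : HeightOneSpectrum (𝓞 F)) :
    Valuation (v.adicCompletion F) (WithZero (Multiplicative ℤ)) := Valued.v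

lemma vf_emb (v : HeightOneSpectrum (𝓞 F)) (x : F) :
    vf v (algebraMap F (v.adicCompletion F) x) = v.valuation F x :=
  HeightOneSpectrum.valuedAdicCompletion_eq_valuation' v x

/-- the residue field and the uniqueness -/
theorem plc3 (hF : Module.finrank ℚ F = 6) (v : HeightOneSpectrum (𝓞 F))
    (h6 : v.valuation F 3 = exp (-6)) :
    Ideal.absNorm v.asIdeal = 3 ∧ Ideal.span {(3 : 𝓞 F)} = v.asIdeal ^ 6 := by
  have h3 : (3 : 𝓞 F) ∈ v.asIdeal ^ 6 := by
    rw [← v.intValuation_le_pow_iff_mem]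
    have e : v.valuation F (algebraMap (𝓞 F) F 3) = v.intValuation 3 :=
      HeightOneSpectrum.valuation_of_algebraMap v 3
    rw [map_ofNat, h6] at e
    rw [← e]
    norm_num
  have hN : Ideal.absNorm (Ideal.span {(3 : 𝓞 F)}) = 3 ^ 6 := by
    rw [Ideal.absNorm_span_singleton]
    have h1 : Algebra.norm ℤ (algebraMap ℤ (𝓞 F) 3) = 3 ^ Module.finrank ℤ (𝓞 F) :=
      Algebra.norm_algebraMap (S := 𝓞 F) (3 : ℤ)
    rw [RingOfIntegers.rank, hF, map_ofNat] at h1
    rw [h1]
    norm_num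
  have hle : Ideal.span {(3 : 𝓞 F)} ≤ v.asIdeal ^ 6 := by
    rw [Ideal.span_singleton_le_iff_mem]
    exact h3
  have hq : Ideal.absNorm v.asIdeal ^ 6 ∣ 3 ^ 6 := by
    rw [← map_pow, ← hN]
    exact Ideal.absNorm_dvd_absNorm_of_le hle
  have hq3 : Ideal.absNorm v.asIdeal ∣ 3 := (Nat.pow_dvd_pow_iff (by norm_num)).1 hq
  have hq1 : Ideal.absNorm v.asIdeal = 3 := by
    rcases (Nat.dvd_prime Nat.prime_three).1 hq3 with h | h
    · exact absurd (Ideal.absNorm_eq_one_iff.1 h) v.isPrime.ne_top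
    · exact h
  refine ⟨hq1, ?_⟩
  obtain ⟨I, hI⟩ := Ideal.dvd_iff_le.2 hle
  have h4 := congrArg Ideal.absNorm hI
  rw [hN, map_mul, map_pow, hq1] at h4
  have h5 : Ideal.absNorm I = 1 := by
    have : 3 ^ 6 * Ideal.absNorm I = 3 ^ 6 * 1 := by rw [mul_one]; exact h4.symm
    exact Nat.eq_of_mul_eq_mul_left (by norm_num) this
  rw [Ideal.absNorm_eq_one_iff] at h5
  rw [hI, h5, ← Ideal.one_eq_top, mul_one]

theorem plc_unique (hF : Module.finrank ℚ F = 6) (v v' : HeightOneSpectrum (𝓞 F))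
    (h6 : v.valuation F 3 = exp (-6)) (h : (3 : 𝓞 F) ∈ v'.asIdeal) : v' = v := by
  obtain ⟨-, h1⟩ := plc3 hF v h6
  have h2 : v.asIdeal ^ 6 ≤ v'.asIdeal := by
    rw [← h1, Ideal.span_singleton_le_iff_mem]
    exact h
  have h3 : v.asIdeal ≤ v'.asIdeal := v'.isPrime.le_of_pow_le h2
  ext1
  exact ((v.isMaximal).eq_of_le v'.isPrime.ne_top h3).symm

lemma res_int (v : HeightOneSpectrum (𝓞 F)) (hq : Ideal.absNorm v.asIdeal = 3) (x : 𝓞 F) :
    ∃ n : ℤ, n ^ 3 = n ∧ x - n ∈ v.asIdeal := by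
  have hmax : v.asIdeal.IsMaximal := v.isMaximal
  let _ : Field (𝓞 F ⧸ v.asIdeal) := Ideal.Quotient.field v.asIdeal
  have hcard : Nat.card (𝓞 F ⧸ v.asIdeal) = 3 := by
    rw [← Submodule.cardQuot_apply]
    exact hq
  have : Finite (𝓞 F ⧸ v.asIdeal) := Nat.finite_of_card_ne_zero (by rw [hcard]; norm_num)
  have : Fintype (𝓞 F ⧸ v.asIdeal) := Fintype.ofFinite _
  have h1 := FiniteField.pow_card (Ideal.Quotient.mk v.asIdeal x)
  rw [← Nat.card_eq_fintype_card, hcard] at h1
  have h2 : x ^ 3 - x ∈ v.asIdeal := by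
    rw [← Ideal.Quotient.eq_zero_iff_mem, map_sub, map_pow, h1, sub_self]
  have h3 : x * ((x - 1) * (x + 1)) ∈ v.asIdeal := by
    rw [show x * ((x - 1) * (x + 1)) = x ^ 3 - x by ring]
    exact h2
  rcases v.isPrime.mem_or_mem h3 with h | h
  · exact ⟨0, by norm_num, by simpa using h⟩
  · rcases v.isPrime.mem_or_mem h with h | h
    · exact ⟨1, by norm_num, by simpa using h⟩
    · exact ⟨-1, by norm_num, by simpa using h⟩

lemma res_comp (v : HeightOneSpectrum (𝓞 F)) (hq : Ideal.absNorm v.asIdeal = 3)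
    (x : v.adicCompletion F) (hx : vf v x ≤ 1) : ∃ n : ℤ, n ^ 3 = n ∧ vf v (x - n) < 1 := by
  obtain ⟨r, hr⟩ := Pool.Agent.H723R3.exists_approx_int (R := 𝓞 F) (K := F) v (ξ := x) hx 1
  rw [Units.val_one] at hr
  obtain ⟨n, hn3, hn⟩ := res_int v hq r
  refine ⟨n, hn3, ?_⟩
  have h1 : vf v (algebraMap F (v.adicCompletion F) ((r - n : 𝓞 F) : F)) < 1 := by
    rw [vf_emb]
    exact (v.valuation_lt_one_iff_mem (K := F) _).2 hn
  have h2 : x - n = algebraMap F (v.adicCompletion F) ((r - n : 𝓞 F) : F) -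
      (algebraMap (𝓞 F) (v.adicCompletion F) r - x) := by
    have h3 : algebraMap (𝓞 F) (v.adicCompletion F) r =
        algebraMap F (v.adicCompletion F) ((r : 𝓞 F) : F) :=
      IsScalarTower.algebraMap_apply (𝓞 F) F _ _
    have h4 : ((r - n : 𝓞 F) : F) = (r : F) - (n : F) := by
      simp
    rw [h3, h4, map_sub, map_intCast]
    ring
  rw [h2]
  exact lt_of_le_of_lt (Valuation.map_sub _ _ _) (max_lt h1 hr)

/-- the elements `λ = √-3` and `θ`, a cube root of `1 + 3 u`, `u` a unit above three -/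
structure TD (lm θ u : 𝓞 F) : Prop where
  deg : Module.finrank ℚ F = 6
  sq : lm ^ 2 = -3
  cube : θ ^ 3 = 1 + 3 * u
  un : ∀ v : HeightOneSpectrum (𝓞 F), (3 : 𝓞 F) ∈ v.asIdeal →
    v.valuation F 3 = exp (-6) ∧ v.valuation F (u : F) = 1 ∧
      v.valuation F ((u ^ 2 - 1 : 𝓞 F) : F) ≤ v.valuation F (lm : F)

section
variable {lm θ u : 𝓞 F}

lemma val_le (v : HeightOneSpectrum (𝓞 F)) (x : 𝓞 F) : v.valuation F (x : F) ≤ 1 :=
  v.valuation_le_one x

lemma pow3_exp {a : WithZero (Multiplicative ℤ)} {n : ℤ} (h : a ^ 3 = exp (3 * n)) : a = exp n := by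
  have h0 : a ≠ 0 := by
    rintro rfl
    rw [zero_pow three_ne_zero] at h
    exact exp_ne_zero h.symm
  obtain ⟨m, rfl⟩ : ∃ m : ℤ, a = exp m := ⟨_, (exp_log h0).symm⟩
  rw [← exp_nsmul] at h
  have h1 := exp_injective h
  rw [nsmul_eq_mul] at h1
  push_cast at h1
  congr 1
  omega

lemma pow2_exp {a : WithZero (Multiplicative ℤ)} {n : ℤ} (h : a ^ 2 = exp (2 * n)) : a = exp n := by
  have h0 : a ≠ 0 := by
    rintro rfl
    rw [zero_pow two_ne_zero] at h
    exact exp_ne_zero h.symm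
  obtain ⟨m, rfl⟩ : ∃ m : ℤ, a = exp m := ⟨_, (exp_log h0).symm⟩
  rw [← exp_nsmul] at h
  have h1 := exp_injective h
  rw [nsmul_eq_mul] at h1
  push_cast at h1
  congr 1
  omega

theorem TD.vlm (h : TD lm θ u) (v : HeightOneSpectrum (𝓞 F)) (hv : (3 : 𝓞 F) ∈ v.asIdeal) :
    v.valuation F (lm : F) = exp (-3) := by
  obtain ⟨h6, -, -⟩ := h.un v hv
  apply pow2_exp
  rw [← map_pow]
  have e : (lm : F) ^ 2 = -3 := by
    have := congrArg (algebraMap (𝓞 F) F) h.sq
    rw [map_pow, map_neg, map_ofNat] at this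
    exact this
  rw [e, Valuation.map_neg, h6]
  norm_num

theorem TD.vth (h : TD lm θ u) (v : HeightOneSpectrum (𝓞 F)) (hv : (3 : 𝓞 F) ∈ v.asIdeal) :
    v.valuation F ((θ : F) - 1) = exp (-2) := by
  obtain ⟨h6, h7, -⟩ := h.un v hv
  have e : (θ : F) ^ 3 = 1 + 3 * (u : F) := by
    have := congrArg (algebraMap (𝓞 F) F) h.cube
    rw [map_pow, map_add, map_mul, map_one, map_ofNat] at this
    exact this
  have e1 : ((θ : F) - 1) ^ 3 = 3 * (u - θ * (θ - 1)) := by
    linear_combination e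
  have oθ : v.valuation F ((θ : F) - 1) ≤ 1 := by
    have := val_le v (θ - 1)
    simpa using this
  have o3 : v.valuation F (u - θ * (θ - 1) : F) ≤ 1 := by
    have := val_le v (u - θ * (θ - 1))
    simpa using this
  have h1 : v.valuation F ((θ : F) - 1) < 1 := by
    apply v_pow_lt
    rw [← map_pow, e1, map_mul, h6]
    refine lt_of_le_of_lt (mul_le_mul' le_rfl o3) ?_
    rw [mul_one, ← exp_zero, exp_lt_exp]
    norm_num
  have h2 : v.valuation F (θ * (θ - 1) : F) < 1 := by
    rw [map_mul]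
    exact lt_of_le_of_lt (mul_le_mul' (val_le v θ) le_rfl) (by rw [one_mul]; exact h1)
  have h3 : v.valuation F (u - θ * (θ - 1) : F) = 1 := by
    rw [← h7]
    apply Valuation.map_sub_eq_of_lt_left
    rw [h7]
    exact h2
  apply pow3_exp
  rw [← map_pow, e1, map_mul, h6, h3, mul_one]
  norm_num

theorem TD.abs (h : TD lm θ u) (v : HeightOneSpectrum (𝓞 F)) (hv : (3 : 𝓞 F) ∈ v.asIdeal) :
    Ideal.absNorm v.asIdeal = 3 := (plc3 h.deg v (h.un v hv).1).1

theorem TD.uniq (h : TD lm θ u) {v v' : HeightOneSpectrum (𝓞 F)} (hv : (3 : 𝓞 F) ∈ v.asIdeal)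
    (hv' : (3 : 𝓞 F) ∈ v'.asIdeal) : v' = v := plc_unique h.deg v v' (h.un v hv).1 hv'

/-- the local structure at the place above three -/
theorem TD.lw (h : TD lm θ u) (v : HeightOneSpectrum (𝓞 F)) (hv : (3 : 𝓞 F) ∈ v.asIdeal) :
    LW (vf v) (algebraMap F (v.adicCompletion F) ((lm : F) / ((θ : F) - 1))) where
  three := by
    have := vf_emb v (3 : F)
    rw [map_ofNat, (h.un v hv).1] at this
    exact this
  res := fun x hx => res_comp v (h.abs v hv) x hx
  pi := by
    rw [vf_emb, map_div₀, h.vlm v hv, h.vth v hv, ← exp_sub]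
    norm_num

/-- the local structure at the place above three, on the field -/
theorem TD.lwF (h : TD lm θ u) (v : HeightOneSpectrum (𝓞 F)) (hv : (3 : 𝓞 F) ∈ v.asIdeal) :
    LW (v.valuation F) ((lm : F) / ((θ : F) - 1)) where
  three := (h.un v hv).1
  res := fun x hx => by
    obtain ⟨n, h1, h2⟩ := (h.lw v hv).res (algebraMap F (v.adicCompletion F) x)
      (by rw [vf_emb]; exact hx)
    refine ⟨n, h1, ?_⟩
    rw [← vf_emb, map_sub, map_intCast]
    exact h2
  pi := by
    rw [map_div₀, h.vlm v hv, h.vth v hv, ← exp_sub]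
    norm_num

end

/-- from the completion to the field -/
theorem down (v : HeightOneSpectrum (𝓞 F)) {b : F} {c : v.adicCompletion F}
    (hc : c ≠ 0) {n : ℤ} (hn : 1 ≤ n)
    (h : OO (vf v) n (algebraMap F (v.adicCompletion F) b * c ^ 3 - 1)) :
    ∃ c' : F, c' ≠ 0 ∧ OO (v.valuation F) n (b * c' ^ 3 - 1) := by
  obtain ⟨c₀, hc₀⟩ := v.valuation_surjective F (vf v c)
  have hvc : vf v c ≠ 0 := (Valuation.ne_zero_iff _).2 hc
  have hc00 : c₀ ≠ 0 := by
    rintro rfl
    rw [map_zero] at hc₀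
    exact hvc hc₀.symm
  have hc00' : algebraMap F (v.adicCompletion F) c₀ ≠ 0 := (map_ne_zero _).2 hc00
  have hone : vf v (algebraMap F (v.adicCompletion F) b * c ^ 3) = 1 := by
    have := Valuation.map_one_add_of_lt (vf v) (h.lt hn)
    rwa [add_sub_cancel] at this
  obtain ⟨k, hk⟩ := Pool.Agent.H723R3.exists_approx (R := 𝓞 F) (K := F) v
    (c / algebraMap F (v.adicCompletion F) c₀) (Units.mk0 (exp (-n) : WithZero (Multiplicative ℤ)) exp_ne_zero)
  rw [Units.val_mk0] at hk
  obtain ⟨g, hg⟩ : ∃ g, g = c / algebraMap F (v.adicCompletion F) c₀ := ⟨_, rfl⟩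
  rw [← hg] at hk
  have hvg : vf v g = 1 := by
    rw [hg, map_div₀, vf_emb, hc₀, div_self hvc]
  have og : OO (vf v) 0 g := by rw [oo_zero_iff, hvg]
  have ok : OO (vf v) n (algebraMap F (v.adicCompletion F) k - g) := hk.le
  have okk : OO (vf v) 0 (algebraMap F (v.adicCompletion F) k) := by
    have : algebraMap F (v.adicCompletion F) k = (algebraMap F (v.adicCompletion F) k - g) + g := by
      ring
    rw [this]
    exact (ok.mono (by omega)).add og
  have hvk : vf v (algebraMap F (v.adicCompletion F) k) = 1 := by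
    have h1 : algebraMap F (v.adicCompletion F) k = g + (algebraMap F (v.adicCompletion F) k - g) := by
      ring
    rw [h1, ← hvg]
    apply Valuation.map_add_eq_of_lt_left
    rw [hvg]
    exact ok.lt hn
  have hk0 : k ≠ 0 := by
    rintro rfl
    rw [map_zero, map_zero] at hvk
    exact zero_ne_one hvk
  refine ⟨c₀ * k, mul_ne_zero hc00 hk0, ?_⟩
  have e : OO (vf v) n (algebraMap F (v.adicCompletion F) (b * (c₀ * k) ^ 3 - 1)) := by
    have e1 : c = algebraMap F (v.adicCompletion F) c₀ * g := by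
      rw [hg, mul_div_cancel₀ _ hc00']
    have e2 : algebraMap F (v.adicCompletion F) (b * (c₀ * k) ^ 3 - 1) =
        (algebraMap F (v.adicCompletion F) b * c ^ 3 - 1) +
        (algebraMap F (v.adicCompletion F) b * algebraMap F (v.adicCompletion F) c₀ ^ 3) *
          ((algebraMap F (v.adicCompletion F) k - g) *
            (algebraMap F (v.adicCompletion F) k ^ 2 +
              algebraMap F (v.adicCompletion F) k * g + g ^ 2)) := by
      rw [e1]
      simp only [map_sub, map_mul, map_pow, map_one]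
      ring
    rw [e2]
    refine h.add (OO.mull ?_ (OO.mulr ok ?_))
    · rw [oo_zero_iff]
      have e3 : algebraMap F (v.adicCompletion F) b * algebraMap F (v.adicCompletion F) c₀ ^ 3 =
          algebraMap F (v.adicCompletion F) b * c ^ 3 / g ^ 3 := by
        rw [e1]
        have hg0 : g ≠ 0 := by
          intro h0
          rw [h0, map_zero] at hvg
          exact zero_ne_one hvg
        field_simp
      rw [e3, map_div₀, hone, map_pow, hvg]
      norm_num
    · refine ((okk.pow 2).mono (by norm_num)).add ?_ |>.add ((og.pow 2).mono (by norm_num))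
      exact OO.mulr okk og
  unfold OO at e ⊢
  rwa [vf_emb] at e

end

end Pool.Agent.T9h31
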