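import Mathlib

/-!
# Descent of cube classes along extensions of three power degree
-/

set_option autoImplicit false

namespace Pool.Agent.T9h31.Ab

/-- a 3-group acting on an elementary abelian 3-group has a nontrivial fixed vector in the span of
every nontrivial orbit -/
lemma exists_fixed {G V : Type} [Group G] [Finite G] [CommGroup V] (hG : IsPGroup 3 G)
    (φ : G → V →* V) (h1 : ∀ v, φ 1 v = v) (hm : ∀ g h v, φ (g * h) v = φ g (φ h v))
    (hV : ∀ v : V, v ^ 3 = 1) {v : V} (hv : v ≠ 1) :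
    ∃ w ∈ Subgroup.closure (Set.range fun g => φ g v), w ≠ 1 ∧ ∀ g, φ g w = w := by
  set H := Subgroup.closure (Set.range fun g => φ g v) with hH
  have hst : ∀ g, ∀ w ∈ H, φ g w ∈ H := by
    intro g w hw
    refine Subgroup.closure_induction (p := fun w _ => φ g w ∈ H) ?_ ?_ ?_ ?_ hw
    · rintro _ ⟨h, rfl⟩
      refine Subgroup.subset_closure ⟨g * h, ?_⟩
      simp only [hm]
    · rw [map_one]
      exact one_mem H
    · intro x y _ _ hx hy
      rw [map_mul]
      exact mul_mem hx hy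
    · intro x _ hx
      rw [map_inv]
      exact inv_mem hx
  let act : MulAction G H :=
    { smul := fun g w => ⟨φ g w.1, hst g w.1 w.2⟩
      one_smul := fun w => Subtype.ext (h1 w.1)
      mul_smul := fun g h w => Subtype.ext (hm g h w.1) }
  have hfg : Group.FG H := by
    rw [Group.fg_iff_subgroup_fg]
    exact ⟨(Set.finite_range _).toFinset, by rw [Set.Finite.coe_toFinset]⟩
  have hfin : Finite H := by
    refine CommGroup.finite_of_fg_isMulTorsion _ ?_
    intro x
    rw [isOfFinOrder_iff_pow_eq_one]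
    exact ⟨3, by norm_num, Subtype.ext (hV x.1)⟩
  have hp : IsPGroup 3 H := fun x => ⟨1, Subtype.ext (by rw [pow_one]; exact hV x.1)⟩
  have hvH : v ∈ H := Subgroup.subset_closure ⟨1, h1 v⟩
  have : Fact (Nat.Prime 3) := ⟨Nat.prime_three⟩
  have hd : 3 ∣ Nat.card H := by
    rcases hp.card_eq_or_dvd with h | h
    · have := (Nat.card_eq_one_iff_unique.1 h).1
      exact absurd (congrArg Subtype.val (Subsingleton.elim (⟨v, hvH⟩ : H) 1)) hv
    · exact h
  have h1f : (1 : H) ∈ MulAction.fixedPoints G H := by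
    intro g
    exact Subtype.ext (map_one (φ g))
  obtain ⟨b, hb, hne⟩ := hG.exists_fixed_point_of_prime_dvd_card_of_fixed_point H hd h1f
  refine ⟨b.1, b.2, fun h => hne (Subtype.ext h.symm), fun g => ?_⟩
  exact congrArg Subtype.val (hb g)

section
variable {A : Type} [Field A] {G : Type} [Group G] [Finite G] [MulSemiringAction G A]

/-- the cube classes -/
abbrev CbC (A : Type) [Field A] : Type := Aˣ ⧸ (powMonoidHom 3 : Aˣ →* Aˣ).range

lemma cbc_eq (x y : Aˣ) : ((x : CbC A) = y) ↔ ∃ s : Aˣ, y = x * s ^ 3 := by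
  rw [QuotientGroup.eq]
  constructor
  · rintro ⟨s, hs⟩
    refine ⟨s, ?_⟩
    have h : s ^ 3 = x⁻¹ * y := hs
    rw [h, mul_inv_cancel_left]
  · rintro ⟨s, hs⟩
    refine ⟨s, ?_⟩
    change s ^ 3 = _
    rw [hs, inv_mul_cancel_left]

/-- a fixed cube class -/
theorem fixed_class (hG : IsPGroup 3 G) (P : A → Prop) (h1 : P 1)
    (hm : ∀ x y, P x → P y → P (x * y)) (hg : ∀ (g : G) x, P x → P (g • x)) {δ : A}
    (h0 : δ ≠ 0) (hn : ∀ c : A, δ ≠ c ^ 3) (hP : P δ) :
    ∃ D : A, D ≠ 0 ∧ (∀ c : A, D ≠ c ^ 3) ∧ P D ∧ ∀ g : G, ∃ s, s ≠ 0 ∧ g • D = D * s ^ 3 := by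
  let ψ : G → Aˣ →* Aˣ := fun g => Units.map (MulSemiringAction.toRingHom G A g : A →* A)
  have hψ : ∀ g (x : Aˣ), ((ψ g x : Aˣ) : A) = g • (x : A) := fun g x => rfl
  let φ : G → CbC A →* CbC A := fun g => QuotientGroup.map _ _ (ψ g) (by
    rintro _ ⟨s, rfl⟩
    refine ⟨ψ g s, ?_⟩
    change ψ g s ^ 3 = ψ g (s ^ 3)
    rw [map_pow])
  have hφ : ∀ g (x : Aˣ), φ g (x : CbC A) = (ψ g x : Aˣ) := fun g x => rfl
  have hψ1 : ∀ x, ψ 1 x = x := fun x => Units.ext (by rw [hψ, one_smul])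
  have hψm : ∀ g h x, ψ (g * h) x = ψ g (ψ h x) := fun g h x =>
    Units.ext (by rw [hψ, hψ, hψ, mul_smul])
  obtain ⟨w, hw, hw1, hwf⟩ := exists_fixed (V := CbC A) hG φ
    (by
      intro v
      obtain ⟨x, rfl⟩ := QuotientGroup.mk_surjective v
      rw [hφ, hψ1])
    (by
      intro g h v
      obtain ⟨x, rfl⟩ := QuotientGroup.mk_surjective v
      rw [hφ, hφ, hφ, hψm])
    (by
      intro v
      obtain ⟨x, rfl⟩ := QuotientGroup.mk_surjective v
      rw [← QuotientGroup.mk_pow, QuotientGroup.eq_one_iff]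
      exact ⟨x, rfl⟩)
    (v := (Units.mk0 δ h0 : Aˣ)) (by
      intro h
      rw [QuotientGroup.eq_one_iff] at h
      obtain ⟨s, hs⟩ := h
      refine hn s ?_
      have h2 := congrArg Units.val hs
      change (s : A) ^ 3 = δ at h2
      rw [← h2])
  have key : ∀ u ∈ Subgroup.closure (Set.range fun g => φ g (Units.mk0 δ h0 : Aˣ)),
      ∃ D : Aˣ, P D ∧ (D : CbC A) = u := by
    intro u hu
    refine Subgroup.closure_induction (p := fun u _ => ∃ D : Aˣ, P D ∧ (D : CbC A) = u)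
      ?_ ?_ ?_ ?_ hu
    · rintro _ ⟨g, rfl⟩
      refine ⟨ψ g (Units.mk0 δ h0), ?_, (hφ _ _).symm⟩
      rw [hψ]
      exact hg g _ hP
    · exact ⟨1, h1, rfl⟩
    · rintro _ _ _ _ ⟨x, hx, rfl⟩ ⟨y, hy, rfl⟩
      exact ⟨x * y, hm _ _ hx hy, rfl⟩
    · rintro _ _ ⟨x, hx, rfl⟩
      refine ⟨x * x, hm _ _ hx hx, ?_⟩
      have h : ((x * x : Aˣ) : CbC A) * x = 1 := by
        rw [← QuotientGroup.mk_mul, ← pow_two, ← pow_succ, QuotientGroup.eq_one_iff]
        exact ⟨x, rfl⟩
      exact eq_inv_of_mul_eq_one_left h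
  obtain ⟨D, hPD, hD⟩ := key w hw
  refine ⟨D, D.ne_zero, ?_, hPD, fun g => ?_⟩
  · intro r hr
    apply hw1
    rw [← hD, QuotientGroup.eq_one_iff]
    have hr0 : r ≠ 0 := by
      rintro rfl
      exact D.ne_zero (by rw [hr, zero_pow three_ne_zero])
    exact ⟨Units.mk0 r hr0, Units.ext (by rw [hr]; rfl)⟩
  · have h := hwf g
    rw [← hD, hφ] at h
    obtain ⟨s, hs⟩ := (cbc_eq _ _).1 h.symm
    exact ⟨s, s.ne_zero, by rw [← hψ, hs]; rfl⟩

/-- the minus part of a fixed cube class descends -/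
theorem descend (σ : A →+* A) (hσ : ∀ x, σ (σ x) = x)
    (hf : ∀ g : G, (∀ x : A, g • x = x) → g = 1) (hσg : ∀ (g : G) x, σ (g • x) = g • σ x)
    (hz : ∀ z : A, z ^ 3 = 1 → σ z = z) {D : A} (hD : D ≠ 0)
    (hs : ∀ g : G, ∃ s, s ≠ 0 ∧ g • D = D * s ^ 3) :
    ∃ t, t ≠ 0 ∧ (∀ g : G, g • (D / σ D * t ^ 3) = D / σ D * t ^ 3) ∧
      ∀ g : G, g • (t * σ t) = t * σ t := by
  classical
  have := Fintype.ofFinite G
  have hσD : σ D ≠ 0 := (map_ne_zero σ).2 hD
  choose s hs0 hs1 using hs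
  obtain ⟨m, hm⟩ : ∃ m : G → A, m = fun g => s g / σ (s g) := ⟨_, rfl⟩
  have hm0 : ∀ g, m g ≠ 0 := fun g => by
    rw [hm]
    exact div_ne_zero (hs0 g) ((map_ne_zero σ).2 (hs0 g))
  have hmn : ∀ g, m g * σ (m g) = 1 := fun g => by
    have h1 := hs0 g
    have h2 := (map_ne_zero σ).2 (hs0 g)
    rw [hm]
    simp only [map_div₀, hσ]
    field_simp
  obtain ⟨E, hE⟩ : ∃ E, E = D / σ D := ⟨_, rfl⟩
  have hE0 : E ≠ 0 := by rw [hE]; exact div_ne_zero hD hσD
  have hgE : ∀ g : G, g • E = E * m g ^ 3 := fun g => by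
    have h1 := hs0 g
    have h2 := (map_ne_zero σ).2 (hs0 g)
    have h3 : g • σ D = σ D * σ (s g) ^ 3 := by
      rw [← hσg, hs1, map_mul, map_pow]
    rw [hE, smul_div₀', hs1, h3, hm]
    simp only
    field_simp
  have hcoc : ∀ g h : G, m (g * h) = m g * g • m h := by
    intro g h
    obtain ⟨z, hzd⟩ : ∃ z, z = m (g * h) / (m g * g • m h) := ⟨_, rfl⟩
    have hgm : g • m h ≠ 0 := by
      intro h8
      apply hm0 h
      have := congrArg (fun z => g⁻¹ • z) h8
      simpa using this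
    have h5 : m (g * h) = z * (m g * g • m h) := by
      rw [hzd, div_mul_cancel₀ _ (mul_ne_zero (hm0 g) hgm)]
    have h1 : m (g * h) ^ 3 = (m g * g • m h) ^ 3 := by
      have h3 : E * m (g * h) ^ 3 = E * (m g * g • m h) ^ 3 := by
        rw [← hgE, mul_smul, hgE h, smul_mul', hgE g, smul_pow']
        ring
      exact mul_left_cancel₀ hE0 h3
    have hz3 : z ^ 3 = 1 := by
      rw [hzd, div_pow, h1, div_self (pow_ne_zero 3 (mul_ne_zero (hm0 g) hgm))]
    have hzz : z * σ z = 1 := by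
      have e1 := hmn (g * h)
      have e2 : (m g * g • m h) * σ (m g * g • m h) = 1 := by
        have e3 : (m g * g • m h) * σ (m g * g • m h) =
            (m g * σ (m g)) * g • (m h * σ (m h)) := by
          rw [map_mul, hσg, smul_mul']
          ring
        rw [e3, hmn, hmn, smul_one, one_mul]
      rw [h5, map_mul] at e1
      calc z * σ z = z * σ z * ((m g * g • m h) * σ (m g * g • m h)) := by rw [e2, mul_one]
        _ = 1 := by rw [← e1]; ring
    have hz1 : z = 1 := by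
      rw [hz z hz3] at hzz
      have : z * (z * z) = 1 := by rw [← hz3]; ring
      rwa [hzz, mul_one] at this
    rw [h5, hz1, one_mul]
  obtain ⟨x, hx⟩ : ∃ x : A, ∑ h : G, m h * (h • x) ≠ 0 := by
    by_contra hcon
    push Not at hcon
    have hinj : Function.Injective
        (fun g : G => ((MulSemiringAction.toRingHom G A g : A →+* A) : A →* A)) := by
      intro g h hgh
      have h1 : ∀ x : A, g • x = h • x := fun x => DFunLike.congr_fun hgh x
      have h2 : h⁻¹ * g = 1 := hf _ fun x => by rw [mul_smul, h1, inv_smul_smul]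
      exact (inv_mul_eq_one.1 h2).symm
    have hli := (linearIndependent_monoidHom A A).comp _ hinj
    rw [Fintype.linearIndependent_iff] at hli
    have h1 := hli m (by
      funext x
      rw [Finset.sum_apply]
      exact hcon x) 1
    exact hm0 1 h1
  set t : A := ∑ h : G, m h * (h • x) with ht
  have htg : ∀ g : G, m g * g • t = t := by
    intro g
    rw [ht, Finset.smul_sum, Finset.mul_sum]
    refine Fintype.sum_equiv (Equiv.mulLeft g) _ _ fun h => ?_
    simp only [Equiv.coe_mulLeft]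
    rw [hcoc, smul_mul', mul_smul]
    ring
  refine ⟨t, hx, fun g => ?_, fun g => ?_⟩
  · rw [← hE, smul_mul', smul_pow', hgE]
    conv_rhs => rw [← htg g]
    ring
  · have e1 : t * σ t = (m g * σ (m g)) * (g • t * g • σ t) := by
      conv_lhs => rw [← htg g]
      rw [map_mul, hσg]
      ring
    rw [smul_mul', e1, hmn, one_mul]

end

end Pool.Agent.T9h31.Ab
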