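import Pool.Agent.T9h31.AbUn
import Pool.Agent.T9h31.AbDsc
import Pool.Agent.Y696.AlgD

/-!
# The cube classes of the Selmer group are trivial
-/

set_option autoImplicit false
set_option linter.unusedSectionVars false

namespace Pool.Agent.T9h31.Ab

open NumberField IsDedekindDomain WithZero
open Pool.Agent.Y696 (und und_lies mem_under_of_lies)

section ext
variable {F k : Type} [Field F] [NumberField F] [Field k] [NumberField k] [Algebra F k]

/-- unramified at the places above three and at those where `-1` is a square -/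
def Un (F k : Type) [Field F] [NumberField F] [Field k] [NumberField k] [Algebra F k] : Prop :=
  ∀ (v₀ : HeightOneSpectrum (𝓞 F)) (v : HeightOneSpectrum (𝓞 k)), v.asIdeal.LiesOver v₀.asIdeal →
    ((3 : 𝓞 F) ∈ v₀.asIdeal ∨ ¬ Ns v₀) → ∀ t : F, v.valuation k (algebraMap F k t) =
      v₀.valuation F t

lemma three_und {v : HeightOneSpectrum (𝓞 k)} :
    (3 : 𝓞 F) ∈ (und (F := F) v).asIdeal ↔ (3 : 𝓞 k) ∈ v.asIdeal := by
  rw [mem_under_of_lies (und_lies (F := F) v), map_ofNat]

variable [IsCyclotomicExtension {3} ℚ F]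

lemma val3_k (hun : Un F k) {v : HeightOneSpectrum (𝓞 k)} (hv : (3 : 𝓞 k) ∈ v.asIdeal) :
    v.valuation k 3 = exp (-2) := by
  have h3 := (three_und (F := F)).2 hv
  have h1 := hun _ v (und_lies v) (Or.inl h3) 3
  rw [map_ofNat, Pool.Agent.Y696.val_three_F _ h3] at h1
  exact h1

variable [IsGalois F k]

lemma ns3_k {n : ℕ} (hn : Module.finrank F k = 3 ^ n) {v : HeightOneSpectrum (𝓞 k)}
    (hv : (3 : 𝓞 k) ∈ v.asIdeal) : Ns v := by
  refine ns_up (F := F) ?_ (ns_three_F _ ((three_und (F := F)).2 hv))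
  rw [hn]
  exact Odd.pow (by decide)

lemma no_sq_k {n : ℕ} (hn : Module.finrank F k = 3 ^ n) (x : k) : x ^ 2 ≠ -1 := by
  obtain ⟨v, hv⟩ := exists_three k
  exact no_sq (ns3_k (F := F) hn hv) x

end ext

section quad
variable {k : Type} [Field k] [NumberField k] [Fact (∀ r : k, r ^ 2 ≠ -1 + 0 * r)]

/-- the ramification index of a quadratic extension -/
lemma e_dvd (w : HeightOneSpectrum (𝓞 (Qi k))) : ∃ e : ℕ, (e = 1 ∨ e = 2) ∧ ∀ t : k,
    w.valuation (Qi k) (algebraMap k (Qi k) t) = (und (F := k) w).valuation k t ^ e := by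
  obtain ⟨e, he⟩ := val_alg w
  refine ⟨e, ?_, he⟩
  obtain ⟨x, hx⟩ := w.valuation_surjective (Qi k) (exp (-1 : ℤ))
  have hrel : x ^ 2 = algebraMap k (Qi k) (2 * x.re) * x - algebraMap k (Qi k) (x.re ^ 2 + x.im ^ 2) := by
    have h1 := qi_form x
    obtain ⟨a, b, ha, hb⟩ : ∃ a b : k, a = x.re ∧ b = x.im := ⟨_, _, rfl, rfl⟩
    rw [← ha, ← hb] at h1 ⊢
    rw [h1]
    simp only [map_mul, map_add, map_pow, map_ofNat]
    linear_combination (algebraMap k (Qi k) b) ^ 2 * qI_sq (k := k)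
  obtain ⟨p, hp⟩ : ∃ p, p = 2 * x.re := ⟨_, rfl⟩
  obtain ⟨q, hq⟩ : ∃ q, q = x.re ^ 2 + x.im ^ 2 := ⟨_, rfl⟩
  rw [← hp, ← hq] at hrel
  -- the three values
  have hA : w.valuation (Qi k) (x ^ 2) = exp (-2) := by
    rw [map_pow, hx, ← exp_nsmul]
    norm_num
  have hB : w.valuation (Qi k) (algebraMap k (Qi k) p * x) =
      (und (F := k) w).valuation k p ^ e * exp (-1) := by
    rw [map_mul, he, hx]
  have hC : w.valuation (Qi k) (algebraMap k (Qi k) q) = (und (F := k) w).valuation k q ^ e := he q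
  have key1 : ∀ t : k, (und (F := k) w).valuation k t ^ e = exp (-1) → e = 1 := by
    intro t ht
    have ht0 : (und (F := k) w).valuation k t ≠ 0 := by
      intro h0
      rw [h0] at ht
      rcases e with _ | e
      · rw [pow_zero, ← exp_zero] at ht
        exact absurd (exp_injective ht) (by norm_num)
      · rw [zero_pow (Nat.succ_ne_zero e)] at ht
        exact exp_ne_zero ht.symm
    obtain ⟨m, hm⟩ : ∃ m : ℤ, (und (F := k) w).valuation k t = exp m := ⟨_, (exp_log ht0).symm⟩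
    rw [hm, ← exp_nsmul, nsmul_eq_mul] at ht
    have h1 := exp_injective ht
    have h2 : (e : ℤ) ∣ 1 := ⟨-m, by linarith⟩
    have := Int.eq_one_of_dvd_one (by positivity) h2
    exact_mod_cast this
  have key2 : ∀ t : k, (und (F := k) w).valuation k t ^ e = exp (-2) → e = 1 ∨ e = 2 := by
    intro t ht
    have ht0 : (und (F := k) w).valuation k t ≠ 0 := by
      intro h0
      rw [h0] at ht
      rcases e with _ | e
      · rw [pow_zero, ← exp_zero] at ht
        exact absurd (exp_injective ht) (by norm_num)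
      · rw [zero_pow (Nat.succ_ne_zero e)] at ht
        exact exp_ne_zero ht.symm
    obtain ⟨m, hm⟩ : ∃ m : ℤ, (und (F := k) w).valuation k t = exp m := ⟨_, (exp_log ht0).symm⟩
    rw [hm, ← exp_nsmul, nsmul_eq_mul] at ht
    have h1 := exp_injective ht
    have h2 : (e : ℤ) ∣ 2 := ⟨-m, by linarith⟩
    have h3 : e ∣ 2 := by exact_mod_cast h2
    exact (Nat.dvd_prime Nat.prime_two).1 h3
  have key3 : ∀ s t : k, (und (F := k) w).valuation k s ^ e ≠ 0 →
      (und (F := k) w).valuation k s ^ e * exp (-1) = (und (F := k) w).valuation k t ^ e → e = 1 := by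
    intro s t hs0 hst
    refine key1 (t / s) ?_
    rw [map_div₀, div_pow, ← hst]
    field_simp
  by_cases h1 : w.valuation (Qi k) (x ^ 2) = w.valuation (Qi k) (algebraMap k (Qi k) p * x)
  · left
    rw [hA, hB] at h1
    refine key1 p ?_
    have e2 : (exp (-2 : ℤ)) = exp (-1 : ℤ) * exp (-1 : ℤ) := by
      rw [← exp_add]
      norm_num
    rw [e2] at h1
    exact (mul_right_cancel₀ exp_ne_zero h1).symm
  by_cases h2 : w.valuation (Qi k) (x ^ 2) = w.valuation (Qi k) (algebraMap k (Qi k) q)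
  · rw [hA, hC] at h2
    exact key2 q h2.symm
  -- now the two others agree
  have h3 : w.valuation (Qi k) (algebraMap k (Qi k) p * x) =
      w.valuation (Qi k) (algebraMap k (Qi k) q) := by
    by_contra hne
    have e1 : w.valuation (Qi k) (algebraMap k (Qi k) p * x - algebraMap k (Qi k) q) =
        max (w.valuation (Qi k) (algebraMap k (Qi k) p * x))
          (w.valuation (Qi k) (algebraMap k (Qi k) q)) := by
      rw [sub_eq_add_neg, Valuation.map_add_of_distinct_val _ (by rw [Valuation.map_neg]; exact hne),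
        Valuation.map_neg]
    rw [← hrel] at e1
    rcases max_choice (w.valuation (Qi k) (algebraMap k (Qi k) p * x))
      (w.valuation (Qi k) (algebraMap k (Qi k) q)) with h | h
    · exact h1 (e1.trans h)
    · exact h2 (e1.trans h)
  left
  have hne : (und (F := k) w).valuation k p ^ e ≠ 0 := by
    intro h0
    rw [hB, h0, zero_mul] at h3
    have h4 : algebraMap k (Qi k) q = 0 := by
      rw [← (w.valuation (Qi k)).zero_iff]
      exact h3.symm
    have h5 : algebraMap k (Qi k) p * x = 0 := by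
      rw [← (w.valuation (Qi k)).zero_iff, hB, h0, zero_mul]
    rw [h4, h5, sub_zero] at hrel
    rw [hrel, map_zero] at hA
    exact exp_ne_zero hA.symm
  rw [hB, hC] at h3
  exact key3 p q hne h3

end quad

section alg
variable {F k : Type} [Field F] [NumberField F] [IsCyclotomicExtension {3} ℚ F] [Field k]
  [NumberField k] [Algebra F k] [Fact (∀ r : k, r ^ 2 ≠ -1 + 0 * r)]

/-- the Selmer condition on cube classes -/
structure SC (θ : k) (b : Qi k) : Prop where
  ne : b ≠ 0
  minus : ∃ c, b * star b = c ^ 3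
  un : ∀ w : HeightOneSpectrum (𝓞 (Qi k)), (3 : 𝓞 (Qi k)) ∉ w.asIdeal →
    ∃ n : ℤ, w.valuation (Qi k) b = exp (3 * n)
  lev : ∀ w : HeightOneSpectrum (𝓞 (Qi k)), (3 : 𝓞 (Qi k)) ∈ w.asIdeal →
    ∃ c : Qi k, c ≠ 0 ∧ ∃ i : ℕ, OO (w.valuation (Qi k)) 2
      (b * c ^ 3 * ((-1 + algebraMap k (Qi k) θ) / 2) ^ i - 1)

lemma lev_mul {M : Type} [Field M] {v : Valuation M (WithZero (Multiplicative ℤ))} {x y : M}
    (hx : OO v 2 (x - 1)) (hy : OO v 2 (y - 1)) : OO v 2 (x * y - 1) := by
  have e : x * y - 1 = (x - 1) * (y - 1) + ((x - 1) + (y - 1)) := by ring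
  rw [e]
  exact ((hx.mul hy).mono (by norm_num)).add (hx.add hy)

lemma SC.one {θ : k} : SC θ (1 : Qi k) where
  ne := one_ne_zero
  minus := ⟨1, by simp⟩
  un w _ := ⟨0, by simp⟩
  lev w _ := ⟨1, one_ne_zero, 0, by
    have e : (1 : Qi k) * 1 ^ 3 * ((-1 + algebraMap k (Qi k) θ) / 2) ^ 0 - 1 = 0 := by ring
    rw [e]
    unfold OO
    rw [map_zero]
    exact zero_le⟩

lemma SC.mul {θ : k} {x y : Qi k} (hx : SC θ x) (hy : SC θ y) : SC θ (x * y) where
  ne := mul_ne_zero hx.ne hy.ne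
  minus := by
    obtain ⟨c, hc⟩ := hx.minus
    obtain ⟨d, hd⟩ := hy.minus
    exact ⟨c * d, by rw [star_mul, mul_pow, ← hc, ← hd]; ring⟩
  un w hw := by
    obtain ⟨m, hm⟩ := hx.un w hw
    obtain ⟨n, hn⟩ := hy.un w hw
    exact ⟨m + n, by rw [map_mul, hm, hn, ← exp_add]; congr 1; ring⟩
  lev w hw := by
    obtain ⟨c, hc, i, hi⟩ := hx.lev w hw
    obtain ⟨d, hd, j, hj⟩ := hy.lev w hw
    refine ⟨c * d, mul_ne_zero hc hd, i + j, ?_⟩
    have := lev_mul hi hj
    have e : x * y * (c * d) ^ 3 * ((-1 + algebraMap k (Qi k) θ) / 2) ^ (i + j) =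
        (x * c ^ 3 * ((-1 + algebraMap k (Qi k) θ) / 2) ^ i) *
          (y * d ^ 3 * ((-1 + algebraMap k (Qi k) θ) / 2) ^ j) := by
      rw [pow_add]
      ring
    rw [e]
    exact this

lemma SC.cube {θ : k} {c : Qi k} (hc : c ≠ 0) : SC θ (c ^ 3) where
  ne := pow_ne_zero 3 hc
  minus := ⟨c * star c, by rw [star_pow]; ring⟩
  un w _ := by
    obtain ⟨m, hm⟩ : ∃ m : ℤ, w.valuation (Qi k) c = exp m :=
      ⟨_, (exp_log ((Valuation.ne_zero_iff _).2 hc)).symm⟩
    refine ⟨m, ?_⟩
    rw [map_pow, hm, ← exp_nsmul, nsmul_eq_mul]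
    norm_num
  lev w _ := ⟨c⁻¹, inv_ne_zero hc, 0, by
    have e : c ^ 3 * c⁻¹ ^ 3 * ((-1 + algebraMap k (Qi k) θ) / 2) ^ 0 - 1 = 0 := by
      field_simp
      ring
    rw [e]
    unfold OO
    rw [map_zero]
    exact zero_le⟩

/-- the action on `k(i)` -/
noncomputable abbrev actQ : MulSemiringAction Gal(k/F) (Qi k) where
  smul g x := qmap (g : k →+* k) x
  one_smul x := by
    show qmap ((1 : Gal(k/F)) : k →+* k) x = x
    ext <;> simp
  mul_smul g h x := by
    show qmap ((g * h : Gal(k/F)) : k →+* k) x = qmap (g : k →+* k) (qmap (h : k →+* k) x)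
    ext <;> simp
  smul_zero g := map_zero (qmap (g : k →+* k))
  smul_add g x y := map_add (qmap (g : k →+* k)) x y
  smul_one g := map_one (qmap (g : k →+* k))
  smul_mul g x y := map_mul (qmap (g : k →+* k)) x y

/-- the automorphism of `k(i)` -/
noncomputable def qaut (g : Gal(k/F)) : Qi k ≃+* Qi k where
  toFun := qmap (g : k →+* k)
  invFun := qmap ((g⁻¹ : Gal(k/F)) : k →+* k)
  left_inv x := by ext <;> simp
  right_inv x := by ext <;> simp
  map_mul' := map_mul _
  map_add' := map_add _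

lemma mem3_iff (w : HeightOneSpectrum (𝓞 (Qi k))) :
    (3 : 𝓞 (Qi k)) ∈ w.asIdeal ↔ w.valuation (Qi k) 3 < 1 := by
  have := w.valuation_lt_one_iff_mem (K := Qi k) (3 : 𝓞 (Qi k))
  rw [← this]
  rfl

lemma SC.aut {θ₀ : F} {x : Qi k} (hx : SC (algebraMap F k θ₀) x) (g : Gal(k/F)) :
    SC (algebraMap F k θ₀) (qaut g x) where
  ne := (map_ne_zero _).2 hx.ne
  minus := by
    obtain ⟨c, hc⟩ := hx.minus
    refine ⟨qaut g c, ?_⟩
    rw [← map_pow, ← hc, map_mul]
    congr 1
    exact (qmap_star _ _).symm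
  un w hw := by
    obtain ⟨w', hw'⟩ := Pool.Agent.Y696.val_aut (qaut g) w
    rw [hw']
    refine hx.un w' ?_
    rw [mem3_iff, ← hw', map_ofNat, ← mem3_iff]
    exact hw
  lev w hw := by
    obtain ⟨w', hw'⟩ := Pool.Agent.Y696.val_aut (qaut g) w
    obtain ⟨c, hc, i, hi⟩ := hx.lev w' (by
      rw [mem3_iff, ← hw', map_ofNat, ← mem3_iff]
      exact hw)
    refine ⟨qaut g c, (map_ne_zero _).2 hc, i, ?_⟩
    unfold OO at hi ⊢
    rw [← hw'] at hi
    have e : qaut g (x * c ^ 3 * ((-1 + algebraMap k (Qi k) (algebraMap F k θ₀)) / 2) ^ i - 1) =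
        qaut g x * qaut g c ^ 3 * ((-1 + algebraMap k (Qi k) (algebraMap F k θ₀)) / 2) ^ i - 1 := by
      have e1 : qaut g (algebraMap k (Qi k) (algebraMap F k θ₀)) =
          algebraMap k (Qi k) (algebraMap F k θ₀) := by
        show qmap (g : k →+* k) _ = _
        rw [qmap_alg]
        congr 1
        exact g.commutes θ₀
      simp only [map_sub, map_mul, map_pow, map_div₀, map_add, map_neg, map_one, map_ofNat, e1]
    rwa [e] at hi

end alg

end Pool.Agent.T9h31.Ab
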