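import Pool.Agent.T9h31.AbLev2

/-!
# The field of twelfth roots of unity
-/

set_option autoImplicit false
set_option linter.unusedSectionVars false

namespace Pool.Agent.T9h31.Ab

open NumberField IsDedekindDomain WithZero
open Pool.Agent.Y696 (und und_lies mem_under_of_lies)
open scoped Pointwise

section
variable {k : Type} [Field k] [NumberField k]

lemma ns_iff (v : HeightOneSpectrum (𝓞 k)) : Ns v ↔ Nat.card (𝓞 k ⧸ v.asIdeal) % 4 = 3 := by
  have hmax : v.asIdeal.IsMaximal := v.isMaximal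
  let _ : Field (𝓞 k ⧸ v.asIdeal) := Ideal.Quotient.field v.asIdeal
  have hfin : Finite (𝓞 k ⧸ v.asIdeal) := Ideal.finiteQuotientOfFreeOfNeBot v.asIdeal v.ne_bot
  let _ : Fintype (𝓞 k ⧸ v.asIdeal) := Fintype.ofFinite _
  rw [Nat.card_eq_fintype_card]
  have h1 := FiniteField.isSquare_neg_one_iff (F := 𝓞 k ⧸ v.asIdeal)
  have h2 : IsSquare (-1 : 𝓞 k ⧸ v.asIdeal) ↔ ¬ Ns v := by
    unfold Ns
    push Not
    constructor
    · rintro ⟨y, hy⟩
      obtain ⟨x, rfl⟩ := Ideal.Quotient.mk_surjective y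
      refine ⟨x, ?_⟩
      rw [← Ideal.Quotient.eq_zero_iff_mem, map_add, map_pow, map_one, pow_two, ← hy,
        neg_add_cancel]
    · rintro ⟨x, hx⟩
      refine ⟨Ideal.Quotient.mk _ x, ?_⟩
      rw [← Ideal.Quotient.eq_zero_iff_mem, map_add, map_pow, map_one] at hx
      linear_combination -hx
  rw [h2] at h1
  tauto

/-- no square root of `-1` -/
lemma no_sq {v : HeightOneSpectrum (𝓞 k)} (h : Ns v) (x : k) : x ^ 2 ≠ -1 := by
  intro hx
  have hi : IsIntegral ℤ x := by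
    refine ⟨Polynomial.X ^ 2 + Polynomial.C 1, ?_, ?_⟩
    · exact Polynomial.monic_X_pow_add_C 1 two_ne_zero
    · simp [hx]
  obtain ⟨r, hr⟩ : ∃ r : 𝓞 k, algebraMap (𝓞 k) k r = x := ⟨⟨x, hi⟩, rfl⟩
  refine h r ?_
  have e : r ^ 2 + 1 = 0 := by
    apply FaithfulSMul.algebraMap_injective (𝓞 k) k
    rw [map_add, map_pow, map_one, map_zero, hr, hx]
    ring
  rw [e]
  exact zero_mem _

variable {F : Type} [Field F] [NumberField F] [Algebra F k] [IsGalois F k]

/-- the property in Galois extensions of odd degree -/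
theorem ns_up (hodd : Odd (Module.finrank F k)) {v : HeightOneSpectrum (𝓞 k)}
    (h : Ns (und (F := F) v)) : Ns v := by
  rw [ns_iff] at h ⊢
  obtain ⟨v₀, hv₀⟩ : ∃ v₀, v₀ = und (F := F) v := ⟨_, rfl⟩
  have hlo : v.asIdeal.LiesOver v₀.asIdeal := by rw [hv₀]; exact und_lies v
  rw [← hv₀] at h
  have hpmax : v₀.asIdeal.IsMaximal := v₀.isMaximal
  have hvmax : v.asIdeal.IsMaximal := v.isMaximal
  have hfv : Finite (𝓞 k ⧸ v.asIdeal) := Ideal.finiteQuotientOfFreeOfNeBot v.asIdeal v.ne_bot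
  have hfp : Finite (𝓞 F ⧸ v₀.asIdeal) := Ideal.finiteQuotientOfFreeOfNeBot v₀.asIdeal v₀.ne_bot
  let _ : Field (𝓞 F ⧸ v₀.asIdeal) := Ideal.Quotient.field _
  let _ : Field (𝓞 k ⧸ v.asIdeal) := Ideal.Quotient.field _
  let _ : Fintype (𝓞 F ⧸ v₀.asIdeal) := Fintype.ofFinite _
  let _ : Fintype (𝓞 k ⧸ v.asIdeal) := Fintype.ofFinite _
  have hc := Module.card_eq_pow_finrank (K := 𝓞 F ⧸ v₀.asIdeal) (V := 𝓞 k ⧸ v.asIdeal)
  rw [Nat.card_eq_fintype_card] at h ⊢
  have h1 := Ideal.Quotient.stabilizerHom_surjective Gal(k/F) v₀.asIdeal v.asIdeal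
  have h2 : Nat.card ((𝓞 k ⧸ v.asIdeal) ≃ₐ[𝓞 F ⧸ v₀.asIdeal] (𝓞 k ⧸ v.asIdeal)) ∣
      Nat.card (MulAction.stabilizer Gal(k/F) v.asIdeal) := Subgroup.card_dvd_of_surjective _ h1
  have h3 : Nat.card (MulAction.stabilizer Gal(k/F) v.asIdeal) ∣ Nat.card Gal(k/F) :=
    Subgroup.card_subgroup_dvd_card _
  have h4 := IsGalois.card_aut_eq_finrank (𝓞 F ⧸ v₀.asIdeal) (𝓞 k ⧸ v.asIdeal)
  rw [h4] at h2
  rw [IsGalois.card_aut_eq_finrank F k] at h3
  have h5 : Odd (Module.finrank (𝓞 F ⧸ v₀.asIdeal) (𝓞 k ⧸ v.asIdeal)) :=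
    Odd.of_dvd_nat hodd (h2.trans h3)
  obtain ⟨f, hf⟩ := h5
  rw [hc, hf, pow_succ, pow_mul, Nat.mul_mod, Nat.pow_mod, Nat.pow_mod (Fintype.card _) 2 4, h]
  norm_num

end

section cyc
variable {F : Type} [Field F] [NumberField F] [IsCyclotomicExtension {3} ℚ F]

/-- a square root of `-3` and a cube root of unity -/
lemma exists_theta : ∃ θ : F, θ ^ 2 = -3 := by
  obtain ⟨ζ, hζ⟩ := IsCyclotomicExtension.exists_isPrimitiveRoot ℚ F
    (Set.mem_singleton 3) (by norm_num)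
  have h2 : ζ ^ 2 + ζ + 1 = 0 := by
    have h3 : ζ ^ 3 = 1 := hζ.pow_eq_one
    have h4 : ζ ≠ 1 := hζ.ne_one (by norm_num)
    have h5 : (ζ - 1) * (ζ ^ 2 + ζ + 1) = 0 := by linear_combination h3
    exact (mul_eq_zero.1 h5).resolve_left (sub_ne_zero.2 h4)
  exact ⟨2 * ζ + 1, by linear_combination 4 * h2⟩

lemma card_three_F (v : HeightOneSpectrum (𝓞 F)) (hv : (3 : 𝓞 F) ∈ v.asIdeal) :
    Nat.card (𝓞 F ⧸ v.asIdeal) = 3 := by
  have hN : Ideal.absNorm (Ideal.span {(3 : 𝓞 F)}) = 3 ^ 2 := by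
    rw [Ideal.absNorm_span_singleton]
    have h1 : Algebra.norm ℤ (algebraMap ℤ (𝓞 F) 3) = 3 ^ Module.finrank ℤ (𝓞 F) :=
      Algebra.norm_algebraMap (S := 𝓞 F) (3 : ℤ)
    have h2 : Module.finrank ℚ F = 2 := by
      rw [IsCyclotomicExtension.finrank (n := 3) F (Polynomial.cyclotomic.irreducible_rat (by norm_num))]
      rfl
    rw [RingOfIntegers.rank, h2, map_ofNat] at h1
    rw [h1]
    norm_num
  have h3 : (3 : 𝓞 F) ∈ v.asIdeal ^ 2 := by
    rw [← v.intValuation_le_pow_iff_mem]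
    have e : v.valuation F (algebraMap (𝓞 F) F 3) = v.intValuation 3 :=
      HeightOneSpectrum.valuation_of_algebraMap v 3
    rw [map_ofNat, Pool.Agent.Y696.val_three_F v hv] at e
    rw [← e]
    norm_num
  have hle : Ideal.span {(3 : 𝓞 F)} ≤ v.asIdeal ^ 2 := by
    rw [Ideal.span_singleton_le_iff_mem]
    exact h3
  have hq : Ideal.absNorm v.asIdeal ^ 2 ∣ 3 ^ 2 := by
    rw [← map_pow, ← hN]
    exact Ideal.absNorm_dvd_absNorm_of_le hle
  have hq3 : Ideal.absNorm v.asIdeal ∣ 3 := (Nat.pow_dvd_pow_iff (by norm_num)).1 hq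
  rw [← Submodule.cardQuot_apply]
  rcases (Nat.dvd_prime Nat.prime_three).1 hq3 with h | h
  · exact absurd (Ideal.absNorm_eq_one_iff.1 h) v.isPrime.ne_top
  · exact h

lemma ns_three_F (v : HeightOneSpectrum (𝓞 F)) (hv : (3 : 𝓞 F) ∈ v.asIdeal) : Ns v := by
  rw [ns_iff, card_three_F v hv]

lemma exists_three (k : Type) [Field k] [NumberField k] :
    ∃ v : HeightOneSpectrum (𝓞 k), (3 : 𝓞 k) ∈ v.asIdeal := by
  have hnu : ¬ IsUnit (3 : 𝓞 k) := by
    intro hun
    have h1 : IsUnit (algebraMap ℤ (𝓞 k) 3) := by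
      rw [map_ofNat]
      exact hun
    have h2 : IsUnit (3 : ℤ) := isUnit_of_map_unit (algebraMap ℤ (𝓞 k)) 3 h1
    rw [Int.isUnit_iff] at h2
    norm_num at h2
  obtain ⟨M, hM, hz⟩ := exists_max_ideal_of_mem_nonunits (mem_nonunits_iff.2 hnu)
  refine ⟨⟨M, hM.isPrime, ?_⟩, hz⟩
  rintro rfl
  rw [Ideal.mem_bot] at hz
  norm_num at hz

lemma no_sq_F (x : F) : x ^ 2 ≠ -1 := by
  obtain ⟨v, hv⟩ := exists_three F
  exact no_sq (ns_three_F v hv) x

instance factF : Fact (∀ r : F, r ^ 2 ≠ -1 + 0 * r) := qi_fact no_sq_F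

lemma prim12 : ∃ ζ : Qi F, IsPrimitiveRoot ζ 12 := by
  obtain ⟨ζ, hζ⟩ := IsCyclotomicExtension.exists_isPrimitiveRoot ℚ F
    (Set.mem_singleton 3) (by norm_num)
  have h1 : IsPrimitiveRoot (algebraMap F (Qi F) ζ) 3 :=
    hζ.map_of_injective (algebraMap F (Qi F)).injective
  have h2 : IsPrimitiveRoot (qI F) 4 := by
    refine IsPrimitiveRoot.mk_of_lt _ (by norm_num) ?_ ?_
    · rw [show (4 : ℕ) = 2 * 2 by norm_num, pow_mul, qI_sq]
      norm_num
    · intro l hl hl4 h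
      have hI := qI_sq (k := F)
      interval_cases l
      · rw [pow_one] at h
        rw [h] at hI
        norm_num at hI
      · rw [hI] at h
        norm_num at h
      · rw [pow_succ, hI] at h
        have h3 : qI F = -1 := by linear_combination -h
        rw [h3] at hI
        norm_num at hI
  have h3 := Commute.orderOf_mul_eq_mul_orderOf_of_coprime (Commute.all (algebraMap F (Qi F) ζ) (qI F))
    (by rw [← h1.eq_orderOf, ← h2.eq_orderOf]; norm_num)
  rw [← h1.eq_orderOf, ← h2.eq_orderOf] at h3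
  refine ⟨algebraMap F (Qi F) ζ * qI F, ?_⟩
  have := IsPrimitiveRoot.orderOf (algebraMap F (Qi F) ζ * qI F)
  rwa [h3] at this

lemma finrank_M : Module.finrank ℚ (Qi F) = 4 := by
  have : IsScalarTower ℚ F (Qi F) := IsScalarTower.of_algebraMap_eq' (Subsingleton.elim _ _)
  rw [← Module.finrank_mul_finrank ℚ F (Qi F), finrank_qi,
    IsCyclotomicExtension.finrank (n := 3) F (Polynomial.cyclotomic.irreducible_rat (by norm_num))]
  rfl

set_option backward.isDefEq.respectTransparency false in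
instance cyc12 : IsCyclotomicExtension {12} ℚ (Qi F) := by
  obtain ⟨ζ, hζ⟩ := prim12 (F := F)
  have h1 := hζ.intermediateField_adjoin_isCyclotomicExtension ℚ
  have h2 : Module.finrank ℚ (IntermediateField.adjoin ℚ {ζ}) = 4 := by
    rw [IsCyclotomicExtension.finrank (n := 12) _ (Polynomial.cyclotomic.irreducible_rat (by norm_num))]
    rfl
  have h3 : IntermediateField.adjoin ℚ {ζ} = ⊤ := by
    refine IntermediateField.eq_of_le_of_finrank_eq le_top ?_
    rw [h2, IntermediateField.finrank_top', finrank_M]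
  rw [h3] at h1
  exact h1.equiv _ _ _ IntermediateField.topEquiv

lemma totient12 : Nat.totient 12 = 4 := rfl

lemma discr_M : (discr (Qi F)).natAbs = 144 := by
  rw [IsCyclotomicExtension.Rat.natAbs_discr (K := Qi F) 12, totient12]
  have h : Nat.primeFactors 12 = {2, 3} := by decide +kernel
  rw [h, Finset.prod_pair (by norm_num)]
  norm_num

/-- the ring of integers is a principal ideal domain -/
theorem pid_M : IsPrincipalIdealRing (𝓞 (Qi F)) := by
  apply RingOfIntegers.isPrincipalIdealRing_of_abs_discr_lt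
  have h1 : ((|discr (Qi F)| : ℤ) : ℝ) = 144 := by
    rw [← Int.natCast_natAbs, discr_M]
    norm_num
  rw [h1, finrank_M, IsCyclotomicExtension.Rat.nrComplexPlaces_eq_totient_div_two 12, totient12]
  have h4 : Nat.factorial 4 = 24 := rfl
  rw [h4]
  norm_num only [Nat.reduceDiv, Nat.cast_ofNat]
  have hp := Real.pi_gt_three
  have h5 : (9 : ℝ) < Real.pi ^ 2 := by nlinarith
  nlinarith

end cyc

end Pool.Agent.T9h31.Ab
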