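import Pool.Agent.T9h31.AbPsi

/-!
# The endomorphism `1 - ω` of `y² = x³ - 16`
-/

set_option autoImplicit false
set_option linter.unusedSectionVars false
set_option linter.unusedVariables false

open scoped Classical

namespace Pool.Agent.T9h31.Ab

open NumberField IsDedekindDomain WithZero WeierstrassCurve
open Pool.Agent.TH841.NF (tm tm_act act_tm tm_tm tm_id tm_inj coc_fin coc_of_fin aut_of_two
  act_some' act_zero' pt_ext tm_some tm_zero pt_inj)
open Pool.Agent.TH841.SH.D (Pt act Gal Coch IsCoc IsCob LocTriv cob)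
open Pool.Agent.TH841.NF.D (Sha IsShaCoc shaCoc)
open Pool.Agent.N883.SX (E1 isE tor cc Kum Hm)
open Pool.Agent.Y696 (E0 W16 Phi Phi_mkp Phi_act)
open Pool.Agent.N883.SX.Ker (act_lm imm lm lm_apply act_imm act_tor tor_add tor_inj ker_imm imm_tor
  tor_zero tor_one tor_neg_one z3 some_eq of_some_eq TT)
open Pool.Agent.Y696.CTP (cK cK_apply exists_cK)
open Pool.Agent.N883.SY.Upc (lm_lm)
open Pool.Agent.Y715.T.Ell (surj_im T0)

section im
variable {k : Type} [Field k]

lemma scW {A : Type} [Field A] [Algebra k A] {J : A} (hJ : J ^ 2 + J + 1 = 0) :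
    Pool.Agent.TH841.NF.Sc (RingHom.id A) (J ^ 2) ((Em k).baseChange A) ((Em k).baseChange A) := by
  have hJ3 : J ^ 3 = 1 := by linear_combination (J - 1) * hJ
  have hJ0 : J ≠ 0 := by
    rintro rfl
    rw [zero_pow three_ne_zero] at hJ3
    exact zero_ne_one hJ3
  refine ⟨pow_ne_zero 2 hJ0, ?_, ?_, ?_, ?_, ?_⟩
  · show algebraMap k A 0 = algebraMap k A 0 * _
    simp
  · show algebraMap k A 0 = algebraMap k A 0 * _
    simp
  · show algebraMap k A 0 = algebraMap k A 0 * _
    simp
  · show algebraMap k A 0 = algebraMap k A 0 * _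
    simp
  · show algebraMap k A (-16) = algebraMap k A (-16) * (J ^ 2) ^ 6
    have e : (J ^ 2) ^ 6 = (J ^ 3) ^ 4 := by ring
    rw [e, hJ3, one_pow, mul_one]

/-- multiplication by the root of unity -/
noncomputable def imW {A : Type} [Field A] [Algebra k A] {J : A} (hJ : J ^ 2 + J + 1 = 0) :
    Pt (Em k) A →+ Pt (Em k) A := tm (scW hJ)

/-- the endomorphism `1 - ω` -/
noncomputable def lmW {A : Type} [Field A] [Algebra k A] {J : A} (hJ : J ^ 2 + J + 1 = 0) :
    Pt (Em k) A →+ Pt (Em k) A := AddMonoidHom.id _ - imW hJ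

lemma lmW_apply {A : Type} [Field A] [Algebra k A] {J : A} (hJ : J ^ 2 + J + 1 = 0)
    (P : Pt (Em k) A) : lmW hJ P = P - imW hJ P := rfl

lemma act_imW {A B : Type} [Field A] [Algebra k A] [Field B] [Algebra k B] (φ : A →ₐ[k] B) {J : A}
    (hJ : J ^ 2 + J + 1 = 0) {J' : B} (hJ' : J' ^ 2 + J' + 1 = 0) (h : φ J = J') (P : Pt (Em k) A) :
    act (Em k) φ (imW hJ P) = imW hJ' (act (Em k) φ P) := by
  unfold imW
  rcases P with _ | ⟨x, y, hn⟩
  · rfl
  · rw [tm_some, act_some', act_some', tm_some]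
    refine pt_ext _ _ ?_ ?_
    · rw [map_mul, map_pow, map_pow, h]
      rfl
    · rw [map_mul, map_pow, map_pow, h]
      rfl

lemma act_lmW {A B : Type} [Field A] [Algebra k A] [Field B] [Algebra k B] (φ : A →ₐ[k] B) {J : A}
    (hJ : J ^ 2 + J + 1 = 0) {J' : B} (hJ' : J' ^ 2 + J' + 1 = 0) (h : φ J = J') (P : Pt (Em k) A) :
    act (Em k) φ (lmW hJ P) = lmW hJ' (act (Em k) φ P) := by
  rw [lmW_apply, lmW_apply, map_sub, act_imW φ hJ hJ' h]

end im

section psi
variable {k : Type} [Field k] [NumberField k] [Fact (∀ r : k, r ^ 2 ≠ -1 + 0 * r)]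

/-- the coordinates -/
lemma Psi_some {A A' : Type} [Field A] [Algebra k A] [Field A'] [CharZero A']
    [Algebra (Qi k) A'] (φ : A →+* A') (x y : A) (h : ((Em k).baseChange A).toAffine.Nonsingular x y) :
    ∃ (X Y : A') (h' : ((E1 (Qi k)).baseChange A').toAffine.Nonsingular X Y),
      Psi φ (Affine.Point.some x y h : Pt (Em k) A) = Affine.Point.some X Y h' ∧
      4 * X = φ x * uI k A' ^ 2 ∧ 8 * Y + 4 = φ y * uI k A' ^ 3 := by
  have h1 := Phi_psi φ (Affine.Point.some x y h : Pt (Em k) A)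
  rw [tm_some] at h1
  obtain ⟨Q, hQ⟩ : ∃ Q, Q = Psi φ (Affine.Point.some x y h : Pt (Em k) A) := ⟨_, rfl⟩
  rw [← hQ] at h1 ⊢
  rcases Q with _ | ⟨X, Y, h'⟩
  · exfalso
    have h2 : Phi (Qi k) A' (0 : Pt (E0 (Qi k)) A') = 0 := map_zero _
    have h3 := h2.symm.trans h1
    cases h3
  · refine ⟨X, Y, h', rfl, ?_⟩
    obtain ⟨h'', e⟩ := Phi_mkp (K := Qi k) (L := A') (x := X) (y := Y) h'
    have h3 := e.symm.trans h1
    exact pt_inj _ _ h3

lemma Psi_imW {A A' : Type} [Field A] [Algebra k A] [Field A'] [CharZero A']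
    [Algebra (Qi k) A'] (φ : A →+* A') {J : A} (hJ : J ^ 2 + J + 1 = 0) {J' : A'}
    (hJ' : J' ^ 2 + J' + 1 = 0) (h : φ J = J') (P : Pt (Em k) A) :
    Psi φ (imW hJ P) = imm hJ' (Psi φ P) := by
  rcases P with _ | ⟨x, y, hn⟩
  · have e1 : imW hJ (Affine.Point.zero : ((Em k).baseChange A).toAffine.Point) =
      (0 : Pt (Em k) A) := rfl
    have e2 : Psi φ (Affine.Point.zero : ((Em k).baseChange A).toAffine.Point) = 0 :=
      map_zero (Psi φ)
    rw [e1, e2, map_zero, map_zero]
  · unfold imW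
    rw [tm_some]
    obtain ⟨X, Y, h1, e1, e2, e3⟩ := Psi_some φ x y hn
    obtain ⟨X', Y', h1', e1', e2', e3'⟩ := Psi_some φ _ _
      ((Pool.Agent.TH841.NF.ns_iff (scW hJ) x y).2 hn)
    rw [e1, e1']
    have hJ3 : J ^ 3 = 1 := by linear_combination (J - 1) * hJ
    refine some_eq ?_ ?_
    · have h4 : (4 : A') ≠ 0 := by norm_num
      apply mul_left_cancel₀ h4
      rw [e2']
      have e5 : φ (RingHom.id A x * (J ^ 2) ^ 2) = φ x * J' := by
        have e6 : (J ^ 2) ^ 2 = J := by linear_combination J * hJ3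
        rw [e6, map_mul, h]
        rfl
      rw [e5]
      linear_combination (-J') * e2
    · have h8 : (8 : A') ≠ 0 := by norm_num
      apply mul_left_cancel₀ h8
      have e5 : φ (RingHom.id A y * (J ^ 2) ^ 3) = φ y := by
        have e6 : (J ^ 2) ^ 3 = (J ^ 3) ^ 2 := by ring
        rw [e6, hJ3, one_pow, mul_one]
        rfl
      rw [e5] at e3'
      linear_combination e3' - e3

lemma Psi_lmW {A A' : Type} [Field A] [Algebra k A] [Field A'] [CharZero A']
    [Algebra (Qi k) A'] (φ : A →+* A') {J : A} (hJ : J ^ 2 + J + 1 = 0) {J' : A'}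
    (hJ' : J' ^ 2 + J' + 1 = 0) (h : φ J = J') (P : Pt (Em k) A) :
    Psi φ (lmW hJ P) = lm hJ' (Psi φ P) := by
  rw [lmW_apply, lm_apply, map_sub, Psi_imW φ hJ hJ' h]

variable [CharZero (AlgebraicClosure (Qi k))]
  (e : AlgebraicClosure (Qi k) ≃+* AlgebraicClosure k)

lemma scJ : Pool.Agent.TH841.NF.Sc (e : AlgebraicClosure (Qi k) →+* AlgebraicClosure k)
    (e (uI k (AlgebraicClosure (Qi k))))⁻¹ ((W16 (Qi k)).baseChange (AlgebraicClosure (Qi k)))
      ((Em k).baseChange (AlgebraicClosure k)) := by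
  have hu : (e (uI k (AlgebraicClosure (Qi k)))) ^ 2 = -1 := by
    rw [← map_pow, uI_sq, map_neg, map_one]
  refine ⟨inv_ne_zero ((map_ne_zero e).2 (uI_ne _)), ?_, ?_, ?_, ?_, ?_⟩
  · show algebraMap k (AlgebraicClosure k) 0 = e (algebraMap (Qi k) (AlgebraicClosure (Qi k)) 0) * _
    simp
  · show algebraMap k (AlgebraicClosure k) 0 = e (algebraMap (Qi k) (AlgebraicClosure (Qi k)) 0) * _
    simp
  · show algebraMap k (AlgebraicClosure k) 0 = e (algebraMap (Qi k) (AlgebraicClosure (Qi k)) 0) * _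
    simp
  · show algebraMap k (AlgebraicClosure k) 0 = e (algebraMap (Qi k) (AlgebraicClosure (Qi k)) 0) * _
    simp
  · show algebraMap k (AlgebraicClosure k) (-16) =
      e (algebraMap (Qi k) (AlgebraicClosure (Qi k)) 16) * _
    have e1 : ((e (uI k (AlgebraicClosure (Qi k))))⁻¹) ^ 6 = -1 := by
      rw [inv_pow, show (6 : ℕ) = 2 * 3 by norm_num, pow_mul, hu]
      norm_num
    rw [e1]
    simp only [map_neg, map_ofNat]
    ring

lemma Ps_surj : Function.Surjective (Ps (k := k) e) := by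
  intro Q
  refine ⟨tm (scJ e) (Phi (Qi k) (AlgebraicClosure (Qi k)) Q), ?_⟩
  apply (Phi (Qi k) (AlgebraicClosure (Qi k))).injective
  have h1 := Phi_psi (k := k) (e.symm : AlgebraicClosure k →+* AlgebraicClosure (Qi k))
    (tm (scJ e) (Phi (Qi k) (AlgebraicClosure (Qi k)) Q))
  refine h1.trans ?_
  have S : Pool.Agent.TH841.NF.Sc (RingHom.id (AlgebraicClosure (Qi k))) 1
      ((W16 (Qi k)).baseChange (AlgebraicClosure (Qi k)))
      ((W16 (Qi k)).baseChange (AlgebraicClosure (Qi k))) := by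
    refine ⟨one_ne_zero, ?_, ?_, ?_, ?_, ?_⟩ <;> simp
  rw [tm_tm _ _ S (fun x => e.symm_apply_apply x) ?_, tm_id _ (fun x => rfl) rfl]
  show (1 : AlgebraicClosure (Qi k)) =
    e.symm ((e (uI k (AlgebraicClosure (Qi k))))⁻¹) * uI k (AlgebraicClosure (Qi k))
  rw [map_inv₀, e.symm_apply_apply, inv_mul_cancel₀ (uI_ne _)]

/-- the action on the kernel of `1 - ω` -/
lemma ker_act {J : AlgebraicClosure k} (hJ : J ^ 2 + J + 1 = 0) {P : Pt (Em k) (AlgebraicClosure k)}
    (hP : lmW hJ P = 0) {τ : Gal k} {s : AlgebraicClosure k} (hs : s = 1 ∨ s = -1)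
    (hτ : τ (e (uI k (AlgebraicClosure (Qi k)))) = s * e (uI k (AlgebraicClosure (Qi k)))) :
    (s = 1 → act (Em k) τ.toAlgHom P = P) ∧ (s = -1 → act (Em k) τ.toAlgHom P = -P) := by
  have hck : CharZero (AlgebraicClosure k) := charZero_of_injective_algebraMap
    (algebraMap k (AlgebraicClosure k)).injective
  have hJ' : (e.symm J) ^ 2 + e.symm J + 1 = 0 := by
    rw [← map_pow, ← map_add, ← map_one e.symm, ← map_add, hJ, map_zero]
  -- the points
  have key : ∀ Q : Pt (Em k) (AlgebraicClosure k), Ps e Q = TT (Qi k) (AlgebraicClosure (Qi k)) →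
      (s = 1 → act (Em k) τ.toAlgHom Q = Q) ∧ (s = -1 → act (Em k) τ.toAlgHom Q = -Q) := by
    intro Q hQ
    rcases Q with _ | ⟨x, y, hn⟩
    · exfalso
      have e2 : Ps e (Affine.Point.zero : ((Em k).baseChange (AlgebraicClosure k)).toAffine.Point) =
        0 := map_zero (Ps e)
      rw [e2] at hQ
      exact Pool.Agent.N883.SX.Ker.TT_ne0 hQ.symm
    · obtain ⟨X, Y, h1, e1, e2, e3⟩ := Psi_some (k := k)
        (e.symm : AlgebraicClosure k →+* AlgebraicClosure (Qi k)) x y hn
      have h2 := e1.symm.trans hQ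
      obtain ⟨hX, hY⟩ := of_some_eq h2
      rw [hX, mul_zero] at e2
      rw [hY, mul_zero, zero_add] at e3
      obtain ⟨U, hU⟩ : ∃ U, U = e (uI k (AlgebraicClosure (Qi k))) := ⟨_, rfl⟩
      have hU0 : U ≠ 0 := by rw [hU]; exact (map_ne_zero e).2 (uI_ne _)
      rw [← hU] at hτ
      have hx : x = 0 := by
        have h3 := (mul_eq_zero.1 e2.symm).resolve_right (pow_ne_zero 2 (uI_ne _))
        exact (map_eq_zero e.symm).1 h3
      have hy : y * U ^ 3 = 4 := by
        have h3 := congrArg e e3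
        rw [map_mul, map_pow, map_ofNat, ← hU] at h3
        rw [h3]
        congr 1
        exact (e.apply_symm_apply y).symm
      have hτy : τ y * (s * U) ^ 3 = 4 := by
        have h3 := congrArg τ hy
        rwa [map_mul, map_pow, hτ, map_ofNat] at h3
      have hU3 : U ^ 3 ≠ 0 := pow_ne_zero 3 hU0
      constructor
      · rintro rfl
        rw [act_some']
        refine pt_ext _ _ ?_ ?_
        · show τ x = x
          rw [hx, map_zero]
        · show τ y = y
          rw [one_mul] at hτy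
          exact mul_right_cancel₀ hU3 (hτy.trans hy.symm)
      · rintro rfl
        rw [act_some']
        have e4 : -(Affine.Point.some x y hn : ((Em k).baseChange (AlgebraicClosure k)).toAffine.Point) =
            Affine.Point.some x (((Em k).baseChange (AlgebraicClosure k)).toAffine.negY x y)
              ((Affine.nonsingular_neg _ _).mpr hn) := Affine.Point.neg_some hn
        have e5 : (-(Affine.Point.some x y hn : Pt (Em k) (AlgebraicClosure k)) :
            Pt (Em k) (AlgebraicClosure k)) = Affine.Point.some x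
              (((Em k).baseChange (AlgebraicClosure k)).toAffine.negY x y)
              ((Affine.nonsingular_neg _ _).mpr hn) := e4
        refine Eq.trans (b := (Affine.Point.some x
              (((Em k).baseChange (AlgebraicClosure k)).toAffine.negY x y)
              ((Affine.nonsingular_neg _ _).mpr hn) : Pt (Em k) (AlgebraicClosure k)))
              (pt_ext _ _ ?_ ?_) e5.symm
        · show τ x = x
          rw [hx, map_zero]
        · show τ y = -y - algebraMap k (AlgebraicClosure k) 0 * x - algebraMap k (AlgebraicClosure k) 0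
          rw [map_zero]
          have h6 : τ y * U ^ 3 = -y * U ^ 3 := by
            linear_combination -hτy + hy
          rw [mul_right_cancel₀ hU3 h6]
          ring
  have h1 : lm hJ' (Ps e P) = 0 := by
    rw [← Psi_lmW (k := k) (e.symm : AlgebraicClosure k →+* AlgebraicClosure (Qi k)) hJ hJ' rfl P, hP,
      map_zero]
  obtain ⟨c, hc⟩ : ∃ c, Ps e P = tor (Qi k) (AlgebraicClosure (Qi k)) c := ker_imm hJ' h1
  rcases z3 c with rfl | rfl | rfl
  · rw [tor_zero] at hc
    have hP0 : P = 0 := Psi_inj (k := k) (e.symm : AlgebraicClosure k →+* AlgebraicClosure (Qi k))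
      (hc.trans (map_zero _).symm)
    rw [hP0, map_zero, neg_zero]
    exact ⟨fun _ => rfl, fun _ => rfl⟩
  · rw [tor_one] at hc
    exact key P hc
  · rw [tor_neg_one] at hc
    obtain ⟨k1, k2⟩ := key (-P) (by rw [map_neg, hc, neg_neg])
    refine ⟨fun h => ?_, fun h => ?_⟩
    · have := k1 h
      rwa [map_neg, neg_inj] at this
    · have := k2 h
      rwa [map_neg, neg_inj] at this

end psi

end Pool.Agent.T9h31.Ab
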