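import Pool.Agent.T9h31.AbQv

/-!
# The local images at the places above three, absolute ramification index two
-/

set_option autoImplicit false
set_option linter.unusedSectionVars false

namespace Pool.Agent.T9h31.Ab

open NumberField IsDedekindDomain WithZero
open Pool.Agent.Y696 (und und_lies mem_under_of_lies)

section
variable {M : Type} [Field M] {v : Valuation M (WithZero (Multiplicative ℤ))}

lemma oo_neg_iff {n : ℤ} {x : M} : OO v n (-x) ↔ OO v n x := by
  unfold OO
  rw [Valuation.map_neg]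

lemma oo_mul_unit {n : ℤ} {x u : M} (hu : v u = 1) : OO v n (x * u) ↔ OO v n x := by
  unfold OO
  rw [map_mul, hu, mul_one]

/-- a prime element cannot be avoided: a product of small size has a small factor -/
lemma oo_split {m n : ℤ} {x y : M} (h : OO v (m + n - 1) (x * y)) : OO v m x ∨ OO v n y := by
  by_contra hcon
  push Not at hcon
  obtain ⟨h1, h2⟩ := hcon
  unfold OO at *
  rw [not_le] at h1 h2
  have hx : v x ≠ 0 := (lt_of_le_of_lt zero_le h1).ne'
  have hy : v y ≠ 0 := (lt_of_le_of_lt zero_le h2).ne'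
  rw [map_mul] at h
  obtain ⟨a, ha⟩ : ∃ a : ℤ, v x = exp a := ⟨_, (exp_log hx).symm⟩
  obtain ⟨b, hb⟩ : ∃ b : ℤ, v y = exp b := ⟨_, (exp_log hy).symm⟩
  rw [ha, exp_lt_exp] at h1
  rw [hb, exp_lt_exp] at h2
  rw [ha, hb, ← exp_add, exp_le_exp] at h
  omega

lemma oo_three_of_cube {x : M} (h : v x ^ 3 < 1) : OO v 3 (x ^ 3) :=
  ((oo_lt (v_pow_lt h)).pow 3).mono (by norm_num)

lemma v_of_sub_lt {x y : M} (hx : v x = 1) (h : v (y - x) < 1) : v y = 1 := by
  have e : y = x + (y - x) := by ring
  rw [e, ← hx]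
  apply Valuation.map_add_eq_of_lt_left
  rw [hx]
  exact h

/-- the points near zero -/
lemma lev2_small {X Y : M} (hY : Y ≠ 0) (he : Y ^ 2 + Y = X ^ 3) (h1 : v Y < 1) :
    ∃ c : M, c ≠ 0 ∧ OO v 2 (Y * c ^ 3 - 1) := by
  have hv1 : v (1 + Y) = 1 := Valuation.map_one_add_of_lt v h1
  have hY1 : (1 + Y) ≠ 0 := by
    intro h0
    rw [h0, map_zero] at hv1
    exact zero_ne_one hv1
  have hX : X ≠ 0 := by
    rintro rfl
    have : Y * (1 + Y) = 0 := by linear_combination he
    exact mul_ne_zero hY hY1 this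
  have hvX : v X ^ 3 = v Y := by
    rw [← map_pow, ← he, show Y ^ 2 + Y = Y * (1 + Y) by ring, map_mul, hv1, mul_one]
  have oY : OO v 3 Y := by
    have h2 := oo_three_of_cube (v := v) (x := X) (by rw [hvX]; exact h1)
    unfold OO at h2 ⊢
    rwa [map_pow, hvX] at h2
  refine ⟨X⁻¹, inv_ne_zero hX, ?_⟩
  have e : Y * (X⁻¹) ^ 3 - 1 = -Y * (1 + Y)⁻¹ := by
    field_simp
    linear_combination he
  rw [e]
  refine OO.mulr (oY.neg.mono (by norm_num)) ?_
  rw [oo_zero_iff, map_inv₀, hv1, inv_one]

lemma oo_inv2 {c Y : M} (hc : c ≠ 0) (hY : Y ≠ 0)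
    (h : OO v 2 (Y * c ^ 3 - 1)) : OO v 2 (Y⁻¹ * (c⁻¹) ^ 3 - 1) := oo_inv hc hY (by norm_num) h

/-- **the local image** -/
theorem lev2 (h3 : v 3 = exp (-2)) {θ : M} (hθ : θ ^ 2 = -3) {X Y : M} (hY : Y ≠ 0)
    (he : Y ^ 2 + Y = X ^ 3) :
    ∃ c : M, c ≠ 0 ∧ ∃ i : ℕ, OO v 2 (Y * c ^ 3 * ((-1 + θ) / 2) ^ i - 1) := by
  have vθ : v θ = exp (-1) := by
    apply pow2_exp
    rw [← map_pow, hθ, Valuation.map_neg, h3]
    norm_num
  have o3 : OO v 2 (3 : M) := by
    unfold OO
    rw [h3]
  have oθ : OO v 1 θ := by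
    unfold OO
    rw [vθ]
  have hM2 : v (2 : M) = 1 := by
    have e : (2 : M) = -(1 - 3) := by norm_num
    rw [e, Valuation.map_neg]
    exact Valuation.map_one_sub_of_lt v (o3.lt (by norm_num))
  have h20 : (2 : M) ≠ 0 := by
    intro h0
    rw [h0, map_zero] at hM2
    exact zero_ne_one hM2
  rcases lt_trichotomy (v Y) 1 with h1 | h1 | h1
  · obtain ⟨c, hc, h⟩ := lev2_small hY he h1
    exact ⟨c, hc, 0, by rwa [pow_zero, mul_one]⟩
  · by_cases h2 : v (Y + 1) < 1
    · -- near minus one
      refine ⟨-1, by norm_num, 0, ?_⟩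
      have hv : v X ^ 3 = v (Y + 1) := by
        rw [← map_pow, ← he, show Y ^ 2 + Y = Y * (Y + 1) by ring, map_mul, h1, one_mul]
      have h4 := oo_three_of_cube (v := v) (x := X) (by rw [hv]; exact h2)
      have h5 : OO v 3 (Y + 1) := by
        unfold OO at h4 ⊢
        rwa [map_pow, hv] at h4
      have e : Y * (-1) ^ 3 * ((-1 + θ) / 2) ^ 0 - 1 = -(Y + 1) := by ring
      rw [e]
      exact h5.neg.mono (by norm_num)
    · have hY1 : v (Y + 1) = 1 := by
        refine le_antisymm ?_ (not_lt.1 h2)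
        exact v.map_add_le h1.le (by rw [map_one])
      have hX1 : v X = 1 := by
        have h4 : v X ^ 3 = 1 := by
          rw [← map_pow, ← he, show Y ^ 2 + Y = Y * (Y + 1) by ring, map_mul, h1, hY1, one_mul]
        rcases lt_trichotomy (v X) 1 with h5 | h5 | h5
        · exact absurd h4 (pow_lt_one₀ zero_le h5 three_ne_zero).ne
        · exact h5
        · exact absurd h4 (one_lt_pow₀ h5 three_ne_zero).ne'
      have oX : OO v 0 X := by rw [oo_zero_iff, hX1]
      have oY : OO v 0 Y := by rw [oo_zero_iff, h1]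
      by_cases h6 : v (Y - 1) < 1
      · -- near one
        have oe : OO v 1 (Y - 1) := oo_lt h6
        have oeta : OO v 1 (X + 1) := by
          apply oo_lt
          apply v_pow_lt
          rw [← map_pow]
          have e : (X + 1) ^ 3 = (Y - 1) ^ 2 + 3 * (Y - 1 + 1 + X ^ 2 + X) := by
            linear_combination (-1 : M) * he
          rw [e]
          refine OO.lt (n := 1) ?_ le_rfl
          refine ((oe.pow 2).mono (by norm_num)).add ?_
          refine (OO.mulr o3 ?_).mono (by norm_num)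
          exact (((oe.mono (by norm_num)).add oo_one).add ((oX.pow 2).mono (by norm_num))).add oX
        have e1 : (Y - 1) ^ 2 + 3 = (X + 1) ^ 3 + (-3) * ((Y - 1) - (X + 1) + (X + 1) ^ 2) := by
          linear_combination he
        have o5 : OO v 3 ((Y - 1 - θ) * (Y - 1 + θ)) := by
          have e2 : (Y - 1 - θ) * (Y - 1 + θ) =
              (X + 1) ^ 3 + (-3) * ((Y - 1) - (X + 1) + (X + 1) ^ 2) := by
            rw [← e1]
            linear_combination -hθ
          rw [e2]
          refine ((oeta.pow 3).mono (by norm_num)).add ?_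
          have := o3.neg.mul ((oe.sub oeta).add ((oeta.pow 2).mono (by norm_num)))
          exact this.mono (by norm_num)
        have o6 := oo_split (m := 2) (n := 2) (h := o5)
        have ou : OO v 0 (1 + θ) := oo_one.add (oθ.mono (by norm_num))
        have h2i : v ((2 : M)⁻¹) = 1 := by rw [map_inv₀, hM2, inv_one]
        rcases o6 with o6 | o6
        · -- `Y = 1 + θ`, multiply with `ω = (-1 + θ)/2`
          refine ⟨1, one_ne_zero, 1, ?_⟩
          have e3 : Y * 1 ^ 3 * ((-1 + θ) / 2) ^ 1 - 1 =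
              ((Y - 1 - θ) * (-1 + θ) - 3 * 2) * (2 : M)⁻¹ := by
            field_simp
            linear_combination hθ
          rw [e3, oo_mul_unit h2i]
          refine OO.sub ?_ (OO.mulr o3 (oo_ofNat 2))
          exact OO.mulr o6 (oo_one.neg.add (oθ.mono (by norm_num)))
        · refine ⟨1, one_ne_zero, 2, ?_⟩
          have e3 : Y * 1 ^ 3 * ((-1 + θ) / 2) ^ 2 - 1 =
              ((Y - 1 + θ) * (-1 - θ) - 3 * 2) * (2 : M)⁻¹ := by
            field_simp
            linear_combination (Y + 2) * hθ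
          rw [e3, oo_mul_unit h2i]
          refine OO.sub ?_ (OO.mulr o3 (oo_ofNat 2))
          exact OO.mulr o6 (oo_one.neg.sub (oθ.mono (by norm_num)))
      · have hYm : v (Y - 1) = 1 := by
          refine le_antisymm ?_ (not_lt.1 h6)
          exact v.map_sub_le h1.le (by rw [map_one])
        -- `Z = 2Y + 1`
        obtain ⟨Z, hZ⟩ : ∃ Z, Z = 2 * Y + 1 := ⟨_, rfl⟩
        have hZv : v Z = 1 := by
          refine v_of_sub_lt (x := -(Y - 1)) (by rw [Valuation.map_neg, hYm]) ?_
          have e : Z - -(Y - 1) = 3 * Y := by rw [hZ]; ring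
          rw [e]
          exact OO.lt (n := 2) (OO.mulr o3 oY) (by norm_num)
        have oZ : OO v 0 Z := by rw [oo_zero_iff, hZv]
        have hZ0 : Z ≠ 0 := by
          intro h0
          rw [h0, map_zero] at hZv
          exact zero_ne_one hZv
        have hid : Z ^ 2 = (X + 1) ^ 3 + 3 * (X * (X ^ 2 - X - 1)) := by
          rw [hZ]
          linear_combination (4 : M) * he
        have o7 : OO v 2 (3 * (X * (X ^ 2 - X - 1))) :=
          OO.mulr o3 (OO.mulr oX ((((oX.pow 2).mono (by norm_num)).sub oX).sub oo_one))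
        have hXv : v ((X + 1) ^ 3) = 1 := by
          refine v_of_sub_lt (x := Z ^ 2) (by rw [map_pow, hZv, one_pow]) ?_
          have e : (X + 1) ^ 3 - Z ^ 2 = -(3 * (X * (X ^ 2 - X - 1))) := by rw [hid]; ring
          rw [e]
          exact o7.neg.lt (by norm_num)
        have hX1' : X + 1 ≠ 0 := by
          intro h0
          rw [h0, zero_pow three_ne_zero, map_zero] at hXv
          exact zero_ne_one hXv
        have hXv' : v (((X + 1) ^ 3)⁻¹) = 1 := by rw [map_inv₀, hXv, inv_one]
        obtain ⟨d, hd⟩ : ∃ d, d = Z / (X + 1) := ⟨_, rfl⟩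
        have hdv : v (d ^ 3) = 1 := by
          rw [hd, div_pow, map_div₀, map_pow, hZv, hXv, one_pow, div_one]
        have od3 : v d ^ 3 = 1 := by rw [← map_pow, hdv]
        have hdv1 : v d = 1 := by
          rcases lt_trichotomy (v d) 1 with h5 | h5 | h5
          · exact absurd od3 (pow_lt_one₀ zero_le h5 three_ne_zero).ne
          · exact h5
          · exact absurd od3 (one_lt_pow₀ h5 three_ne_zero).ne'
        have od : OO v 0 d := by rw [oo_zero_iff, hdv1]
        -- `Z = d³ (1 + ...)`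
        have o8 : OO v 2 (Z - d ^ 3) := by
          have e : Z - d ^ 3 = -(Z * (3 * (X * (X ^ 2 - X - 1)))) * ((X + 1) ^ 3)⁻¹ := by
            have e0 : d ^ 3 = Z * Z ^ 2 / (X + 1) ^ 3 := by
              rw [hd, div_pow]
              ring
            rw [e0, hid]
            field_simp
            ring
          rw [e, oo_mul_unit hXv']
          exact (OO.mull oZ o7).neg
        -- `Y = (1 - d)³` modulo the square
        have o9 : OO v 2 (Y - (1 - d) ^ 3) := by
          have e : Y - (1 - d) ^ 3 = 3 * Y - (Z - d ^ 3) + 3 * (d - d ^ 2) := by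
            rw [hZ]
            ring
          rw [e]
          exact ((OO.mulr o3 oY).sub o8).add
            (OO.mulr o3 (od.sub ((od.pow 2).mono (by norm_num))))
        have h10 : v ((1 - d) ^ 3) = 1 := by
          refine v_of_sub_lt (x := Y) h1 ?_
          have e : (1 - d) ^ 3 - Y = -(Y - (1 - d) ^ 3) := by ring
          rw [e]
          exact o9.neg.lt (by norm_num)
        have hd1 : 1 - d ≠ 0 := by
          intro h0
          rw [h0, zero_pow three_ne_zero, map_zero] at h10
          exact zero_ne_one h10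
        refine ⟨(1 - d)⁻¹, inv_ne_zero hd1, 0, ?_⟩
        have e : Y * ((1 - d)⁻¹) ^ 3 * ((-1 + θ) / 2) ^ 0 - 1 =
            (Y - (1 - d) ^ 3) * (((1 - d) ^ 3)⁻¹) := by
          rw [pow_zero, mul_one]
          field_simp
        rw [e, oo_mul_unit (by rw [map_inv₀, h10, inv_one])]
        exact o9
  · -- large
    have hY' : Y⁻¹ ≠ 0 := inv_ne_zero hY
    have hvY' : v (Y⁻¹) < 1 := by
      rw [map_inv₀]
      exact inv_lt_one_of_one_lt₀ h1
    have hX0 : X ≠ 0 := by
      rintro rfl
      have h5 : Y * (Y + 1) = 0 := by linear_combination he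
      rcases mul_eq_zero.1 h5 with h6 | h6
      · exact hY h6
      · have h7 : Y = -1 := by linear_combination h6
        rw [h7, Valuation.map_neg, map_one] at h1
        exact lt_irrefl _ h1
    obtain ⟨c, hc, h5⟩ : ∃ c : M, c ≠ 0 ∧ OO v 2 (Y * c ^ 3 - 1) := by
      refine ⟨X / Y, div_ne_zero hX0 hY, ?_⟩
      have e : Y * (X / Y) ^ 3 - 1 = Y⁻¹ := by
        field_simp
        linear_combination -he
      rw [e]
      have hv1 : v (1 + Y⁻¹) = 1 := Valuation.map_one_add_of_lt v hvY'
      have h6 : v (X / Y) ^ 3 = v (Y⁻¹) := by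
        have e1 : (X / Y) ^ 3 = Y⁻¹ * (1 + Y⁻¹) := by
          field_simp
          linear_combination -he
        rw [← map_pow, e1, map_mul, hv1, mul_one]
      have h7 := oo_three_of_cube (v := v) (x := X / Y) (by rw [h6]; exact hvY')
      unfold OO at h7 ⊢
      rw [map_pow, h6] at h7
      exact h7.trans (exp_le_exp.2 (by norm_num))
    exact ⟨c, hc, 0, by rwa [pow_zero, mul_one]⟩

end

end Pool.Agent.T9h31.Ab
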