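import Pool.Agent.T9h31.AbLev

/-!
# The units above three
-/

set_option autoImplicit false
set_option linter.unusedSectionVars false

namespace Pool.Agent.T9h31.Ab

open NumberField IsDedekindDomain WithZero
open Pool.Agent.Y696 (und und_lies mem_under_of_lies)

section
variable {M : Type} [Field M] {v : Valuation M (WithZero (Multiplicative ℤ))}

lemma one_pow_lev {θ : M} (oθ : OO v 1 θ) {x y : M} (oy : OO v 0 y) (h : OO v 2 (x - (1 + y * θ)))
    (n : ℕ) : OO v 2 (x ^ n - (1 + n * y * θ)) := by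
  induction n with
  | zero =>
    have e : x ^ 0 - (1 + ((0 : ℕ) : M) * y * θ) = 0 := by
      push_cast
      ring
    rw [e]
    unfold OO
    rw [map_zero]
    exact zero_le
  | succ n ih =>
    have oyt : OO v 1 (y * θ) := OO.mull oy oθ
    have ox : OO v 0 x := by
      have e : x = (x - (1 + y * θ)) + (1 + y * θ) := by ring
      rw [e]
      exact (h.mono (by norm_num)).add (oo_one.add (oyt.mono (by norm_num)))
    have e : x ^ (n + 1) - (1 + ((n + 1 : ℕ) : M) * y * θ) =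
        (x ^ n - (1 + n * y * θ)) * x + (x - (1 + y * θ)) * (1 + n * y * θ) +
          n * ((y * θ) * (y * θ)) := by
      push_cast
      ring
    rw [e]
    refine OO.add (OO.add (OO.mulr ih ox) (OO.mulr h ?_)) ?_
    · refine oo_one.add ?_
      rw [mul_assoc]
      exact OO.mull (oo_nat n) (oyt.mono (by norm_num))
    · exact OO.mull (oo_nat n) ((oyt.mul oyt).mono (by norm_num))

lemma cube_close {x y : M} (ox : OO v 0 x) (h3 : OO v 2 (3 : M)) (h : OO v 1 (y - x)) :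
    OO v 2 (y ^ 3 - x ^ 3) := by
  have e : y ^ 3 - x ^ 3 = 3 * (x ^ 2 * (y - x) + x * (y - x) ^ 2) + (y - x) ^ 3 := by ring
  rw [e]
  refine OO.add (OO.mulr h3 ?_) ((h.pow 3).mono (by norm_num))
  exact (OO.mull ((ox.pow 2).mono (by norm_num)) (h.mono (by norm_num))).add
    (OO.mull ox ((h.pow 2).mono (by norm_num)))

theorem eta_lev (h3 : v 3 = exp (-2)) {θ I : M} (hθ : θ ^ 2 = -3) (hI : I ^ 2 = -1) {m : ℕ}
    (hm : 1 ≤ m) (hq : ∀ x, v x ≤ 1 → v (x ^ 3 ^ m - x) < 1) {c : M} {i j : ℕ}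
    (h : OO v 2 ((2 + I * θ) ^ j * ((-1 + θ) / 2) ^ i * c ^ 3 - 1)) :
    v ((i : M) + j * I) < 1 := by
  have vθ : v θ = exp (-1) := by
    apply pow2_exp
    rw [← map_pow, hθ, Valuation.map_neg, h3]
    norm_num
  have o3 : OO v 2 (3 : M) := by
    unfold OO
    rw [h3]
  have oθ : OO v 1 θ := by
    unfold OO
    rw [vθ]
  have hM2 : v (2 : M) = 1 := by
    have e : (2 : M) = -(1 - 3) := by norm_num
    rw [e, Valuation.map_neg]
    exact Valuation.map_one_sub_of_lt v (o3.lt (by norm_num))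
  have h2i : v ((2 : M)⁻¹) = 1 := by rw [map_inv₀, hM2, inv_one]
  have h20 : (2 : M) ≠ 0 := by
    intro h0
    rw [h0, map_zero] at hM2
    exact zero_ne_one hM2
  have vI : v I = 1 := by
    have h1 : v I ^ 2 = 1 := by rw [← map_pow, hI, Valuation.map_neg, map_one]
    rcases lt_trichotomy (v I) 1 with h2 | h2 | h2
    · exact absurd h1 (pow_lt_one₀ zero_le h2 two_ne_zero).ne
    · exact h2
    · exact absurd h1 (one_lt_pow₀ h2 two_ne_zero).ne'
  have oI : OO v 0 I := by rw [oo_zero_iff, vI]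
  -- the two elements
  have ha : OO v 2 (-(2 + I * θ) - (1 + (-I) * θ)) := by
    have e : -(2 + I * θ) - (1 + (-I) * θ) = -3 := by ring
    rw [e]
    exact o3.neg
  have hb : OO v 2 ((-1 + θ) / 2 - (1 + (-1) * θ)) := by
    have e : (-1 + θ) / 2 - (1 + (-1) * θ) = 3 * (θ - 1) * (2 : M)⁻¹ := by
      field_simp
      ring
    rw [e, oo_mul_unit h2i]
    exact OO.mulr o3 ((oθ.mono (by norm_num)).sub oo_one)
  have haj := one_pow_lev oθ oI.neg ha j
  have hbi := one_pow_lev oθ (oo_one.neg) hb i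
  obtain ⟨P, hP⟩ : ∃ P, P = (-(2 + I * θ)) ^ j := ⟨_, rfl⟩
  obtain ⟨Q, hQ⟩ : ∃ Q, Q = ((-1 + θ) / 2) ^ i := ⟨_, rfl⟩
  obtain ⟨z, hz⟩ : ∃ z, z = (i : M) + j * I := ⟨_, rfl⟩
  rw [← hP] at haj
  rw [← hQ] at hbi h
  have oz : OO v 0 z := by
    rw [hz]
    exact (oo_nat i).add (OO.mull (oo_nat j) oI)
  have ozt : OO v 1 (z * θ) := OO.mull oz oθ
  have ojt : OO v 1 ((j : M) * (-I) * θ) := OO.mull (OO.mull (oo_nat j) oI.neg) oθ
  have oit : OO v 1 ((i : M) * (-1) * θ) := OO.mull (OO.mull (oo_nat i) oo_one.neg) oθ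
  have oP : OO v 0 P := by
    have e : P = (P - (1 + (j : M) * (-I) * θ)) + (1 + (j : M) * (-I) * θ) := by ring
    rw [e]
    exact (haj.mono (by norm_num)).add (oo_one.add (ojt.mono (by norm_num)))
  have oPQ : OO v 2 (P * Q - (1 - z * θ)) := by
    have e : P * Q - (1 - z * θ) = P * (Q - (1 + (i : M) * (-1) * θ)) +
        (P - (1 + (j : M) * (-I) * θ)) * (1 + (i : M) * (-1) * θ) +
        ((j : M) * (-I) * θ) * ((i : M) * (-1) * θ) := by
      rw [hz]
      ring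
    rw [e]
    refine OO.add (OO.add (OO.mull oP hbi) (OO.mulr haj ?_)) ((ojt.mul oit).mono (by norm_num))
    exact oo_one.add (oit.mono (by norm_num))
  -- the sign
  obtain ⟨s, hs, hs2⟩ : ∃ s : M, (2 + I * θ) ^ j = s * P ∧ (s = 1 ∨ s = -1) := by
    refine ⟨(-1) ^ j, ?_, neg_one_pow_eq_or M j⟩
    rw [hP, ← mul_pow]
    congr 1
    ring
  have vs : v s = 1 := by
    rcases hs2 with rfl | rfl
    · rw [map_one]
    · rw [Valuation.map_neg, map_one]
  have hs3 : s ^ 3 = s := by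
    rcases hs2 with rfl | rfl <;> norm_num
  obtain ⟨d, hd⟩ : ∃ d, d = s * c := ⟨_, rfl⟩
  have h4 : OO v 2 (P * Q * d ^ 3 - 1) := by
    have e : P * Q * d ^ 3 - 1 = (2 + I * θ) ^ j * Q * c ^ 3 - 1 := by
      rw [hs, hd, mul_pow, hs3]
      ring
    rw [e]
    exact h
  have vPQ : v (P * Q) = 1 := by
    refine v_of_sub_lt (x := 1) (by rw [map_one]) ?_
    have e : P * Q - 1 = (P * Q - (1 - z * θ)) - z * θ := by ring
    rw [e]
    exact OO.lt (n := 1) ((oPQ.mono (by norm_num)).sub ozt) le_rfl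
  have vd3 : v d ^ 3 = 1 := by
    have h5 : v (P * Q * d ^ 3) = 1 := v_of_sub_lt (x := 1) (by rw [map_one]) (h4.lt (by norm_num))
    rwa [map_mul, vPQ, one_mul, map_pow] at h5
  have vd : v d = 1 := by
    rcases lt_trichotomy (v d) 1 with h5 | h5 | h5
    · exact absurd vd3 (pow_lt_one₀ zero_le h5 three_ne_zero).ne
    · exact h5
    · exact absurd vd3 (one_lt_pow₀ h5 three_ne_zero).ne'
  have od : OO v 0 d := by rw [oo_zero_iff, vd]
  have od3 : OO v 0 (d ^ 3) := (od.pow 3).mono (by norm_num)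
  -- `d³ = 1 + z θ`
  have h6 : OO v 2 (d ^ 3 - (1 + z * θ)) := by
    have e : d ^ 3 - (1 + z * θ) = (P * Q * d ^ 3 - 1) * (1 + z * θ) -
        (P * Q - (1 - z * θ)) * (d ^ 3 * (1 + z * θ)) + d ^ 3 * ((z * θ) * (z * θ)) := by
      ring
    rw [e]
    have o1 : OO v 0 (1 + z * θ) := oo_one.add (ozt.mono (by norm_num))
    exact OO.add (OO.sub (OO.mulr h4 o1) (OO.mulr oPQ (OO.mulr od3 o1)))
      (OO.mull od3 ((ozt.mul ozt).mono (by norm_num)))
  -- the Frobenius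
  obtain ⟨k, rfl⟩ : ∃ k, m = k + 1 := ⟨m - 1, by omega⟩
  have h7 : OO v 2 ((d ^ 3 ^ (k + 1)) ^ 3 - d ^ 3) := cube_close od o3 (oo_lt (hq d vd.le))
  have h8 : OO v 2 ((d ^ 3 ^ (k + 1)) ^ 3 - 1) := by
    have e : (d ^ 3 ^ (k + 1)) ^ 3 = ((d ^ 3) ^ 3) ^ 3 ^ k := by
      rw [← pow_mul, ← pow_mul, ← pow_mul]
      congr 1
      ring
    rw [e]
    have h9 : OO v 2 ((d ^ 3) ^ 3 - (1 + 0 * θ)) := by
      have h10 := cube_close (x := 1) (y := d ^ 3) oo_one o3 (by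
        have e2 : d ^ 3 - 1 = (d ^ 3 - (1 + z * θ)) + z * θ := by ring
        rw [e2]
        exact (h6.mono (by norm_num)).add ozt)
      have e3 : (d ^ 3) ^ 3 - (1 + 0 * θ) = (d ^ 3) ^ 3 - 1 ^ 3 := by ring
      rw [e3]
      exact h10
    have h11 := one_pow_lev oθ (by rw [oo_zero_iff, map_zero]; exact zero_le) h9 (3 ^ k)
    rw [mul_zero, zero_mul, add_zero] at h11
    exact h11
  have h9 : OO v 2 (z * θ) := by
    have e : z * θ = ((d ^ 3 ^ (k + 1)) ^ 3 - 1) - ((d ^ 3 ^ (k + 1)) ^ 3 - d ^ 3) -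
        (d ^ 3 - (1 + z * θ)) := by ring
    rw [e]
    exact (h8.sub h7).sub h6
  rcases oo_split (m := 1) (n := 2) (v := v) (x := z) (y := θ) h9 with h10 | h10
  · rw [← hz]
    exact h10.lt le_rfl
  · exfalso
    unfold OO at h10
    rw [vθ] at h10
    exact absurd (exp_le_exp.1 h10) (by norm_num)

end

section
variable {k : Type} [Field k] [NumberField k]

/-- the Frobenius of the residue field of a place above three -/
lemma frob3 (v : HeightOneSpectrum (𝓞 k)) (hv : (3 : 𝓞 k) ∈ v.asIdeal) :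
    ∃ m : ℕ, 1 ≤ m ∧ ∀ x : k, v.valuation k x ≤ 1 → v.valuation k (x ^ 3 ^ m - x) < 1 := by
  have hmax : v.asIdeal.IsMaximal := v.isMaximal
  let _ : Field (𝓞 k ⧸ v.asIdeal) := Ideal.Quotient.field v.asIdeal
  have hfin : Finite (𝓞 k ⧸ v.asIdeal) := Ideal.finiteQuotientOfFreeOfNeBot v.asIdeal v.ne_bot
  have : Fintype (𝓞 k ⧸ v.asIdeal) := Fintype.ofFinite _
  have h3 : CharP (𝓞 k ⧸ v.asIdeal) 3 := by
    refine (CharP.charP_iff_prime_eq_zero Nat.prime_three).2 ?_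
    rw [Nat.cast_ofNat, ← map_ofNat (Ideal.Quotient.mk v.asIdeal), Ideal.Quotient.eq_zero_iff_mem]
    exact hv
  obtain ⟨m, -, hm⟩ := FiniteField.card (𝓞 k ⧸ v.asIdeal) 3
  refine ⟨m, m.pos, fun x hx => ?_⟩
  obtain ⟨r, hr⟩ := approx hx
  have h5 : (v.valuation k) (((r ^ 3 ^ (m : ℕ) - r : 𝓞 k)) : k) < 1 := by
    refine (v.valuation_lt_one_iff_mem (K := k) _).2 ?_
    rw [← Ideal.Quotient.eq_zero_iff_mem, map_sub, map_pow, ← hm, FiniteField.pow_card, sub_self]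
  have e1 : (((r ^ 3 ^ (m : ℕ) - r : 𝓞 k)) : k) = (r : k) ^ 3 ^ (m : ℕ) - r := by
    rw [RingOfIntegers.coe_eq_algebraMap, map_sub, map_pow]
  rw [e1] at h5
  have h6 : (v.valuation k) (x ^ 3 ^ (m : ℕ) - (r : k) ^ 3 ^ (m : ℕ)) < 1 := by
    obtain ⟨t, ht⟩ : (x - r) ∣ x ^ 3 ^ (m : ℕ) - (r : k) ^ 3 ^ (m : ℕ) := sub_dvd_pow_sub_pow _ _ _
    rw [← Commute.geom_sum₂_mul (Commute.all x (r : k)), map_mul, mul_comm]
    refine mul_lt_one_of_lt_of_le hr ?_
    refine Valuation.map_sum_le _ fun i _ => ?_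
    rw [map_mul, map_pow, map_pow]
    exact mul_le_one' (pow_le_one' hx _) (pow_le_one' (val_le v r) _)
  have e : x ^ 3 ^ (m : ℕ) - x = (x ^ 3 ^ (m : ℕ) - (r : k) ^ 3 ^ (m : ℕ)) +
      (((r : k) ^ 3 ^ (m : ℕ) - r) - (x - r)) := by ring
  rw [e]
  exact lt_of_le_of_lt (Valuation.map_add _ _ _) (max_lt h6
    (lt_of_le_of_lt (Valuation.map_sub _ _ _) (max_lt h5 hr)))

lemma three_dvd_of {v : HeightOneSpectrum (𝓞 k)} (hv : (3 : 𝓞 k) ∈ v.asIdeal) {n : ℕ}
    (h : v.valuation k (n : k) < 1) : 3 ∣ n := by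
  by_contra h3
  have hc : Nat.Coprime n 3 := ((Nat.Prime.coprime_iff_not_dvd Nat.prime_three).2 h3).symm
  have h1 := Nat.isCoprime_iff_coprime.2 hc
  obtain ⟨a, b, hab⟩ := h1
  have h2 : v.valuation k (3 : k) < 1 := by
    have := (v.valuation_lt_one_iff_mem (K := k) (3 : 𝓞 k)).2 hv
    exact this
  have h4 : v.valuation k (1 : k) < 1 := by
    have e : (1 : k) = (a : k) * n + b * 3 := by
      have := congrArg (Int.cast : ℤ → k) hab
      push_cast at this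
      exact this.symm
    rw [e]
    refine lt_of_le_of_lt (Valuation.map_add _ _ _) (max_lt ?_ ?_)
    · rw [map_mul, mul_comm]
      exact mul_lt_one_of_lt_of_le h (oo_zero_iff.1 (oo_int a))
    · rw [map_mul, mul_comm]
      exact mul_lt_one_of_lt_of_le h2 (oo_zero_iff.1 (oo_int b))
  rw [map_one] at h4
  exact lt_irrefl _ h4

variable [Fact (∀ r : k, r ^ 2 ≠ -1 + 0 * r)]

/-- the two exponents are divisible by three -/
theorem eta_exp {w : HeightOneSpectrum (𝓞 (Qi k))} (hw : (3 : 𝓞 (Qi k)) ∈ w.asIdeal)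
    (hns : Ns (und (F := k) w)) (h3 : w.valuation (Qi k) 3 = exp (-2)) {θ : k} (hθ : θ ^ 2 = -3)
    {c : Qi k} {i j : ℕ}
    (h : OO (w.valuation (Qi k)) 2 ((2 + qI k * algebraMap k (Qi k) θ) ^ j *
      ((-1 + algebraMap k (Qi k) θ) / 2) ^ i * c ^ 3 - 1)) : 3 ∣ i ∧ 3 ∣ j := by
  obtain ⟨m, hm, hq⟩ := frob3 w hw
  have h1 := eta_lev h3 (by rw [← map_pow, hθ, map_neg, map_ofNat]) qI_sq hm hq h
  have e : ((i : Qi k) + j * qI k) = ⟨(i : k), (j : k)⟩ := by
    rw [qi_form (⟨(i : k), (j : k)⟩ : Qi k), map_natCast, map_natCast]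
  have hv3 : (3 : 𝓞 k) ∈ (und (F := k) w).asIdeal := by
    rw [mem_under_of_lies (und_lies (F := k) w), map_ofNat]
    exact hw
  rw [e, w_val hns, max_lt_iff] at h1
  exact ⟨three_dvd_of hv3 h1.1, three_dvd_of hv3 h1.2⟩

end

end Pool.Agent.T9h31.Ab
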