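import Pool.Agent.T9h31.Sel2
import Pool.Agent.N883.SY.Top

/-!
# The characters of the Selmer group and the classes killed by three
-/

set_option autoImplicit false
set_option linter.unusedVariables false
set_option linter.unusedSectionVars false

open scoped Classical

namespace Pool.Agent.T9h31

open NumberField IsDedekindDomain WithZero
open Pool.Agent.N883.SX (E1 isE tor cc Kum Hm jF jF_inj wF kum_pow kumG cocG ptG infG henG cc_add)
open Pool.Agent.N883.SX.Ker (act_lm imm lm lm_apply act_imm act_tor tor_add tor_inj ker_imm imm_tor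
  tor_zero tor_one tor_neg_one z3 some_eq fixed)
open Pool.Agent.N883.SY (UU HasCl kvG kexG cc1)
open Pool.Agent.N883.SY.Upc (dd dd_sha root lm_coc lm_loc lm_lm)
open Pool.Agent.TH841.SH.D (Pt act Gal Coch IsCoc IsCob LocTriv cob coc_add coc_neg loc_add loc_neg)
open Pool.Agent.TH841.NF.D (IsShaCoc shaCoc Sha)
open Pool.Agent.Y715.T.Ell

section
variable {F : Type} [Field F] [NumberField F]

/-- the Kummer generators of the locally trivial characters -/
theorem ul_of {lm θ u : 𝓞 F} (hT : TD lm θ u) {W b : F} (hW : W ^ 2 + W + 1 = 0) (hb : b ≠ 0)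
    {h : Gal F → ZMod 3} (hk : Kum W b h) (hs : IsShaCoc (E1 F) (cc h)) : UL b := by
  refine ⟨⟨hb, fun v hv => kvG F W hW v hv b h hb hk (hs.2.1 v)⟩, fun v hv => ?_⟩
  have hb' : algebraMap F (v.adicCompletion F) b ≠ 0 := (map_ne_zero _).2 hb
  have hlw := hT.lw v hv
  obtain ⟨m, hm⟩ := Pool.Agent.N883.SY.Kv.loc W hW (v.adicCompletion F) b h hk (hs.2.1 v)
  obtain ⟨c, hc, ho⟩ : ∃ c : v.adicCompletion F, c ≠ 0 ∧
      OO (vf v) 4 (algebraMap F (v.adicCompletion F) b * c ^ 3 - 1) := by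
    rcases hm with hm | ⟨X, Y, hY, he, hm⟩
    · have hm0 : m ≠ 0 := by
        rintro rfl
        rw [zero_pow three_ne_zero] at hm
        exact hb' hm.symm
      refine ⟨m⁻¹, inv_ne_zero hm0, ?_⟩
      rw [← hm, ← mul_pow, mul_inv_cancel₀ hm0, one_pow, sub_self]
      unfold OO
      rw [map_zero]
      exact zero_le
    · have hm0 : m ≠ 0 := by
        rintro rfl
        rw [zero_pow three_ne_zero] at hm
        exact mul_ne_zero hb' hY hm.symm
      obtain ⟨c, hc, ho⟩ := lev4 hlw hY he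
      have h5 := oo_inv hc hY (by norm_num) ho
      refine ⟨m⁻¹ * c⁻¹, mul_ne_zero (inv_ne_zero hm0) (inv_ne_zero hc), ?_⟩
      have e : algebraMap F (v.adicCompletion F) b * (m⁻¹ * c⁻¹) ^ 3 = Y⁻¹ * (c⁻¹) ^ 3 := by
        rw [mul_pow, ← mul_assoc]
        congr 1
        rw [inv_pow, hm]
        field_simp
      rw [e]
      exact h5
  exact down v hc (by norm_num) ho

/-- the number of the characters -/
theorem hct2 {lm θ u : 𝓞 F} (hT : TD lm θ u) {W : F} (hW : W ^ 2 + W + 1 = 0) (N : ℕ)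
    (hN : HasCl (fun b : F => UL b) N) :
    {h : Gal F → ZMod 3 | Hm h ∧ IsShaCoc (E1 F) (cc h)}.Finite ∧
      {h : Gal F → ZMod 3 | Hm h ∧ IsShaCoc (E1 F) (cc h)}.ncard ≤ N := by
  obtain ⟨S, hS, hcl⟩ := hN
  have key : ∀ h : Gal F → ZMod 3, ∃ s : F, (Hm h ∧ IsShaCoc (E1 F) (cc h)) →
      s ∈ S ∧ ∃ c : F, c ≠ 0 ∧ Kum W (s * c ^ 3) h ∧ s * c ^ 3 ≠ 0 := by
    intro h
    by_cases hh : Hm h ∧ IsShaCoc (E1 F) (cc h)
    · obtain ⟨b, hb0, hb⟩ := kexG F W hW h hh.1
      have hU : UL b := ul_of hT hW hb0 hb hh.2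
      obtain ⟨s, hs, c, hc, e⟩ := hcl b hU
      exact ⟨s, fun _ => ⟨hs, c, hc, by rw [← e]; exact hb, by rw [← e]; exact hb0⟩⟩
    · exact ⟨0, fun h' => absurd h' hh⟩
  choose s hs using key
  have hinj : Set.InjOn s {h : Gal F → ZMod 3 | Hm h ∧ IsShaCoc (E1 F) (cc h)} := by
    intro h hh h' hh' e
    obtain ⟨-, c, hc, k1, n1⟩ := hs h hh
    obtain ⟨-, c', hc', k2, n2⟩ := hs h' hh'
    rw [← e] at k2 n2
    obtain ⟨m1, m2, m3, -⟩ := kumG F W hW
    obtain ⟨g, -, hg⟩ := m1 (c' / c) (div_ne_zero hc' hc)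
    have k3 := m2 _ _ _ _ k1 (kum_pow kumG hW hg 3)
    have e1 : s h * c ^ 3 * (c' / c) ^ 3 = s h * c' ^ 3 := by
      field_simp
    rw [e1] at k3
    have k4 := m3 _ _ _ n2 k3 k2
    funext σ
    have k5 := congrFun k4 σ
    have k6 : ((3 : ℕ) : ZMod 3) = 0 := rfl
    rw [← k5, k6, zero_mul, add_zero]
  have hmaps : Set.MapsTo s {h : Gal F → ZMod 3 | Hm h ∧ IsShaCoc (E1 F) (cc h)} (S : Set F) :=
    fun h hh => (hs h hh).1
  have hfin : {h : Gal F → ZMod 3 | Hm h ∧ IsShaCoc (E1 F) (cc h)}.Finite :=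
    Set.Finite.of_injOn hmaps hinj (Finset.finite_toSet S)
  refine ⟨hfin, ?_⟩
  refine (Set.ncard_le_ncard_of_injOn s hmaps hinj (Finset.finite_toSet S)).trans ?_
  rw [Set.ncard_coe_finset]
  exact hS

/-- the class of the third root of unity comes from a point -/
theorem cob_w {W : F} (hW : W ^ 2 + W + 1 = 0) {hω : Gal F → ZMod 3} (hk : Kum W W hω) :
    IsCob (E1 F) (cc hω) := by
  have hW0 : W ≠ 0 := by
    rintro rfl
    norm_num at hW
  have h1 : LocTriv (E1 F) F (cc hω) := ptG F W hW W hω hW0 hk F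
    ⟨-1, 1, 1, Or.inl (by norm_num), by
      show (-1 : F) ^ 3 = W ^ 2 * 1 ^ 3 + W * 1 ^ 3
      linear_combination -hW⟩
  obtain ⟨P, hP⟩ := h1 (AlgHom.id F (AlgebraicClosure F))
  refine ⟨P, fun σ => ?_⟩
  have h2 := hP σ σ (fun x => rfl)
  have h3 : act (E1 F) (AlgHom.id F (AlgebraicClosure F)) (cc hω σ) = cc hω σ := by
    rcases (cc hω σ) with _ | ⟨x, y, hxy⟩
    · exact map_zero _
    · rfl
  rw [h3] at h2
  exact h2

/-- multiples of the point of order three -/
lemma tor_mul {k L : Type} [Field k] [Field L] [Algebra k L] [CharZero L] (c a : ZMod 3) :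
    tor k L (c * a) = c.val • tor k L a := by
  rcases z3 c with rfl | rfl | rfl
  · rw [zero_mul, tor_zero, ZMod.val_zero, zero_smul]
  · rw [one_mul, ZMod.val_one, one_smul]
  · have h2 : (-1 : ZMod 3).val = 2 := rfl
    have e : (-1 : ZMod 3) * a = a + a := by
      revert a
      decide
    rw [e, tor_add, h2, two_smul]

/-- the characters whose classes are trivial in the cohomology of the curve -/
theorem ker_w (hfin : Finite (E1 F).toAffine.Point) {W : F} (hW : W ^ 2 + W + 1 = 0)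
    {hω : Gal F → ZMod 3} (hk : Kum W W hω) (hne : ∀ c : F, W ≠ c ^ 3) {h : Gal F → ZMod 3}
    (hc : IsCob (E1 F) (cc h)) : ∃ c : ZMod 3, ∀ σ, h σ = c * hω σ := by
  by_contra hcon
  push Not at hcon
  have : CharZero (AlgebraicClosure F) := charZero_of_injective_algebraMap
    (algebraMap F (AlgebraicClosure F)).injective
  have hfin' : Finite (Pt (E1 F) F) := hfin
  have hW0 : W ≠ 0 := by
    rintro rfl
    norm_num at hW
  have hI : (algebraMap F (AlgebraicClosure F) W) ^ 2 + algebraMap F (AlgebraicClosure F) W + 1 = 0 :=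
    root hW _
  obtain ⟨P1, hP1⟩ := hc
  obtain ⟨P2, hP2⟩ := cob_w hW hk
  obtain ⟨-, -, -, k4⟩ := kumG F W hW
  have key := Pool.Agent.N883.SY.Ker.abs (A := Pt (E1 F) (AlgebraicClosure F)) (B := Pt (E1 F) F)
    (Z := ZMod 3) (X := ZMod 3 × ZMod 3)
    (fun σ : Gal F => act (E1 F) σ.toAlgHom) (lm hI) (lm hW)
    (act (E1 F) (Algebra.ofId F (AlgebraicClosure F)))
    (WeierstrassCurve.Affine.Point.map_injective _)
    (fun σ P => (act_lm _ hI hI (σ.commutes W) P).symm)
    (fun b => act_lm _ hW hI rfl b)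
    fixed
    (fun σ b => by
      rcases b with _ | ⟨x, y, hn⟩
      · show act (E1 F) _ (act (E1 F) _ 0) = act (E1 F) _ 0
        simp only [map_zero]
      · exact some_eq (σ.commutes x) (σ.commutes y))
    (tor F (AlgebraicClosure F)) tor_add tor_inj
    (fun c => by rw [lm_apply, imm_tor, sub_self])
    (fun P hP => ker_imm hI hP)
    (fun σ c => act_tor _ c)
    (fun x σ => x.1 * h σ + x.2 * hω σ) (fun x y σ => by
      show (x.1 + y.1) * h σ + (x.2 + y.2) * hω σ = _
      ring) 1 (by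
      have hsub : {x : ZMod 3 × ZMod 3 | ∀ σ, x.1 * h σ + x.2 * hω σ = 0} ⊆ {0} := by
        intro x hx
        have hx1 : x.1 = 0 := by
          by_contra h0
          obtain ⟨σ, hσ⟩ := hcon (-(x.2) / x.1)
          apply hσ
          have h1 := hx σ
          rw [div_mul_eq_mul_div, eq_div_iff h0]
          linear_combination h1
        have hx2 : x.2 = 0 := by
          by_contra h0
          obtain ⟨c, hc⟩ := k4 W hω hW0 hk (fun σ => by
            have h1 := hx σ
            rw [hx1, zero_mul, zero_add] at h1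
            exact (mul_eq_zero.1 h1).resolve_left h0)
          exact hne c hc
        exact Prod.ext hx1 hx2
      refine (Set.ncard_le_ncard hsub (Set.finite_singleton _)).trans ?_
      rw [Set.ncard_singleton])
  have huniv : {x : ZMod 3 × ZMod 3 | ∃ P : Pt (E1 F) (AlgebraicClosure F), ∀ σ : Gal F,
      tor F (AlgebraicClosure F) (x.1 * h σ + x.2 * hω σ) = act (E1 F) σ.toAlgHom P - P} =
      Set.univ := by
    ext x
    refine ⟨fun _ => trivial, fun _ => ⟨x.1.val • P1 + x.2.val • P2, fun σ => ?_⟩⟩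
    have h1 : tor F (AlgebraicClosure F) (h σ) = act (E1 F) σ.toAlgHom P1 - P1 := hP1 σ
    have h2 : tor F (AlgebraicClosure F) (hω σ) = act (E1 F) σ.toAlgHom P2 - P2 := hP2 σ
    rw [tor_add, tor_mul, tor_mul, h1, h2, map_add, map_nsmul, map_nsmul, smul_sub, smul_sub]
    abel
  rw [huniv, Set.ncard_univ, Nat.card_prod, Nat.card_zmod] at key
  omega

end

end Pool.Agent.T9h31
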