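import Pool.Agent.T9h31.AbStm
import Pool.Agent.T9h31.AbAlg2
import Pool.Agent.T9h31.Chr
import Pool.Agent.Y696.Trs
import Pool.Agent.Y696.CTP.Shp

/-!
# The curve `y² = x³ - 16` over `k` and the curve `y² + y = x³` over `k(i)`
-/

set_option autoImplicit false
set_option linter.unusedSectionVars false
set_option linter.unusedVariables false

open scoped Classical

namespace Pool.Agent.T9h31.Ab

open NumberField IsDedekindDomain WithZero WeierstrassCurve
open Pool.Agent.TH841.NF (tm tm_act act_tm tm_tm tm_id tm_inj coc_fin coc_of_fin aut_of_two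
  act_some' act_zero' pt_ext tm_some)
open Pool.Agent.TH841.SH.D (Pt act Gal Coch IsCoc IsCob LocTriv cob)
open Pool.Agent.TH841.NF.D (Sha IsShaCoc shaCoc)
open Pool.Agent.N883.SX (E1 isE tor cc Kum Hm)
open Pool.Agent.Y696 (E0 W16 Phi Phi_mkp Phi_act)

section sc
variable {k : Type} [Field k] [NumberField k] [Fact (∀ r : k, r ^ 2 ≠ -1 + 0 * r)]

/-- the image of the square root of `-1` -/
noncomputable abbrev uI (k A' : Type) [Field k] [NumberField k] [Fact (∀ r : k, r ^ 2 ≠ -1 + 0 * r)]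
    [Field A'] [Algebra (Qi k) A'] : A' := algebraMap (Qi k) A' (qI k)

lemma uI_sq (A' : Type) [Field A'] [Algebra (Qi k) A'] : uI k A' ^ 2 = -1 := by
  unfold uI
  rw [← map_pow, qI_sq, map_neg, map_one]

lemma uI_ne (A' : Type) [Field A'] [Algebra (Qi k) A'] : uI k A' ≠ 0 := by
  intro h
  have := uI_sq (k := k) A'
  rw [h, zero_pow two_ne_zero] at this
  have h1 : (1 : A') = 0 := by linear_combination this
  exact one_ne_zero h1

lemma scI {A A' : Type} [Field A] [Algebra k A] [Field A'] [Algebra (Qi k) A'] (φ : A →+* A') :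
    Pool.Agent.TH841.NF.Sc φ (uI k A') ((Em k).baseChange A) ((W16 (Qi k)).baseChange A') := by
  refine ⟨uI_ne A', ?_, ?_, ?_, ?_, ?_⟩
  · show algebraMap (Qi k) A' 0 = φ (algebraMap k A 0) * _
    simp
  · show algebraMap (Qi k) A' 0 = φ (algebraMap k A 0) * _
    simp
  · show algebraMap (Qi k) A' 0 = φ (algebraMap k A 0) * _
    simp
  · show algebraMap (Qi k) A' 0 = φ (algebraMap k A 0) * _
    simp
  · show algebraMap (Qi k) A' 16 = φ (algebraMap k A (-16)) * uI k A' ^ 6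
    have h := uI_sq (k := k) A'
    have e : uI k A' ^ 6 = -1 := by
      rw [show (6 : ℕ) = 2 * 3 by norm_num, pow_mul, h]
      norm_num
    rw [e, map_ofNat, map_neg, map_neg, map_ofNat, map_ofNat]
    ring

/-- the map of the points -/
noncomputable def Psi {A A' : Type} [Field A] [Algebra k A] [Field A'] [CharZero A']
    [Algebra (Qi k) A'] (φ : A →+* A') : Pt (Em k) A →+ Pt (E1 (Qi k)) A' :=
  ((Phi (Qi k) A').symm.toAddMonoidHom : Pt (W16 (Qi k)) A' →+ Pt (E0 (Qi k)) A').comp (tm (scI φ))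

lemma Phi_psi {A A' : Type} [Field A] [Algebra k A] [Field A'] [CharZero A']
    [Algebra (Qi k) A'] (φ : A →+* A') (P : Pt (Em k) A) :
    Phi (Qi k) A' (Psi φ P) = tm (scI φ) P :=
  (Phi (Qi k) A').apply_symm_apply (tm (scI φ) P)

lemma Psi_inj {A A' : Type} [Field A] [Algebra k A] [Field A'] [CharZero A']
    [Algebra (Qi k) A'] (φ : A →+* A') : Function.Injective (Psi (k := k) φ) := by
  intro P Q h
  apply tm_inj (scI φ)
  rw [← Phi_psi, ← Phi_psi, h]

/-- the action before -/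
lemma Psi_act {A B A' : Type} [Field A] [Algebra k A] [Field B] [Algebra k B] [Field A']
    [CharZero A'] [Algebra (Qi k) A'] (α : A →ₐ[k] B) (φ : B →+* A') (ψ : A →+* A')
    (h : ∀ x, φ (α x) = ψ x) (P : Pt (Em k) A) : Psi φ (act (Em k) α P) = Psi ψ P := by
  apply (Phi (Qi k) A').injective
  have h1 := Phi_psi φ (act (Em k) α P)
  have h2 := Phi_psi ψ P
  exact h1.trans ((act_tm α (scI φ) (scI ψ) h P).trans h2.symm)

/-- the action after -/
lemma act_Psi {A A' B' : Type} [Field A] [Algebra k A] [Field A'] [CharZero A']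
    [Algebra (Qi k) A'] [Field B'] [CharZero B'] [Algebra (Qi k) B'] (φ : A →+* A')
    (β : A' →ₐ[Qi k] B') (ψ : A →+* B') (h : ∀ x, β (φ x) = ψ x) (P : Pt (Em k) A) :
    act (E1 (Qi k)) β (Psi φ P) = Psi ψ P := by
  apply (Phi (Qi k) B').injective
  have h1 : Phi (Qi k) B' (act (E0 (Qi k)) β (Psi φ P)) =
      act (W16 (Qi k)) β (Phi (Qi k) A' (Psi φ P)) := Phi_act β (Psi φ P)
  have h2 := Phi_psi φ P
  have h3 := Phi_psi ψ P
  refine h1.trans ?_
  rw [h2, h3]
  exact tm_act (scI φ) β (scI ψ) h (β.commutes _).symm P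

lemma Psi_congr {A A' : Type} [Field A] [Algebra k A] [Field A'] [CharZero A']
    [Algebra (Qi k) A'] {φ ψ : A →+* A'} (h : ∀ x, φ x = ψ x) (P : Pt (Em k) A) :
    Psi φ P = Psi ψ P := by
  rw [RingHom.ext h]

end sc

section rest
variable {k : Type} [Field k] [NumberField k] [Fact (∀ r : k, r ^ 2 ≠ -1 + 0 * r)]
  [CharZero (AlgebraicClosure (Qi k))]
  (e : AlgebraicClosure (Qi k) ≃+* AlgebraicClosure k)
  (he : ∀ x : k, e (algebraMap (Qi k) _ (algebraMap k (Qi k) x)) = algebraMap k _ x)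

open Pool.Agent.Y696.CTP (cK cK_apply exists_cK)

/-- the map over the algebraic closures -/
noncomputable abbrev Ps : Pt (Em k) (AlgebraicClosure k) →+ Pt (E1 (Qi k)) (AlgebraicClosure (Qi k)) :=
  Psi (e.symm : AlgebraicClosure k →+* AlgebraicClosure (Qi k))

/-- the restriction of a cochain -/
noncomputable def rsI (f : Coch (Em k)) : Coch (E1 (Qi k)) := fun σ => Ps e (f (cK e he σ))

lemma rsI_act (σ : Gal (Qi k)) (P : Pt (Em k) (AlgebraicClosure k)) :
    Ps e (act (Em k) (cK e he σ).toAlgHom P) = act (E1 (Qi k)) σ.toAlgHom (Ps e P) := by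
  have h1 := Psi_act (k := k) (cK e he σ).toAlgHom
    (e.symm : AlgebraicClosure k →+* AlgebraicClosure (Qi k))
    ((e.symm : AlgebraicClosure k →+* AlgebraicClosure (Qi k)).comp
      ((cK e he σ : AlgebraicClosure k ≃+* AlgebraicClosure k) :
        AlgebraicClosure k →+* AlgebraicClosure k)) (fun x => rfl) P
  refine h1.trans (act_Psi _ σ.toAlgHom _ (fun x => ?_) P).symm
  change σ (e.symm x) = e.symm (e (σ (e.symm x)))
  rw [RingEquiv.symm_apply_apply]

lemma rsI_coc {f : Coch (Em k)} (hf : IsCoc (Em k) f) : IsCoc (E1 (Qi k)) (rsI e he f) := by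
  obtain ⟨S, hS⟩ := coc_fin hf
  refine coc_of_fin ?_ (S.image e.symm) ?_
  · intro σ τ
    have h1 : cK e he (σ * τ) = cK e he σ * cK e he τ := by
      refine AlgEquiv.ext fun x => ?_
      change e ((σ * τ) (e.symm x)) = e (σ (e.symm (e (τ (e.symm x)))))
      rw [RingEquiv.symm_apply_apply]
      rfl
    unfold rsI
    rw [h1, hf.2, map_add, rsI_act]
  · intro σ hσ
    unfold rsI
    rw [hS, map_zero]
    intro x hx
    change e (σ (e.symm x)) = x
    rw [hσ _ (Finset.mem_image_of_mem _ hx), RingEquiv.apply_symm_apply]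

lemma rsI_loc {K : Type} [Field K] [Algebra k K] {Fv : Type} [Field Fv] [Algebra (Qi k) Fv]
    (θ : K →+* Fv) (hθ : ∀ x : k, θ (algebraMap k K x) = algebraMap (Qi k) Fv (algebraMap k (Qi k) x))
    {f : Coch (Em k)} (hf : LocTriv (Em k) K f) : LocTriv (E1 (Qi k)) Fv (rsI e he f) := by
  have hcF : CharZero (AlgebraicClosure Fv) := charZero_of_injective_algebraMap
    (algebraMap (Qi k) (AlgebraicClosure Fv)).injective
  intro ι
  let i1 : Algebra K (AlgebraicClosure Fv) :=
    ((algebraMap Fv (AlgebraicClosure Fv)).comp θ).toAlgebra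
  let θ' : AlgebraicClosure K →ₐ[K] AlgebraicClosure Fv := IsAlgClosed.lift
  have hθ' : ∀ y : K, θ' (algebraMap K _ y) = algebraMap Fv _ (θ y) := fun y => θ'.commutes y
  let ι₀ : AlgebraicClosure k →ₐ[k] AlgebraicClosure K := IsAlgClosed.lift
  obtain ⟨h₀, hh₀⟩ := aut_of_two
    ((θ' : AlgebraicClosure K →+* AlgebraicClosure Fv).comp
      (ι₀ : AlgebraicClosure k →+* AlgebraicClosure K))
    ((ι : AlgebraicClosure (Qi k) →+* AlgebraicClosure Fv).comp
      (e.symm : AlgebraicClosure k →+* AlgebraicClosure (Qi k))) (fun x => by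
        change θ' (ι₀ (algebraMap k _ x)) = ι (e.symm (algebraMap k _ x))
        rw [← he, e.symm_apply_apply, ι.commutes, he, ι₀.commutes,
          IsScalarTower.algebraMap_apply k K (AlgebraicClosure K), hθ', hθ,
          ← IsScalarTower.algebraMap_apply (Qi k) Fv (AlgebraicClosure Fv)])
  let ι₁ : AlgebraicClosure k →ₐ[k] AlgebraicClosure K := ι₀.comp h₀.toAlgHom
  have hι : ∀ x, ι (e.symm x) = θ' (ι₁ x) := hh₀
  obtain ⟨P₀, hP₀⟩ := hf ι₁
  refine ⟨Psi (θ' : AlgebraicClosure K →+* AlgebraicClosure Fv) P₀, fun τ σ hτ => ?_⟩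
  obtain ⟨τ₀, hτ₀⟩ := aut_of_two (θ' : AlgebraicClosure K →+* AlgebraicClosure Fv)
    (((τ : AlgebraicClosure Fv ≃+* AlgebraicClosure Fv) : AlgebraicClosure Fv →+*
      AlgebraicClosure Fv).comp (θ' : AlgebraicClosure K →+* AlgebraicClosure Fv)) (by
      intro y
      change θ' (algebraMap K _ y) = τ (θ' (algebraMap K _ y))
      rw [hθ', AlgEquiv.commutes])
  have hτ2 : ∀ x, τ (θ' x) = θ' (τ₀ x) := hτ₀
  have hcomp : ∀ x, τ₀ (ι₁ x) = ι₁ (cK e he σ x) := by
    intro x
    apply (θ' : AlgebraicClosure K →+* AlgebraicClosure Fv).injective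
    change θ' (τ₀ (ι₁ x)) = θ' (ι₁ (cK e he σ x))
    rw [← hτ2, ← hι, hτ, ← hι]
    change _ = ι (e.symm (e (σ (e.symm x))))
    rw [RingEquiv.symm_apply_apply]
  have h1 := hP₀ τ₀ (cK e he σ) hcomp
  have h2 : act (E1 (Qi k)) ι (rsI e he f σ) =
      Psi ((ι : AlgebraicClosure (Qi k) →+* AlgebraicClosure Fv).comp
        (e.symm : AlgebraicClosure k →+* AlgebraicClosure (Qi k))) (f (cK e he σ)) :=
    act_Psi _ ι _ (fun x => rfl) _
  have h3 : Psi (θ' : AlgebraicClosure K →+* AlgebraicClosure Fv)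
      (act (Em k) ι₁ (f (cK e he σ))) =
      Psi ((ι : AlgebraicClosure (Qi k) →+* AlgebraicClosure Fv).comp
        (e.symm : AlgebraicClosure k →+* AlgebraicClosure (Qi k))) (f (cK e he σ)) :=
    Psi_act ι₁ _ _ (fun x => (hι x).symm) _
  rw [h2, ← h3, h1, map_sub]
  congr 1
  have h4 : Psi (θ' : AlgebraicClosure K →+* AlgebraicClosure Fv)
      (act (Em k) (τ₀.toAlgHom.restrictScalars k) P₀) =
      Psi (((τ : AlgebraicClosure Fv ≃+* AlgebraicClosure Fv) : AlgebraicClosure Fv →+*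
        AlgebraicClosure Fv).comp (θ' : AlgebraicClosure K →+* AlgebraicClosure Fv)) P₀ :=
    Psi_act _ _ _ (fun x => (hτ2 x).symm) _
  have h5 : act (E1 (Qi k)) (τ.toAlgHom.restrictScalars (Qi k))
      (Psi (θ' : AlgebraicClosure K →+* AlgebraicClosure Fv) P₀) =
      Psi (((τ : AlgebraicClosure Fv ≃+* AlgebraicClosure Fv) : AlgebraicClosure Fv →+*
        AlgebraicClosure Fv).comp (θ' : AlgebraicClosure K →+* AlgebraicClosure Fv)) P₀ :=
    act_Psi _ _ _ (fun x => rfl) _
  rw [h4, h5]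

lemma rsI_add (f f' : Coch (Em k)) : rsI e he (f + f') = rsI e he f + rsI e he f' := by
  funext σ
  exact map_add _ _ _

lemma rsI_loc_v {f : Coch (Em k)}
    (hf : ∀ v : HeightOneSpectrum (𝓞 k), LocTriv (Em k) (v.adicCompletion k) f)
    (w : HeightOneSpectrum (𝓞 (Qi k))) : LocTriv (E1 (Qi k)) (w.adicCompletion (Qi k))
      (rsI e he f) :=
  rsI_loc e he (Pool.Agent.Y698.jx k w) (Pool.Agent.Y698.jx_coe k w) (hf _)

end rest

end Pool.Agent.T9h31.Ab
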