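import Mathlib

/-!
# The field obtained by adjoining a square root of `-1`
-/

set_option autoImplicit false
set_option linter.unusedSectionVars false

namespace Pool.Agent.T9h31.Ab

open NumberField IsDedekindDomain WithZero

/-- the algebra `k[i]` -/
abbrev Qi (k : Type) [Field k] : Type := QuadraticAlgebra k (-1) 0

section basic
variable {k : Type} [Field k]

lemma qi_fact (h : ∀ x : k, x ^ 2 ≠ -1) : Fact (∀ r : k, r ^ 2 ≠ -1 + 0 * r) :=
  ⟨fun r => by rw [zero_mul, add_zero]; exact h r⟩

/-- the square root of `-1` -/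
def qI (k : Type) [Field k] : Qi k := ⟨0, 1⟩

@[simp] lemma qI_re : (qI k).re = 0 := rfl
@[simp] lemma qI_im : (qI k).im = 1 := rfl

lemma qI_sq : qI k ^ 2 = -1 := by
  ext <;> simp [pow_two, QuadraticAlgebra.re_one, QuadraticAlgebra.im_one]

lemma qi_form (x : Qi k) : x = algebraMap k (Qi k) x.re + algebraMap k (Qi k) x.im * qI k := by
  ext <;> simp

lemma star_alg (x : k) : star (algebraMap k (Qi k) x) = algebraMap k (Qi k) x := by
  ext <;> simp

lemma star_qI : star (qI k) = -qI k := by
  ext <;> simp

lemma star_re (x : Qi k) : (star x).re = x.re := by simp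

lemma star_im (x : Qi k) : (star x).im = -x.im := by simp

variable {k' : Type} [Field k']

/-- functoriality -/
def qmap (φ : k →+* k') : Qi k →+* Qi k' where
  toFun x := ⟨φ x.re, φ x.im⟩
  map_one' := by ext <;> simp [QuadraticAlgebra.re_one, QuadraticAlgebra.im_one]
  map_zero' := by ext <;> simp
  map_add' x y := by ext <;> simp
  map_mul' x y := by ext <;> simp

@[simp] lemma qmap_re (φ : k →+* k') (x : Qi k) : (qmap φ x).re = φ x.re := rfl
@[simp] lemma qmap_im (φ : k →+* k') (x : Qi k) : (qmap φ x).im = φ x.im := rfl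

lemma qmap_star (φ : k →+* k') (x : Qi k) : qmap φ (star x) = star (qmap φ x) := by
  ext <;> simp

lemma qmap_alg (φ : k →+* k') (x : k) : qmap φ (algebraMap k (Qi k) x) = algebraMap k' (Qi k') (φ x) := by
  ext <;> simp

lemma qmap_qI (φ : k →+* k') : qmap φ (qI k) = qI k' := by
  ext <;> simp

end basic

section nf
variable {k : Type} [Field k] [NumberField k] [Fact (∀ r : k, r ^ 2 ≠ -1 + 0 * r)]

instance nf_qi : NumberField (Qi k) := by
  have hc : CharZero (Qi k) := charZero_of_injective_algebraMap (algebraMap k (Qi k)).injective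
  have : IsScalarTower ℚ k (Qi k) := IsScalarTower.of_algebraMap_eq' (Subsingleton.elim _ _)
  have : Module.Finite ℚ (Qi k) := Module.Finite.trans k (Qi k)
  exact { to_charZero := hc, to_finiteDimensional := this }

lemma finrank_qi : Module.finrank k (Qi k) = 2 := QuadraticAlgebra.finrank_eq_two _ _

end nf

end Pool.Agent.T9h31.Ab
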