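import Pool.Agent.T9h31.AbQi
import Pool.Agent.T9h31.Plc
import Pool.Agent.Y696.Bld

/-!
# Valuations of `k(i)` at the places where `-1` is not a square
-/

set_option autoImplicit false
set_option linter.unusedSectionVars false

namespace Pool.Agent.T9h31.Ab

open NumberField IsDedekindDomain WithZero
open Pool.Agent.Y696 (und und_lies mem_under_of_lies)

section
variable {k : Type} [Field k] [NumberField k]

/-- `-1` is not a square modulo `v` -/
def Ns (v : HeightOneSpectrum (𝓞 k)) : Prop := ∀ x : 𝓞 k, x ^ 2 + 1 ∉ v.asIdeal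

lemma ns_two {v : HeightOneSpectrum (𝓞 k)} (h : Ns v) : (2 : 𝓞 k) ∉ v.asIdeal := by
  have := h 1
  norm_num at this
  exact this

lemma approx {v : HeightOneSpectrum (𝓞 k)} {t : k} (ht : v.valuation k t ≤ 1) :
    ∃ x : 𝓞 k, v.valuation k (t - x) < 1 := by
  obtain ⟨r, hr⟩ := Pool.Agent.H723R3.exists_approx_int (R := 𝓞 k) (K := k) v
    (ξ := algebraMap k (v.adicCompletion k) t)
    ((Pool.Agent.H723R3.algebraMap_mem_iff v t).2 ht) 1
  rw [Units.val_one] at hr
  refine ⟨r, ?_⟩
  rw [← vf_emb, map_sub, Valuation.map_sub_swap]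
  exact hr

lemma ns_val {v : HeightOneSpectrum (𝓞 k)} (h : Ns v) {t : k} (ht : v.valuation k t ≤ 1) :
    v.valuation k (t ^ 2 + 1) = 1 := by
  obtain ⟨x, hx⟩ := approx ht
  have h1 : v.valuation k ((x ^ 2 + 1 : 𝓞 k) : k) = 1 := by
    refine le_antisymm (val_le v _) ?_
    by_contra h2
    rw [not_le] at h2
    exact h x ((v.valuation_lt_one_iff_mem (K := k) _).1 h2)
  have e : t ^ 2 + 1 = ((x ^ 2 + 1 : 𝓞 k) : k) + (t - x) * (t + x) := by
    have e1 : ((x ^ 2 + 1 : 𝓞 k) : k) = (x : k) ^ 2 + 1 := by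
      rw [RingOfIntegers.coe_eq_algebraMap, map_add, map_pow, map_one]
    rw [e1]
    ring
  rw [e, Valuation.map_add_eq_of_lt_left, h1]
  rw [h1, map_mul]
  refine mul_lt_one_of_lt_of_le hx ?_
  exact v.valuation k |>.map_add_le ht (val_le v x)

end

section
variable {k : Type} [Field k] [NumberField k] [Fact (∀ r : k, r ^ 2 ≠ -1 + 0 * r)]
  {w : HeightOneSpectrum (𝓞 (Qi k))}

lemma val_alg (w : HeightOneSpectrum (𝓞 (Qi k))) : ∃ e : ℕ, ∀ t : k,
    w.valuation (Qi k) (algebraMap k (Qi k) t) = (und (F := k) w).valuation k t ^ e := by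
  have hlo := und_lies (F := k) w
  exact ⟨_, fun t => (HeightOneSpectrum.valuation_liesOver (Qi k) (und (F := k) w) w t).symm⟩

lemma val_qI (w : HeightOneSpectrum (𝓞 (Qi k))) : w.valuation (Qi k) (qI k) = 1 := by
  have h1 : w.valuation (Qi k) (qI k) ^ 2 = 1 := by
    rw [← map_pow, qI_sq, Valuation.map_neg, map_one]
  rcases lt_trichotomy (w.valuation (Qi k) (qI k)) 1 with h2 | h2 | h2
  · exact absurd h1 (pow_lt_one₀ zero_le h2 two_ne_zero).ne
  · exact h2
  · exact absurd h1 (one_lt_pow₀ h2 two_ne_zero).ne'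

lemma w_unit (h : Ns (und (F := k) w)) {t : k}
    (ht : w.valuation (Qi k) (algebraMap k (Qi k) t) ≤ 1) :
    w.valuation (Qi k) (algebraMap k (Qi k) t + qI k) = 1 := by
  obtain ⟨e, he⟩ := val_alg w
  have ht' : (und (F := k) w).valuation k t ≤ 1 ∨ e = 0 := by
    by_contra hcon
    push Not at hcon
    have h1 := one_lt_pow₀ hcon.1 hcon.2
    rw [← he] at h1
    exact absurd ht (not_le.2 h1)
  have h0 : e ≠ 0 := by
    rintro rfl
    have h1 := he (2 : k)
    obtain ⟨p, hp, hp0⟩ := Submodule.exists_mem_ne_zero_of_ne_bot (und (F := k) w).ne_bot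
    have h2 := he (p : k)
    rw [pow_zero] at h2
    have h3 : w.valuation (Qi k) ((algebraMap (𝓞 k) (𝓞 (Qi k)) p : 𝓞 (Qi k)) : Qi k) < 1 := by
      rw [w.valuation_lt_one_iff_mem]
      exact (mem_under_of_lies (und_lies (F := k) w) p).1 hp
    have h4 : ((algebraMap (𝓞 k) (𝓞 (Qi k)) p : 𝓞 (Qi k)) : Qi k) = algebraMap k (Qi k) (p : k) := by
      show algebraMap (𝓞 (Qi k)) (Qi k) (algebraMap (𝓞 k) (𝓞 (Qi k)) p) =
        algebraMap k (Qi k) (algebraMap (𝓞 k) k p)
      rw [← IsScalarTower.algebraMap_apply, ← IsScalarTower.algebraMap_apply]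
    rw [h4, h2] at h3
    exact lt_irrefl _ h3
  have ht2 := ht'.resolve_right h0
  have h1 := ns_val h ht2
  have hle : ∀ s : Qi k, s = qI k ∨ s = -qI k →
      w.valuation (Qi k) (algebraMap k (Qi k) t + s) ≤ 1 := by
    intro s hs
    refine (w.valuation (Qi k)).map_add_le ht ?_
    rcases hs with rfl | rfl
    · exact (val_qI w).le
    · rw [Valuation.map_neg]
      exact (val_qI w).le
  refine le_antisymm (hle _ (Or.inl rfl)) ?_
  by_contra hlt
  rw [not_le] at hlt
  have h2 : w.valuation (Qi k) (algebraMap k (Qi k) (t ^ 2 + 1)) < 1 := by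
    have e1 : algebraMap k (Qi k) (t ^ 2 + 1) = (algebraMap k (Qi k) t + qI k) *
        (algebraMap k (Qi k) t + -qI k) := by
      rw [map_add, map_pow, map_one]
      linear_combination (qI_sq (k := k))
    rw [e1, map_mul]
    exact mul_lt_one_of_lt_of_le hlt (hle _ (Or.inr rfl))
  rw [he, h1, one_pow] at h2
  exact lt_irrefl _ h2

lemma w_max (h : Ns (und (F := k) w)) (x : Qi k) : w.valuation (Qi k) x =
    max (w.valuation (Qi k) (algebraMap k (Qi k) x.re)) (w.valuation (Qi k) (algebraMap k (Qi k) x.im)) := by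
  obtain ⟨a, b, rfl⟩ : ∃ a b : k, x = ⟨a, b⟩ := ⟨x.re, x.im, rfl⟩
  have hx : (⟨a, b⟩ : Qi k) = algebraMap k (Qi k) a + algebraMap k (Qi k) b * qI k := qi_form _
  show w.valuation (Qi k) (⟨a, b⟩ : Qi k) = max (w.valuation (Qi k) (algebraMap k (Qi k) a))
    (w.valuation (Qi k) (algebraMap k (Qi k) b))
  rw [hx]
  rcases lt_or_ge (w.valuation (Qi k) (algebraMap k (Qi k) b))
    (w.valuation (Qi k) (algebraMap k (Qi k) a)) with h1 | h1
  · rw [max_eq_left h1.le]
    apply Valuation.map_add_eq_of_lt_left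
    rw [map_mul, val_qI, mul_one]
    exact h1
  · rw [max_eq_right h1]
    by_cases hb : b = 0
    · subst hb
      rw [map_zero, map_zero] at h1
      have := le_antisymm h1 zero_le
      rw [map_zero, zero_mul, add_zero, this, map_zero]
    · have hb' : algebraMap k (Qi k) b ≠ 0 := (map_ne_zero _).2 hb
      have e1 : algebraMap k (Qi k) a + algebraMap k (Qi k) b * qI k =
          algebraMap k (Qi k) b * (algebraMap k (Qi k) (a / b) + qI k) := by
        rw [map_div₀]
        field_simp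
      rw [e1, map_mul, w_unit h, mul_one]
      rw [map_div₀, map_div₀]
      exact div_le_one_of_le₀ h1 zero_le

/-- the valuation is not ramified -/
theorem w_e (h : Ns (und (F := k) w)) (t : k) :
    w.valuation (Qi k) (algebraMap k (Qi k) t) = (und (F := k) w).valuation k t := by
  obtain ⟨e, he⟩ := val_alg w
  obtain ⟨x, hx⟩ := w.valuation_surjective (Qi k) (exp (-1 : ℤ))
  have h1 := w_max h x
  rw [hx] at h1
  obtain ⟨s, hs⟩ : ∃ s : k, exp (-1 : ℤ) = (und (F := k) w).valuation k s ^ e := by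
    rcases max_choice (w.valuation (Qi k) (algebraMap k (Qi k) x.re))
      (w.valuation (Qi k) (algebraMap k (Qi k) x.im)) with h2 | h2
    · exact ⟨x.re, by rw [← he, ← h2, h1]⟩
    · exact ⟨x.im, by rw [← he, ← h2, h1]⟩
  have hs0 : (und (F := k) w).valuation k s ≠ 0 := by
    intro h0
    rcases e with _ | e
    · rw [pow_zero] at hs
      have : (exp (-1 : ℤ)) < 1 := by
        rw [← exp_zero, exp_lt_exp]
        norm_num
      rw [hs] at this
      exact lt_irrefl _ this
    · rw [h0, zero_pow (Nat.succ_ne_zero e)] at hs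
      exact exp_ne_zero hs
  obtain ⟨m, hm⟩ : ∃ m : ℤ, (und (F := k) w).valuation k s = exp m := ⟨_, (exp_log hs0).symm⟩
  rw [hm, ← exp_nsmul] at hs
  have h3 := exp_injective hs
  rw [nsmul_eq_mul] at h3
  have h4 : (e : ℤ) ∣ 1 := ⟨-m, by linarith⟩
  have h5 : e = 1 := by
    have := Int.eq_one_of_dvd_one (by positivity) h4
    exact_mod_cast this
  rw [he, h5, pow_one]

theorem w_val (h : Ns (und (F := k) w)) (x : Qi k) : w.valuation (Qi k) x =
    max ((und (F := k) w).valuation k x.re) ((und (F := k) w).valuation k x.im) := by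
  rw [w_max h, w_e h, w_e h]

theorem w_star (h : Ns (und (F := k) w)) (x : Qi k) :
    w.valuation (Qi k) (star x) = w.valuation (Qi k) x := by
  rw [w_val h, w_val h, star_re, star_im, Valuation.map_neg]

end

end Pool.Agent.T9h31.Ab
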