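import Pool.Agent.T9h31.AbKer

/-!
# The Selmer group of `1 - ω` is trivial
-/

set_option autoImplicit false
set_option linter.unusedSectionVars false
set_option linter.unusedVariables false

open scoped Classical

namespace Pool.Agent.T9h31.Ab

open NumberField IsDedekindDomain WithZero WeierstrassCurve
open Pool.Agent.TH841.NF (tm tm_act act_tm tm_tm tm_id tm_inj coc_fin coc_of_fin aut_of_two
  act_some' act_zero' pt_ext tm_some tm_zero pt_inj)
open Pool.Agent.TH841.SH.D (Pt act Gal Coch IsCoc IsCob LocTriv cob)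
open Pool.Agent.TH841.NF.D (Sha IsShaCoc shaCoc)
open Pool.Agent.N883.SX (E1 isE tor cc Kum Hm kumG)
open Pool.Agent.N883.SY (kvG kexG)
open Pool.Agent.Y696 (E0 W16 Phi Phi_mkp Phi_act)
open Pool.Agent.N883.SX.Ker (act_lm imm lm lm_apply act_imm act_tor tor_add tor_inj ker_imm imm_tor
  tor_zero tor_one tor_neg_one z3 some_eq of_some_eq TT)
open Pool.Agent.Y696.CTP (cK cK_apply exists_cK exists_eFk)
open Pool.Agent.N883.SY.Upc (lm_lm)

section kum
variable {L : Type} [Field L] [NumberField L]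

lemma w_pow_inj {M : Type} [Field M] [CharZero M] {W : M} (hW : W ^ 2 + W + 1 = 0) (a b : ZMod 3)
    (h : W ^ a.val = W ^ b.val) : a = b := by
  have hW3 : W ^ 3 = 1 := by linear_combination (W - 1) * hW
  have h1 : W ≠ 1 := by
    rintro rfl
    norm_num at hW
  have h2 : W ^ 2 ≠ 1 := by
    intro h2
    apply h1
    calc W = W ^ 3 := by rw [pow_succ, h2, one_mul]
      _ = 1 := hW3
  have h3 : W ^ 2 ≠ W := by
    intro h3
    rw [h3] at hW
    have h4 : W = 0 ∨ W = 1 := by
      have h5 : W * (W - 1) = 0 := by linear_combination h3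
      rcases mul_eq_zero.1 h5 with h6 | h6
      · exact Or.inl h6
      · exact Or.inr (sub_eq_zero.1 h6)
    rcases h4 with h4 | h4
    · rw [h4] at hW
      norm_num at hW
    · exact h1 h4
  have v0 : (0 : ZMod 3).val = 0 := rfl
  have v1 : (1 : ZMod 3).val = 1 := rfl
  have v2 : (-1 : ZMod 3).val = 2 := rfl
  rcases z3 a with rfl | rfl | rfl <;> rcases z3 b with rfl | rfl | rfl <;>
    simp only [v0, v1, v2, pow_zero, pow_one] at h
  · rfl
  · exact absurd h.symm h1
  · exact absurd h.symm h2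
  · exact absurd h h1
  · rfl
  · exact absurd h.symm h3
  · exact absurd h h2
  · exact absurd h h3
  · rfl

end kum

section main
variable {F k : Type} [Field F] [NumberField F] [IsCyclotomicExtension {3} ℚ F] [Field k]
  [NumberField k] [Algebra F k] [IsGalois F k] [Fact (∀ r : k, r ^ 2 ≠ -1 + 0 * r)]

lemma omk {θ : k} (hθ : θ ^ 2 = -3) : ((-1 + θ) / 2) ^ 2 + (-1 + θ) / 2 + 1 = 0 := by
  field_simp
  linear_combination hθ

lemma alg_om (θ : k) : algebraMap k (Qi k) ((-1 + θ) / 2) = (-1 + algebraMap k (Qi k) θ) / 2 := by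
  rw [map_div₀, map_add, map_neg, map_one, map_ofNat]

/-- the local conditions -/
theorem sc_of {n : ℕ} (hn : Module.finrank F k = 3 ^ n) (hun : Un F k) {θ : k} (hθ : θ ^ 2 = -3)
    {b : Qi k} (hb : b ≠ 0) {h : Gal (Qi k) → ZMod 3}
    (hk : Kum (algebraMap k (Qi k) ((-1 + θ) / 2)) b h)
    (hs : ∀ w : HeightOneSpectrum (𝓞 (Qi k)), LocTriv (E1 (Qi k)) (w.adicCompletion (Qi k)) (cc h))
    (hm : ∃ c, b * star b = c ^ 3) : SC θ b := by
  have hW : (algebraMap k (Qi k) ((-1 + θ) / 2)) ^ 2 + algebraMap k (Qi k) ((-1 + θ) / 2) + 1 = 0 := by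
    rw [← map_pow, ← map_add, ← map_one (algebraMap k (Qi k)), ← map_add, omk hθ, map_zero]
  refine ⟨hb, hm, fun w hw => ?_, fun w hw => ?_⟩
  · obtain ⟨z, hz, e⟩ := kvG (Qi k) _ hW w hw b h hb hk (hs w)
    obtain ⟨m, hm⟩ : ∃ m : ℤ, w.valuation (Qi k) z = exp m :=
      ⟨_, (exp_log ((Valuation.ne_zero_iff _).2 hz)).symm⟩
    refine ⟨m, ?_⟩
    rw [e, hm, ← exp_nsmul, nsmul_eq_mul]
    norm_num
  · have hb' : algebraMap (Qi k) (w.adicCompletion (Qi k)) b ≠ 0 := (map_ne_zero _).2 hb
    have h3v : (3 : 𝓞 k) ∈ (Pool.Agent.Y696.und (F := k) w).asIdeal := three_und.2 hw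
    have hns := ns3_k (F := F) hn h3v
    have hw3 : w.valuation (Qi k) 3 = exp (-2) := by
      have := w_e hns (3 : k)
      rw [map_ofNat, val3_k hun h3v] at this
      exact this
    have hv3 : vf w (3 : w.adicCompletion (Qi k)) = exp (-2) := by
      have := vf_emb w (3 : Qi k)
      rw [map_ofNat, hw3] at this
      exact this
    obtain ⟨t, ht⟩ : ∃ t, t = algebraMap (Qi k) (w.adicCompletion (Qi k)) (algebraMap k (Qi k) θ) :=
      ⟨_, rfl⟩
    have ht2 : t ^ 2 = -3 := by
      rw [ht, ← map_pow, ← map_pow, hθ, map_neg, map_ofNat, map_neg, map_ofNat]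
    obtain ⟨m, hm⟩ := Pool.Agent.N883.SY.Kv.loc _ hW (w.adicCompletion (Qi k)) b h hk (hs w)
    obtain ⟨c, hc, i, ho⟩ : ∃ c : w.adicCompletion (Qi k), c ≠ 0 ∧ ∃ i : ℕ,
        OO (vf w) 2 (algebraMap (Qi k) (w.adicCompletion (Qi k)) b * c ^ 3 * ((-1 + t) / 2) ^ i - 1) := by
      rcases hm with hm | ⟨X, Y, hY, he, hm⟩
      · have hm0 : m ≠ 0 := by
          rintro rfl
          rw [zero_pow three_ne_zero] at hm
          exact hb' hm.symm
        refine ⟨m⁻¹, inv_ne_zero hm0, 0, ?_⟩
        rw [← hm, ← mul_pow, mul_inv_cancel₀ hm0, one_pow, pow_zero, one_mul, sub_self]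
        unfold OO
        rw [map_zero]
        exact zero_le
      · have hm0 : m ≠ 0 := by
          rintro rfl
          rw [zero_pow three_ne_zero] at hm
          exact mul_ne_zero hb' hY hm.symm
        obtain ⟨c, hc, i, ho⟩ := lev2 hv3 ht2 hY he
        -- invert
        obtain ⟨W, hWd⟩ : ∃ W, W = (-1 + t) / 2 := ⟨_, rfl⟩
        have h20 : (2 : w.adicCompletion (Qi k)) ≠ 0 := by
          intro h0
          have := vf_emb w (2 : Qi k)
          rw [map_ofNat, h0, map_zero] at this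
          exact two_ne_zero ((Valuation.zero_iff _).1 this.symm)
        have hW3 : W ^ 3 = 1 := by
          rw [hWd]
          field_simp
          linear_combination (t - 3) * ht2
        have hW0 : W ≠ 0 := by
          intro h0
          rw [h0, zero_pow three_ne_zero] at hW3
          exact zero_ne_one hW3
        rw [← hWd] at ho ⊢
        refine ⟨m⁻¹ * c⁻¹, mul_ne_zero (inv_ne_zero hm0) (inv_ne_zero hc), 2 * i, ?_⟩
        obtain ⟨A, hA⟩ : ∃ A, A = Y * c ^ 3 * W ^ i := ⟨_, rfl⟩
        rw [← hA] at ho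
        have hvA : vf w A = 1 := v_of_sub_lt (x := 1) (by rw [map_one]) (ho.lt (by norm_num))
        have hA0 : A ≠ 0 := by
          intro h0
          rw [h0, map_zero] at hvA
          exact zero_ne_one hvA
        have e1 : W ^ i * W ^ (2 * i) = 1 := by
          rw [← pow_add, show i + 2 * i = 3 * i by ring, pow_mul, hW3, one_pow]
        have e : algebraMap (Qi k) (w.adicCompletion (Qi k)) b * (m⁻¹ * c⁻¹) ^ 3 * W ^ (2 * i) =
            A⁻¹ := by
          have hWi : W ^ i ≠ 0 := pow_ne_zero i hW0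
          have e2 : W ^ (2 * i) = (W ^ i)⁻¹ := eq_inv_of_mul_eq_one_right e1
          rw [e2, hA, mul_pow, inv_pow, inv_pow, hm]
          field_simp
        rw [e]
        have e3 : A⁻¹ - 1 = -(A - 1) * A⁻¹ := by
          field_simp
          ring
        rw [e3, oo_mul_unit (by rw [map_inv₀, hvA, inv_one])]
        exact ho.neg
    -- down to the field
    have h20 : (2 : w.adicCompletion (Qi k)) ≠ 0 := by
      intro h0
      have := vf_emb w (2 : Qi k)
      rw [map_ofNat, h0, map_zero] at this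
      exact two_ne_zero ((Valuation.zero_iff _).1 this.symm)
    have e4 : algebraMap (Qi k) (w.adicCompletion (Qi k)) b * c ^ 3 * ((-1 + t) / 2) ^ i - 1 =
        algebraMap (Qi k) (w.adicCompletion (Qi k))
          (b * ((-1 + algebraMap k (Qi k) θ) / 2) ^ i) * c ^ 3 - 1 := by
      rw [map_mul, map_pow, map_div₀, map_add, map_neg, map_one, map_ofNat, ← ht]
      ring
    rw [e4] at ho
    obtain ⟨c', hc', ho'⟩ := down w hc (by norm_num) ho
    refine ⟨c', hc', i, ?_⟩
    have e5 : b * c' ^ 3 * ((-1 + algebraMap k (Qi k) θ) / 2) ^ i - 1 =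
        b * ((-1 + algebraMap k (Qi k) θ) / 2) ^ i * c' ^ 3 - 1 := by ring
    rw [e5]
    exact ho'

/-- **the locally trivial cocycles with values in the kernel of `1 - ω`** -/
theorem ker_cob {n : ℕ} (hn : Module.finrank F k = 3 ^ n) (hun : Un F k) {θ₀ : F}
    (hθ₀ : θ₀ ^ 2 = -3) {J : AlgebraicClosure k}
    (hJe : J = algebraMap k _ ((-1 + algebraMap F k θ₀) / 2)) (hJ : J ^ 2 + J + 1 = 0)
    {g : Coch (Em k)} (hg : IsCoc (Em k) g) (hker : ∀ σ, lmW hJ (g σ) = 0)
    (hloc : ∀ v : HeightOneSpectrum (𝓞 k), LocTriv (Em k) (v.adicCompletion k) g) :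
    ∃ R, lmW hJ R = 0 ∧ ∀ σ : Gal k, g σ = act (Em k) σ.toAlgHom R - R := by
  have hcL : CharZero (AlgebraicClosure (Qi k)) := charZero_of_injective_algebraMap
    (algebraMap (Qi k) (AlgebraicClosure (Qi k))).injective
  have hck : CharZero (AlgebraicClosure k) := charZero_of_injective_algebraMap
    (algebraMap k (AlgebraicClosure k)).injective
  obtain ⟨e, he⟩ := exists_eFk (k := k) (F := Qi k) finrank_qi
  obtain ⟨θ, hθd⟩ : ∃ θ, θ = algebraMap F k θ₀ := ⟨_, rfl⟩
  have hθ : θ ^ 2 = -3 := by rw [hθd, ← map_pow, hθ₀, map_neg, map_ofNat]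
  rw [← hθd] at hJe
  obtain ⟨u, hu⟩ : ∃ u, u = e (uI k (AlgebraicClosure (Qi k))) := ⟨_, rfl⟩
  have hu2 : u ^ 2 = -1 := by rw [hu, ← map_pow, uI_sq, map_neg, map_one]
  have hu0 : u ≠ 0 := by
    intro h0
    rw [h0, zero_pow two_ne_zero] at hu2
    norm_num at hu2
  have hcases : ∀ σ : Gal k, σ u = u ∨ σ u = -u := by
    intro σ
    apply sq_eq_sq_iff_eq_or_eq_neg.1
    rw [← map_pow, hu2, map_neg, map_one]
  have hun0 : u ≠ -u := by
    intro h
    apply hu0
    have h1 : 2 * u = 0 := by linear_combination h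
    exact (mul_eq_zero.1 h1).resolve_left two_ne_zero
  -- the action on the values
  have hact1 : ∀ (τ : Gal k) {P : Pt (Em k) (AlgebraicClosure k)}, lmW hJ P = 0 → τ u = u →
      act (Em k) τ.toAlgHom P = P := fun τ P hP hτ =>
    (ker_act e hJ hP (s := 1) (Or.inl rfl) (by rw [← hu, one_mul]; exact hτ)).1 rfl
  have hact2 : ∀ (τ : Gal k) {P : Pt (Em k) (AlgebraicClosure k)}, lmW hJ P = 0 → τ u = -u →
      act (Em k) τ.toAlgHom P = -P := fun τ P hP hτ =>
    (ker_act e hJ hP (s := -1) (Or.inr rfl) (by rw [← hu, neg_one_mul]; exact hτ)).2 rfl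
  -- the elements of `k(i)`
  have hform : ∀ x : Qi k, e (algebraMap (Qi k) _ x) = algebraMap k _ x.re + algebraMap k _ x.im * u := by
    intro x
    conv_lhs => rw [qi_form x]
    rw [map_add, map_mul, map_add, map_mul, he, he, hu]
  have hfixL : ∀ σ : Gal k, σ u = u → ∀ x : Qi k, σ (e (algebraMap (Qi k) _ x)) =
      e (algebraMap (Qi k) _ x) := by
    intro σ hσ x
    rw [hform, map_add, map_mul, hσ, σ.commutes, σ.commutes]
  have hcKu : ∀ σ' : Gal (Qi k), cK e he σ' u = u := by
    intro σ'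
    rw [cK_apply, hu, e.symm_apply_apply]
    congr 1
    exact σ'.commutes _
  -- the final step
  have hfin : (∀ σ : Gal k, σ u = u → g σ = 0) →
      ∃ R, lmW hJ R = 0 ∧ ∀ σ : Gal k, g σ = act (Em k) σ.toAlgHom R - R := by
    intro h0
    by_cases hall : ∀ σ : Gal k, σ u = u
    · exact ⟨0, map_zero _, fun σ => by rw [h0 σ (hall σ), map_zero, sub_zero]⟩
    · push Not at hall
      obtain ⟨s, hs⟩ := hall
      have hs' := (hcases s).resolve_left hs
      have hconst : ∀ τ : Gal k, τ u = -u → g τ = g s := by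
        intro τ hτ
        have h4 := hg.2 s (s⁻¹ * τ)
        have h5 : (s⁻¹ * τ) u = u := by
          show s.symm (τ u) = u
          rw [AlgEquiv.symm_apply_eq, hτ, hs']
        rw [mul_inv_cancel_left, h0 _ h5, map_zero, add_zero] at h4
        exact h4
      -- three times the value
      have h3 : (3 : ℕ) • g s = 0 := by
        have h4 := lm_lm (k := Qi k) (L := AlgebraicClosure (Qi k)) (I := e.symm J) (by
          rw [← map_pow, ← map_add, ← map_one e.symm, ← map_add, hJ, map_zero]) (Ps e (g s))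
        have hJ' : (e.symm J) ^ 2 + e.symm J + 1 = 0 := by
          rw [← map_pow, ← map_add, ← map_one e.symm, ← map_add, hJ, map_zero]
        have h5 : lm hJ' (Ps e (g s)) = 0 := by
          rw [← Psi_lmW (k := k) (e.symm : AlgebraicClosure k →+* AlgebraicClosure (Qi k)) hJ hJ' rfl,
            hker, map_zero]
        rw [h5, map_zero] at h4
        have h6 : imm hJ' ((3 : ℕ) • Ps e (g s)) = 0 := neg_eq_zero.1 h4.symm
        have h7 : Function.Injective (imm (k := Qi k) hJ') := by
          intro P Q hPQ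
          have e3 : ∀ R : Pt (E1 (Qi k)) (AlgebraicClosure (Qi k)), imm hJ' (imm hJ' R) = -R - imm hJ' R :=
            fun R => Pool.Agent.Y715.T.Ell.im_im (isE _ _) hJ' R
          have e1 := e3 P
          have e2 := e3 Q
          rw [hPQ, e2] at e1
          have e4 : -Q = -P := sub_left_injective e1
          exact neg_injective e4.symm
        have h8 : (3 : ℕ) • Ps e (g s) = 0 := h7 (h6.trans (map_zero _).symm)
        apply Psi_inj (k := k) (e.symm : AlgebraicClosure k →+* AlgebraicClosure (Qi k))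
        rw [map_nsmul, map_zero]
        exact h8
      refine ⟨g s, hker s, fun σ => ?_⟩
      rcases hcases σ with hσ | hσ
      · rw [h0 σ hσ, hact1 σ (hker s) hσ, sub_self]
      · rw [hconst σ hσ, hact2 σ (hker s) hσ]
        have e1 : g s - (-g s - g s) = (3 : ℕ) • g s := by abel
        rw [h3] at e1
        exact sub_eq_zero.1 e1
  by_cases hall : ∀ σ : Gal k, σ u = u
  · exfalso
    obtain ⟨y, hy⟩ := Pool.Agent.Y696.fixm (k := k) u hall
    have h1 : y ^ 2 = -1 := by
      apply (algebraMap k (AlgebraicClosure k)).injective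
      rw [map_pow, hy, hu2, map_neg, map_one]
    exact no_sq_k (F := F) hn y h1
  push Not at hall
  obtain ⟨τ, hτ⟩ := hall
  have hτ := (hcases τ).resolve_left hτ
  -- the character
  have hJ' : (e.symm J) ^ 2 + e.symm J + 1 = 0 := by
    rw [← map_pow, ← map_add, ← map_one e.symm, ← map_add, hJ, map_zero]
  have hex : ∀ σ : Gal (Qi k), ∃ c : ZMod 3, rsI e he g σ = tor (Qi k) (AlgebraicClosure (Qi k)) c := by
    intro σ
    refine ker_imm hJ' ?_
    rw [← lm_apply]
    show lm hJ' (Ps e (g (cK e he σ))) = 0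
    rw [← Psi_lmW (k := k) (e.symm : AlgebraicClosure k →+* AlgebraicClosure (Qi k)) hJ hJ' rfl,
      hker, map_zero]
  choose h hh using hex
  have hcc : cc h = rsI e he g := funext fun σ => (hh σ).symm
  have hrc := rsI_coc e he hg
  have hinj : Function.Injective (tor (Qi k) (AlgebraicClosure (Qi k))) := by
    intro c d hcd
    have h2 : tor (Qi k) (AlgebraicClosure (Qi k)) (c - d) = 0 := by
      have h3 := tor_add (k := Qi k) (L := AlgebraicClosure (Qi k)) (c - d) d
      rw [sub_add_cancel, hcd] at h3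
      exact right_eq_add.1 h3
    exact sub_eq_zero.1 (tor_inj _ h2)
  have hHm : Hm h := by
    have hcoc : IsCoc (E1 (Qi k)) (cc h) := by rw [hcc]; exact hrc
    refine ⟨IsLocallyConstant.desc h (tor (Qi k) (AlgebraicClosure (Qi k))) hcoc.1 hinj, ?_⟩
    intro σ τ
    apply hinj
    have h4 := hcoc.2 σ τ
    change tor (Qi k) (AlgebraicClosure (Qi k)) (h (σ * τ)) = tor (Qi k) (AlgebraicClosure (Qi k)) (h σ) +
      act (E1 (Qi k)) σ.toAlgHom (tor (Qi k) (AlgebraicClosure (Qi k)) (h τ)) at h4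
    rw [h4, act_tor, tor_add]
  obtain ⟨WL, hWL⟩ : ∃ WL, WL = algebraMap k (Qi k) ((-1 + θ) / 2) := ⟨_, rfl⟩
  have hW : WL ^ 2 + WL + 1 = 0 := by
    rw [hWL, ← map_pow, ← map_add, ← map_one (algebraMap k (Qi k)), ← map_add, omk hθ, map_zero]
  obtain ⟨b, hb0, hb⟩ := kexG (Qi k) WL hW h hHm
  obtain ⟨k1, k2, k3, k4⟩ := kumG (Qi k) WL hW
  -- the conjugate
  have hsb : star b ≠ 0 := by
    intro h0
    exact hb0 (by rw [← star_star b, h0, star_zero])
  obtain ⟨h', -, hh'⟩ := k1 (star b) hsb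
  have hconj : ∀ σ' : Gal (Qi k), h' σ' = -h σ' := by
    intro σ'
    obtain ⟨σ, hσ⟩ := exists_cK e he (τ⁻¹ * cK e he σ' * τ) (by
      intro x
      show τ.symm (cK e he σ' (τ (e (algebraMap (Qi k) _ x)))) = _
      rw [AlgEquiv.symm_apply_eq, hform, map_add, map_mul, hτ, map_add, map_mul, map_neg, hcKu,
        τ.commutes, τ.commutes, AlgEquiv.commutes, AlgEquiv.commutes])
    -- the values of `g`
    have hinv : (τ⁻¹ : Gal k) u = -u := by
      show τ.symm u = -u
      rw [AlgEquiv.symm_apply_eq, map_neg, hτ, neg_neg]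
    have hσu : cK e he σ u = u := hcKu σ
    have hg1 : g 1 = 0 := by
      have := hg.2 1 1
      have e1 : act (Em k) (1 : Gal k).toAlgHom (g 1) = g 1 := hact1 1 (hker 1) rfl
      rw [one_mul, e1] at this
      exact left_eq_add.1 this
    have hginv : g τ⁻¹ = g τ := by
      have h5 := hg.2 τ τ⁻¹
      rw [mul_inv_cancel, hg1, hact2 τ (hker _) hτ] at h5
      exact (sub_eq_zero.1 (by rw [sub_eq_add_neg]; exact h5.symm)).symm
    have hgc : g (cK e he σ') = -g (cK e he σ) := by
      have e1 : cK e he σ' = τ * cK e he σ * τ⁻¹ := by rw [hσ]; group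
      have h5 : (τ * cK e he σ) u = -u := by
        show τ (cK e he σ u) = -u
        rw [hσu, hτ]
      rw [e1, hg.2, hg.2, hact2 τ (hker _) hτ, hact2 _ (hker _) h5, hginv]
      abel
    have hhσ : h σ' = -h σ := by
      apply hinj
      rw [← hh]
      show Ps e (g (cK e he σ')) = _
      rw [hgc, map_neg]
      have e1 : Ps e (g (cK e he σ)) = tor (Qi k) (AlgebraicClosure (Qi k)) (h σ) := hh σ
      rw [e1]
      have h5 := tor_add (k := Qi k) (L := AlgebraicClosure (Qi k)) (h σ) (-h σ)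
      rw [add_neg_cancel, tor_zero] at h5
      exact (eq_neg_of_add_eq_zero_right h5.symm).symm
    rw [hhσ, neg_neg]
    -- the Kummer generators
    obtain ⟨β, hβ⟩ := IsAlgClosed.exists_pow_nat_eq (algebraMap (Qi k) (AlgebraicClosure (Qi k)) b)
      (n := 3) (by norm_num)
    have h6 := hb β hβ σ
    have hβ2 : (e.symm (τ (e β))) ^ 3 = algebraMap (Qi k) (AlgebraicClosure (Qi k)) (star b) := by
      rw [← map_pow, ← map_pow, ← map_pow, hβ, hform, map_add, map_mul, hτ, τ.commutes, τ.commutes,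
        RingEquiv.symm_apply_eq, hform, star_re, star_im, map_neg]
      ring
    have h7 := hh' _ hβ2 σ'
    have h8 : e (σ' (e.symm (τ (e β)))) = τ (e (σ β)) := by
      have h9 : cK e he σ' (τ (e β)) = τ (e (σ β)) := by
        have e1 : cK e he σ' = τ * cK e he σ * τ⁻¹ := by rw [hσ]; group
        rw [e1]
        show τ (cK e he σ (τ⁻¹ (τ (e β)))) = _
        have h5 : τ⁻¹ (τ (e β)) = e β := by
          rw [← AlgEquiv.mul_apply, inv_mul_cancel, AlgEquiv.one_apply]
        rw [h5, cK_apply, e.symm_apply_apply]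
      rw [← h9, cK_apply]
    have hWe : τ (e (algebraMap (Qi k) _ WL)) = e (algebraMap (Qi k) _ WL) := by
      rw [hWL, he, τ.commutes]
    rw [h6, h7, map_mul, map_pow, map_mul, map_pow, map_mul, map_pow, hWe, e.apply_symm_apply] at h8
    have hβ0 : β ≠ 0 := by
      rintro rfl
      rw [zero_pow three_ne_zero] at hβ
      exact hb0 ((map_eq_zero _).1 hβ.symm)
    have h9 : τ (e β) ≠ 0 := by
      rw [Ne, map_eq_zero, map_eq_zero]
      exact hβ0
    have h10 := mul_right_cancel₀ h9 h8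
    refine w_pow_inj (W := e (algebraMap (Qi k) _ WL)) ?_ _ _ h10
    rw [← map_pow, ← map_pow, ← map_add, ← map_add, ← map_one e, ← map_add,
      ← map_one (algebraMap (Qi k) (AlgebraicClosure (Qi k))), ← map_add, hW, map_zero, map_zero]
  have hminus : ∃ c, b * star b = c ^ 3 := by
    refine k4 (b * star b) _ (mul_ne_zero hb0 hsb) (k2 _ _ _ _ hb hh') fun σ => ?_
    rw [hconj, add_neg_cancel]
  -- the local conditions
  have hs : ∀ w : HeightOneSpectrum (𝓞 (Qi k)), LocTriv (E1 (Qi k)) (w.adicCompletion (Qi k)) (cc h) := by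
    intro w
    rw [hcc]
    exact rsI_loc_v e he hloc w
  have hSC : SC θ b := sc_of (F := F) hn hun hθ hb0 (by rw [← hWL]; exact hb) hs hminus
  rw [hθd] at hSC
  obtain ⟨c, hc⟩ := sc_cube hn hun hθ₀ hSC
  have hc0 : c ≠ 0 := by
    rintro rfl
    rw [zero_pow three_ne_zero] at hc
    exact hb0 hc
  have hzero : ∀ σ, h σ = 0 := by
    intro σ
    have h5 := hb (algebraMap (Qi k) _ c) (by rw [← map_pow, hc]) σ
    rw [σ.commutes] at h5
    have h6 : (algebraMap (Qi k) (AlgebraicClosure (Qi k)) c) ≠ 0 := (map_ne_zero _).2 hc0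
    have h7 : (algebraMap (Qi k) (AlgebraicClosure (Qi k)) WL) ^ (h σ).val = 1 := by
      apply mul_right_cancel₀ h6
      rw [one_mul]
      exact h5.symm
    refine w_pow_inj (W := algebraMap (Qi k) (AlgebraicClosure (Qi k)) WL) ?_ _ _ (h7.trans ?_)
    · rw [← map_pow, ← map_add, ← map_one (algebraMap (Qi k) (AlgebraicClosure (Qi k))), ← map_add,
        hW, map_zero]
    · rw [ZMod.val_zero, pow_zero]
  apply hfin
  intro σ hσ
  obtain ⟨σ', rfl⟩ := exists_cK e he σ (hfixL σ hσ)
  have h5 : Ps e (g (cK e he σ')) = tor (Qi k) (AlgebraicClosure (Qi k)) (h σ') := hh σ'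
  rw [hzero, tor_zero] at h5
  exact Psi_inj (k := k) (e.symm : AlgebraicClosure k →+* AlgebraicClosure (Qi k))
    (h5.trans (map_zero _).symm)

end main

end Pool.Agent.T9h31.Ab
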