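import Mathlib

/-!
# The curve `y² = x³ - 16`
-/

set_option autoImplicit false

namespace Pool.Agent.T9h31.Ab

/-- the Weierstrass curve `y² = x³ - 16` -/
def Em (R : Type) [CommRing R] : WeierstrassCurve R := ⟨0, 0, 0, 0, -16⟩

end Pool.Agent.T9h31.Ab
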