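import Pool.Agent.T9h31.AbK1

/-!
# Cube classes of the field of twelfth roots of unity
-/

set_option autoImplicit false
set_option linter.unusedSectionVars false

namespace Pool.Agent.T9h31.Ab

open NumberField IsDedekindDomain WithZero
open Pool.Agent.Y696 (und und_lies mem_under_of_lies)

section
variable {k : Type} [Field k] [NumberField k]

lemma cube_ideal {b : 𝓞 k} (hb : b ≠ 0)
    (h : ∀ v : HeightOneSpectrum (𝓞 k), ∃ n : ℤ, v.intValuation b = exp (3 * n)) :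
    ∃ J : Ideal (𝓞 k), Ideal.span {b} = J ^ 3 := by
  classical
  have hI : (Ideal.span {b} : Ideal (𝓞 k)) ≠ 0 := by
    rw [Ne, Ideal.zero_eq_bot, Ideal.span_singleton_eq_bot]
    exact hb
  obtain ⟨u, hu⟩ := Multiset.exists_smul_of_dvd_count
    (UniqueFactorizationMonoid.normalizedFactors (Ideal.span {b})) (k := 3) (by
      intro P hP
      have hPp := UniqueFactorizationMonoid.prime_of_normalized_factor P hP
      let v : HeightOneSpectrum (𝓞 k) := ⟨P, Ideal.isPrime_of_prime hPp, hPp.ne_zero⟩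
      obtain ⟨n, hn⟩ := h v
      rw [v.intValuation_eq_exp_neg_multiplicity hb] at hn
      have h1 := exp_injective hn
      have h2 : multiplicity P (Ideal.span {b}) = (UniqueFactorizationMonoid.normalizedFactors
          (Ideal.span {b})).count P := by
        have h3 := UniqueFactorizationMonoid.emultiplicity_eq_count_normalizedFactors
          hPp.irreducible hI
        rw [normalize_eq] at h3
        rw [multiplicity_eq_of_emultiplicity_eq_some h3]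
      have h4 : multiplicity v.asIdeal (Ideal.span {b}) = multiplicity P (Ideal.span {b}) := rfl
      rw [h4, h2] at h1
      omega)
  refine ⟨u.prod, ?_⟩
  rw [← Multiset.prod_nsmul, ← hu, Ideal.prod_normalizedFactors_eq_self hI]

/-- elements with all valuations divisible by three over a principal ideal domain -/
lemma cube_unit [IsPrincipalIdealRing (𝓞 k)] {b : k} (hb : b ≠ 0)
    (h : ∀ v : HeightOneSpectrum (𝓞 k), ∃ n : ℤ, v.valuation k b = exp (3 * n)) :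
    ∃ (u : (𝓞 k)ˣ) (c : k), c ≠ 0 ∧ b = ((u : 𝓞 k) : k) * c ^ 3 := by
  obtain ⟨r, s, hs, hrs⟩ := IsFractionRing.div_surjective (A := 𝓞 k) b
  have hs0 : (s : k) ≠ 0 := by
    intro h0
    have : s = 0 := FaithfulSMul.algebraMap_injective (𝓞 k) k (by rw [map_zero]; exact h0)
    exact nonZeroDivisors.ne_zero hs this
  have hr0 : r ≠ 0 := by
    rintro rfl
    rw [map_zero, zero_div] at hrs
    exact hb hrs.symm
  have hs0' : s ≠ 0 := nonZeroDivisors.ne_zero hs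
  have hB : (algebraMap (𝓞 k) k) (r * s ^ 2) = b * (s : k) ^ 3 := by
    rw [← hrs, map_mul, map_pow]
    field_simp
  obtain ⟨J, hJ⟩ := cube_ideal (b := r * s ^ 2) (mul_ne_zero hr0 (pow_ne_zero 2 hs0')) (by
    intro v
    obtain ⟨n, hn⟩ := h v
    have e0 : v.intValuation (r * s ^ 2) = v.valuation k (b * (s : k) ^ 3) := by
      rw [← hB]
      exact (HeightOneSpectrum.valuation_of_algebraMap v _).symm
    rw [e0, map_mul, map_pow, hn]
    obtain ⟨m, hm⟩ : ∃ m : ℤ, v.valuation k (s : k) = exp m :=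
      ⟨_, (exp_log ((Valuation.ne_zero_iff _).2 hs0)).symm⟩
    refine ⟨n + m, ?_⟩
    rw [hm, ← exp_nsmul, ← exp_add]
    congr 1
    rw [nsmul_eq_mul]
    push_cast
    ring)
  obtain ⟨c, rfl⟩ : ∃ c : 𝓞 k, J = Ideal.span {c} :=
    ⟨_, (Submodule.IsPrincipal.span_singleton_generator J).symm⟩
  rw [Ideal.span_singleton_pow, Ideal.span_singleton_eq_span_singleton] at hJ
  obtain ⟨u, hu⟩ := hJ.symm
  have hc0 : (c : k) ≠ 0 := by
    intro h0
    have h1 : c = 0 := FaithfulSMul.algebraMap_injective (𝓞 k) k (by rw [map_zero]; exact h0)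
    rw [h1] at hu
    apply mul_ne_zero hr0 (pow_ne_zero 2 hs0')
    rw [← hu]
    ring
  refine ⟨u, (c : k) / s, div_ne_zero hc0 hs0, ?_⟩
  have h1 := congrArg (algebraMap (𝓞 k) k) hu
  rw [map_mul, map_pow, hB] at h1
  rw [div_pow]
  field_simp
  rw [← h1]
  ring

end

section cyc
variable {F : Type} [Field F] [NumberField F] [IsCyclotomicExtension {3} ℚ F] {θ : F}

lemma eta_unit_aux (hθ : θ ^ 2 = -3) : (2 + qI F * algebraMap F (Qi F) θ) *
    (2 - qI F * algebraMap F (Qi F) θ) = 1 := by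
  have h1 : (algebraMap F (Qi F) θ) ^ 2 = -3 := by rw [← map_pow, hθ, map_neg, map_ofNat]
  linear_combination (-1 : Qi F) * (algebraMap F (Qi F) θ) ^ 2 * qI_sq (k := F) + h1

lemma om_cube (hθ : θ ^ 2 = -3) : ((-1 + algebraMap F (Qi F) θ) / 2) ^ 3 = 1 := by
  have h1 : (algebraMap F (Qi F) θ) ^ 2 = -3 := by rw [← map_pow, hθ, map_neg, map_ofNat]
  field_simp
  linear_combination (algebraMap F (Qi F) θ - 3) * h1

lemma cube_roots {M : Type} [Field M] [CharZero M] {t x : M} (ht : t ^ 2 = -3) (hx : x ^ 3 = 1) :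
    ∃ i : ℕ, x = ((-1 + t) / 2) ^ i := by
  have h : (x - 1) * ((x - (-1 + t) / 2) * (x - ((-1 + t) / 2) ^ 2)) = 0 := by
    field_simp
    linear_combination (8 : M) * hx + (x ^ 2 * (-2) + x * (t - 1) + 3 - t) * ht
  rcases mul_eq_zero.1 h with h | h
  · exact ⟨0, by rw [pow_zero]; exact sub_eq_zero.1 h⟩
  · rcases mul_eq_zero.1 h with h | h
    · exact ⟨1, by rw [pow_one]; exact sub_eq_zero.1 h⟩
    · exact ⟨2, sub_eq_zero.1 h⟩

lemma th_M (hθ : θ ^ 2 = -3) : (algebraMap F (Qi F) θ) ^ 2 = -3 := by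
  rw [← map_pow, hθ, map_neg, map_ofNat]

lemma val3_M (w : HeightOneSpectrum (𝓞 (Qi F))) (hw : (3 : 𝓞 (Qi F)) ∈ w.asIdeal) :
    Ns (und (F := F) w) ∧ w.valuation (Qi F) 3 = exp (-2) := by
  have h3 : (3 : 𝓞 F) ∈ (und (F := F) w).asIdeal := by
    rw [mem_under_of_lies (und_lies (F := F) w), map_ofNat]
    exact hw
  have hns := ns_three_F _ h3
  refine ⟨hns, ?_⟩
  have := w_e hns (3 : F)
  rw [map_ofNat, Pool.Agent.Y696.val_three_F _ h3] at this
  exact this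

/-- the two units are independent modulo cubes -/
lemma indep_M (hθ : θ ^ 2 = -3) {c : Qi F} {i j : ℕ}
    (h : (2 + qI F * algebraMap F (Qi F) θ) ^ j * ((-1 + algebraMap F (Qi F) θ) / 2) ^ i * c ^ 3 = 1) :
    3 ∣ i ∧ 3 ∣ j := by
  obtain ⟨w, hw⟩ := exists_three (Qi F)
  obtain ⟨hns, h3⟩ := val3_M w hw
  refine eta_exp hw hns h3 hθ (c := c) ?_
  rw [h, sub_self]
  unfold OO
  rw [map_zero]
  exact zero_le

lemma rank_M : NumberField.Units.rank (Qi F) = 1 := by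
  have h1 := InfinitePlace.card_eq_nrRealPlaces_add_nrComplexPlaces (K := Qi F)
  unfold NumberField.Units.rank
  rw [h1, IsCyclotomicExtension.Rat.nrRealPlaces_eq_zero (n := 12) (K := Qi F) (by norm_num),
    IsCyclotomicExtension.Rat.nrComplexPlaces_eq_totient_div_two 12, totient12]

lemma tors_M (hθ : θ ^ 2 = -3) (t : NumberField.Units.torsion (Qi F)) :
    ∃ (i : ℕ) (c : Qi F), c ≠ 0 ∧ (((t : (𝓞 (Qi F))ˣ) : 𝓞 (Qi F)) : Qi F) =
      ((-1 + algebraMap F (Qi F) θ) / 2) ^ i * c ^ 3 := by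
  have h12 : NumberField.Units.torsionOrder (Qi F) = 12 := by
    rw [IsCyclotomicExtension.Rat.torsionOrder_eq (n := 12) (K := Qi F)]
    norm_num
  have ht : t ^ 12 = 1 := by
    rw [← h12]
    exact pow_card_eq_one'
  obtain ⟨x, hx⟩ : ∃ x : Qi F, x = (((t : (𝓞 (Qi F))ˣ) : 𝓞 (Qi F)) : Qi F) := ⟨_, rfl⟩
  have hx12 : x ^ 12 = 1 := by
    have h1 := congrArg (fun s : NumberField.Units.torsion (Qi F) =>
      (((s : (𝓞 (Qi F))ˣ) : 𝓞 (Qi F)) : Qi F)) ht
    simpa [hx] using h1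
  have hx0 : x ≠ 0 := by
    rintro h0
    rw [h0, zero_pow (by norm_num)] at hx12
    exact zero_ne_one hx12
  obtain ⟨i, hi⟩ := cube_roots (M := Qi F) (x := x ^ 4) (th_M hθ) (by rw [← pow_mul]; exact hx12)
  refine ⟨i, x⁻¹, inv_ne_zero hx0, ?_⟩
  rw [← hx, ← hi]
  field_simp

/-- the units modulo cubes -/
theorem unit_M (hθ : θ ^ 2 = -3) (u : (𝓞 (Qi F))ˣ) : ∃ (i j : ℕ) (c : Qi F), c ≠ 0 ∧
    ((u : 𝓞 (Qi F)) : Qi F) = (2 + qI F * algebraMap F (Qi F) θ) ^ j *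
      ((-1 + algebraMap F (Qi F) θ) / 2) ^ i * c ^ 3 := by
  classical
  have hr := rank_M (F := F)
  obtain ⟨i0⟩ : Nonempty (Fin (NumberField.Units.rank (Qi F))) := by
    rw [hr]
    exact ⟨0⟩
  have huniq : ∀ i : Fin (NumberField.Units.rank (Qi F)), i = i0 := by
    intro i
    apply Fin.ext
    have h1 := i.2
    have h2 := i0.2
    omega
  obtain ⟨ε, hε⟩ : ∃ ε, ε = NumberField.Units.fundSystem (Qi F) i0 := ⟨_, rfl⟩
  have key : ∀ x : (𝓞 (Qi F))ˣ, ∃ (t : NumberField.Units.torsion (Qi F)) (n : ℤ),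
      x = t * ε ^ n := by
    intro x
    obtain ⟨⟨t, e⟩, h1, -⟩ := NumberField.Units.exist_unique_eq_mul_prod (Qi F) x
    refine ⟨t, e i0, ?_⟩
    rw [h1, Finset.prod_eq_single i0]
    · rw [hε]
    · intro b _ hb
      exact absurd (huniq b) hb
    · intro h
      exact absurd (Finset.mem_univ _) h
  -- the unit eta
  have hηi : IsIntegral ℤ (2 + qI F * algebraMap F (Qi F) θ) := by
    have h1 : IsIntegral ℤ (qI F) := by
      refine ⟨Polynomial.X ^ 2 + Polynomial.C 1, Polynomial.monic_X_pow_add_C 1 two_ne_zero, ?_⟩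
      simp [qI_sq]
    have h2 : IsIntegral ℤ (algebraMap F (Qi F) θ) := by
      refine ⟨Polynomial.X ^ 2 + Polynomial.C 3, Polynomial.monic_X_pow_add_C 3 two_ne_zero, ?_⟩
      simp [th_M hθ]
    have h3 : IsIntegral ℤ (2 : Qi F) := by
      have := isIntegral_algebraMap (R := ℤ) (A := Qi F) (x := 2)
      simpa using this
    exact h3.add (h1.mul h2)
  have hηi' : IsIntegral ℤ (2 - qI F * algebraMap F (Qi F) θ) := by
    have h1 : IsIntegral ℤ (4 : Qi F) := by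
      have := isIntegral_algebraMap (R := ℤ) (A := Qi F) (x := 4)
      simpa using this
    have e : 2 - qI F * algebraMap F (Qi F) θ = 4 - (2 + qI F * algebraMap F (Qi F) θ) := by ring
    rw [e]
    exact h1.sub hηi
  obtain ⟨η, hη⟩ : ∃ η : (𝓞 (Qi F))ˣ, ((η : 𝓞 (Qi F)) : Qi F) =
      2 + qI F * algebraMap F (Qi F) θ := by
    refine ⟨⟨⟨_, hηi⟩, ⟨_, hηi'⟩, ?_, ?_⟩, rfl⟩
    · apply RingOfIntegers.ext
      exact eta_unit_aux hθ
    · apply RingOfIntegers.ext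
      exact (mul_comm _ _).trans (eta_unit_aux hθ)
  obtain ⟨t0, n, ht0⟩ := key η
  obtain ⟨i1, c1, hc1, ht1⟩ := tors_M hθ t0
  have hco : ∀ (x : (𝓞 (Qi F))ˣ) (m : ℤ), ((((x ^ m : (𝓞 (Qi F))ˣ) : 𝓞 (Qi F))) : Qi F) =
      ((x : 𝓞 (Qi F)) : Qi F) ^ m := by
    intro x m
    exact NumberField.Units.coe_zpow x m
  have hmul : ∀ (x y : (𝓞 (Qi F))ˣ), ((((x * y : (𝓞 (Qi F))ˣ) : 𝓞 (Qi F))) : Qi F) =
      ((x : 𝓞 (Qi F)) : Qi F) * ((y : 𝓞 (Qi F)) : Qi F) := by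
    intro x y
    exact NumberField.Units.coe_mul x y
  obtain ⟨E, hE⟩ : ∃ E : Qi F, E = ((ε : 𝓞 (Qi F)) : Qi F) := ⟨_, rfl⟩
  have hE0 : E ≠ 0 := by
    rw [hE]
    exact NumberField.Units.coe_ne_zero ε
  obtain ⟨ω, hω⟩ : ∃ ω : Qi F, ω = (-1 + algebraMap F (Qi F) θ) / 2 := ⟨_, rfl⟩
  have hω3 : ω ^ 3 = 1 := by rw [hω]; exact om_cube hθ
  have hω0 : ω ≠ 0 := by
    intro h0
    rw [h0, zero_pow three_ne_zero] at hω3
    exact zero_ne_one hω3
  have hη' : 2 + qI F * algebraMap F (Qi F) θ = (ω ^ i1 * c1 ^ 3) * E ^ n := by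
    rw [← hη, ht0, hmul, hco, ht1, hE, hω]
  have hη0 : (2 + qI F * algebraMap F (Qi F) θ) ≠ 0 := by
    rw [← hη]
    exact NumberField.Units.coe_ne_zero η
  have hn3 : ¬ (3 : ℤ) ∣ n := by
    rintro ⟨m, hm⟩
    have h1 : (2 + qI F * algebraMap F (Qi F) θ) ^ 1 *
        ((-1 + algebraMap F (Qi F) θ) / 2) ^ (2 * i1) * ((c1 * E ^ m)⁻¹) ^ 3 = 1 := by
      rw [hη', ← hω, hm, zpow_mul', pow_one]
      have e3 : ω ^ i1 * ω ^ (2 * i1) = 1 := by
        rw [← pow_add, show i1 + 2 * i1 = 3 * i1 by ring, pow_mul, hω3, one_pow]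
      have hEm : E ^ m ≠ 0 := zpow_ne_zero m hE0
      have e4 : (E ^ m) ^ (3 : ℤ) = (E ^ m) ^ 3 := by norm_cast
      rw [e4, inv_pow, mul_pow]
      field_simp
      exact e3
    have := (indep_M hθ h1).2
    omega
  obtain ⟨t, e, hte⟩ := key u
  obtain ⟨i2, c2, hc2, ht2⟩ := tors_M hθ t
  obtain ⟨j, m, hjm⟩ : ∃ (j : ℕ) (m : ℤ), e = j * n + 3 * m := by
    rcases (show n % 3 = 1 ∨ n % 3 = 2 by omega) with h1 | h1
    · refine ⟨(e % 3).toNat, (e - (e % 3) * n) / 3, ?_⟩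
      have h2 : (((e % 3).toNat : ℕ) : ℤ) = e % 3 := Int.toNat_of_nonneg (Int.emod_nonneg _ (by norm_num))
      rw [h2]
      have h3 : (3 : ℤ) ∣ e - (e % 3) * n := by
        rcases (show e % 3 = 0 ∨ e % 3 = 1 ∨ e % 3 = 2 by omega) with h4 | h4 | h4 <;> rw [h4] <;> omega
      omega
    · refine ⟨((2 * e) % 3).toNat, (e - ((2 * e) % 3) * n) / 3, ?_⟩
      have h2 : ((((2 * e) % 3).toNat : ℕ) : ℤ) = (2 * e) % 3 :=
        Int.toNat_of_nonneg (Int.emod_nonneg _ (by norm_num))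
      rw [h2]
      have h3 : (3 : ℤ) ∣ e - ((2 * e) % 3) * n := by
        rcases (show (2 * e) % 3 = 0 ∨ (2 * e) % 3 = 1 ∨ (2 * e) % 3 = 2 by omega) with h4 | h4 | h4 <;>
          rw [h4] <;> omega
      omega
  have hEm : E ^ m ≠ 0 := zpow_ne_zero m hE0
  refine ⟨i2 + 2 * i1 * j, j, c2 * E ^ m / c1 ^ j, div_ne_zero (mul_ne_zero hc2 hEm)
    (pow_ne_zero _ hc1), ?_⟩
  rw [hte, hmul, hco, ht2, ← hE, hjm, hη', ← hω, zpow_add₀ hE0, mul_comm (j : ℤ) n, zpow_mul,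
    zpow_natCast, zpow_mul' E 3 m]
  have e4 : (E ^ m) ^ (3 : ℤ) = (E ^ m) ^ 3 := by norm_cast
  have e3 : ω ^ (i1 * j) * ω ^ (2 * i1 * j) = 1 := by
    rw [← pow_add, show i1 * j + 2 * i1 * j = 3 * (i1 * j) by ring, pow_mul, hω3, one_pow]
  rw [e4, mul_pow, mul_pow, div_pow, mul_pow, pow_add, ← pow_mul, ← pow_mul c1 3 j,
    ← pow_mul c1 j 3, mul_comm j 3]
  have hc1j : c1 ^ (3 * j) ≠ 0 := pow_ne_zero _ hc1
  rw [eq_comm]
  calc _ = (ω ^ (i1 * j) * ω ^ (2 * i1 * j)) * (ω ^ i2 * c2 ^ 3 * ((E ^ n) ^ j * (E ^ m) ^ 3)) *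
        (c1 ^ (3 * j) / c1 ^ (3 * j)) := by ring
    _ = _ := by
      rw [e3, div_self hc1j]
      ring

/-- the classes with valuations divisible by three -/
theorem class_M (hθ : θ ^ 2 = -3) {b : Qi F} (hb : b ≠ 0)
    (h : ∀ w : HeightOneSpectrum (𝓞 (Qi F)), ∃ n : ℤ, w.valuation (Qi F) b = exp (3 * n)) :
    ∃ (i j : ℕ) (c : Qi F), c ≠ 0 ∧ b = (2 + qI F * algebraMap F (Qi F) θ) ^ j *
      ((-1 + algebraMap F (Qi F) θ) / 2) ^ i * c ^ 3 := by
  have := pid_M (F := F)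
  obtain ⟨u, c, hc, hbu⟩ := cube_unit hb h
  obtain ⟨i, j, c', hc', hu⟩ := unit_M hθ u
  refine ⟨i, j, c' * c, mul_ne_zero hc' hc, ?_⟩
  rw [hbu, hu]
  ring

end cyc

end Pool.Agent.T9h31.Ab
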