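import Mathlib
import Pool.Agent.T9h31.Plc
import Pool.Agent.N883.SX.HenBase

/-!
# The ternary cubic of an unramified class of the second kind has a point over a ramified cubic field

`B = 1 + λ³ z`, `λ² = -3`, over a local field with absolute ramification index six.  The cubic
`a³ + B b³ + B² c³ + 6 B a b c = 0` has the solution `a = -λ - z ϖ² + λ² s`, `b = λ + 2 z ϖ²`,
`c = - z ϖ²`, `s` a root of a cubic polynomial that is congruent to `s³ - s` modulo the maximal ideal.
-/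

set_option autoImplicit false

open scoped Classical

namespace Pool.Agent.T9h31

open NumberField IsDedekindDomain WithZero Polynomial

section
variable {F : Type} [Field F] [NumberField F] {v : HeightOneSpectrum (𝓞 F)}

lemma poly_id {M : Type} [Field M] (l p z s m : M) (hl : l ^ 2 = -3) (hp : p ^ 6 = 3 * m) :
    (-l - z * p ^ 2 + l ^ 2 * s) ^ 3 + (1 + l ^ 3 * z) * (l + 2 * z * p ^ 2) ^ 3 +
      (1 + l ^ 3 * z) ^ 2 * (-(z * p ^ 2)) ^ 3 +
      6 * (1 + l ^ 3 * z) * (-l - z * p ^ 2 + l ^ 2 * s) * (l + 2 * z * p ^ 2) * (-(z * p ^ 2)) =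
    -27 * (s ^ 3 + (l + z * p ^ 2) * s ^ 2 +
      (-1 - 6 * z ^ 2 * p ^ 2 + z ^ 2 * p ^ 4 * (4 * l * z - 1)) * s +
      (z - z * p ^ 2 * (4 * l * z - 1) + z ^ 2 * p ^ 4 * (-10 * z - l) -
        z ^ 3 * m * (2 - 6 * l * z + 3 * z ^ 2))) := by
  grind

/-- a root of a cubic polynomial -/
theorem cubic3 {t1 t2 g : v.adicCompletion F} (h1 : vf v t1 ≤ 1) (h2 : vf v t2 = 1)
    (hg : vf v g < 1) : ∃ s, s ^ 3 + t1 * s ^ 2 + t2 * s + g = 0 := by
  set p : (v.adicCompletion F)[X] := X ^ 3 + C t1 * X ^ 2 + C t2 * X + C g with hp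
  have hev : ∀ y, p.eval y = y ^ 3 + t1 * y ^ 2 + t2 * y + g := by
    intro y
    rw [hp]
    simp only [eval_add, eval_mul, eval_pow, eval_X, eval_C]
  have hder : ∀ y, (derivative p).eval y = 3 * y ^ 2 + 2 * t1 * y + t2 := by
    intro y
    rw [hp]
    simp only [derivative_add, derivative_C, derivative_mul, derivative_X_pow, derivative_X,
      eval_add, eval_mul, eval_pow, eval_X, eval_C, eval_zero, eval_one,
      Nat.cast_ofNat]
    ring
  have hco : ∀ i, vf v (p.coeff i) ≤ 1 := by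
    intro i
    rw [hp]
    simp only [coeff_add, coeff_C_mul, coeff_X_pow, coeff_X, coeff_C]
    have a1 : ∀ {x y : v.adicCompletion F}, vf v x ≤ 1 → vf v y ≤ 1 → vf v (x + y) ≤ 1 :=
      fun hx hy => (vf v).map_add_le hx hy
    have a2 : ∀ {x y : v.adicCompletion F}, vf v x ≤ 1 → vf v y ≤ 1 → vf v (x * y) ≤ 1 :=
      fun hx hy => by
        rw [map_mul]
        exact mul_le_one' hx hy
    have a3 : ∀ (q : Prop) [Decidable q], vf v (if q then 1 else 0) ≤ 1 := by
      intro q _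
      split_ifs
      · rw [map_one]
      · rw [map_zero]; exact zero_le
    refine a1 (a1 (a1 (a3 _) (a2 h1 (a3 _))) (a2 h2.le (a3 _))) ?_
    split_ifs
    · exact hg.le
    · rw [map_zero]; exact zero_le
  obtain ⟨y, hy, -⟩ := Pool.Agent.N883.SX.HenBase.hensel v p hco (a := 0)
    (by rw [map_zero]; exact zero_le) (by rw [hev]; simpa using hg) (by
      rw [hder]; simpa using h2)
  exact ⟨y, by rw [hev] at hy; exact hy⟩

/-- **local solutions of the second cubic above three** -/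
theorem cur1 {p : v.adicCompletion F} (h : LW (vf v) p) {l z : v.adicCompletion F}
    (hl : l ^ 2 = -3) (hz : vf v z ≤ 1) (hz3 : vf v (z ^ 3 - z) < 1) :
    ∃ a b c : v.adicCompletion F, (a ≠ 0 ∨ b ≠ 0 ∨ c ≠ 0) ∧
      a ^ 3 + (1 + l ^ 3 * z) * b ^ 3 + (1 + l ^ 3 * z) ^ 2 * c ^ 3 +
        6 * (1 + l ^ 3 * z) * a * b * c = 0 := by
  have hvl : vf v l = exp (-3) := by
    apply pow2_exp
    rw [← map_pow, hl, Valuation.map_neg, h.three]
    norm_num
  have h3 : (3 : v.adicCompletion F) ≠ 0 := by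
    intro h0
    have := h.three
    rw [h0, map_zero] at this
    exact exp_ne_zero this.symm
  have hp0 : p ≠ 0 := by
    intro h0
    have := h.pi
    rw [h0, map_zero] at this
    exact exp_ne_zero this.symm
  have hl0 : l ≠ 0 := by
    intro h0
    rw [h0, map_zero] at hvl
    exact exp_ne_zero hvl.symm
  obtain ⟨m, hm⟩ : ∃ m, m = p ^ 6 / 3 := ⟨_, rfl⟩
  have hp6 : p ^ 6 = 3 * m := by rw [hm, mul_div_cancel₀ _ h3]
  -- `m` is `-1` modulo the maximal ideal
  obtain ⟨x, hx⟩ : ∃ x, x = p ^ 3 / l := ⟨_, rfl⟩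
  have hvx : vf v x = 1 := by
    rw [hx, map_div₀, map_pow, h.pi, hvl, ← exp_nsmul, ← exp_sub, ← exp_zero]
    norm_num
  obtain ⟨n, hn3, hn⟩ := h.res x hvx.le
  have ox : OO (vf v) 0 x := by rw [oo_zero_iff, hvx]
  have oz : OO (vf v) 0 z := by rw [oo_zero_iff]; exact hz
  have ol : OO (vf v) 1 l := by
    unfold OO
    rw [hvl, exp_le_exp]
    norm_num
  have op : OO (vf v) 1 p := by
    unfold OO
    rw [h.pi]
  have o3 : OO (vf v) 1 (3 : v.adicCompletion F) := h.t.mono (by norm_num)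
  have hmx : m = -x ^ 2 := by
    rw [hm, hx, div_eq_iff h3, div_pow]
    field_simp
    rw [hl]
  have hx2 : OO (vf v) 1 (x ^ 2 - 1) := by
    have hn0 : n ≠ 0 := by
      rintro rfl
      rw [Int.cast_zero, sub_zero, hvx] at hn
      exact lt_irrefl _ hn
    have hn2 : n ^ 2 = 1 := by
      have : n * (n ^ 2 - 1) = 0 := by linear_combination hn3
      rcases mul_eq_zero.1 this with h5 | h5
      · exact absurd h5 hn0
      · linarith
    have hn2' : (n : v.adicCompletion F) ^ 2 = 1 := by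
      have := congrArg (Int.cast : ℤ → v.adicCompletion F) hn2
      push_cast at this
      exact this
    have e : x ^ 2 - 1 = (x - n) * (x + n) := by linear_combination hn2'
    rw [e]
    exact OO.mulr (oo_lt hn) (ox.add (oo_int n))
  have om1 : OO (vf v) 1 (m + 1) := by
    have e : m + 1 = -(x ^ 2 - 1) := by rw [hmx]; ring
    rw [e]
    exact hx2.neg
  have om : OO (vf v) 0 m := by
    have e : m = (m + 1) - 1 := by ring
    rw [e]
    exact (om1.mono (by norm_num)).sub oo_one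
  have oz3 : OO (vf v) 1 (z ^ 3 - z) := oo_lt hz3
  have op2 : OO (vf v) 1 (p ^ 2) := (op.pow 2).mono (by norm_num)
  have op4 : OO (vf v) 1 (p ^ 4) := (op.pow 4).mono (by norm_num)
  have olz : OO (vf v) 0 (4 * l * z - 1) :=
    (OO.mulr (OO.mull (oo_ofNat 4) (ol.mono (by norm_num))) oz).sub oo_one
  have oz2 : OO (vf v) 0 (z ^ 2) := (oz.pow 2).mono (by norm_num)
  have oz3' : OO (vf v) 0 (z ^ 3) := (oz.pow 3).mono (by norm_num)
  obtain ⟨s, hs⟩ := cubic3 (v := v) (t1 := l + z * p ^ 2)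
    (t2 := -1 - 6 * z ^ 2 * p ^ 2 + z ^ 2 * p ^ 4 * (4 * l * z - 1))
    (g := z - z * p ^ 2 * (4 * l * z - 1) + z ^ 2 * p ^ 4 * (-10 * z - l) -
        z ^ 3 * m * (2 - 6 * l * z + 3 * z ^ 2))
    (by
      rw [← oo_zero_iff]
      exact (ol.mono (by norm_num)).add (OO.mull oz (op2.mono (by norm_num))))
    (by
      have e : -1 - 6 * z ^ 2 * p ^ 2 + z ^ 2 * p ^ 4 * (4 * l * z - 1) =
          -(1 + (6 * z ^ 2 * p ^ 2 - z ^ 2 * p ^ 4 * (4 * l * z - 1))) := by ring
      rw [e, Valuation.map_neg]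
      apply Valuation.map_one_add_of_lt
      refine OO.lt (n := 1) ?_ le_rfl
      exact (OO.mull (OO.mulr (oo_ofNat 6) oz2) op2).sub (OO.mulr (OO.mull oz2 op4) olz))
    (by
      have e : z - z * p ^ 2 * (4 * l * z - 1) + z ^ 2 * p ^ 4 * (-10 * z - l) -
          z ^ 3 * m * (2 - 6 * l * z + 3 * z ^ 2) =
          -(z * p ^ 2 * (4 * l * z - 1)) + z ^ 2 * p ^ 4 * (-10 * z - l) +
            (3 * z ^ 3 - (z ^ 3 - z) - 2 * (z ^ 3 * (m + 1))) -
              z ^ 3 * m * (3 * (z ^ 2) - 6 * l * z) := by ring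
      rw [e]
      refine OO.lt (n := 1) ?_ le_rfl
      refine OO.sub (OO.add (OO.add ?_ ?_) ?_) ?_
      · exact (OO.mulr (OO.mull oz op2) olz).neg
      · refine OO.mulr (OO.mull oz2 op4) ?_
        exact (OO.mulr (oo_ofNat 10).neg oz).sub (ol.mono (by norm_num))
      · exact ((OO.mulr o3 oz3').sub oz3).sub (OO.mull (oo_ofNat 2) (OO.mull oz3' om1))
      · refine OO.mull (OO.mulr oz3' om) ?_
        exact (OO.mulr o3 oz2).sub (OO.mulr (OO.mull (oo_ofNat 6) ol) oz))
  refine ⟨-l - z * p ^ 2 + l ^ 2 * s, l + 2 * z * p ^ 2, -(z * p ^ 2), ?_, ?_⟩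
  · by_contra hcon
    push Not at hcon
    obtain ⟨-, h5, h6⟩ := hcon
    apply hl0
    linear_combination h5 + 2 * h6
  · rw [poly_id l p z s m hl hp6, hs, mul_zero]

end

end Pool.Agent.T9h31
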