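import Pool.Agent.T9h31.Cur1
import Pool.Agent.N883.SY.Div
import Pool.Agent.N883.SY.Loc
import Pool.Agent.N883.SY.Ch
import Pool.Agent.N883.SY.Filf
import Pool.Agent.N883.SY.Lap3
import Pool.Agent.N883.SY.C2s
import Pool.Agent.N883.SY.C3s
import Pool.Agent.N883.SY.Val
import Pool.Agent.N883.SX.Main

/-!
# The classes of the Selmer group of `√-3` over `F = K(θ)`: exact upper bound

`θ³ = D = 1 + 3 m`, the norm of `D` is not `1` modulo `9`.  The elements of `F` modulo cubes with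
valuations divisible by three outside three and congruent to a cube modulo `p⁴` above three:
at most `3^t` classes, if the Laplacian has no kernel but the constants.
-/

set_option autoImplicit false
set_option linter.unusedVariables false
set_option linter.unusedSectionVars false

open scoped Classical

namespace Pool.Agent.T9h31

open NumberField IsDedekindDomain WithZero
open Pool.Agent.Y692.QS (Ei w nr)
open Pool.Agent.Y715.T.Gi (lam lam_sq prime_lam)
open Pool.Agent.Y715.T.Rec (cs)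
open Pool.Agent.Y703.CT (Dt pD Ker)
open Pool.Agent.N883.FF (pB nq KerB)
open Pool.Agent.N883.SY (UU HasCl KT IT GD EqK el bx val_sigma divG locG chG filfG red0)
open Pool.Agent.N883.SX (jF jF_inj wF)
open Pool.Agent.Y696.CTE (Cub partsE)

section lev
variable {F : Type} [Field F] [NumberField F]

/-- congruent to a cube modulo the fourth power of the prime above three -/
def LV (b : F) : Prop := ∀ v : HeightOneSpectrum (𝓞 F), (3 : 𝓞 F) ∈ v.asIdeal →
  ∃ c : F, c ≠ 0 ∧ OO (v.valuation F) 4 (b * c ^ 3 - 1)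

/-- the local conditions of the Selmer group -/
def UL (b : F) : Prop := UU b ∧ LV b

lemma LV.mul {b b' : F} (h : LV b) (h' : LV b') : LV (b * b') := by
  intro v hv
  obtain ⟨c, hc, o⟩ := h v hv
  obtain ⟨c', hc', o'⟩ := h' v hv
  refine ⟨c * c', mul_ne_zero hc hc', ?_⟩
  have e : b * b' * (c * c') ^ 3 - 1 = (b * c ^ 3 - 1) * (b' * c' ^ 3 - 1) + (b * c ^ 3 - 1) +
      (b' * c' ^ 3 - 1) := by ring
  rw [e]
  exact (((o.mul o').mono (by norm_num)).add o).add o'

lemma LV.inv {b : F} (hb : b ≠ 0) (h : LV b) : LV b⁻¹ := by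
  intro v hv
  obtain ⟨c, hc, o⟩ := h v hv
  exact ⟨c⁻¹, inv_ne_zero hc, oo_inv hc hb (by norm_num) o⟩

lemma LV.cube {c : F} (hc : c ≠ 0) : LV (c ^ 3) := by
  intro v hv
  refine ⟨c⁻¹, inv_ne_zero hc, ?_⟩
  rw [← mul_pow, mul_inv_cancel₀ hc, one_pow, sub_self]
  unfold OO
  rw [map_zero]
  exact zero_le

lemma LV.sigma (σ : F ≃+* F) {b : F} (h : LV b) : LV (σ b) := by
  intro v hv
  obtain ⟨v', h3, hv'⟩ := val_sigma σ v
  obtain ⟨c, hc, o⟩ := h v' (h3.2 hv)
  refine ⟨σ c, (map_ne_zero σ).2 hc, ?_⟩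
  unfold OO at o ⊢
  rw [← hv'] at o
  rwa [map_sub, map_mul, map_pow, map_one] at o

lemma UL.mul {b b' : F} (h : UL b) (h' : UL b') : UL (b * b') := ⟨h.1.mul h'.1, h.2.mul h'.2⟩

lemma UL.inv {b : F} (h : UL b) : UL b⁻¹ := ⟨h.1.inv, h.2.inv h.1.1⟩

lemma UL.cube {c : F} (hc : c ≠ 0) : UL (c ^ 3) := ⟨Pool.Agent.N883.SY.UU.cube hc, LV.cube hc⟩

lemma UL.sigma (σ : F ≃+* F) {b : F} (h : UL b) : UL (σ b) := ⟨h.1.sigma σ, h.2.sigma σ⟩

lemma UL.mulc {b c : F} (h : UL (b * c ^ 3)) (hc : c ≠ 0) : UL b := by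
  have h1 := h.mul (UL.cube hc).inv
  rwa [mul_assoc, mul_inv_cancel₀ (pow_ne_zero 3 hc), mul_one] at h1

section nolam
variable {lm θ u : 𝓞 F}

lemma val_two {v : HeightOneSpectrum (𝓞 F)} (h6 : v.valuation F 3 = exp (-6)) :
    v.valuation F 2 = 1 := by
  have h1 : v.valuation F (-(3 : F)) < 1 := by
    rw [Valuation.map_neg, h6, ← exp_zero, exp_lt_exp]
    norm_num
  have h2 := Valuation.map_one_add_of_lt (v.valuation F) h1
  have e : (1 : F) + -3 = -2 := by norm_num
  rwa [e, Valuation.map_neg] at h2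

lemma sgn (h : TD lm θ u) (v : HeightOneSpectrum (𝓞 F)) (hv : (3 : 𝓞 F) ∈ v.asIdeal) :
    ∃ ε : F, ε ^ 2 = 1 ∧ OO (v.valuation F) 3 ((u : F) - ε) := by
  obtain ⟨h6, h7, h8⟩ := h.un v hv
  rw [h.vlm v hv] at h8
  have e : ((u ^ 2 - 1 : 𝓞 F) : F) = ((u : F) - 1) * ((u : F) + 1) := by
    have e1 : ((u ^ 2 - 1 : 𝓞 F) : F) = (u : F) ^ 2 - 1 := by
      rw [RingOfIntegers.coe_eq_algebraMap, map_sub, map_pow, map_one]
    rw [e1]
    ring
  rw [e, map_mul] at h8
  have h2 := val_two h6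
  have hlt : v.valuation F ((u : F) - 1) * v.valuation F ((u : F) + 1) < 1 := by
    refine lt_of_le_of_lt h8 ?_
    rw [← exp_zero, exp_lt_exp]
    norm_num
  rcases lt_or_ge (v.valuation F ((u : F) - 1)) 1 with h9 | h9
  · refine ⟨1, one_pow 2, ?_⟩
    have h10 : v.valuation F ((u : F) + 1) = 1 := by
      have e2 : (u : F) + 1 = 2 + ((u : F) - 1) := by ring
      rw [e2, ← h2]
      apply Valuation.map_add_eq_of_lt_left
      rw [h2]
      exact h9
    rw [h10, mul_one] at h8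
    exact h8
  · have h11 : v.valuation F ((u : F) + 1) < 1 := by
      by_contra h12
      rw [not_lt] at h12
      exact absurd (one_le_mul h9 h12) (not_le.2 hlt)
    refine ⟨-1, by norm_num, ?_⟩
    have h10 : v.valuation F ((u : F) - 1) = 1 := by
      have e2 : (u : F) - 1 = -2 + ((u : F) + 1) := by ring
      have h2' : v.valuation F (-2 : F) = 1 := by rw [Valuation.map_neg]; exact h2
      rw [e2, ← h2']
      apply Valuation.map_add_eq_of_lt_left
      rw [h2']
      exact h11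
    rw [h10, one_mul] at h8
    unfold OO
    rw [sub_neg_eq_add]
    exact h8

/-- `√-3` is not in the group -/
theorem no_lam (h : TD lm θ u) (v : HeightOneSpectrum (𝓞 F)) (hv : (3 : 𝓞 F) ∈ v.asIdeal)
    {g c : F} (hg : OO (v.valuation F) 3 (g - 1))
    (hc : OO (v.valuation F) 4 (g * lm * c ^ 3 - 1)) : False := by
  obtain ⟨ε, hε, hu⟩ := sgn h v hv
  have h6 := h.vth v hv
  have hlw := h.lwF v hv
  have e3 : (θ : F) ^ 3 = 1 + 3 * (u : F) := by
    have := congrArg (algebraMap (𝓞 F) F) h.cube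
    rw [map_pow, map_add, map_mul, map_one, map_ofNat] at this
    exact this
  have el : (lm : F) ^ 2 = -3 := by
    have := congrArg (algebraMap (𝓞 F) F) h.sq
    rw [map_pow, map_neg, map_ofNat] at this
    exact this
  have hθ1 : (θ : F) - 1 ≠ 0 := by
    intro h0
    rw [h0, map_zero] at h6
    exact exp_ne_zero h6.symm
  have hlm0 : (lm : F) ≠ 0 := by
    intro h0
    rw [h0] at el
    norm_num at el
  obtain ⟨κ, hκ⟩ : ∃ κ : F, κ = θ * (θ - 1) - u := ⟨_, rfl⟩
  have hκ3 : κ * (lm : F) ^ 2 = ((θ : F) - 1) ^ 3 := by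
    rw [hκ, el]
    linear_combination -e3
  have hκl : κ * ((lm : F) / ((θ : F) - 1)) ^ 3 = lm := by
    rw [div_pow, ← mul_div_assoc, div_eq_iff (pow_ne_zero 3 hθ1), ← hκ3]
    ring
  have vε : v.valuation F ε = 1 := by
    have h1 : v.valuation F ε ^ 2 = 1 := by rw [← map_pow, hε, map_one]
    rcases lt_trichotomy (v.valuation F ε) 1 with h2 | h2 | h2
    · exact absurd h1 (pow_lt_one₀ zero_le h2 two_ne_zero).ne
    · exact h2
    · exact absurd h1 (one_lt_pow₀ h2 two_ne_zero).ne'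
  have oε : OO (v.valuation F) 0 ε := by rw [oo_zero_iff, vε]
  have vg : v.valuation F g = 1 := by
    have := Valuation.map_one_add_of_lt (v.valuation F) (hg.lt (by norm_num))
    rwa [add_sub_cancel] at this
  have og : OO (v.valuation F) 0 g := by rw [oo_zero_iff, vg]
  have vθ : v.valuation F (θ : F) = 1 := by
    have h1 : v.valuation F ((θ : F) - 1) < 1 := by
      rw [h6, ← exp_zero, exp_lt_exp]
      norm_num
    have := Valuation.map_one_add_of_lt (v.valuation F) h1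
    rwa [add_sub_cancel] at this
  have hz : v.valuation F (-ε * g * κ - 1) = exp (-2) := by
    have e1 : -ε * g * κ - 1 = -(ε * g * θ * (θ - 1)) + (ε * g * (u - ε) + (g - 1)) := by
      rw [hκ]
      linear_combination g * hε
    have v1 : v.valuation F (-(ε * g * θ * (θ - 1))) = exp (-2) := by
      rw [Valuation.map_neg, map_mul, map_mul, map_mul, vε, vg, vθ, h6, one_mul, one_mul, one_mul]
    have o2 : OO (v.valuation F) 3 (ε * g * (u - ε) + (g - 1)) :=
      (OO.mull (OO.mulr oε og) hu).add hg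
    rw [e1, ← v1]
    apply Valuation.map_add_eq_of_lt_left
    rw [v1]
    refine lt_of_le_of_lt o2 ?_
    rw [exp_lt_exp]
    norm_num
  refine lev_two hlw (z := -ε * g * κ) (c := -ε * (c * ((lm : F) / ((θ : F) - 1)))) hz ?_
  have e1 : -ε * g * κ * (-ε * (c * ((lm : F) / ((θ : F) - 1)))) ^ 3 = g * lm * c ^ 3 := by
    have e2 : -ε * g * κ * (-ε * (c * ((lm : F) / ((θ : F) - 1)))) ^ 3 =
        (ε ^ 2) ^ 2 * g * c ^ 3 * (κ * ((lm : F) / ((θ : F) - 1)) ^ 3) := by ring
    rw [e2, hκl, hε]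
    ring
  rw [e1]
  exact hc

end nolam

/-- there is a place above three -/
lemma ex_three : ∃ v : HeightOneSpectrum (𝓞 F), (3 : 𝓞 F) ∈ v.asIdeal := by
  have hne : (3 : 𝓞 F) ≠ 0 := by norm_num
  have hnu : ¬ IsUnit (3 : 𝓞 F) := by
    intro h
    have h1 := h.map (Algebra.norm ℤ)
    have h2 : Algebra.norm ℤ (algebraMap ℤ (𝓞 F) 3) = 3 ^ Module.finrank ℤ (𝓞 F) :=
      Algebra.norm_algebraMap (S := 𝓞 F) (3 : ℤ)
    rw [map_ofNat] at h2
    rw [h2] at h1
    have h3 : Module.finrank ℤ (𝓞 F) ≠ 0 := by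
      rw [RingOfIntegers.rank]
      exact (Module.finrank_pos (R := ℚ) (M := F)).ne'
    have h4 := (isUnit_pow_iff h3).1 h1
    rw [Int.isUnit_iff] at h4
    omega
  obtain ⟨M, hM, hle⟩ := Ideal.exists_le_maximal (Ideal.span {(3 : 𝓞 F)})
    (fun h => hnu (Ideal.span_singleton_eq_top.1 h))
  have h3 : (3 : 𝓞 F) ∈ M := hle (Ideal.mem_span_singleton_self _)
  exact ⟨⟨M, hM.isPrime, fun h => by rw [h, Ideal.mem_bot] at h3; exact hne h3⟩, h3⟩

end lev

/-! ### the elements of `K` -/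

section
variable {K : Type} [Field K] [NumberField K] (j : Ei ≃+* 𝓞 K)
variable {F : Type} [Field F] [NumberField F] [Algebra K F]

lemma jK (x : Ei) : algebraMap K F ((j x : 𝓞 K) : K) = algebraMap (𝓞 F) F (jF j F x) := by
  show algebraMap K F (algebraMap (𝓞 K) K (j x)) = algebraMap (𝓞 F) F (algebraMap (𝓞 K) (𝓞 F) (j x))
  rw [← IsScalarTower.algebraMap_apply (𝓞 K) K F, ← IsScalarTower.algebraMap_apply (𝓞 K) (𝓞 F) F]

lemma jK_ne {x : Ei} (hx : x ≠ 0) : ((j x : 𝓞 K) : K) ≠ 0 := by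
  intro h
  have h1 : j x = 0 := RingOfIntegers.coe_injective (h.trans (map_zero _).symm)
  exact hx (j.injective (h1.trans (map_zero j).symm))

lemma te_eq : Pool.Agent.Y350.CTK.Tam.te = lam := rfl

/-- the data above three -/
theorem td_of {D : Ei} {θ : 𝓞 F} (hC : Cub j D θ) (h3 : (3 : Ei) ∣ D - 1)
    (h9 : ¬ (9 : ℤ) ∣ nr D - 1) (hF : Module.finrank ℚ F = 6) :
    ∃ m : Ei, D = 1 + 3 * m ∧ ¬ lam ∣ m ∧ TD (jF j F lam) θ (jF j F m) := by
  obtain ⟨m, hm⟩ := h3
  have hD : D = 1 + 3 * m := by rw [← hm]; ring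
  have hlm : ¬ lam ∣ m := by
    rw [← te_eq]
    exact Pool.Agent.Y350.CTK.Tam.te_m (by rw [← hD]; exact h9)
  have hsq : (jF j F lam) ^ 2 = -3 := by
    rw [← map_pow, lam_sq, map_neg, map_ofNat]
  refine ⟨m, hD, hlm, hF, hsq, ?_, fun v hv => ?_⟩
  · rw [hC.cube, ← map_ofNat (jF j F) 3, ← map_one (jF j F), ← map_mul, ← map_add, ← hD]
    rfl
  · have h6 := partsE.e6 K F j D θ hC ⟨m, hm⟩ h9 v hv
    refine ⟨h6, ?_⟩
    obtain ⟨k, hk⟩ : lam ∣ m ^ 2 - 1 := by
      rcases Pool.Agent.Y350.CTK.Tam.te_mod m with h | h | h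
      · exact absurd (by rw [← te_eq]; exact h) hlm
      · rw [te_eq] at h
        have e : m ^ 2 - 1 = (m - 1) * (m + 1) := by ring
        rw [e]
        exact h.mul_right _
      · rw [te_eq] at h
        have e : m ^ 2 - 1 = (m + 1) * (m - 1) := by ring
        rw [e]
        exact h.mul_right _
    have hvl : v.valuation F ((jF j F lam : 𝓞 F) : F) = exp (-3) := by
      apply pow2_exp
      rw [← map_pow]
      have e : ((jF j F lam : 𝓞 F) : F) ^ 2 = -3 := by
        have := congrArg (algebraMap (𝓞 F) F) hsq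
        rw [map_pow, map_neg, map_ofNat] at this
        exact this
      rw [e, Valuation.map_neg, h6]
      norm_num
    have e1 : ((jF j F m) ^ 2 - 1 : 𝓞 F) = jF j F lam * jF j F k := by
      rw [← map_mul, ← hk, map_sub, map_pow, map_one]
    have hle : v.valuation F (((jF j F m) ^ 2 - 1 : 𝓞 F) : F) ≤ v.valuation F ((jF j F lam : 𝓞 F) : F) := by
      rw [e1, RingOfIntegers.coe_eq_algebraMap, map_mul, map_mul]
      exact (mul_le_mul' le_rfl (v.valuation_le_one _)).trans (by rw [mul_one])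
    refine ⟨?_, hle⟩
    have h7 : v.valuation F (((jF j F m) ^ 2 - 1 : 𝓞 F) : F) < 1 := by
      refine lt_of_le_of_lt hle ?_
      rw [hvl, ← exp_zero, exp_lt_exp]
      norm_num
    have h8 := Valuation.map_one_add_of_lt (v.valuation F) h7
    have e2 : (1 : F) + (((jF j F m) ^ 2 - 1 : 𝓞 F) : F) = ((jF j F m : 𝓞 F) : F) ^ 2 := by
      rw [RingOfIntegers.coe_eq_algebraMap, map_sub, map_pow, map_one]
      ring
    rw [e2, map_pow] at h8
    rcases lt_trichotomy (v.valuation F ((jF j F m : 𝓞 F) : F)) 1 with h2 | h2 | h2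
    · exact absurd h8 (pow_lt_one₀ zero_le h2 two_ne_zero).ne
    · exact h2
    · exact absurd h8 (one_lt_pow₀ h2 two_ne_zero).ne'

variable {J : Type} [Fintype J] {π : J → Ei} {e : J → ZMod 3}

lemma w_mod : lam ∣ w - 1 := ⟨-w ^ 2, by decide⟩

/-- the product is one modulo `√-3` -/
lemma lam_prod (hD : Dt π e) (a : ZMod 3) (x : J → ZMod 3) : lam ∣ w ^ a.val * bx π x - 1 := by
  have h3 : lam ∣ 3 := ⟨-lam, by
    have := lam_sq
    linear_combination this⟩
  rw [← Ideal.mem_span_singleton, ← Ideal.Quotient.eq_zero_iff_mem, map_sub, map_mul, map_pow,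
    sub_eq_zero]
  have hw : Ideal.Quotient.mk (Ideal.span {lam}) w = 1 := by
    rw [← map_one (Ideal.Quotient.mk (Ideal.span {lam})), Ideal.Quotient.eq, Ideal.mem_span_singleton]
    exact w_mod
  have hp : ∀ k, Ideal.Quotient.mk (Ideal.span {lam}) (π k) = 1 := by
    intro k
    rw [← map_one (Ideal.Quotient.mk (Ideal.span {lam})), Ideal.Quotient.eq, Ideal.mem_span_singleton]
    exact h3.trans (hD.pq k).three
  have hb : Ideal.Quotient.mk (Ideal.span {lam}) (bx π x) = 1 := by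
    unfold bx
    rw [map_prod]
    refine Finset.prod_eq_one fun k _ => ?_
    rw [map_pow, hp, one_pow]
  rw [hw, hb, one_pow, one_mul, map_one]

/-- the elements of `K` in the group -/
theorem el_zero {θ : 𝓞 F} {m : Ei} (hD : Dt π e) (hT : TD (jF j F lam) θ (jF j F m))
    {a β : ZMod 3} {x : J → ZMod 3} {C : F} (hC : C ≠ 0)
    (h : LV (algebraMap K F ((j (el π a β x) : 𝓞 K) : K) * C ^ 3)) : β = 0 := by
  obtain ⟨v, hv⟩ := ex_three (F := F)
  obtain ⟨g, hg⟩ : ∃ g : F, g = algebraMap (𝓞 F) F (jF j F (w ^ a.val * bx π x)) := ⟨_, rfl⟩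
  obtain ⟨L, hL⟩ : ∃ L : F, L = algebraMap (𝓞 F) F (jF j F lam) := ⟨_, rfl⟩
  have vL : v.valuation F L = exp (-3) := by rw [hL]; exact hT.vlm v hv
  have hL0 : L ≠ 0 := by
    intro h0
    rw [h0, map_zero] at vL
    exact exp_ne_zero vL.symm
  have og : OO (v.valuation F) 3 (g - 1) := by
    obtain ⟨k, hk⟩ := lam_prod hD a x
    have e1 : g - 1 = L * algebraMap (𝓞 F) F (jF j F k) := by
      rw [hg, hL, ← map_mul, ← map_mul, ← hk, map_sub, map_sub, map_one, map_one]
    rw [e1]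
    refine OO.mulr ?_ ?_
    · unfold OO
      rw [vL]
    · rw [oo_zero_iff]
      exact v.valuation_le_one _
  have vg : v.valuation F g = 1 := by
    have := Valuation.map_one_add_of_lt (v.valuation F) (og.lt (by norm_num))
    rwa [add_sub_cancel] at this
  have hg0 : g ≠ 0 := by
    intro h0
    rw [h0, map_zero] at vg
    exact zero_ne_one vg
  have hel : algebraMap K F ((j (el π a β x) : 𝓞 K) : K) = g * L ^ β.val := by
    rw [jK, hg, hL]
    unfold el
    rw [← map_pow, ← map_pow, ← map_mul, ← map_mul]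
    congr 2
    ring
  rw [hel] at h
  have hcases : ∀ β : ZMod 3, β = 0 ∨ β = 1 ∨ β = 2 := by decide
  rcases hcases β with h0 | h0 | h0
  · exact h0
  · exfalso
    subst h0
    obtain ⟨c, hc, o⟩ := h v hv
    refine no_lam hT v hv (g := g) (c := C * c) og ?_
    have e1 : g * L * (C * c) ^ 3 - 1 = g * L ^ (1 : ZMod 3).val * C ^ 3 * c ^ 3 - 1 := by
      rw [show (1 : ZMod 3).val = 1 from rfl]
      ring
    have e0 : ((jF j F lam : 𝓞 F) : F) = L := hL.symm
    rw [e0, e1]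
    exact o
  · exfalso
    subst h0
    have hne : g * L ^ (2 : ZMod 3).val * C ^ 3 ≠ 0 :=
      mul_ne_zero (mul_ne_zero hg0 (pow_ne_zero _ hL0)) (pow_ne_zero _ hC)
    obtain ⟨c, hc, o⟩ := h.inv hne v hv
    refine no_lam hT v hv (g := g⁻¹) (c := L⁻¹ * C⁻¹ * c) ?_ ?_
    · have e1 : g⁻¹ - 1 = -(g - 1) * g⁻¹ := by
        field_simp
        ring
      rw [e1]
      refine OO.mulr og.neg ?_
      rw [oo_zero_iff, map_inv₀, vg, inv_one]
    · have e1 : g⁻¹ * L * (L⁻¹ * C⁻¹ * c) ^ 3 - 1 =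
          (g * L ^ (2 : ZMod 3).val * C ^ 3)⁻¹ * c ^ 3 - 1 := by
        rw [show (2 : ZMod 3).val = 2 from rfl]
        field_simp
      have e0 : ((jF j F lam : 𝓞 F) : F) = L := hL.symm
      rw [e0, e1]
      exact o

end

end Pool.Agent.T9h31
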