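import Pool.Agent.T9h31.Sel

/-!
# The classes of the Selmer group of `√-3` over `F = K(θ)`: exact upper bound, second part
-/

set_option autoImplicit false
set_option linter.unusedVariables false
set_option linter.unusedSectionVars false

open scoped Classical

namespace Pool.Agent.T9h31

open NumberField IsDedekindDomain WithZero
open Pool.Agent.Y692.QS (Ei w nr)
open Pool.Agent.Y715.T.Gi (lam lam_sq prime_lam)
open Pool.Agent.Y715.T.Rec (cs)
open Pool.Agent.Y703.CT (Dt pD Ker)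
open Pool.Agent.N883.FF (pB nq KerB)
open Pool.Agent.N883.SY (UU HasCl KT IT GD EqK el bx val_sigma divG locG chG filfG red0)
open Pool.Agent.N883.SX (jF jF_inj wF)
open Pool.Agent.Y696.CTE (Cub partsE)

section
variable {K : Type} [Field K] [NumberField K] {j : Ei ≃+* 𝓞 K}
variable {F : Type} [Field F] [NumberField F] [Algebra K F]
variable {J : Type} [Fintype J] {π : J → Ei} {e : J → ZMod 3} {θ : 𝓞 F} {σ : F ≃ₐ[K] F}

lemma W_rel (j : Ei ≃+* 𝓞 K) : ((j w : 𝓞 K) : K) ^ 2 + ((j w : 𝓞 K) : K) + 1 = 0 := by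
  have h1 : (w : Ei) ^ 2 + w + 1 = 0 := by decide
  have h2 := congrArg (fun t : Ei => algebraMap (𝓞 K) K (j t)) h1
  simp only [map_add, map_pow, map_one, map_zero] at h2
  exact h2

lemma W_cube (j : Ei ≃+* 𝓞 K) : ((j w : 𝓞 K) : K) ^ 3 = 1 := by
  linear_combination (((j w : 𝓞 K) : K) - 1) * W_rel j

lemma W_ne (j : Ei ≃+* 𝓞 K) : ((j w : 𝓞 K) : K) ≠ 0 := by
  intro h0
  have := W_cube j
  rw [h0] at this
  norm_num at this

/-- the third roots of unity are not norms -/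
theorem nw (hD : Dt π e) (hG : GD j (pB π e 0) θ σ) (h9 : ¬ (9 : ℤ) ∣ nr (pD π e) - 1)
    {c : F} (hc : c ≠ 0) {m : ZMod 3}
    (h : Algebra.norm K c = ((j w : 𝓞 K) : K) ^ m.val) : m = 0 := by
  have key : ∀ k, nq (π k) * m = 0 := by
    intro k
    obtain ⟨r, u, v, z, C, hu, hv, huv, hC, heq⟩ := locG K F j J π e 0 θ σ hD hG c hc k
    obtain ⟨h2, h3⟩ := chG K j J π e 0 hD m 0 (fun _ => 0) k r u v z 1 C hu hv huv one_ne_zero hC (by
      rw [one_pow, mul_one, ← heq, h]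
      have e1 : el π m 0 (fun _ => 0) = w ^ m.val := by
        unfold el bx
        simp
      rw [e1, map_pow]
      rfl)
    have hr : r = 0 := by
      rcases mul_eq_zero.1 h2.symm with h4 | h4
      · exact h4
      · exact absurd h4 (hD.e0 k)
    rw [hr] at h3
    simpa using h3
  by_contra hm
  refine Pool.Agent.N883.SY.Lap3.sum_ne hD h9 (Finset.sum_eq_zero fun k _ => ?_)
  rcases mul_eq_zero.1 (key k) with h4 | h4
  · rw [h4, mul_zero]
  · exact absurd h4 hm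

/-- an element with trivial cube of the norm has norm one -/
lemma norm_one (hD : Dt π e) (hG : GD j (pB π e 0) θ σ) (h9 : ¬ (9 : ℤ) ∣ nr (pD π e) - 1)
    {c : F} (hc : c ≠ 0) (h : (Algebra.norm K c) ^ 3 = 1) : Algebra.norm K c = 1 := by
  obtain ⟨m, hm⟩ := Pool.Agent.N883.SY.C3.cube_roots (W_rel j) h
  have h0 := nw hD hG h9 hc hm
  rw [hm, h0, ZMod.val_zero, pow_zero]

lemma theta3 (hG : GD j (pB π e 0) θ σ) :
    (θ : F) ^ 3 = algebraMap K F ((j (pB π e 0) : 𝓞 K) : K) := by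
  have h1 := congrArg (algebraMap (𝓞 F) F) hG.cube
  rw [map_pow] at h1
  rw [h1]
  rw [jK]
  rfl

lemma D_ne (hG : GD j (pB π e 0) θ σ) : ((j (pB π e 0) : 𝓞 K) : K) ≠ 0 := jK_ne j hG.ne0

lemma theta_ne (hG : GD j (pB π e 0) θ σ) : (θ : F) ≠ 0 := by
  intro h0
  have h1 := theta3 hG
  rw [h0, zero_pow three_ne_zero] at h1
  exact D_ne hG ((map_eq_zero _).1 h1.symm)

/-- the invariant classes come from `K` -/
theorem redK (hD : Dt π e) (hG : GD j (pB π e 0) θ σ) (h9 : ¬ (9 : ℤ) ∣ nr (pD π e) - 1)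
    {m : Ei} (hT : TD (jF j F lam) θ (jF j F m)) (k₀ : J) {b : F} (hb : UL b)
    (hk : KT σ b) : ∃ (a : ZMod 3) (x : J → ZMod 3) (d : F), x k₀ = 0 ∧ d ≠ 0 ∧
      b = algebraMap K F ((j (el π a 0 x) : 𝓞 K) : K) * d ^ 3 := by
  obtain ⟨c, hc, hs⟩ := hk
  have hbn : Algebra.norm K b ≠ 0 := Algebra.norm_ne_zero_iff.2 hb.1.1
  have h3 : (Algebra.norm K c) ^ 3 = 1 := by
    have h4 := Algebra.norm_eq_of_algEquiv σ b
    rw [hs, map_mul, map_pow] at h4
    exact mul_left_cancel₀ hbn (by rw [h4, mul_one])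
  have hN := norm_one hD hG h9 hc h3
  have hU1 : UU (1 : F) := by
    have := Pool.Agent.N883.SY.UU.cube (one_ne_zero (α := F))
    rwa [one_pow] at this
  obtain ⟨B, d, hB, hd, hbd, hU⟩ := Pool.Agent.N883.SY.C2.red hG hb.1 hU1 hc one_ne_zero hs
    (by rw [map_one, one_pow, mul_one]) (by rw [hN, map_one])
  obtain ⟨r, a, β, x, C, hx, hC, hBC⟩ := red0 divG j π e 0 θ σ hD hG hB hU k₀
  have hθ0 := theta_ne hG
  have h6 := congrArg (algebraMap K F) hBC
  rw [map_mul, map_mul, map_pow, map_pow, ← theta3 hG] at h6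
  have h7 : algebraMap K F B = algebraMap K F ((j (el π a β x) : 𝓞 K) : K) *
      algebraMap K F C ^ 3 / ((θ : F) ^ 3) ^ r := by
    rw [eq_div_iff (pow_ne_zero _ (pow_ne_zero _ hθ0)), h6]
  have h8 : ((θ : F) ^ 3) ^ r = ((θ : F) ^ r) ^ 3 := by
    rw [← pow_mul, ← pow_mul, mul_comm]
  have hne : algebraMap K F C / (θ : F) ^ r * d ≠ 0 :=
    mul_ne_zero (div_ne_zero ((map_ne_zero _).2 hC) (pow_ne_zero _ hθ0)) hd
  have h10 : b = algebraMap K F ((j (el π a β x) : 𝓞 K) : K) *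
      (algebraMap K F C / (θ : F) ^ r * d) ^ 3 := by
    rw [hbd, h7, h8, mul_pow, div_pow]
    ring
  have hβ : β = 0 := el_zero j hD hT hne (by rw [← h10]; exact hb.2)
  subst hβ
  exact ⟨a, x, _, hx, hne, h10⟩

/-- the invariant classes -/
theorem clA (hD : Dt π e) (hG : GD j (pB π e 0) θ σ) (h9 : ¬ (9 : ℤ) ∣ nr (pD π e) - 1)
    {m : Ei} (hT : TD (jF j F lam) θ (jF j F m)) (k₀ : J) :
    HasCl (fun b : F => UL b ∧ KT σ b) (3 ^ Fintype.card J) := by
  let ext : ({k : J // k ≠ k₀} → ZMod 3) → J → ZMod 3 := fun y k =>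
    if h : k ≠ k₀ then y ⟨k, h⟩ else 0
  let S : Finset F := (Finset.univ : Finset (ZMod 3 × ({k : J // k ≠ k₀} → ZMod 3))).image
    fun t => algebraMap K F ((j (el π t.1 0 (ext t.2)) : 𝓞 K) : K)
  have hcard : Fintype.card {k : J // k ≠ k₀} + 1 = Fintype.card J := by
    have h1 : Fintype.card {k : J // k ≠ k₀} = Fintype.card J - 1 := by
      have := Fintype.card_subtype_compl (fun k : J => k = k₀)
      rw [Fintype.card_subtype_eq] at this
      convert this using 1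
    have h2 : 0 < Fintype.card J := Fintype.card_pos_iff.2 ⟨k₀⟩
    omega
  refine ⟨S, ?_, ?_⟩
  · refine Finset.card_image_le.trans (le_of_eq ?_)
    rw [Finset.card_univ, Fintype.card_prod, Fintype.card_fun, ZMod.card, ← hcard]
    ring
  · rintro b ⟨hb, hk⟩
    obtain ⟨a, x, d, hx, hd, hbd⟩ := redK hD hG h9 hT k₀ hb hk
    have hext : ext (fun k => x k.1) = x := by
      funext k
      show (if h : k ≠ k₀ then x k else 0) = x k
      by_cases hk : k = k₀
      · rw [dif_neg (by simpa using hk), hk, hx]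
      · rw [dif_pos hk]
    refine ⟨algebraMap K F ((j (el π a 0 (ext fun k => x k.1)) : 𝓞 K) : K),
      Finset.mem_image.2 ⟨(a, fun k => x k.1), Finset.mem_univ _, rfl⟩, d, hd, ?_⟩
    rw [hext]
    exact hbd

/-- the place above `π_k` -/
theorem plk (hD : Dt π e) (hG : GD j (pB π e 0) θ σ) (k : J) :
    ∃ v : HeightOneSpectrum (𝓞 F), (3 : 𝓞 F) ∉ v.asIdeal ∧
      v.valuation F (θ : F) = exp (-((e k).val : ℤ)) ∧
      ∀ x : K, x ≠ 0 → ∃ n : ℤ, v.valuation F (algebraMap K F x) = exp (3 * n) := by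
  have hpk := (hD.pq k).prime
  obtain ⟨p, hpdef⟩ : ∃ p, p = j (π k) := ⟨_, rfl⟩
  have hp : Prime p := by
    rw [hpdef]
    exact (MulEquiv.prime_iff j.toMulEquiv).2 hpk
  obtain ⟨P, hP⟩ : ∃ P : HeightOneSpectrum (𝓞 K), P.asIdeal = Ideal.span {p} :=
    ⟨⟨Ideal.span {p}, (Ideal.span_singleton_prime hp.ne_zero).2 hp,
      by rw [Ne, Ideal.span_singleton_eq_bot]; exact hp.ne_zero⟩, rfl⟩
  have hmemP : ∀ x : Ei, j x ∈ P.asIdeal ↔ π k ∣ x := by
    intro x
    rw [hP, Ideal.mem_span_singleton, hpdef]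
    exact map_dvd_iff j
  obtain ⟨c0, hc0, hc0'⟩ := Pool.Agent.N883.SY.Loc.fac π e 0 hD k
  have hPp : P.intValuation p = exp (-1 : ℤ) := P.intValuation_singleton hp.ne_zero hP
  have hval : P.intValuation (j (pB π e 0)) = exp (-((e k).val : ℤ)) := by
    rw [hc0, map_mul, map_pow, ← hpdef, map_mul, map_pow, hPp,
      HeightOneSpectrum.intValuation_eq_one_iff.2 (fun h => hc0' ((hmemP c0).1 h)), mul_one,
      ← exp_nsmul]
    congr 1
    simp
  have hε : (e k).val = 1 ∨ (e k).val = 2 := by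
    have h1 := ZMod.val_lt (e k)
    have h2 : (e k).val ≠ 0 := by
      rw [Ne, ZMod.val_eq_zero]
      exact hD.e0 k
    omega
  obtain ⟨v, hlies, huniq, hram, hsurj⟩ := Pool.Agent.N883.SY.Loc.tot hG.deg P (j (pB π e 0))
    (e k).val θ (by omega) hval hG.cube
  have hv : v.asIdeal.comap (algebraMap (𝓞 K) (𝓞 F)) = P.asIdeal := hlies.over.symm
  have hθv : v.intValuation θ = exp (-((e k).val : ℤ)) := by
    have h1 := Pool.Agent.N883.SY.Loc.below_val P v (j (pB π e 0)) _ hval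
    rw [← hG.cube, map_pow, hram] at h1
    obtain ⟨h2, h3⟩ := Pool.Agent.N883.SY.Loc.cube_exp h1
    rw [h3]
    congr 1
    push_cast at h2
    linarith
  have hint : ∀ x : 𝓞 K, x ≠ 0 → ∃ n : ℤ, v.valuation F (algebraMap K F (x : K)) = exp (3 * n) := by
    intro x hx
    have h0 : P.intValuation x ≠ 0 := P.intValuation_ne_zero x hx
    have h1 : P.intValuation x ≤ 1 := P.intValuation_le_one x
    obtain ⟨n, hn⟩ : ∃ n : ℤ, P.intValuation x = exp n := ⟨_, (exp_log h0).symm⟩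
    have hn0 : n ≤ 0 := by
      rw [hn, ← exp_zero, exp_le_exp] at h1
      exact h1
    obtain ⟨k, hk⟩ := Int.exists_eq_neg_ofNat hn0
    have h2 := Pool.Agent.N883.SY.Loc.below_val P v x k (by rw [hn, hk])
    refine ⟨n, ?_⟩
    have e1 : algebraMap K F (x : K) = algebraMap (𝓞 F) F (algebraMap (𝓞 K) (𝓞 F) x) := by
      show algebraMap K F (algebraMap (𝓞 K) K x) = _
      rw [← IsScalarTower.algebraMap_apply (𝓞 K) K F, ← IsScalarTower.algebraMap_apply (𝓞 K) (𝓞 F) F]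
    rw [e1, HeightOneSpectrum.valuation_of_algebraMap, h2, hram, hk]
    congr 1
    push_cast
    ring
  refine ⟨v, ?_, ?_, ?_⟩
  · intro h3
    have h4 : (3 : 𝓞 K) ∈ P.asIdeal := by
      rw [← hv, Ideal.mem_comap, map_ofNat]
      exact h3
    have h5 : j 3 ∈ P.asIdeal := by rw [map_ofNat]; exact h4
    have h6 := (hmemP 3).1 h5
    have h7 : π k ∣ 1 := by
      have h8 := h6.trans (hD.pq k).three
      have h9 := dvd_sub (dvd_refl (π k)) h8
      rwa [sub_sub_cancel] at h9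
    exact hpk.not_unit (isUnit_of_dvd_one h7)
  · have e1 : v.valuation F (algebraMap (𝓞 F) F θ) = v.intValuation θ :=
      HeightOneSpectrum.valuation_of_algebraMap v θ
    rw [← hθv, ← e1]
  · intro x hx
    obtain ⟨p, q, hq, rfl⟩ := IsFractionRing.div_surjective (A := 𝓞 K) x
    have hq0 : q ≠ 0 := nonZeroDivisors.ne_zero hq
    have hp0 : p ≠ 0 := by
      rintro rfl
      rw [map_zero, zero_div] at hx
      exact hx rfl
    obtain ⟨n, hn⟩ := hint p hp0
    obtain ⟨n', hn'⟩ := hint q hq0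
    refine ⟨n - n', ?_⟩
    have e1 : algebraMap K F (algebraMap (𝓞 K) K p / algebraMap (𝓞 K) K q) =
        algebraMap K F (p : K) / algebraMap K F (q : K) := map_div₀ _ _ _
    rw [e1, map_div₀, hn, hn', ← exp_sub]
    congr 1
    ring

/-- the invariant classes of the form `σ y / y` -/
theorem clB (hD : Dt π e) (hG : GD j (pB π e 0) θ σ) (h9 : ¬ (9 : ℤ) ∣ nr (pD π e) - 1)
    (hKer : Ker π e) {m : Ei} (hT : TD (jF j F lam) θ (jF j F m)) (k₀ : J) :
    HasCl (fun b : F => UL b ∧ KT σ b ∧ IT UL σ b) 1 := by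
  refine ⟨{1}, by simp, ?_⟩
  rintro b ⟨hb, hk, y, hy, c, hc, hs⟩
  obtain ⟨a, x, d, hx, hd, hbd⟩ := redK hD hG h9 hT k₀ hb hk
  obtain ⟨W, hW⟩ : ∃ W : K, W = ((j w : 𝓞 K) : K) := ⟨_, rfl⟩
  have hW2 : W ^ 2 + W + 1 = 0 := by rw [hW]; exact W_rel j
  have hW3 : W ^ 3 = 1 := by rw [hW]; exact W_cube j
  have hW0 : W ≠ 0 := by rw [hW]; exact W_ne j
  have hnorm : ∀ x : F, Algebra.norm K (σ x) = Algebra.norm K x := fun x =>
    Algebra.norm_eq_of_algEquiv σ x
  have hNne : ∀ x : F, x ≠ 0 → Algebra.norm K x ≠ 0 := fun x hx =>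
    (Algebra.norm_ne_zero_iff).2 hx
  obtain ⟨g, hg⟩ : ∃ g : F, g = d * c := ⟨_, rfl⟩
  have hg0 : g ≠ 0 := by rw [hg]; exact mul_ne_zero hd hc
  have hσy : σ y = y * algebraMap K F ((j (el π a 0 x) : 𝓞 K) : K) * g ^ 3 := by
    rw [hs, hbd, hg]
    ring
  have hNel : ∀ B : K, Algebra.norm K (algebraMap K F B) = B ^ 3 := fun B => by
    rw [Algebra.norm_algebraMap, hG.deg]
  have hcub : (((j (el π a 0 x) : 𝓞 K) : K) * Algebra.norm K g) ^ 3 = 1 := by
    have h2 := congrArg (Algebra.norm K) hσy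
    rw [hnorm, map_mul, map_mul, map_pow, hNel] at h2
    have h4 := hNne y hy.1.1
    have h5 : Algebra.norm K y * (((j (el π a 0 x) : 𝓞 K) : K) * Algebra.norm K g) ^ 3 =
        Algebra.norm K y * 1 := by
      rw [mul_one, mul_pow, ← mul_assoc]
      exact h2.symm
    exact mul_left_cancel₀ h4 h5
  obtain ⟨n, hn⟩ := Pool.Agent.N883.SY.C3.cube_roots hW2 hcub
  have hNg : Algebra.norm K g ≠ 0 := hNne g hg0
  have hginv : Algebra.norm K g⁻¹ * W ^ n.val = ((j (el π a 0 x) : 𝓞 K) : K) := by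
    rw [Algebra.norm_inv, ← hn]
    field_simp
  have hel : ((j (el π a 0 x) : 𝓞 K) : K) =
      W ^ n.val * ((j (el π (a - n) 0 x) : 𝓞 K) : K) := by
    unfold el
    have h1 : ∀ u : ZMod 3, ((j (w ^ u.val * lam ^ (0 : ZMod 3).val * bx π x) : 𝓞 K) : K) =
        W ^ u.val * ((j (lam ^ (0 : ZMod 3).val * bx π x) : 𝓞 K) : K) := by
      intro u
      rw [mul_assoc, map_mul, map_pow, hW]
      simp only [map_mul, map_pow]
    rw [h1, h1, ← mul_assoc, ← Pool.Agent.N883.SY.C3.pow_val_add hW3, add_sub_cancel]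
  have hNel2 : Algebra.norm K g⁻¹ = ((j (el π (a - n) 0 x) : 𝓞 K) : K) * 1 ^ 3 := by
    have h2 : W ^ n.val ≠ 0 := pow_ne_zero _ hW0
    apply mul_right_cancel₀ h2
    rw [hginv, hel]
    ring
  have hEq : ∀ k, EqK π e 0 (a - n) 0 x k := by
    intro k
    obtain ⟨r, u, v, z, C', hu, hv, huv, hC', heq⟩ :=
      locG K F j J π e 0 θ σ hD hG g⁻¹ (inv_ne_zero hg0) k
    rw [hNel2] at heq
    exact ⟨r, chG K j J π e 0 hD (a - n) 0 x k r u v z 1 C' hu hv huv one_ne_zero hC' heq⟩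
  have hEq0 : ∀ k, EqK π e 0 0 0 (fun _ => 0) k := fun k => ⟨0, by simp, by simp⟩
  obtain ⟨hx0, -⟩ := Pool.Agent.N883.SY.Lap3.inj hD (fun h => absurd rfl h) (fun _ => ⟨hKer, h9⟩)
    hEq hEq0 k₀ hx rfl
  subst hx0
  have hel2 : ((j (el π a 0 (fun _ => 0)) : 𝓞 K) : K) = W ^ a.val := by
    have e1 : el π a 0 (fun _ => 0) = w ^ a.val := by
      unfold el bx
      simp
    rw [e1, map_pow, hW]
    rfl
  rw [hel2] at hcub hσy hbd
  -- the norm of `g` is one
  have hNg3 : (Algebra.norm K g) ^ 3 = 1 := by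
    have h1 : (W ^ a.val) ^ 3 = 1 := by rw [← pow_mul, mul_comm, pow_mul, hW3, one_pow]
    rw [mul_pow, h1, one_mul] at hcub
    exact hcub
  have hN1 := norm_one hD hG h9 hg0 hNg3
  have hgal := hG.gal
  have hz : ∀ x, x ∈ Subgroup.zpowers σ := by
    intro x
    obtain ⟨c, hc⟩ := hG.gen x
    rw [hc]
    exact Subgroup.pow_mem _ (Subgroup.mem_zpowers σ) _
  have hcyc : IsCyclic (F ≃ₐ[K] F) := ⟨σ, hz⟩
  obtain ⟨y2, hy2⟩ := groupCohomology.exists_div_of_norm_eq_one hz hN1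
  have hy20 : (y2 : F) ≠ 0 := y2.ne_zero
  have hσy20 : σ (y2 : F) ≠ 0 := (map_ne_zero σ).2 hy20
  have hy2' : g = (y2 : F) / σ (y2 : F) := hy2.symm
  have hθ0 := theta_ne hG
  have hWF0 : algebraMap K F W ≠ 0 := (map_ne_zero _).2 hW0
  have hθσ : σ ((θ : F) ^ a.val) = algebraMap K F W ^ a.val * (θ : F) ^ a.val := by
    rw [map_pow, hG.mul, mul_pow, hW]
  have hfix : σ (y * (y2 : F) ^ 3 / (θ : F) ^ a.val) = y * (y2 : F) ^ 3 / (θ : F) ^ a.val := by
    rw [map_div₀, map_mul, map_pow, hθσ, hσy, hy2', map_pow]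
    field_simp
  have hfixall : ∀ g : F ≃ₐ[K] F, g (y * (y2 : F) ^ 3 / (θ : F) ^ a.val) =
      y * (y2 : F) ^ 3 / (θ : F) ^ a.val := by
    intro g
    obtain ⟨k, hk⟩ := hG.gen g
    rw [hk]
    have hpow : ∀ n : ℕ, (σ ^ n) (y * (y2 : F) ^ 3 / (θ : F) ^ a.val) =
        y * (y2 : F) ^ 3 / (θ : F) ^ a.val := by
      intro n
      induction n with
      | zero => rfl
      | succ n ih => rw [pow_succ, AlgEquiv.mul_apply, hfix, ih]
    exact hpow _
  obtain ⟨B, hB⟩ := (IsGalois.mem_bot_iff_fixed _).2 hfixall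
  have hB' : algebraMap K F B = y * (y2 : F) ^ 3 / (θ : F) ^ a.val := hB
  have hB0 : B ≠ 0 := by
    rintro rfl
    rw [map_zero] at hB'
    exact div_ne_zero (mul_ne_zero hy.1.1 (pow_ne_zero _ hy20)) (pow_ne_zero _ hθ0) hB'.symm
  -- the valuation at the place above `π_k₀`
  obtain ⟨v, hv3, hvθ, hvK⟩ := plk hD hG k₀
  obtain ⟨z, hz0, hvz⟩ := hy.1.2 v hv3
  obtain ⟨N, hN⟩ := hvK B hB0
  have ez : ∀ x : F, x ≠ 0 → ∃ n : ℤ, v.valuation F x = exp n := fun x hx =>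
    ⟨_, (exp_log ((Valuation.ne_zero_iff _).2 hx)).symm⟩
  obtain ⟨p, hp⟩ := ez z hz0
  obtain ⟨q, hq⟩ := ez (y2 : F) hy20
  rw [hB', map_div₀, map_mul, map_pow, map_pow, hvz, hvθ, hp, hq, ← exp_nsmul, ← exp_nsmul,
    ← exp_nsmul, ← exp_add, ← exp_sub] at hN
  have h10 := exp_injective hN
  simp only [nsmul_eq_mul] at h10
  have ha0 : a = 0 := by
    have h11 : (3 : ℤ) ∣ (a.val : ℤ) * ((e k₀).val : ℤ) := by
      refine ⟨N - p - q, ?_⟩
      push_cast at h10
      linarith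
    have h12 : 3 ∣ a.val * (e k₀).val := by exact_mod_cast h11
    rcases (Nat.prime_three.dvd_mul).1 h12 with h13 | h13
    · have := ZMod.val_lt a
      have h14 : a.val = 0 := by
        rcases h13 with ⟨q, hq⟩
        omega
      exact (ZMod.val_eq_zero a).1 h14
    · exfalso
      have := ZMod.val_lt (e k₀)
      have h14 : (e k₀).val = 0 := by
        rcases h13 with ⟨q, hq⟩
        omega
      exact hD.e0 k₀ ((ZMod.val_eq_zero _).1 h14)
  refine ⟨1, by simp, d, hd, ?_⟩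
  rw [hbd, ha0, ZMod.val_zero, pow_zero, map_one]

/-- **the upper bound for the classes** -/
theorem clU (hD : Dt π e) (hG : GD j (pB π e 0) θ σ) (h9 : ¬ (9 : ℤ) ∣ nr (pD π e) - 1)
    (hKer : Ker π e) {m : Ei} (hT : TD (jF j F lam) θ (jF j F m)) (k₀ : J) :
    HasCl (fun b : F => UL b) (3 ^ Fintype.card J) := by
  have h3 : ∀ x : F, σ (σ (σ x)) = x := by
    intro x
    have h4 : (σ ^ 3) x = x := by rw [hG.s3, AlgEquiv.one_apply]
    exact h4
  have h2 := filfG F σ.toRingEquiv h3 (fun b : F => UL b) (fun b h => h.1.1)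
    (fun b b' h h' => h.mul h') (fun b h => h.inv) (fun b h => h.sigma σ.toRingEquiv)
    (fun c hc => UL.cube hc) (3 ^ Fintype.card J) 1
    (clA hD hG h9 hT k₀) (clB hD hG h9 hKer hT k₀)
  simpa using h2

end

end Pool.Agent.T9h31
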